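import Pool.Agent.Lib_MP_001f0c_ag.BRB

/-!
# Piece BCU: cut subtrees
-/

set_option autoImplicit false

open Finset

namespace Pool.Agent.BWN

variable {E : Type} [DecidableEq E]

/-- BCU. No change for a set which is disjoint from the tree. -/
theorem cu_disj {X g : Finset E} {t : BT E} (hd : Disjoint g t.su) :
    cu (X ∪ g) t = cu X t ∧ cu (X \ g) t = cu X t := by
  induction t with
  | leaf x => simp [cu]
  | node l r hl hr =>
    have h1 : Disjoint g l.su := hd.mono_right subset_union_left
    have h2 : Disjoint g r.su := hd.mono_right subset_union_right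
    have e1 : (l.su ∪ r.su) ∩ (X ∪ g) = (l.su ∪ r.su) ∩ X := by
      ext a
      have h3 : a ∈ g → a ∉ l.su ∪ r.su := fun h => Finset.disjoint_left.1 hd h
      rw [mem_inter, mem_inter, mem_union (s := X)]
      tauto
    have e2 : (l.su ∪ r.su) \ (X ∪ g) = (l.su ∪ r.su) \ X := by
      ext a
      have h3 : a ∈ g → a ∉ l.su ∪ r.su := fun h => Finset.disjoint_left.1 hd h
      rw [mem_sdiff, mem_sdiff, mem_union (s := X)]
      tauto
    have e3 : (l.su ∪ r.su) ∩ (X \ g) = (l.su ∪ r.su) ∩ X := by
      ext a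
      have h3 : a ∈ g → a ∉ l.su ∪ r.su := fun h => Finset.disjoint_left.1 hd h
      rw [mem_inter, mem_inter, mem_sdiff]
      tauto
    have e4 : (l.su ∪ r.su) \ (X \ g) = (l.su ∪ r.su) \ X := by
      ext a
      have h3 : a ∈ g → a ∉ l.su ∪ r.su := fun h => Finset.disjoint_left.1 hd h
      rw [mem_sdiff, mem_sdiff, mem_sdiff]
      tauto
    simp only [cu, e1, e2, e3, e4, (hl h1).1, (hl h1).2, (hr h2).1, (hr h2).2, and_self]

theorem BCU_zero {X : Finset E} {t : BT E} (h : t.su ⊆ X ∨ Disjoint X t.su) : cu X t = 0 := by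
  induction t with
  | leaf x => rfl
  | node l r hl hr =>
    have h1 : l.su ⊆ X ∨ Disjoint X l.su :=
      h.imp (subset_union_left.trans ·) (·.mono_right subset_union_left)
    have h2 : r.su ⊆ X ∨ Disjoint X r.su :=
      h.imp (subset_union_right.trans ·) (·.mono_right subset_union_right)
    have h3 : ¬ (((l.su ∪ r.su) ∩ X).Nonempty ∧ ((l.su ∪ r.su) \ X).Nonempty) := by
      rintro ⟨⟨a, ha⟩, b, hb⟩
      rcases h with h | h
      · exact (mem_sdiff.1 hb).2 (h (mem_sdiff.1 hb).1)
      · exact Finset.disjoint_left.1 h (mem_inter.1 ha).2 (mem_inter.1 ha).1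
    simp only [cu, hl h1, hr h2, if_neg h3]

theorem BCU_node {X g s : Finset E} (hg : g ⊆ s) (h1 : (g ∩ X).Nonempty) (h2 : (g \ X).Nonempty) :
    (if (s ∩ (X ∪ g)).Nonempty ∧ (s \ (X ∪ g)).Nonempty then 1 else 0) ≤
      (if (s ∩ X).Nonempty ∧ (s \ X).Nonempty then 1 else 0) ∧
    (if (s ∩ (X \ g)).Nonempty ∧ (s \ (X \ g)).Nonempty then 1 else 0) ≤
      (if (s ∩ X).Nonempty ∧ (s \ X).Nonempty then 1 else 0) := by
  have h3 : (s ∩ X).Nonempty ∧ (s \ X).Nonempty :=
    ⟨h1.mono (inter_subset_inter_right hg), h2.mono (sdiff_subset_sdiff hg Subset.rfl)⟩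
  rw [if_pos h3]
  constructor <;> split_ifs <;> omega


/-- BCU. Let `g` be a subtree of `t` (here: the set `g` of a subtree; `t.All` gives the laminarity: every set of a subtree is
contained in `g`, contains `g` or is disjoint from `g`). If `g` is cut by `X` then `X ∪ g` and `X \ g` cut fewer subtrees.
Induction on `t`. (The leaves of `t` are different, so the sets of the children are disjoint.) Stated for one subtree: for
every `X` there is, for every subtree set `g` which is cut by `X`, a strict inequality. -/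
theorem cu_lt {X : Finset E} {t : BT E} (hn : t.ls.Nodup) :
    t.All fun g => (g ∩ X).Nonempty → (g \ X).Nonempty → cu (X ∪ g) t < cu X t ∧ cu (X \ g) t < cu X t := by
  induction t with
  | leaf x =>
    change (({x} : Finset E) ∩ X).Nonempty → (({x} : Finset E) \ X).Nonempty → _
    rintro ⟨a, ha⟩ ⟨b, hb⟩
    rw [mem_inter, mem_singleton] at ha
    rw [mem_sdiff, mem_singleton] at hb
    exact absurd (ha.1 ▸ ha.2) (hb.1 ▸ hb.2)
  | node l r hl hr =>
    have hnl : l.ls.Nodup := (List.nodup_append.1 hn).1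
    have hnr : r.ls.Nodup := (List.nodup_append.1 hn).2.1
    have hd : Disjoint l.su r.su := by
      rw [su_eq, su_eq, Finset.disjoint_left]
      intro a ha hb
      rw [List.mem_toFinset] at ha hb
      exact (List.nodup_append.1 hn).2.2 a ha a hb rfl
    refine ⟨fun h1 h2 => ?_, ?_, ?_⟩
    · have h3 : 0 < cu X (.node l r) := by
        rw [cu, if_pos ⟨h1, h2⟩]
        omega
      have h4 : cu (X ∪ (l.su ∪ r.su)) (.node l r) = 0 := BCU_zero (Or.inl subset_union_right)
      have h5 : cu (X \ (l.su ∪ r.su)) (.node l r) = 0 := BCU_zero (Or.inr sdiff_disjoint)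
      rw [h4, h5]
      exact ⟨h3, h3⟩
    · refine all_mono ?_ (all_and (hl hnl) (all_sub (t := l)))
      rintro g ⟨hg1, hg2, -⟩ h1 h2
      have h3 := hg1 h1 h2
      have h4 := cu_disj (X := X) (hd.mono_left hg2)
      have h5 := BCU_node (hg2.trans (subset_union_left (s₂ := r.su))) h1 h2
      simp only [cu]
      omega
    · refine all_mono ?_ (all_and (hr hnr) (all_sub (t := r)))
      rintro g ⟨hg1, hg2, -⟩ h1 h2
      have h3 := hg1 h1 h2
      have h4 := cu_disj (X := X) (hd.symm.mono_left hg2)
      have h5 := BCU_node (hg2.trans (subset_union_right (s₁ := l.su))) h1 h2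
      simp only [cu]
      omega

theorem BCU_cup_disj {X g : Finset E} {ps : List (Bool × BT E)} (h : ∀ q ∈ ps, Disjoint g q.2.su) :
    cup (X ∪ g) ps = cup X ps ∧ cup (X \ g) ps = cup X ps := by
  induction ps with
  | nil => simp [cup]
  | cons q ps ih =>
    have h1 := cu_disj (X := X) (h q List.mem_cons_self)
    have h2 := ih fun q' hq' => h q' (List.mem_cons_of_mem _ hq')
    unfold cup at h2 ⊢
    simp only [List.map_cons, List.sum_cons, h1.1, h1.2, h2.1, h2.2, and_self]

theorem BCU_mem {ps : List (Bool × BT E)} {q : Bool × BT E} {a : E} (hq : q ∈ ps) (ha : a ∈ ms q.2) :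
    a ∈ (ps.map fun q => ms q.2).sum := by
  induction ps with
  | nil => exact absurd hq List.not_mem_nil
  | cons q' ps ih =>
    rw [List.map_cons, List.sum_cons, Multiset.mem_add]
    rcases List.mem_cons.1 hq with rfl | h
    · exact Or.inl ha
    · exact Or.inr (ih h)

theorem BCU_cup {X : Finset E} {ps : List (Bool × BT E)} (hn : (ps.map fun q => ms q.2).sum.Nodup) :
    SAll (fun g => (g ∩ X).Nonempty → (g \ X).Nonempty → cup (X ∪ g) ps < cup X ps ∧ cup (X \ g) ps < cup X ps) ps := by
  induction ps with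
  | nil => exact fun q hq => absurd hq List.not_mem_nil
  | cons q ps ih =>
    obtain ⟨b, y⟩ := q
    rw [List.map_cons, List.sum_cons, Multiset.nodup_add] at hn
    obtain ⟨h1, h2, h3⟩ := hn
    have hy : y.ls.Nodup := Multiset.coe_nodup.1 h1
    have hd : ∀ q ∈ ps, Disjoint y.su q.2.su := by
      intro q hq
      rw [su_eq, su_eq, Finset.disjoint_left]
      intro a ha hb
      rw [List.mem_toFinset] at ha hb
      exact Multiset.disjoint_left.1 h3 (Multiset.mem_coe.2 ha)
        (BCU_mem hq (Multiset.mem_coe.2 hb))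
    rw [sall_cons]
    constructor
    · refine all_mono ?_ (all_and (cu_lt (X := X) hy) (all_sub (t := y)))
      rintro g ⟨hg1, hg2, -⟩ h4 h5
      have h6 := hg1 h4 h5
      have h7 := BCU_cup_disj (X := X) fun q hq => (hd q hq).mono_left hg2
      unfold cup at h7 ⊢
      simp only [List.map_cons, List.sum_cons]
      omega
    · intro q hq
      refine all_mono ?_ (all_and (ih h2 q hq) (all_sub (t := q.2)))
      rintro g ⟨hg1, hg2, -⟩ h4 h5
      have h6 := hg1 h4 h5
      have h7 := cu_disj (X := X) ((hd q hq).symm.mono_left hg2)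
      unfold cup at h6 ⊢
      simp only [List.map_cons, List.sum_cons]
      omega

/-- BCU. For all side branches together. -/
theorem cup_lt {X : Finset E} {e : BT E} {ps : List (Bool × BT E)} (hn : (plug e ps).ls.Nodup) :
    SAll (fun g => (g ∩ X).Nonempty → (g \ X).Nonempty → cup (X ∪ g) ps < cup X ps ∧ cup (X \ g) ps < cup X ps) ps := by
  have h1 : (ms (plug e ps)).Nodup := Multiset.coe_nodup.2 hn
  rw [ms_plug, Multiset.nodup_add] at h1
  exact BCU_cup h1.2.1

end Pool.Agent.BWN
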