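import Pool.Agent.Lib_MP_001f0c_ag.BCU

/-!
# Piece BCV: the choice of the separation
-/

set_option autoImplicit false

open Finset

namespace Pool.Agent.BWN

variable {E : Type} [DecidableEq E]

/-- sets of the path -/
theorem pall_of_between {P : Finset E → Prop} : ∀ (ps : List (Bool × BT E)) (g : Finset E),
    (∀ h, g ⊆ h → h ⊆ g ∪ sup ps → P h) → PAll P g ps := by
  intro ps
  induction ps with
  | nil => intro g h; exact h g (subset_refl _) subset_union_left
  | cons q ps ih =>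
    intro g h
    obtain ⟨b, y⟩ := q
    refine ⟨h g (subset_refl _) subset_union_left, ih _ ?_⟩
    intro k hk1 hk2
    apply h k (subset_union_left.trans hk1)
    refine hk2.trans ?_
    show g ∪ y.su ∪ sup ps ⊆ g ∪ (y.su ∪ sup ps)
    rw [union_assoc]

theorem sup_of_mem {ps : List (Bool × BT E)} {q : Bool × BT E} (hq : q ∈ ps) : q.2.su ⊆ sup ps := by
  induction ps with
  | nil => simp at hq
  | cons q' ps ih =>
    obtain ⟨b, y⟩ := q'
    rcases List.mem_cons.1 hq with h | h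
    · subst h; exact subset_union_left
    · exact (ih h).trans subset_union_right

theorem plug_nodup_disj : ∀ (ps : List (Bool × BT E)) (u : BT E), (plug u ps).ls.Nodup →
    u.ls.Nodup ∧ ∀ q ∈ ps, Disjoint u.su q.2.su := by
  intro ps
  induction ps with
  | nil => intro u h; exact ⟨h, by simp⟩
  | cons q ps ih =>
    intro u h
    obtain ⟨b, y⟩ := q
    obtain ⟨h1, h2⟩ := ih (mk b u y) h
    have h3 : u.ls.Nodup ∧ List.Disjoint u.ls y.ls := by
      cases b
      · have h4 : (u.ls ++ y.ls).Nodup := h1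
        exact ⟨(List.nodup_append'.1 h4).1, (List.nodup_append'.1 h4).2.2⟩
      · have h4 : (y.ls ++ u.ls).Nodup := h1
        exact ⟨(List.nodup_append'.1 h4).2.1, (List.nodup_append'.1 h4).2.2.symm⟩
    refine ⟨h3.1, ?_⟩
    intro q hq
    rcases List.mem_cons.1 hq with h' | h'
    · subst h'
      rw [su_eq, su_eq]
      exact List.disjoint_toFinset_iff_disjoint.2 h3.2
    · have := h2 q h'
      rw [su_mk] at this
      exact disjoint_of_subset_left subset_union_left this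

theorem all_imp {P P' : Finset E → Prop} {t : BT E} (ha : t.All P)
    (h : ∀ g, g ⊆ t.su → g.Nonempty → P g → P' g) : t.All P' :=
  all_mono (fun g hg => h g hg.1.1 hg.1.2 hg.2) (all_and all_sub ha)

/-- BCV. The choice of `X`. Let `μ` be the minimum of `lm X` for `e ⊆ X ⊆ f`, `f = e ∪ sup ps`; choose among the `X` with
`lm X = μ` one with `cup X ps` minimal. Then for every `g` of a side branch which is cut by `X`: if
`lm g ≤ lm (g ∩ X)` then `lm (g ∪ X) ≤ μ` by submodularity, so `X ∪ g` is another choice, with smaller `cup`: a contradiction. If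
`lm g ≤ lm (g \ X)` then by submodularity for `g`, `U \ X` (`lm (g ∪ (U \ X)) = lm (X \ g)`) `lm (X \ g) ≤ μ`, and
`X \ g` is another choice (it contains `e`, as `g` is disjoint from `e`). -/
theorem choice {U : Finset E} {lm : Finset E → ℤ} (hsym : ∀ X, X ⊆ U → lm (U \ X) = lm X)
    (hsub : ∀ X Y, X ⊆ U → Y ⊆ U → lm (X ∩ Y) + lm (X ∪ Y) ≤ lm X + lm Y)
    {e : BT E} {ps : List (Bool × BT E)} (hn : (plug e ps).ls.Nodup) (hU : (plug e ps).su ⊆ U)
    {Y : Finset E} (hY1 : e.su ⊆ Y) (hY2 : Y ⊆ (plug e ps).su) :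
    ∃ X, e.su ⊆ X ∧ X ⊆ (plug e ps).su ∧ lm X ≤ lm Y ∧
      (∀ Z, e.su ⊆ Z → Z ⊆ (plug e ps).su → lm X ≤ lm Z) ∧
      SAll (fun g => (g ∩ X).Nonempty → (g \ X).Nonempty → lm (g ∩ X) < lm g ∧ lm (g \ X) < lm g) ps := by
  classical
  set f := (plug e ps).su with hf
  have hfe : f = e.su ∪ sup ps := su_plug e ps
  set S : Finset (Finset E) := f.powerset.filter fun X => e.su ⊆ X with hS
  have hmemS : ∀ X, X ∈ S ↔ X ⊆ f ∧ e.su ⊆ X := by
    intro X; simp [hS]
  have hSne : S.Nonempty := ⟨Y, (hmemS Y).2 ⟨hY2, hY1⟩⟩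
  obtain ⟨X₀, hX₀, hmin₀⟩ := S.exists_min_image lm hSne
  set T : Finset (Finset E) := S.filter fun X => lm X ≤ lm X₀ with hT
  have hTne : T.Nonempty := ⟨X₀, by simp [hT, hX₀]⟩
  obtain ⟨X, hX, hminX⟩ := T.exists_min_image (fun X => cup X ps) hTne
  obtain ⟨hXS, hX0⟩ := mem_filter.1 hX
  obtain ⟨hXf, heX⟩ := (hmemS X).1 hXS
  have hmin : ∀ Z, e.su ⊆ Z → Z ⊆ f → lm X ≤ lm Z := fun Z h1 h2 =>
    hX0.trans (hmin₀ Z ((hmemS Z).2 ⟨h2, h1⟩))
  have hminc : ∀ Z, e.su ⊆ Z → Z ⊆ f → lm Z ≤ lm X → cup X ps ≤ cup Z ps := fun Z h1 h2 h3 =>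
    hminX Z (mem_filter.2 ⟨(hmemS Z).2 ⟨h2, h1⟩, h3.trans hX0⟩)
  refine ⟨X, heX, hXf, hmin Y hY1 hY2, hmin, ?_⟩
  intro q hq
  have hcl := cup_lt (X := X) hn q hq
  have hdis := (plug_nodup_disj ps e hn).2 q hq
  have hqs : q.2.su ⊆ f := by rw [hfe]; exact (sup_of_mem hq).trans subset_union_right
  refine all_imp hcl ?_
  intro g hgq _ hg h1 h2
  obtain ⟨hlt1, hlt2⟩ := hg h1 h2
  have hgf : g ⊆ f := hgq.trans hqs
  have hgU : g ⊆ U := hgf.trans hU
  have hXU : X ⊆ U := hXf.trans hU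
  constructor
  · by_contra hcon
    push Not at hcon
    have hs := hsub g X hgU hXU
    have hle : lm (X ∪ g) ≤ lm X := by rw [union_comm]; linarith
    have := hminc (X ∪ g) (heX.trans subset_union_left) (union_subset hXf hgf) hle
    omega
  · by_contra hcon
    push Not at hcon
    have hs := hsub g (U \ X) hgU sdiff_subset
    have e1 : g ∩ (U \ X) = g \ X := by
      ext x; simp only [mem_inter, mem_sdiff]
      constructor
      · rintro ⟨h, _, h'⟩; exact ⟨h, h'⟩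
      · rintro ⟨h, h'⟩; exact ⟨h, hgU h, h'⟩
    have e2 : g ∪ (U \ X) = U \ (X \ g) := by
      ext x; simp only [mem_union, mem_sdiff]
      constructor
      · rintro (h | ⟨h, h'⟩)
        · exact ⟨hgU h, fun h' => h'.2 h⟩
        · exact ⟨h, fun h'' => h' h''.1⟩
      · rintro ⟨h, h'⟩
        by_cases hx : x ∈ g
        · exact Or.inl hx
        · exact Or.inr ⟨h, fun h'' => h' ⟨h'', hx⟩⟩
    rw [e1, e2, hsym (X \ g) (sdiff_subset.trans hXU), hsym X hXU] at hs
    have hle : lm (X \ g) ≤ lm X := by linarith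
    have heg : e.su ⊆ X \ g := by
      intro x hx
      refine mem_sdiff.2 ⟨heX hx, fun hxg => ?_⟩
      exact (disjoint_left.1 hdis) hx (hgq hxg)
    have := hminc (X \ g) heg (sdiff_subset.trans hXf) hle
    omega

/-- BCV. The property of the sets of the path and of the side branches, for `X` as in `choice`: with `h = lm g`,
`a = lm (g ∪ X)` or `lm (g \ X)`, `b = lm (g ∩ X)`: `a ≤ h`, `b ≤ h`, `a = h` implies `b ≤ μ`, `b = h` implies `a ≤ μ`. For the
path: `a + b ≤ h + μ`, `μ ≤ a`, `μ ≤ b` (`g ∪ X`, `g ∩ X` are between `e` and `f`). For the side branches: if `g` is cut then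
`a < h`, `b < h`; otherwise `{g ∩ X, g \ X} = {g, ∅}` and `lm ∅ = 0 ≤ μ`. -/
theorem star {U : Finset E} {lm : Finset E → ℤ} (hsub : ∀ X Y, X ⊆ U → Y ⊆ U → lm (X ∩ Y) + lm (X ∪ Y) ≤ lm X + lm Y)
    (h0 : lm ∅ = 0) (hpos : ∀ X, X ⊆ U → 0 ≤ lm X)
    {e : BT E} {ps : List (Bool × BT E)} (hU : (plug e ps).su ⊆ U)
    {X : Finset E} (hX1 : e.su ⊆ X) (hX2 : X ⊆ (plug e ps).su)
    (hmin : ∀ Z, e.su ⊆ Z → Z ⊆ (plug e ps).su → lm X ≤ lm Z)
    (hcut : SAll (fun g => (g ∩ X).Nonempty → (g \ X).Nonempty → lm (g ∩ X) < lm g ∧ lm (g \ X) < lm g) ps) :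
    PAll (fun g => lm (g ∪ X) ≤ lm g ∧ lm (g ∩ X) ≤ lm g ∧ (lm (g ∪ X) = lm g → lm (g ∩ X) ≤ lm X) ∧
      (lm (g ∩ X) = lm g → lm (g ∪ X) ≤ lm X)) e.su ps ∧
    SAll (fun g => lm (g \ X) ≤ lm g ∧ lm (g ∩ X) ≤ lm g ∧ (lm (g \ X) = lm g → lm (g ∩ X) ≤ lm X) ∧
      (lm (g ∩ X) = lm g → lm (g \ X) ≤ lm X)) ps := by
  have hfe : (plug e ps).su = e.su ∪ sup ps := su_plug e ps
  have hXU : X ⊆ U := hX2.trans hU
  constructor
  · apply pall_of_between
    intro g hg1 hg2
    rw [← hfe] at hg2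
    have hgU : g ⊆ U := hg2.trans hU
    have hs := hsub g X hgU hXU
    have ha := hmin (g ∪ X) (hg1.trans subset_union_left) (union_subset hg2 hX2)
    have hb := hmin (g ∩ X) (subset_inter hg1 hX1) (inter_subset_left.trans hg2)
    refine ⟨by linarith, by linarith, fun h => by linarith, fun h => by linarith⟩
  · intro q hq
    have hqs : q.2.su ⊆ U := by
      refine Subset.trans ?_ hU
      rw [hfe]; exact (sup_of_mem hq).trans subset_union_right
    refine all_imp (hcut q hq) ?_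
    intro g hgq _ hg
    have hgU : g ⊆ U := hgq.trans hqs
    have hg0 := hpos g hgU
    have hX0 := hpos X hXU
    by_cases h1 : (g ∩ X).Nonempty
    · by_cases h2 : (g \ X).Nonempty
      · obtain ⟨h3, h4⟩ := hg h1 h2
        exact ⟨h4.le, h3.le, fun h => absurd h h4.ne, fun h => absurd h h3.ne⟩
      · rw [not_nonempty_iff_eq_empty] at h2
        have h3 : g ∩ X = g := inter_eq_left.2 (sdiff_eq_empty_iff_subset.1 h2)
        rw [h2, h3, h0]
        exact ⟨hg0, le_refl _, fun h => by rw [← h]; exact hX0, fun _ => hX0⟩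
    · rw [not_nonempty_iff_eq_empty] at h1
      have h3 : g \ X = g := sdiff_eq_self_of_disjoint (disjoint_iff_inter_eq_empty.2 h1)
      rw [h1, h3, h0]
      exact ⟨le_refl _, hg0, fun _ => hX0, fun h => by rw [← h]; exact hX0⟩

end Pool.Agent.BWN
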