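import Pool.Agent.Lib_MP_001f0c_ag.BTd

/-!
# Piece BPT: trees which cannot be improved exist
-/

set_option autoImplicit false

open Finset

namespace Pool.Agent.BWN

variable {E : Type} [DecidableEq E]

/-- BPT. -/
theorem NQ_le (lm : Finset E → ℤ) (k : ℕ) (t : BT E) : Nk lm k t ≤ 2 * t.nl ∧ Qk lm k t ≤ 2 * t.nl := by
  have hb : ∀ X, br lm k X ≤ 1 := fun X => by unfold br; split_ifs <;> omega
  have key : Nk lm k t + 1 ≤ 2 * t.nl ∧ Qk lm k t + 2 ≤ 2 * t.nl := by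
    induction t with
    | leaf x =>
      have := hb {x}
      simp only [Nk, Qk, BT.nl]
      omega
    | node l r hl hr =>
      have h1 := hb (l.su ∪ r.su)
      have h2 := hb l.su
      have h3 := hb r.su
      simp only [Nk, Qk, BT.nl]
      omega
  omega

/-- BPT: the potential -/
def BPT_pot (lm : Finset E → ℤ) (B : ℕ) (m : ℕ) (t : BT E) : ℕ :=
  ∑ k ∈ Finset.range m, B ^ (2 * k) * (B * Nk lm k t + Qk lm k t)

theorem BPT_lt (lm : Finset E → ℤ) {B : ℕ} (t : BT E)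
    (hB : ∀ k, Nk lm k t < B ∧ Qk lm k t < B) (m : ℕ) : BPT_pot lm B m t < B ^ (2 * m) := by
  induction m with
  | zero => simp [BPT_pot]
  | succ m ih =>
    unfold BPT_pot at ih ⊢
    rw [Finset.sum_range_succ]
    have h1 := (hB m).1
    have h2 := (hB m).2
    have h3 : B * Nk lm m t + Qk lm m t + 1 ≤ B * B := by
      calc B * Nk lm m t + Qk lm m t + 1 ≤ B * Nk lm m t + B := by omega
        _ = B * (Nk lm m t + 1) := by ring
        _ ≤ B * B := Nat.mul_le_mul_left _ h1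
    calc _ < B ^ (2 * m) + B ^ (2 * m) * (B * Nk lm m t + Qk lm m t) := by omega
      _ = B ^ (2 * m) * (B * Nk lm m t + Qk lm m t + 1) := by ring
      _ ≤ B ^ (2 * m) * (B * B) := Nat.mul_le_mul_left _ h3
      _ = B ^ (2 * (m + 1)) := by ring

theorem BPT_bet {lm : Finset E → ℤ} {w B : ℕ} {t t' : BT E}
    (hB : ∀ k, Nk lm k t < B ∧ Qk lm k t < B) (hB' : ∀ k, Nk lm k t' < B ∧ Qk lm k t' < B)
    (h : Bet lm w t' t) : BPT_pot lm B (w + 1) t' < BPT_pot lm B (w + 1) t := by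
  obtain ⟨k₀, hk₀, h1, h2⟩ := h
  -- up to `k₀`
  have key : BPT_pot lm B (k₀ + 1) t' < BPT_pot lm B (k₀ + 1) t := by
    have h3 := BPT_lt lm t' hB' k₀
    unfold BPT_pot at h3 ⊢
    rw [Finset.sum_range_succ, Finset.sum_range_succ]
    have h4 : B * Nk lm k₀ t' + Qk lm k₀ t' + 1 ≤ B * Nk lm k₀ t + Qk lm k₀ t := by
      rcases h2 with h2 | ⟨h2, h5⟩
      · have h6 := (hB' k₀).2
        calc B * Nk lm k₀ t' + Qk lm k₀ t' + 1 ≤ B * Nk lm k₀ t' + B := by omega
          _ = B * (Nk lm k₀ t' + 1) := by ring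
          _ ≤ B * Nk lm k₀ t := Nat.mul_le_mul_left _ h2
          _ ≤ _ := Nat.le_add_right _ _
      · have h6 : B * Nk lm k₀ t' ≤ B * Nk lm k₀ t := Nat.mul_le_mul_left _ h2
        omega
    calc _ < B ^ (2 * k₀) + B ^ (2 * k₀) * (B * Nk lm k₀ t' + Qk lm k₀ t') := by omega
      _ = B ^ (2 * k₀) * (B * Nk lm k₀ t' + Qk lm k₀ t' + 1) := by ring
      _ ≤ B ^ (2 * k₀) * (B * Nk lm k₀ t + Qk lm k₀ t) := Nat.mul_le_mul_left _ h4
      _ ≤ _ := Nat.le_add_left _ _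
  -- from `k₀` to `w`
  have step : ∀ m, k₀ ≤ m → BPT_pot lm B (m + 1) t' < BPT_pot lm B (m + 1) t := by
    intro m hm
    induction m, hm using Nat.le_induction with
    | base => exact key
    | succ m hm ih =>
      unfold BPT_pot at ih ⊢
      rw [Finset.sum_range_succ, Finset.sum_range_succ _ (m + 1)]
      have h3 := h1 (m + 1) (by omega)
      have h4 : B * Nk lm (m + 1) t' + Qk lm (m + 1) t' ≤ B * Nk lm (m + 1) t + Qk lm (m + 1) t :=
        add_le_add (Nat.mul_le_mul_left _ h3.1) h3.2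
      have h5 := Nat.mul_le_mul_left (B ^ (2 * (m + 1))) h4
      omega
  exact step w hk₀

/-- BPT. Let `B = 2 n + 1` and `Pot t = ∑ k ≤ w, B ^ (2 k) * (B * Nk k t + Qk k t)`. If `t'` is better than `t` then
`Pot t' < Pot t`: let `k₀` be as in `Bet`. The terms with `k > k₀` do not increase. If `Nk k₀ t' < Nk k₀ t` the rest decreases as
`B * N' + Q' < B * (N' + 1) ≤ B * N + Q` at `k₀` and `∑ k < k₀, B ^ (2 k) * (B * N' + Q') < B ^ (2 k₀)`
(all numbers are `≤ B - 1`); similarly for the second case. Choose `t` with minimal `Pot`. -/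
theorem exists_min (lm : Finset E → ℤ) (w n : ℕ) (P : BT E → Prop) (hP : ∀ t, P t → t.nl ≤ n) (t₀ : BT E)
    (h₀ : P t₀) : ∃ t, P t ∧ ∀ t', P t' → ¬ Bet lm w t' t := by
  classical
  have hB : ∀ t, P t → ∀ k, Nk lm k t < 2 * n + 1 ∧ Qk lm k t < 2 * n + 1 := by
    intro t ht k
    have h1 := NQ_le lm k t
    have h2 := hP t ht
    omega
  have hex : ∃ m, ∃ t, P t ∧ BPT_pot lm (2 * n + 1) (w + 1) t = m := ⟨_, t₀, h₀, rfl⟩
  obtain ⟨t, ht, hm⟩ := Nat.find_spec hex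
  refine ⟨t, ht, fun t' ht' hbet => ?_⟩
  have h1 := BPT_bet (hB t ht) (hB t' ht') hbet
  rw [hm] at h1
  exact Nat.find_min hex h1 ⟨t', ht', rfl⟩

end Pool.Agent.BWN
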