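import Pool.Agent.Lib_MP_001f0c_ag.BNP
import Pool.Agent.Lib_MP_001f0c_ag.BCV
import Pool.Agent.Lib_MP_001f0c_ag.BPT

/-!
# Piece BLT: linked branch decompositions
-/

set_option autoImplicit false

open Finset

namespace Pool.Agent.BWN

variable {E : Type} [DecidableEq E]

/-- the bracket `[k ≤ x]` -/
def bltb (k : ℕ) (x : ℤ) : ℕ := if (k : ℤ) ≤ x then 1 else 0

theorem blt_br (lm : Finset E → ℤ) (k : ℕ) (X : Finset E) : br lm k X = bltb k (lm X) := rfl

/-- the pointwise argument for the level `k₀` -/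
theorem blt_pt {a b h μ : ℤ} {k₀ : ℕ} (h1 : a ≤ h) (h2 : b ≤ h) (h3 : a = h → b ≤ μ) (h4 : b = h → a ≤ μ)
    (hk : μ < k₀) (heq : ∀ k : ℕ, k₀ < k → bltb k a + bltb k b = bltb k h) :
    bltb k₀ a + bltb k₀ b ≤ bltb k₀ h := by
  unfold bltb
  by_cases ha : (k₀ : ℤ) ≤ a
  · by_cases hb : (k₀ : ℤ) ≤ b
    · have hah : a ≠ h := fun hh => by have := h3 hh; omega
      have hbh : b ≠ h := fun hh => by have := h4 hh; omega
      have hh : 0 ≤ h := by omega
      have h5 := heq h.toNat (by omega)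
      unfold bltb at h5
      rw [if_neg (by omega), if_neg (by omega), if_pos (by omega)] at h5
      omega
    · rw [if_pos ha, if_neg hb, if_pos (by omega)]
  · by_cases hb : (k₀ : ℤ) ≤ b
    · rw [if_neg ha, if_pos hb, if_pos (by omega)]
    · rw [if_neg ha, if_neg hb]
      omega

theorem blt_pall_mono {P P' : Finset E → Prop} (h : ∀ g, P g → P' g) (ps : List (Bool × BT E)) :
    ∀ g, PAll P g ps → PAll P' g ps := by
  induction ps with
  | nil => intro g hg; exact h g hg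
  | cons q ps ih => intro g hg; exact ⟨h g hg.1, ih _ hg.2⟩

theorem blt_pall_and {P P' : Finset E → Prop} (ps : List (Bool × BT E)) :
    ∀ g, PAll P g ps → PAll P' g ps → PAll (fun g => P g ∧ P' g) g ps := by
  induction ps with
  | nil => intro g hg hg'; exact ⟨hg, hg'⟩
  | cons q ps ih => intro g hg hg'; exact ⟨⟨hg.1, hg'.1⟩, ih _ hg.2 hg'.2⟩

theorem blt_pall_forall {ι : Type} {P : ι → Finset E → Prop} (ps : List (Bool × BT E)) :
    ∀ g, (∀ i, PAll (P i) g ps) → PAll (fun g => ∀ i, P i g) g ps := by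
  induction ps with
  | nil => intro g hg; exact hg
  | cons q ps ih => intro g hg; exact ⟨fun i => (hg i).1, ih _ fun i => (hg i).2⟩

theorem blt_all_forall {ι : Type} {P : ι → Finset E → Prop} (t : BT E)
    (h : ∀ i, t.All (P i)) : t.All fun g => ∀ i, P i g := by
  induction t with
  | leaf x => exact fun i => h i
  | node l r ihl ihr => exact ⟨fun i => (h i).1, ihl fun i => (h i).2.1, ihr fun i => (h i).2.2⟩

theorem blt_sall_mono {P P' : Finset E → Prop} (h : ∀ g, P g → P' g) (ps : List (Bool × BT E))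
    (hs : SAll P ps) : SAll P' ps := fun q hq => all_mono h (hs q hq)

theorem blt_sall_and {P P' : Finset E → Prop} (ps : List (Bool × BT E)) (hs : SAll P ps)
    (hs' : SAll P' ps) : SAll (fun g => P g ∧ P' g) ps := fun q hq => all_and (hs q hq) (hs' q hq)

theorem blt_sall_forall {ι : Type} {P : ι → Finset E → Prop} (ps : List (Bool × BT E))
    (h : ∀ i, SAll (P i) ps) : SAll (fun g => ∀ i, P i g) ps := fun q hq =>
  blt_all_forall q.2 fun i => h i q hq

theorem blt_nodup (ks : List (Bool × BT E)) : ∀ u : BT E, (plug u ks).ls.Nodup → u.ls.Nodup := by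
  induction ks with
  | nil => intro u hu; exact hu
  | cons q ks ih =>
    intro u hu
    obtain ⟨b, y⟩ := q
    have := ih (mk b u y) hu
    cases b
    · exact (List.nodup_append.1 (show (u.ls ++ y.ls).Nodup from this)).1
    · exact (List.nodup_append.1 (show (y.ls ++ u.ls).Nodup from this)).2.1

theorem blt_pall_head {P : Finset E → Prop} {g : Finset E} {ps : List (Bool × BT E)} (h : PAll P g ps) :
    P g := by
  cases ps with
  | nil => exact h
  | cons q ps => exact h.1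

/-- BLT. Improvement. Let `t = plug (plug e ps) ks` be a branch decomposition of `U` of width `≤ w`, `lm e = lm f = j` for
`f = plug e ps`, `lm g ≥ j` for the sets of the path, and `lm Y < j` for some `Y` between `e` and `f`. Choose `X` by `choice`,
`μ = lm X < j`. The new tree is `t' = plug (mv U X e ps) ks`. It is a branch decomposition (`mv_perm`, `plug_perm`), and has width
`≤ w` (`mv_all`, `plug_all`, `star`). Call a set `g` of the path or of a side branch *of type A* if `μ < lm g` and both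
copies (`g ∪ X`, `g ∩ X`, or `g \ X`, `g ∩ X`) have smaller `lm` than `g`.

Case 1: there is one; let `k₀` be the largest `lm g` for `g` of type A (`μ < k₀ ≤ w`). For `k ≥ k₀` (so `k > μ`)
`br k (g ∪ X) + br k (g ∩ X) ≤ br k g` for all `g`: otherwise both copies have `lm ≥ k > μ`, so by `star` both are `< lm g`, and `g`
is of type A with `lm g > k ≥ k₀`. So `N_k`, `Q_k` do not increase (`Nk_plug`, `Nk_plr`, `path_N`, …, `Nk_outer`), and
`N_{k₀}` decreases (`path_N_lt`; for `g = e` there is equality, as `e ∩ X = e`, `e ∪ X = X`).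

Case 2: there is none. Let `k₀ = μ + 1`. The same inequalities hold for all `k ≥ k₀`, and `Q_{k₀}` decreases by
`path_Q_lt` (`lm (e ∪ X) = lm X = μ < k₀`, all sets of the path have `lm ≥ j ≥ k₀`). -/
theorem improve {U : Finset E} {lm : Finset E → ℤ} {w : ℕ} (hsym : ∀ X, X ⊆ U → lm (U \ X) = lm X)
    (hsub : ∀ X Y, X ⊆ U → Y ⊆ U → lm (X ∩ Y) + lm (X ∪ Y) ≤ lm X + lm Y)
    (h0 : lm ∅ = 0) (hpos : ∀ X, X ⊆ U → 0 ≤ lm X)
    {e : BT E} {ps ks : List (Bool × BT E)} (hn : (plug (plug e ps) ks).ls.Nodup)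
    (hU : (plug (plug e ps) ks).su = U) (hw : (plug (plug e ps) ks).All fun g => lm g ≤ w)
    (hj : lm e.su = lm (plug e ps).su) (hp : PAll (fun g => lm e.su ≤ lm g) e.su ps)
    {Y : Finset E} (hY1 : e.su ⊆ Y) (hY2 : Y ⊆ (plug e ps).su) (hY : lm Y < lm e.su) :
    ∃ t' : BT E, t'.ls.Nodup ∧ t'.su = U ∧ (t'.All fun g => lm g ≤ w) ∧
      Bet lm w t' (plug (plug e ps) ks) := by
  classical
  have hUf : (plug e ps).su ⊆ U := by
    rw [← hU, su_plug (plug e ps) ks]
    exact subset_union_left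
  have hnf : (plug e ps).ls.Nodup := blt_nodup ks _ hn
  have hUs : sup ps ⊆ U := by
    refine subset_trans ?_ hUf
    rw [su_plug]
    exact subset_union_right
  obtain ⟨X, hX1, hX2, hXY, hmin, hcut⟩ := choice hsym hsub hnf hUf hY1 hY2
  obtain ⟨hP, hS⟩ := star hsub h0 hpos hUf hX1 hX2 hmin hcut
  have hXU : X ⊆ U := hX2.trans hUf
  have hμ0 : 0 ≤ lm X := hpos X hXU
  have hμj : lm X < lm e.su := lt_of_le_of_lt hXY hY
  obtain ⟨hmv1, hmv2⟩ := su_mv (U := U) hUf hX1 hX2
  obtain ⟨hwf, hwk1, hwk2⟩ := (plug_all (P := fun g => lm g ≤ w) (plug e ps) ks).1 hw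
  obtain ⟨hwe, hwp, hws⟩ := (plug_all (P := fun g => lm g ≤ w) e ps).1 hwf
  have hwe' : lm e.su ≤ w := blt_pall_head hwp
  have heX : e.su ∩ X = e.su := inter_eq_left.2 hX1
  have heX' : e.su ∪ X = X := union_eq_right.2 hX1
  refine ⟨plug (mv U X e ps) ks, (plug_perm (mv_perm (X := X) hUf) ks).nodup_iff.2 hn, ?_, ?_, ?_⟩
  · rw [su_plug, hmv2, ← su_plug, hU]
  · refine (plug_all (P := fun g => lm g ≤ w) _ ks).2 ⟨?_, by rw [hmv2]; exact hwk1, hwk2⟩
    refine mv_all hUf hX1 hX2 hwe ?_ ?_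
    · exact blt_pall_mono (fun g hg => ⟨hg.1.1.trans hg.2, hg.1.2.1.trans hg.2⟩) ps _
        (blt_pall_and ps _ hP hwp)
    · exact blt_sall_mono (fun g hg => ⟨hg.1.1.trans hg.2, hg.1.2.1.trans hg.2⟩) ps
        (blt_sall_and ps hS hws)
  -- the comparison
  let EQ : ℕ → Prop := fun k =>
    PAll (fun h => br lm k (h ∪ X) + br lm k (h ∩ X) = br lm k h) e.su ps ∧
      SAll (fun h => br lm k (h ∩ X) + br lm k (h \ X) = br lm k h) ps
  let LE' : ℕ → Prop := fun k =>
    PAll (fun h => br lm k (h ∪ X) + br lm k (h ∩ X) ≤ br lm k h) e.su ps ∧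
      SAll (fun h => br lm k (h ∩ X) + br lm k (h \ X) ≤ br lm k h) ps
  have hEL : ∀ k, EQ k → LE' k := fun k hk =>
    ⟨blt_pall_mono (fun g hg => hg.le) ps _ hk.1, blt_sall_mono (fun g hg => hg.le) ps hk.2⟩
  have hN : ∀ k, LE' k → Nk lm k (mv U X e ps) ≤ Nk lm k (plug e ps) := by
    intro k hk
    have h1 := Nk_plr (lm := lm) (k := k) (U \ X) (plr X e ps) ps
    have h2 := Nk_plr (lm := lm) (k := k) X e ps
    have h3 := path_N (lm := lm) (k := k) ps hUs e.su hk.1 hk.2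
    rw [heX, heX'] at h3
    rw [hmv1] at h1
    rw [Nk_plug]
    unfold mv
    omega
  have hQ : ∀ k, LE' k → Qk lm k (mv U X e ps) ≤ Qk lm k (plug e ps) := by
    intro k hk
    have h1 := Qk_plr (lm := lm) (k := k) (U \ X) (plr X e ps) ps
    have h2 := Qk_plr (lm := lm) (k := k) X e ps
    have h3 := path_Q (lm := lm) (k := k) ps hUs e.su hk.1 hk.2
    rw [heX, heX'] at h3
    rw [hmv1] at h1
    rw [Qk_plug]
    unfold mv
    omega
  have hbig : ∀ k : ℕ, w < k → EQ k := by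
    intro k hk
    refine ⟨blt_pall_mono (fun g hg => ?_) ps _ (blt_pall_and ps _ hP hwp),
      blt_sall_mono (fun g hg => ?_) ps (blt_sall_and ps hS hws)⟩
    · obtain ⟨⟨h1, h2, -, -⟩, h3⟩ := hg
      rw [blt_br, blt_br, blt_br]
      unfold bltb
      rw [if_neg (by omega), if_neg (by omega), if_neg (by omega)]
    · obtain ⟨⟨h1, h2, -, -⟩, h3⟩ := hg
      rw [blt_br, blt_br, blt_br]
      unfold bltb
      rw [if_neg (by omega), if_neg (by omega), if_neg (by omega)]
  by_cases hcase : ∃ k : ℕ, lm X < k ∧ ¬ EQ k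
  · -- the largest such `k`
    obtain ⟨k₀, ⟨hk1, hk2⟩, hk3⟩ : ∃ k₀ : ℕ, (lm X < k₀ ∧ ¬ EQ k₀) ∧ ∀ k : ℕ, k₀ < k → EQ k := by
      have hfin : {k : ℕ | lm X < k ∧ ¬ EQ k}.Finite := by
        refine (Set.finite_Iic w).subset fun k hk => ?_
        by_contra h
        exact hk.2 (hbig k (by simpa using h))
      obtain ⟨k₀, hk₀, hmax⟩ := hfin.exists_maximal hcase
      refine ⟨k₀, hk₀, fun k hk => ?_⟩
      by_contra h
      have hk' : k ∈ {k : ℕ | lm X < k ∧ ¬ EQ k} := ⟨by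
        have := hk₀.1
        omega, h⟩
      have := hmax hk' hk.le
      omega
    have hk₀w : k₀ ≤ w := by
      by_contra h
      exact hk2 (hbig k₀ (by omega))
    have hLE : LE' k₀ := by
      refine ⟨?_, ?_⟩
      · have h1 := blt_pall_forall (P := fun (i : {k : ℕ // k₀ < k}) h =>
          br lm i.1 (h ∪ X) + br lm i.1 (h ∩ X) = br lm i.1 h) ps e.su fun i => (hk3 i.1 i.2).1
        refine blt_pall_mono (fun g hg => ?_) ps _ (blt_pall_and ps _ hP h1)
        obtain ⟨⟨h2, h3, h4, h5⟩, h6⟩ := hg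
        exact blt_pt h2 h3 h4 h5 hk1 fun k hk => h6 ⟨k, hk⟩
      · have h1 := blt_sall_forall (P := fun (i : {k : ℕ // k₀ < k}) h =>
          br lm i.1 (h ∩ X) + br lm i.1 (h \ X) = br lm i.1 h) ps fun i => (hk3 i.1 i.2).2
        refine blt_sall_mono (fun g hg => ?_) ps (blt_sall_and ps hS h1)
        obtain ⟨⟨h2, h3, h4, h5⟩, h6⟩ := hg
        exact blt_pt h3 h2 h5 h4 hk1 fun k hk => h6 ⟨k, hk⟩
    have hNlt : Nk lm k₀ (mv U X e ps) < Nk lm k₀ (plug e ps) := by
      have h1 := Nk_plr (lm := lm) (k := k₀) (U \ X) (plr X e ps) ps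
      have h2 := Nk_plr (lm := lm) (k := k₀) X e ps
      have h3 := path_N_lt (lm := lm) (k := k₀) ps hUs e.su hLE.1 hLE.2 (by
        rw [heX, heX']
        have : br lm k₀ X = 0 := by
          rw [blt_br]
          unfold bltb
          rw [if_neg (by omega)]
        omega) hk2
      rw [heX, heX'] at h3
      rw [hmv1] at h1
      rw [Nk_plug]
      unfold mv
      omega
    exact ⟨k₀, hk₀w, fun k hk => ⟨(Nk_outer hmv2 ks).1 (hN k (hEL k (hk3 k hk))),
      (Nk_outer hmv2 ks).2.2.1 (hQ k (hEL k (hk3 k hk)))⟩, Or.inl ((Nk_outer hmv2 ks).2.1 hNlt)⟩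
  · push Not at hcase
    obtain ⟨k₀, hk₀⟩ : ∃ k₀ : ℕ, (k₀ : ℤ) = lm X + 1 := ⟨(lm X + 1).toNat, by omega⟩
    have hLE : ∀ k : ℕ, k₀ ≤ k → LE' k := fun k hk => hEL k (hcase k (by omega))
    have hQlt : Qk lm k₀ (mv U X e ps) < Qk lm k₀ (plug e ps) := by
      have h1 := Qk_plr (lm := lm) (k := k₀) (U \ X) (plr X e ps) ps
      have h2 := Qk_plr (lm := lm) (k := k₀) X e ps
      have h3 := path_Q_lt (lm := lm) (k := k₀) ps hUs e.su (hLE k₀ le_rfl).1 (hLE k₀ le_rfl).2
        (blt_pall_mono (fun g hg => by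
          rw [blt_br]
          unfold bltb
          rw [if_pos (by omega)]) ps _ hp) (by
          rw [heX', blt_br]
          unfold bltb
          rw [if_neg (by omega)]) (by rw [← su_plug]; exact hX2)
      rw [heX, heX'] at h3
      rw [hmv1] at h1
      rw [Qk_plug]
      unfold mv
      omega
    refine ⟨k₀, by omega, fun k hk => ⟨(Nk_outer hmv2 ks).1 (hN k (hLE k hk.le)),
      (Nk_outer hmv2 ks).2.2.1 (hQ k (hLE k hk.le))⟩, Or.inr ⟨(Nk_outer hmv2 ks).1 (hN k₀ (hLE k₀ le_rfl)),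
        (Nk_outer hmv2 ks).2.2.2 hQlt⟩⟩

theorem blt_plug_append (ks ks' : List (Bool × BT E)) : ∀ u : BT E,
    plug u (ks ++ ks') = plug (plug u ks) ks' := by
  induction ks with
  | nil => intro u; rfl
  | cons q ks ih => intro u; exact ih _

theorem blt_nl (t : BT E) : t.nl = t.ls.length := by
  induction t with
  | leaf x => rfl
  | node l r ihl ihr =>
    show l.nl + r.nl = (l.ls ++ r.ls).length
    rw [List.length_append, ihl, ihr]

/-- BLT. A tree which is not linked contains a bad pair, in contexts. Induction on `t`, `blk_plug`. -/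
theorem not_linked {lm : Finset E → ℤ} {t : BT E} (h : ¬ LinkedT lm t) :
    ∃ (e : BT E) (ps ks : List (Bool × BT E)) (Y : Finset E), t = plug (plug e ps) ks ∧
      lm e.su = lm (plug e ps).su ∧ PAll (fun g => lm e.su ≤ lm g) e.su ps ∧ e.su ⊆ Y ∧
      Y ⊆ (plug e ps).su ∧ lm Y < lm e.su := by
  induction t with
  | leaf x => exact absurd trivial h
  | node l r ihl ihr =>
    by_cases h1 : LinkedT lm l
    · by_cases h2 : LinkedT lm r
      · have h3 : ¬ ∀ s, BLk lm (lm (l.su ∪ r.su)) s (.node l r) → lm s.su = lm (l.su ∪ r.su) →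
            ∀ X, s.su ⊆ X → X ⊆ l.su ∪ r.su → lm (l.su ∪ r.su) ≤ lm X := fun h4 => h ⟨h4, h1, h2⟩
        push Not at h3
        obtain ⟨s, hs1, hs2, Y, hY1, hY2, hY3⟩ := h3
        obtain ⟨ps, hps, hpa⟩ := blk_plug hs1 hs2.ge
        refine ⟨s, ps, [], Y, hps, ?_, ?_, hY1, ?_, ?_⟩
        · rw [← hps]
          exact hs2
        · rw [hs2]
          exact hpa
        · rw [← hps]
          exact hY2
        · rw [hs2]
          exact hY3
      · obtain ⟨e, ps, ks, Y, h4, h5⟩ := ihr h2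
        refine ⟨e, ps, ks ++ [(true, l)], Y, ?_, h5⟩
        rw [blt_plug_append, ← h4]
        rfl
    · obtain ⟨e, ps, ks, Y, h4, h5⟩ := ihl h1
      refine ⟨e, ps, ks ++ [(false, r)], Y, ?_, h5⟩
      rw [blt_plug_append, ← h4]
      rfl

/-- BLT. `exists_min` for the branch decompositions of `U` of width `≤ w` (the number of the leaves is the number of the
elements of `U`), `not_linked`, `improve`. -/
theorem linked_exists {U : Finset E} {lm : Finset E → ℤ} {w : ℕ} (hsym : ∀ X, X ⊆ U → lm (U \ X) = lm X)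
    (hsub : ∀ X Y, X ⊆ U → Y ⊆ U → lm (X ∩ Y) + lm (X ∪ Y) ≤ lm X + lm Y)
    (h0 : lm ∅ = 0) (hpos : ∀ X, X ⊆ U → 0 ≤ lm X)
    {t : BT E} (hn : t.ls.Nodup) (hU : t.su = U) (hw : t.All fun g => lm g ≤ w) :
    ∃ t' : BT E, t'.ls.Nodup ∧ t'.su = U ∧ (t'.All fun g => lm g ≤ w) ∧ LinkedT lm t' := by
  obtain ⟨t', ⟨h1, h2, h3⟩, h4⟩ := exists_min lm w U.card
    (fun t => t.ls.Nodup ∧ t.su = U ∧ t.All fun g => lm g ≤ w) (fun t ht => by
      rw [blt_nl, ← List.toFinset_card_of_nodup ht.1, ← su_eq, ht.2.1]) t ⟨hn, hU, hw⟩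
  refine ⟨t', h1, h2, h3, ?_⟩
  by_contra hcon
  obtain ⟨e, ps, ks, Y, h5, h6, h7, h8, h9, h10⟩ := not_linked hcon
  subst h5
  obtain ⟨t'', h11, h12, h13, h14⟩ := improve hsym hsub h0 hpos h1 h2 h3 h6 h7 h8 h9 h10
  exact h4 t'' ⟨h11, h12, h13⟩ h14

end Pool.Agent.BWN
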