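import Pool.Agent.Lib_MP_001f0c_ag.BRA

/-!
# Piece BRB: contexts
-/

set_option autoImplicit false

open Finset

namespace Pool.Agent.BWN

variable {E : Type} [DecidableEq E]

@[simp] theorem su_mk (b : Bool) (t y : BT E) : (mk b t y).su = t.su ∪ y.su := by
  cases b <;> simp [mk, BT.su, union_comm]

theorem plug_cons (e : BT E) (b : Bool) (y : BT E) (ps : List (Bool × BT E)) :
    plug e ((b, y) :: ps) = plug (mk b e y) ps := rfl

theorem sup_cons (b : Bool) (y : BT E) (ps : List (Bool × BT E)) :
    sup ((b, y) :: ps) = y.su ∪ sup ps := rfl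

theorem plr_cons_none {X : Finset E} {y : BT E} (h : y.re X = none) (u : BT E) (b : Bool)
    (ps : List (Bool × BT E)) : plr X u ((b, y) :: ps) = plr X u ps := by
  simp only [plr, h]

theorem plr_cons_some {X : Finset E} {y y' : BT E} (h : y.re X = some y') (u : BT E) (b : Bool)
    (ps : List (Bool × BT E)) : plr X u ((b, y) :: ps) = plr X (mk b u y') ps := by
  simp only [plr, h]

/-- BRB -/
theorem su_plug (e : BT E) (ps : List (Bool × BT E)) : (plug e ps).su = e.su ∪ sup ps := by
  induction ps generalizing e with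
  | nil => simp [plug, sup]
  | cons q ps ih =>
    obtain ⟨b, y⟩ := q
    rw [plug_cons, ih, su_mk, sup_cons, union_assoc]

/-- BRB -/
theorem su_plr (X : Finset E) (u : BT E) (ps : List (Bool × BT E)) :
    (plr X u ps).su = u.su ∪ (sup ps ∩ X) := by
  induction ps generalizing u with
  | nil => simp [plr, sup]
  | cons q ps ih =>
    obtain ⟨b, y⟩ := q
    rcases h : y.re X with _ | y'
    · rw [plr_cons_none h, ih, sup_cons, union_inter_distrib_right, re_none h, empty_union]
    · rw [plr_cons_some h, ih, sup_cons, su_mk, re_some h, union_inter_distrib_right, union_assoc]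

/-- BRB -/
theorem su_mv {U X : Finset E} {e : BT E} {ps : List (Bool × BT E)} (h1 : (plug e ps).su ⊆ U)
    (h2 : e.su ⊆ X) (h3 : X ⊆ (plug e ps).su) :
    (plr X e ps).su = X ∧ (mv U X e ps).su = (plug e ps).su := by
  have e1 : (plr X e ps).su = X := by
    rw [su_plr]
    rw [su_plug] at h3
    ext a
    simp only [mem_union, mem_inter]
    constructor
    · rintro (h | h)
      · exact h2 h
      · exact h.2
    · intro h
      rcases mem_union.1 (h3 h) with h' | h'
      · exact Or.inl h'
      · exact Or.inr ⟨h', h⟩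
  refine ⟨e1, ?_⟩
  unfold mv
  rw [su_plr, e1]
  rw [su_plug] at h1 h3 ⊢
  ext a
  simp only [mem_union, mem_inter, mem_sdiff]
  constructor
  · rintro (h | h)
    · exact mem_union.1 (h3 h)
    · exact Or.inr h.1
  · rintro (h | h)
    · exact Or.inl (h2 h)
    · by_cases hX : a ∈ X
      · exact Or.inl hX
      · exact Or.inr ⟨h, h1 (mem_union_right _ h), hX⟩

/-- the multiset of the leaves -/
def ms (t : BT E) : Multiset E := (t.ls : Multiset E)

theorem ms_mk (b : Bool) (t y : BT E) : ms (mk b t y) = ms t + ms y := by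
  unfold ms
  cases b
  · simp [mk, BT.ls]
  · simp only [mk, BT.ls, if_true]
    rw [← Multiset.coe_add, add_comm]

theorem ms_plug (e : BT E) (ps : List (Bool × BT E)) :
    ms (plug e ps) = ms e + (ps.map fun q => ms q.2).sum := by
  induction ps generalizing e with
  | nil => simp [plug]
  | cons q ps ih =>
    obtain ⟨b, y⟩ := q
    rw [plug_cons, ih, ms_mk, List.map_cons, List.sum_cons, add_assoc]

theorem ms_plr (X : Finset E) (u : BT E) (ps : List (Bool × BT E)) :
    ms (plr X u ps) = ms u + (ps.map fun q => (lsO (q.2.re X) : Multiset E)).sum := by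
  induction ps generalizing u with
  | nil => simp [plr]
  | cons q ps ih =>
    obtain ⟨b, y⟩ := q
    rcases h : y.re X with _ | y'
    · rw [plr_cons_none h, ih, List.map_cons, List.sum_cons]
      simp [h, lsO]
    · rw [plr_cons_some h, ih, ms_mk, List.map_cons, List.sum_cons]
      simp only [h, lsO]
      rw [add_assoc]
      rfl

theorem su_le_sup {q : Bool × BT E} {ps : List (Bool × BT E)} (h : q ∈ ps) : q.2.su ⊆ sup ps := by
  induction ps with
  | nil => simp at h
  | cons q' ps ih =>
    obtain ⟨b, y⟩ := q'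
    rw [sup_cons]
    rcases List.mem_cons.1 h with rfl | h
    · exact subset_union_left
    · exact (ih h).trans subset_union_right

/-- BRB. The leaves of the new tree are those of the old one. (Induction: the leaves of `plr X u ps` are those of `u` and of
the restrictions of the side branches to `X`; `re_perm`.) -/
theorem mv_perm {U X : Finset E} {e : BT E} {ps : List (Bool × BT E)} (h1 : (plug e ps).su ⊆ U) :
    (mv U X e ps).ls.Perm (plug e ps).ls := by
  have key : ms (mv U X e ps) = ms (plug e ps) := by
    unfold mv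
    rw [ms_plr, ms_plr, ms_plug, add_assoc, ← List.sum_map_add]
    congr 2
    refine List.map_congr_left fun q hq => ?_
    have hqU : q.2.su ⊆ U := by
      rw [su_plug] at h1
      exact (su_le_sup hq).trans (subset_union_right.trans h1)
    have := re_perm (X := X) hqU
    rw [Multiset.coe_add]
    exact Multiset.coe_eq_coe.2 this
  exact Multiset.coe_eq_coe.1 key

/-- BRB -/
theorem plug_perm {u v : BT E} (h : u.ls.Perm v.ls) (ks : List (Bool × BT E)) :
    (plug u ks).ls.Perm (plug v ks).ls := by
  have h1 : ms u = ms v := Multiset.coe_eq_coe.2 h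
  have key : ms (plug u ks) = ms (plug v ks) := by rw [ms_plug, ms_plug, h1]
  exact Multiset.coe_eq_coe.1 key

theorem all_self {P : Finset E → Prop} {t : BT E} (h : t.All P) : P t.su := by
  cases t with
  | leaf x => exact h
  | node l r => exact h.1

theorem mk_all {P : Finset E → Prop} (b : Bool) (t y : BT E) :
    (mk b t y).All P ↔ P (t.su ∪ y.su) ∧ t.All P ∧ y.All P := by
  cases b
  · exact Iff.rfl
  · change P (y.su ∪ t.su) ∧ y.All P ∧ t.All P ↔ _
    rw [union_comm y.su t.su, and_comm (a := y.All P)]

theorem pall_head {P : Finset E → Prop} {g : Finset E} {ps : List (Bool × BT E)}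
    (h : PAll P g ps) : P g := by
  cases ps with
  | nil => exact h
  | cons q ps =>
    obtain ⟨b, y⟩ := q
    exact h.1

theorem pall_mono {P P' : Finset E → Prop} {ps : List (Bool × BT E)} :
    ∀ {g : Finset E}, PAll P g ps → (∀ h, g ⊆ h → h ⊆ g ∪ sup ps → P h → P' h) →
      PAll P' g ps := by
  induction ps with
  | nil => exact fun h h' => h' _ Subset.rfl subset_union_left h
  | cons q ps ih =>
    obtain ⟨b, y⟩ := q
    intro g h h'
    refine ⟨h' _ Subset.rfl subset_union_left h.1, ih h.2 fun k hk hk' => ?_⟩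
    refine h' k (subset_union_left.trans hk) ?_
    rw [sup_cons, ← union_assoc]
    exact hk'

theorem sall_cons {P : Finset E → Prop} {b : Bool} {y : BT E} {ps : List (Bool × BT E)} :
    SAll P ((b, y) :: ps) ↔ y.All P ∧ SAll P ps := by
  unfold SAll
  simp

/-- BRB. `All` for a tree in a context. -/
theorem plug_all {P : Finset E → Prop} (e : BT E) (ps : List (Bool × BT E)) :
    (plug e ps).All P ↔ e.All P ∧ PAll P e.su ps ∧ SAll P ps := by
  induction ps generalizing e with
  | nil =>
    constructor
    · intro h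
      exact ⟨h, all_self h, fun q hq => absurd hq (by simp)⟩
    · exact fun h => h.1
  | cons q ps ih =>
    obtain ⟨b, y⟩ := q
    rw [plug_cons, ih, mk_all, su_mk, sall_cons]
    constructor
    · rintro ⟨⟨h1, h2, h3⟩, h4, h5⟩
      exact ⟨h2, ⟨all_self h2, h4⟩, h3, h5⟩
    · rintro ⟨h2, ⟨_, h4⟩, h3, h5⟩
      exact ⟨⟨pall_head h4, h2, h3⟩, h4, h5⟩

/-- BRB. `All` for the restricted context (induction on `ps`): the new sets of the path are `g ∪ (y ∩ X)`, …, where `g = u.su`;
here given by `PAll` of a predicate on the old sets: `P (h ∩ X ∪ u.su)`, for the sets `h` of the path which starts with `g₀`,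
if `g₀ ∩ X ⊆ u.su`. -/
theorem plr_all {P : Finset E → Prop} {X : Finset E} (ps : List (Bool × BT E)) : ∀ (u : BT E) (g₀ : Finset E),
    u.All P → PAll (fun h => P (u.su ∪ (h ∩ X))) g₀ ps → g₀ ∩ X ⊆ u.su → SAll (fun h => P (h ∩ X)) ps →
    (plr X u ps).All P := by
  induction ps with
  | nil => exact fun u g₀ h _ _ _ => h
  | cons q ps ih =>
    obtain ⟨b, y⟩ := q
    intro u g₀ hu hp hg hs
    obtain ⟨hs1, hs2⟩ := sall_cons.1 hs
    rcases h : y.re X with _ | y'
    · rw [plr_cons_none h]
      refine ih u (g₀ ∪ y.su) hu hp.2 ?_ hs2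
      rw [union_inter_distrib_right, re_none h, union_empty]
      exact hg
    · rw [plr_cons_some h]
      have hsu : (mk b u y').su = u.su ∪ (y.su ∩ X) := by rw [su_mk, re_some h]
      refine ih (mk b u y') (g₀ ∪ y.su) ?_ ?_ ?_ hs2
      · rw [mk_all, re_some h]
        refine ⟨?_, hu, re_all h hs1⟩
        have h1 : P (u.su ∪ ((g₀ ∪ y.su) ∩ X)) :=
          pall_head (P := fun h => P (u.su ∪ (h ∩ X))) hp.2
        rwa [union_inter_distrib_right, ← union_assoc, union_eq_left.2 hg] at h1
      · refine pall_mono hp.2 fun k hk _ hPk => ?_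
        have h2 : (mk b u y').su ∪ (k ∩ X) = u.su ∪ (k ∩ X) := by
          rw [hsu, union_assoc]
          congr 1
          exact union_eq_right.2 (inter_subset_inter_right (subset_union_right.trans hk))
        change P ((mk b u y').su ∪ (k ∩ X))
        rw [h2]
        exact hPk
      · rw [hsu, union_inter_distrib_right]
        exact union_subset_union_left hg

/-- BRB. `All` for the new tree. -/
theorem mv_all {P : Finset E → Prop} {U X : Finset E} {e : BT E} {ps : List (Bool × BT E)}
    (h1 : (plug e ps).su ⊆ U) (h2 : e.su ⊆ X) (h3 : X ⊆ (plug e ps).su) (he : e.All P)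
    (hp : PAll (fun g => P (g ∪ X) ∧ P (g ∩ X)) e.su ps)
    (hs : SAll (fun g => P (g \ X) ∧ P (g ∩ X)) ps) : (mv U X e ps).All P := by
  have hX := (su_mv h1 h2 h3).1
  have hU : e.su ∪ sup ps ⊆ U := by rw [← su_plug]; exact h1
  unfold mv
  refine plr_all ps (plr X e ps) e.su ?_ ?_ ?_ ?_
  · refine plr_all ps e e.su he ?_ inter_subset_left ?_
    · refine pall_mono hp fun k hk _ hPk => ?_
      have : e.su ∪ (k ∩ X) = k ∩ X := union_eq_right.2 (subset_inter hk h2)
      rw [this]
      exact hPk.2
    · exact fun q hq => all_mono (fun g hg => hg.2) (hs q hq)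
  · rw [hX]
    refine pall_mono hp fun k _ hk hPk => ?_
    have hkU : k ⊆ U := hk.trans hU
    have : X ∪ (k ∩ (U \ X)) = k ∪ X := by
      ext a
      simp only [mem_union, mem_inter, mem_sdiff]
      constructor
      · rintro (h | h)
        · exact Or.inr h
        · exact Or.inl h.1
      · rintro (h | h)
        · by_cases hX' : a ∈ X
          · exact Or.inl hX'
          · exact Or.inr ⟨h, hkU h, hX'⟩
        · exact Or.inl h
    rw [this]
    exact hPk.1
  · intro a ha
    simp only [mem_inter, mem_sdiff] at ha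
    exact absurd (h2 ha.1) ha.2.2
  · intro q hq
    have hqU : q.2.su ⊆ U := (su_le_sup hq).trans (subset_union_right.trans hU)
    refine all_mono ?_ (all_and (hs q hq) (all_sub (t := q.2)))
    rintro g ⟨⟨hg1, _⟩, hg2, _⟩
    have : g ∩ (U \ X) = g \ X := by
      ext a
      simp only [mem_inter, mem_sdiff]
      exact ⟨fun h => ⟨h.1, h.2.2⟩, fun h => ⟨h.1, hqU (hg2 h.1), h.2⟩⟩
    rw [this]
    exact hg1

theorem plug_append (e : BT E) (ps : List (Bool × BT E)) (b : Bool) (y : BT E) :
    plug e (ps ++ [(b, y)]) = mk b (plug e ps) y := by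
  induction ps generalizing e with
  | nil => rfl
  | cons q ps ih =>
    obtain ⟨c, z⟩ := q
    rw [List.cons_append, plug_cons, plug_cons, ih]

theorem pall_append {P : Finset E → Prop} {ps : List (Bool × BT E)} {b : Bool} {y : BT E} :
    ∀ {g : Finset E}, PAll P g ps → P (g ∪ sup ps ∪ y.su) → PAll P g (ps ++ [(b, y)]) := by
  induction ps with
  | nil =>
    intro g h h'
    refine ⟨h, ?_⟩
    change P (g ∪ y.su)
    simpa [sup] using h'
  | cons q ps ih =>
    obtain ⟨c, z⟩ := q
    intro g h h'
    refine ⟨h.1, ih h.2 ?_⟩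
    rw [sup_cons, ← union_assoc] at h'
    exact h'

/-- BRB. Linked pairs come from contexts: `BLk` gives a context; all sets of the path above `s` have width `≥ j`. -/
theorem blk_plug {lm : Finset E → ℤ} {j : ℤ} {s t : BT E} (h : BLk lm j s t) (hs : j ≤ lm s.su) :
    ∃ ps, t = plug s ps ∧ PAll (fun g => j ≤ lm g) s.su ps := by
  induction h with
  | here => exact ⟨[], rfl, hs⟩
  | left l r _ hj ih =>
    obtain ⟨ps, hl, hp⟩ := ih
    refine ⟨ps ++ [(false, r)], ?_, pall_append hp ?_⟩
    · rw [plug_append, ← hl]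
      rfl
    · rw [← su_plug, ← hl]
      exact hj
  | right l r _ hj ih =>
    obtain ⟨ps, hl, hp⟩ := ih
    refine ⟨ps ++ [(true, l)], ?_, pall_append hp ?_⟩
    · rw [plug_append, ← hl]
      rfl
    · rw [← su_plug, ← hl, union_comm]
      exact hj

end Pool.Agent.BWN
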