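import Pool.Agent.Lib_MP_001f0c_ag.BNQ
import Pool.Agent.Lib_MP_001f0c_ag.BRB

/-!
# Piece BNP: the numbers N, Q for paths
-/

set_option autoImplicit false

open Finset

namespace Pool.Agent.BWN

variable {E : Type} [DecidableEq E] {lm : Finset E → ℤ} {k : ℕ}

/-- the contribution of the path (without `e`) to `N_k (plr X u ps)`, where `g` is the set of `u` -/
def pN (lm : Finset E → ℤ) (k : ℕ) (X g : Finset E) : List (Bool × BT E) → ℕ
  | [] => 0
  | (_, y) :: ps => br lm k (g ∪ (y.su ∩ X)) + NO lm k (y.re X) + pN lm k X (g ∪ (y.su ∩ X)) ps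

/-- the same for `Q_k` -/
def pQ (lm : Finset E → ℤ) (k : ℕ) (X g : Finset E) : List (Bool × BT E) → ℕ
  | [] => 0
  | (_, y) :: ps => (br lm k (g ∪ (y.su ∩ X)) + br lm k g + br lm k (y.su ∩ X) - 1) + QO lm k (y.re X) +
      pQ lm k X (g ∪ (y.su ∩ X)) ps

/-- the contribution of the path to `N_k (plug e ps)` -/
def oN (lm : Finset E → ℤ) (k : ℕ) (g : Finset E) : List (Bool × BT E) → ℕ
  | [] => 0
  | (_, y) :: ps => br lm k (g ∪ y.su) + Nk lm k y + oN lm k (g ∪ y.su) ps

/-- the contribution of the path to `Q_k (plug e ps)` -/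
def oQ (lm : Finset E → ℤ) (k : ℕ) (g : Finset E) : List (Bool × BT E) → ℕ
  | [] => 0
  | (_, y) :: ps => (br lm k (g ∪ y.su) + br lm k g + br lm k y.su - 1) + Qk lm k y +
      oQ lm k (g ∪ y.su) ps

theorem Nk_mk (b : Bool) (t y : BT E) :
    Nk lm k (mk b t y) = br lm k (t.su ∪ y.su) + Nk lm k t + Nk lm k y := by
  cases b
  · rfl
  · change br lm k (y.su ∪ t.su) + Nk lm k y + Nk lm k t = _
    rw [union_comm y.su t.su]
    omega

theorem Qk_mk (b : Bool) (t y : BT E) :
    Qk lm k (mk b t y) = (br lm k (t.su ∪ y.su) + br lm k t.su + br lm k y.su - 1) +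
      Qk lm k t + Qk lm k y := by
  cases b
  · rfl
  · change (br lm k (y.su ∪ t.su) + br lm k y.su + br lm k t.su - 1) + Qk lm k y + Qk lm k t = _
    rw [union_comm y.su t.su]
    omega

theorem br_le_one (X : Finset E) : br lm k X ≤ 1 := by
  unfold br
  split_ifs <;> omega

/-- BNP. Induction on `ps`. -/
theorem Nk_plug (e : BT E) (ps : List (Bool × BT E)) : Nk lm k (plug e ps) = Nk lm k e + oN lm k e.su ps := by
  induction ps generalizing e with
  | nil => simp [plug, oN]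
  | cons q ps ih =>
    obtain ⟨b, y⟩ := q
    rw [plug_cons, ih, Nk_mk, su_mk]
    simp only [oN]
    omega

theorem Qk_plug (e : BT E) (ps : List (Bool × BT E)) : Qk lm k (plug e ps) = Qk lm k e + oQ lm k e.su ps := by
  induction ps generalizing e with
  | nil => simp [plug, oQ]
  | cons q ps ih =>
    obtain ⟨b, y⟩ := q
    rw [plug_cons, ih, Qk_mk, su_mk]
    simp only [oQ]
    omega

/-- BNP. Induction on `ps`. -/
theorem Nk_plr (X : Finset E) (u : BT E) (ps : List (Bool × BT E)) :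
    Nk lm k (plr X u ps) ≤ Nk lm k u + pN lm k X u.su ps := by
  induction ps generalizing u with
  | nil => simp [plr, pN]
  | cons q ps ih =>
    obtain ⟨b, y⟩ := q
    simp only [pN]
    rcases h : y.re X with _ | y'
    · rw [plr_cons_none h, re_none h, union_empty]
      have := ih u
      omega
    · rw [plr_cons_some h]
      have := ih (mk b u y')
      rw [Nk_mk, su_mk, re_some h] at this
      simp only [NO]
      omega

theorem Qk_plr (X : Finset E) (u : BT E) (ps : List (Bool × BT E)) :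
    Qk lm k (plr X u ps) ≤ Qk lm k u + pQ lm k X u.su ps := by
  induction ps generalizing u with
  | nil => simp [plr, pQ]
  | cons q ps ih =>
    obtain ⟨b, y⟩ := q
    simp only [pQ]
    rcases h : y.re X with _ | y'
    · rw [plr_cons_none h, re_none h, union_empty]
      have := ih u
      omega
    · rw [plr_cons_some h]
      have := ih (mk b u y')
      rw [Qk_mk, su_mk, re_some h] at this
      simp only [QO]
      omega

theorem path_sets {U X y : Finset E} (hy : y ⊆ U) (g : Finset E) :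
    g ∩ X ∪ (y ∩ X) = (g ∪ y) ∩ X ∧ g ∪ X ∪ (y ∩ (U \ X)) = g ∪ y ∪ X ∧ y ∩ (U \ X) = y \ X := by
  refine ⟨(union_inter_distrib_right g y X).symm, ?_, ?_⟩
  · ext a
    simp only [mem_union, mem_inter, mem_sdiff]
    constructor
    · rintro ((h | h) | h)
      · exact Or.inl (Or.inl h)
      · exact Or.inr h
      · exact Or.inl (Or.inr h.1)
    · rintro ((h | h) | h)
      · exact Or.inl (Or.inl h)
      · by_cases hX : a ∈ X
        · exact Or.inl (Or.inr hX)
        · exact Or.inr ⟨h, hy h, hX⟩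
      · exact Or.inl (Or.inr h)
  · ext a
    simp only [mem_inter, mem_sdiff]
    exact ⟨fun h => ⟨h.1, h.2.2⟩, fun h => ⟨h.1, hy h.1, h.2⟩⟩

/-- BNP. Induction on `ps`: `(g ∪ y) ∩ X = (g ∩ X) ∪ (y ∩ X)`, `(g ∪ y) ∪ X = (g ∪ X) ∪ (y \ X)`; `side_N`. -/
theorem path_N {U X : Finset E} (ps : List (Bool × BT E)) (hU : sup ps ⊆ U) : ∀ g : Finset E,
    PAll (fun h => br lm k (h ∪ X) + br lm k (h ∩ X) ≤ br lm k h) g ps →
    SAll (fun h => br lm k (h ∩ X) + br lm k (h \ X) ≤ br lm k h) ps →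
    pN lm k X (g ∩ X) ps + pN lm k (U \ X) (g ∪ X) ps ≤ oN lm k g ps := by
  induction ps with
  | nil => exact fun g _ _ => by simp [pN, oN]
  | cons q ps ih =>
    obtain ⟨b, y⟩ := q
    rw [sup_cons] at hU
    have hy : y.su ⊆ U := subset_union_left.trans hU
    intro g hp hs
    obtain ⟨hs1, hs2⟩ := sall_cons.1 hs
    have h1 := ih (subset_union_right.trans hU) (g ∪ y.su) hp.2 hs2
    obtain ⟨e1, e2, -⟩ := path_sets (X := X) hy g
    have h2 : br lm k (g ∪ y.su ∪ X) + br lm k ((g ∪ y.su) ∩ X) ≤ br lm k (g ∪ y.su) :=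
      pall_head (P := fun h => br lm k (h ∪ X) + br lm k (h ∩ X) ≤ br lm k h) hp.2
    have h3 := side_N hy hs1
    simp only [pN, oN, e1, e2]
    omega

/-- BNP. Strict if there is a strict inequality (for a set of the path other than `g`, or for a subtree of a side branch). -/
theorem path_N_lt {U X : Finset E} (ps : List (Bool × BT E)) (hU : sup ps ⊆ U) : ∀ g : Finset E,
    PAll (fun h => br lm k (h ∪ X) + br lm k (h ∩ X) ≤ br lm k h) g ps →
    SAll (fun h => br lm k (h ∩ X) + br lm k (h \ X) ≤ br lm k h) ps →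
    br lm k (g ∪ X) + br lm k (g ∩ X) = br lm k g →
    ¬ (PAll (fun h => br lm k (h ∪ X) + br lm k (h ∩ X) = br lm k h) g ps ∧
      SAll (fun h => br lm k (h ∩ X) + br lm k (h \ X) = br lm k h) ps) →
    pN lm k X (g ∩ X) ps + pN lm k (U \ X) (g ∪ X) ps < oN lm k g ps := by
  induction ps with
  | nil =>
    intro g _ _ he hn
    exact absurd ⟨he, fun q hq => absurd hq (by simp)⟩ hn
  | cons q ps ih =>
    obtain ⟨b, y⟩ := q
    rw [sup_cons] at hU
    have hy : y.su ⊆ U := subset_union_left.trans hU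
    have hU' : sup ps ⊆ U := subset_union_right.trans hU
    intro g hp hs he hn
    obtain ⟨hs1, hs2⟩ := sall_cons.1 hs
    have h1 := path_N ps hU' (g ∪ y.su) hp.2 hs2
    obtain ⟨e1, e2, -⟩ := path_sets (X := X) hy g
    have h2 : br lm k (g ∪ y.su ∪ X) + br lm k ((g ∪ y.su) ∩ X) ≤ br lm k (g ∪ y.su) :=
      pall_head (P := fun h => br lm k (h ∪ X) + br lm k (h ∩ X) ≤ br lm k h) hp.2
    have h3 := side_N hy hs1
    simp only [pN, oN, e1, e2]
    by_cases hc1 : br lm k (g ∪ y.su ∪ X) + br lm k ((g ∪ y.su) ∩ X) = br lm k (g ∪ y.su)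
    · by_cases hc2 : y.All fun h => br lm k (h ∩ X) + br lm k (h \ X) = br lm k h
      · have h4 := ih hU' (g ∪ y.su) hp.2 hs2 hc1 (fun hcon =>
          hn ⟨⟨he, hcon.1⟩, sall_cons.2 ⟨hc2, hcon.2⟩⟩)
        omega
      · have h4 := side_N_lt hy hs1 hc2
        omega
    · omega

/-- BNP. Induction on `ps`; `side_Q`, and `(a - 1)⁺ + (b - 1)⁺ ≤ (a + b - 1)⁺` at the vertices of the path. -/
theorem path_Q {U X : Finset E} (ps : List (Bool × BT E)) (hU : sup ps ⊆ U) : ∀ g : Finset E,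
    PAll (fun h => br lm k (h ∪ X) + br lm k (h ∩ X) ≤ br lm k h) g ps →
    SAll (fun h => br lm k (h ∩ X) + br lm k (h \ X) ≤ br lm k h) ps →
    pQ lm k X (g ∩ X) ps + pQ lm k (U \ X) (g ∪ X) ps ≤ oQ lm k g ps := by
  induction ps with
  | nil => exact fun g _ _ => by simp [pQ, oQ]
  | cons q ps ih =>
    obtain ⟨b, y⟩ := q
    rw [sup_cons] at hU
    have hy : y.su ⊆ U := subset_union_left.trans hU
    intro g hp hs
    obtain ⟨hs1, hs2⟩ := sall_cons.1 hs
    have h1 := ih (subset_union_right.trans hU) (g ∪ y.su) hp.2 hs2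
    obtain ⟨e1, e2, e3⟩ := path_sets (X := X) hy g
    have h2 : br lm k (g ∪ y.su ∪ X) + br lm k ((g ∪ y.su) ∩ X) ≤ br lm k (g ∪ y.su) :=
      pall_head (P := fun h => br lm k (h ∪ X) + br lm k (h ∩ X) ≤ br lm k h) hp.2
    have h2' : br lm k (g ∪ X) + br lm k (g ∩ X) ≤ br lm k g := hp.1
    have h3 := side_Q hy hs1
    have h4 : br lm k (y.su ∩ X) + br lm k (y.su \ X) ≤ br lm k y.su := all_self hs1
    rw [e3] at e2
    simp only [pQ, oQ, e1, e3, e2]
    omega

/-- BNP. Strict if all sets of the path have width `≥ k`, the first set `g` satisfies `lm (g ∪ X) < k` and the last set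
(`g ∪ sup ps`) contains `X`. Induction on `ps`. `[]`: `g ∪ X = g`, a contradiction. `(b, y) :: ps`, `g' = g ∪ y.su`: if
`br (g' ∪ X) = 0` use the induction hypothesis for the rest. Otherwise `br (g' ∩ X) = 0` (by `h` for `g'`), and
at this vertex `(0 + br (g ∩ X) + br (y ∩ X) - 1)⁺ + (br (g' ∪ X) + 0 + br (y \ X) - 1)⁺ ≤ br (y ∩ X) + br (y \ X) ≤ br y`,
and this is less than `br g' + br g + br y - 1 = 1 + br y`. -/
theorem path_Q_lt {U X : Finset E} (ps : List (Bool × BT E)) (hU : sup ps ⊆ U) : ∀ g : Finset E,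
    PAll (fun h => br lm k (h ∪ X) + br lm k (h ∩ X) ≤ br lm k h) g ps →
    SAll (fun h => br lm k (h ∩ X) + br lm k (h \ X) ≤ br lm k h) ps →
    PAll (fun h => br lm k h = 1) g ps → br lm k (g ∪ X) = 0 → X ⊆ g ∪ sup ps →
    pQ lm k X (g ∩ X) ps + pQ lm k (U \ X) (g ∪ X) ps < oQ lm k g ps := by
  induction ps with
  | nil =>
    intro g _ _ h1 h0 hX
    have h1' : br lm k g = 1 := h1
    have : g ∪ X = g := union_eq_left.2 (by simpa [sup] using hX)
    rw [this] at h0
    omega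
  | cons q ps ih =>
    obtain ⟨b, y⟩ := q
    rw [sup_cons] at hU
    have hy : y.su ⊆ U := subset_union_left.trans hU
    have hU' : sup ps ⊆ U := subset_union_right.trans hU
    intro g hp hs hone h0 hX
    obtain ⟨hs1, hs2⟩ := sall_cons.1 hs
    have h1 := path_Q ps hU' (g ∪ y.su) hp.2 hs2
    obtain ⟨e1, e2, e3⟩ := path_sets (X := X) hy g
    have h2 : br lm k (g ∪ y.su ∪ X) + br lm k ((g ∪ y.su) ∩ X) ≤ br lm k (g ∪ y.su) :=
      pall_head (P := fun h => br lm k (h ∪ X) + br lm k (h ∩ X) ≤ br lm k h) hp.2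
    have h2' : br lm k (g ∪ X) + br lm k (g ∩ X) ≤ br lm k g := hp.1
    have h3 := side_Q hy hs1
    have h4 : br lm k (y.su ∩ X) + br lm k (y.su \ X) ≤ br lm k y.su := all_self hs1
    have h5 : br lm k g = 1 := hone.1
    have h6 : br lm k (g ∪ y.su) = 1 := pall_head (P := fun h => br lm k h = 1) hone.2
    have h7 := br_le_one (lm := lm) (k := k) (g ∩ X)
    have h8 := br_le_one (lm := lm) (k := k) (g ∪ y.su ∪ X)
    rw [e3] at e2
    simp only [pQ, oQ, e1, e3, e2]
    by_cases hc : br lm k (g ∪ y.su ∪ X) = 0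
    · have h9 := ih hU' (g ∪ y.su) hp.2 hs2 hone.2 hc (by
        rw [sup_cons, ← union_assoc] at hX
        exact hX)
      omega
    · omega

/-- BNP. The outer context. -/
theorem Nk_outer {u v : BT E} (h : u.su = v.su) (ks : List (Bool × BT E)) :
    (Nk lm k u ≤ Nk lm k v → Nk lm k (plug u ks) ≤ Nk lm k (plug v ks)) ∧
    (Nk lm k u < Nk lm k v → Nk lm k (plug u ks) < Nk lm k (plug v ks)) ∧
    (Qk lm k u ≤ Qk lm k v → Qk lm k (plug u ks) ≤ Qk lm k (plug v ks)) ∧
    (Qk lm k u < Qk lm k v → Qk lm k (plug u ks) < Qk lm k (plug v ks)) := by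
  rw [Nk_plug, Nk_plug, Qk_plug, Qk_plug, h]
  refine ⟨?_, ?_, ?_, ?_⟩ <;> omega

end Pool.Agent.BWN
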