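import Pool.Agent.Lib_MP_001f0c_ag.BRA

/-!
# Piece BNQ: the numbers N, Q for side trees
-/

set_option autoImplicit false

open Finset

namespace Pool.Agent.BWN

variable {E : Type} [DecidableEq E] {lm : Finset E → ℤ} {k : ℕ}

/-- `N_k` of an optional tree -/
def NO (lm : Finset E → ℤ) (k : ℕ) : Option (BT E) → ℕ
  | none => 0
  | some t => Nk lm k t

/-- `Q_k` of an optional tree -/
def QO (lm : Finset E → ℤ) (k : ℕ) : Option (BT E) → ℕ
  | none => 0
  | some t => Qk lm k t

theorem BNQ_N_joi {a b : Option (BT E)} {g : Finset E} (hg : suO a ∪ suO b = g) :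
    NO lm k (joi a b) ≤ br lm k g + NO lm k a + NO lm k b := by
  subst hg
  cases a <;> cases b <;> simp only [joi, NO, Nk, suO] <;> omega

theorem BNQ_Q_joi {a b : Option (BT E)} {g : Finset E} (hg : suO a ∪ suO b = g) :
    QO lm k (joi a b) ≤ (br lm k g + br lm k (suO a) + br lm k (suO b) - 1) + QO lm k a + QO lm k b := by
  subst hg
  cases a <;> cases b <;> simp only [joi, QO, Qk, suO] <;> omega

theorem BNQ_self {P : Finset E → Prop} {t : BT E} (h : t.All P) : P t.su := by
  cases t with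
  | leaf x => exact h
  | node l r => exact h.1

theorem BNQ_diff {U X g : Finset E} (h : g ⊆ U) : g ∩ (U \ X) = g \ X := by
  ext a
  have := @h a
  simp only [mem_inter, mem_sdiff]
  tauto

theorem BNQ_leaf {P : Option (BT E) → ℕ} {U X : Finset E} {x : E} (hx : x ∈ U) (h0 : P none = 0) :
    P ((BT.leaf x).re X) + P ((BT.leaf x).re (U \ X)) = P (some (.leaf x)) := by
  by_cases h1 : x ∈ X
  · simp [BT.re, h1, h0]
  · simp [BT.re, h1, hx, h0]

theorem BNQ_lr {U X : Finset E} {l r : BT E} :
    suO (l.re X) ∪ suO (r.re X) = (l.su ∪ r.su) ∩ X := by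
  rw [BRA_suO_re, BRA_suO_re, union_inter_distrib_right]

/-- BNQ. Side trees: induction; if a part of a node is missing then its contribution is `0`. -/
theorem side_N {U X : Finset E} {t : BT E} (hU : t.su ⊆ U)
    (h : t.All fun g => br lm k (g ∩ X) + br lm k (g \ X) ≤ br lm k g) :
    NO lm k (t.re X) + NO lm k (t.re (U \ X)) ≤ Nk lm k t := by
  induction t with
  | leaf x =>
    exact (BNQ_leaf (P := NO lm k) (singleton_subset_iff.1 hU) rfl).le
  | node l r hl hr =>
    have h1 : l.su ⊆ U := subset_union_left.trans hU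
    have h2 : r.su ⊆ U := subset_union_right.trans hU
    have e1 := hl h1 h.2.1
    have e2 := hr h2 h.2.2
    have e3 := BNQ_N_joi (lm := lm) (k := k) (BNQ_lr (U := U) (X := X) (l := l) (r := r))
    have e4 := BNQ_N_joi (lm := lm) (k := k) (BNQ_lr (U := U) (X := U \ X) (l := l) (r := r))
    have e5 : br lm k ((l.su ∪ r.su) ∩ X) + br lm k ((l.su ∪ r.su) \ X) ≤ br lm k (l.su ∪ r.su) := h.1
    rw [BNQ_diff (g := l.su ∪ r.su) hU] at e4
    simp only [BT.re, Nk]
    omega

/-- BNQ. The same; strict if `h'` fails for a subtree: `¬ t.All …`. -/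
theorem side_N_lt {U X : Finset E} {t : BT E} (hU : t.su ⊆ U)
    (h : t.All fun g => br lm k (g ∩ X) + br lm k (g \ X) ≤ br lm k g)
    (h' : ¬ t.All fun g => br lm k (g ∩ X) + br lm k (g \ X) = br lm k g) :
    NO lm k (t.re X) + NO lm k (t.re (U \ X)) < Nk lm k t := by
  induction t with
  | leaf x =>
    exfalso
    apply h'
    have h1 : br lm k ({x} ∩ X) + br lm k ({x} \ X) ≤ br lm k {x} := h
    change br lm k ({x} ∩ X) + br lm k ({x} \ X) = br lm k {x}
    by_cases hx : x ∈ X
    · rw [inter_eq_left.2 (singleton_subset_iff.2 hx), sdiff_eq_empty_iff_subset.2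
        (singleton_subset_iff.2 hx)] at h1 ⊢
      omega
    · have e1 : ({x} : Finset E) ∩ X = ∅ := by
        ext a
        simp only [mem_inter, mem_singleton, notMem_empty, iff_false]
        rintro ⟨rfl, h2⟩
        exact hx h2
      have e2 : ({x} : Finset E) \ X = {x} := by
        ext a
        simp only [mem_sdiff, mem_singleton]
        constructor
        · exact fun h2 => h2.1
        · rintro rfl
          exact ⟨rfl, hx⟩
      rw [e1, e2] at h1 ⊢
      omega
  | node l r hl hr =>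
    have h1 : l.su ⊆ U := subset_union_left.trans hU
    have h2 : r.su ⊆ U := subset_union_right.trans hU
    have e1 := side_N h1 h.2.1
    have e2 := side_N h2 h.2.2
    have e3 := BNQ_N_joi (lm := lm) (k := k) (BNQ_lr (U := U) (X := X) (l := l) (r := r))
    have e4 := BNQ_N_joi (lm := lm) (k := k) (BNQ_lr (U := U) (X := U \ X) (l := l) (r := r))
    have e5 : br lm k ((l.su ∪ r.su) ∩ X) + br lm k ((l.su ∪ r.su) \ X) ≤ br lm k (l.su ∪ r.su) := h.1
    rw [BNQ_diff (g := l.su ∪ r.su) hU] at e4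
    simp only [BT.re, Nk]
    by_cases c1 : br lm k ((l.su ∪ r.su) ∩ X) + br lm k ((l.su ∪ r.su) \ X) = br lm k (l.su ∪ r.su)
    · by_cases c2 : l.All fun g => br lm k (g ∩ X) + br lm k (g \ X) = br lm k g
      · by_cases c3 : r.All fun g => br lm k (g ∩ X) + br lm k (g \ X) = br lm k g
        · exact absurd ⟨c1, c2, c3⟩ h'
        · have e6 := hr h2 h.2.2 c3
          omega
      · have e6 := hl h1 h.2.1 c2
        omega
    · omega

/-- BNQ. Side trees. `(a - 1)⁺ + (b - 1)⁺ ≤ (a + b - 1)⁺`. -/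
theorem side_Q {U X : Finset E} {t : BT E} (hU : t.su ⊆ U)
    (h : t.All fun g => br lm k (g ∩ X) + br lm k (g \ X) ≤ br lm k g) :
    QO lm k (t.re X) + QO lm k (t.re (U \ X)) ≤ Qk lm k t := by
  induction t with
  | leaf x =>
    exact (BNQ_leaf (P := QO lm k) (singleton_subset_iff.1 hU) rfl).le
  | node l r hl hr =>
    have h1 : l.su ⊆ U := subset_union_left.trans hU
    have h2 : r.su ⊆ U := subset_union_right.trans hU
    have e1 := hl h1 h.2.1
    have e2 := hr h2 h.2.2
    have e3 := BNQ_Q_joi (lm := lm) (k := k) (BNQ_lr (U := U) (X := X) (l := l) (r := r))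
    have e4 := BNQ_Q_joi (lm := lm) (k := k) (BNQ_lr (U := U) (X := U \ X) (l := l) (r := r))
    have e5 : br lm k ((l.su ∪ r.su) ∩ X) + br lm k ((l.su ∪ r.su) \ X) ≤ br lm k (l.su ∪ r.su) := h.1
    have e6 := BNQ_self h.2.1
    have e7 := BNQ_self h.2.2
    rw [BNQ_diff (g := l.su ∪ r.su) hU, BRA_suO_re, BRA_suO_re, BNQ_diff h1, BNQ_diff h2] at e4
    rw [BRA_suO_re, BRA_suO_re] at e3
    simp only [BT.re, Qk]
    omega

end Pool.Agent.BWN
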