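import Pool.Agent.Lib_MP_001f0c_ag.BTd

/-!
# Piece BRA: restriction of trees
-/

set_option autoImplicit false

open Finset

namespace Pool.Agent.BWN

variable {E : Type} [DecidableEq E]

/-- the leaves of an optional tree -/
def lsO : Option (BT E) → List E
  | none => []
  | some t => t.ls

/-- BRA -/
theorem su_eq (t : BT E) : t.su = t.ls.toFinset := by
  induction t with
  | leaf x => simp [BT.su, BT.ls]
  | node l r hl hr => simp [BT.su, BT.ls, List.toFinset_append, hl, hr]

/-- BRA -/
theorem su_nonempty (t : BT E) : t.su.Nonempty := by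
  induction t with
  | leaf x => simp [BT.su]
  | node l r hl hr => exact hl.mono subset_union_left

/-- BRA: the set of the leaves of an optional tree -/
def suO : Option (BT E) → Finset E
  | none => ∅
  | some t => t.su

theorem BRA_suO_joi (a b : Option (BT E)) : suO (joi a b) = suO a ∪ suO b := by
  cases a <;> cases b <;> simp [joi, suO, BT.su]

theorem BRA_suO_re (X : Finset E) (t : BT E) : suO (t.re X) = t.su ∩ X := by
  induction t with
  | leaf x =>
    by_cases h : x ∈ X
    · simp [BT.re, h, suO, BT.su]
    · simp [BT.re, h, suO, BT.su]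
  | node l r hl hr =>
    rw [BT.re, BRA_suO_joi, hl, hr, BT.su, union_inter_distrib_right]

/-- BRA -/
theorem re_none {X : Finset E} {t : BT E} (h : t.re X = none) : t.su ∩ X = ∅ := by
  rw [← BRA_suO_re, h]
  rfl

/-- BRA -/
theorem re_some {X : Finset E} {t t' : BT E} (h : t.re X = some t') : t'.su = t.su ∩ X := by
  rw [← BRA_suO_re, h]
  rfl

theorem BRA_lsO_joi (a b : Option (BT E)) : lsO (joi a b) = lsO a ++ lsO b := by
  cases a <;> cases b <;> simp [joi, lsO, BT.ls]

/-- BRA. The leaves of the two parts are the leaves of the tree. -/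
theorem re_perm {U X : Finset E} {t : BT E} (h : t.su ⊆ U) :
    (lsO (t.re X) ++ lsO (t.re (U \ X))).Perm t.ls := by
  induction t with
  | leaf x =>
    have hx : x ∈ U := by simpa [BT.su] using h
    by_cases h1 : x ∈ X
    · simp [BT.re, h1, lsO, BT.ls]
    · simp [BT.re, h1, hx, lsO, BT.ls]
  | node l r hl hr =>
    have h1 : l.su ⊆ U := subset_union_left.trans h
    have h2 : r.su ⊆ U := subset_union_right.trans h
    have e1 := hl h1
    have e2 := hr h2
    simp only [BT.re, BRA_lsO_joi, BT.ls]
    refine List.Perm.trans ?_ (e1.append e2)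
    simp only [List.append_assoc]
    refine List.Perm.append_left _ ?_
    rw [← List.append_assoc, ← List.append_assoc]
    exact List.Perm.append_right _ List.perm_append_comm

/-- BRA. The set of every subtree of the restriction is the restriction of the set of a subtree. -/
theorem re_all {X : Finset E} {P : Finset E → Prop} {t t' : BT E} (h : t.re X = some t')
    (ha : t.All fun g => P (g ∩ X)) : t'.All P := by
  induction t generalizing t' with
  | leaf x =>
    by_cases h1 : x ∈ X
    · simp only [BT.re, h1, if_true, Option.some.injEq] at h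
      subst h
      have h2 : P ({x} ∩ X) := ha
      rwa [inter_eq_left.2 (singleton_subset_iff.2 h1)] at h2
    · simp [BT.re, h1] at h
  | node l r hl hr =>
    obtain ⟨h1, h2, h3⟩ := ha
    rcases hL : l.re X with _ | l' <;> rcases hR : r.re X with _ | r'
    · simp [BT.re, hL, hR, joi] at h
    · simp only [BT.re, hL, hR, joi, Option.some.injEq] at h
      subst h
      exact hr hR h3
    · simp only [BT.re, hL, hR, joi, Option.some.injEq] at h
      subst h
      exact hl hL h2
    · simp only [BT.re, hL, hR, joi, Option.some.injEq] at h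
      subst h
      refine ⟨?_, hl hL h2, hr hR h3⟩
      rw [re_some hL, re_some hR, ← union_inter_distrib_right]
      exact h1

/-- BRA -/
theorem all_mono {P P' : Finset E → Prop} (h : ∀ g, P g → P' g) {t : BT E} (ha : t.All P) : t.All P' := by
  induction t with
  | leaf x => exact h _ ha
  | node l r hl hr => exact ⟨h _ ha.1, hl ha.2.1, hr ha.2.2⟩

/-- BRA. For every subtree set `g`: `P` and `g ⊆ t.su`. -/
theorem all_sub {t : BT E} : t.All fun g => g ⊆ t.su ∧ g.Nonempty := by
  induction t with
  | leaf x => exact ⟨Subset.refl _, singleton_nonempty x⟩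
  | node l r hl hr =>
    refine ⟨⟨Subset.refl _, (su_nonempty l).mono subset_union_left⟩, ?_, ?_⟩
    · exact all_mono (fun g hg => ⟨hg.1.trans subset_union_left, hg.2⟩) hl
    · exact all_mono (fun g hg => ⟨hg.1.trans subset_union_right, hg.2⟩) hr

theorem all_and {P P' : Finset E → Prop} {t : BT E} (h : t.All P) (h' : t.All P') :
    t.All fun g => P g ∧ P' g := by
  induction t with
  | leaf x => exact ⟨h, h'⟩
  | node l r hl hr => exact ⟨⟨h.1, h'.1⟩, hl h.2.1 h'.2.1, hr h.2.2 h'.2.2⟩

end Pool.Agent.BWN
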