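import Pool.Agent.Lib_MP_001f0c_ag.Rank

/-!
# Branch decompositions (definitions)
-/

set_option autoImplicit false

open Finset

namespace Pool.Agent.BWN

variable {E : Type} [DecidableEq E]

/-- the number of the leaves -/
def BT.nl {F : Type} : BT F → ℕ
  | .leaf _ => 1
  | .node l r => l.nl + r.nl

/-- `s` is a subtree of `t`, and all edges above `s` in `t` (including the top edge of `t` if `s ≠ t`) have width
at least `j` -/
inductive BLk (lm : Finset E → ℤ) (j : ℤ) : BT E → BT E → Prop
  | here (t : BT E) : BLk lm j t t
  | left (s l r : BT E) : BLk lm j s l → j ≤ lm (l.su ∪ r.su) → BLk lm j s (.node l r)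
  | right (s l r : BT E) : BLk lm j s r → j ≤ lm (l.su ∪ r.su) → BLk lm j s (.node l r)

/-- linked branch decompositions (for pairs of edges on a path to the root, of equal width which is the minimum of the
path) -/
def LinkedT (lm : Finset E → ℤ) : BT E → Prop
  | .leaf _ => True
  | .node l r => (∀ s, BLk lm (lm (l.su ∪ r.su)) s (.node l r) → lm s.su = lm (l.su ∪ r.su) →
      ∀ X, s.su ⊆ X → X ⊆ l.su ∪ r.su → lm (l.su ∪ r.su) ≤ lm X) ∧ LinkedT lm l ∧ LinkedT lm r

/-- the bracket `[k ≤ lm X]` -/
def br (lm : Finset E → ℤ) (k : ℕ) (X : Finset E) : ℕ := if (k : ℤ) ≤ lm X then 1 else 0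

/-- the number of the edges of width `≥ k` -/
def Nk (lm : Finset E → ℤ) (k : ℕ) : BT E → ℕ
  | .leaf x => br lm k {x}
  | .node l r => br lm k (l.su ∪ r.su) + Nk lm k l + Nk lm k r

/-- the sum over the vertices of the number of the edges of width `≥ k` at the vertex, minus 1 (if it is not 0) -/
def Qk (lm : Finset E → ℤ) (k : ℕ) : BT E → ℕ
  | .leaf _ => 0
  | .node l r => (br lm k (l.su ∪ r.su) + br lm k l.su + br lm k r.su - 1) + Qk lm k l + Qk lm k r

/-- `t'` is better than `t`: lexicographic comparison of `(N_w, Q_w, N_{w-1}, Q_{w-1}, …)` (in a strong sense) -/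
def Bet (lm : Finset E → ℤ) (w : ℕ) (t' t : BT E) : Prop :=
  ∃ k₀ ≤ w, (∀ k, k₀ < k → Nk lm k t' ≤ Nk lm k t ∧ Qk lm k t' ≤ Qk lm k t) ∧
    (Nk lm k₀ t' < Nk lm k₀ t ∨ (Nk lm k₀ t' ≤ Nk lm k₀ t ∧ Qk lm k₀ t' < Qk lm k₀ t))

/-- the node with children `t`, `y` (in one of the two orders) -/
def mk (b : Bool) (t y : BT E) : BT E := if b then .node y t else .node t y

/-- put the tree `e` into a context (a path of side branches, from `e` upwards) -/
def plug (e : BT E) : List (Bool × BT E) → BT E
  | [] => e
  | (b, y) :: ps => plug (mk b e y) ps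

/-- join two optional trees -/
def joi : Option (BT E) → Option (BT E) → Option (BT E)
  | none, o => o
  | some a, none => some a
  | some a, some b => some (.node a b)

/-- restriction of a tree to the leaves in `X` -/
def BT.re (X : Finset E) : BT E → Option (BT E)
  | .leaf x => if x ∈ X then some (.leaf x) else none
  | .node l r => joi (l.re X) (r.re X)

/-- put `u` into the context restricted to `X` -/
def plr (X : Finset E) (u : BT E) : List (Bool × BT E) → BT E
  | [] => u
  | (b, y) :: ps => match y.re X with
    | none => plr X u ps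
    | some y' => plr X (mk b u y') ps

/-- the new tree: `e` in the context restricted to `X`, and this in the context restricted to the complement -/
def mv (U X : Finset E) (e : BT E) (ps : List (Bool × BT E)) : BT E :=
  plr (U \ X) (plr X e ps) ps

/-- the union of the leaves of the side branches -/
def sup (ps : List (Bool × BT E)) : Finset E :=
  match ps with
  | [] => ∅
  | (_, y) :: ps => y.su ∪ sup ps

/-- `P` holds for all the sets of the path: `g`, `g ∪ y₁`, `g ∪ y₁ ∪ y₂`, … -/
def PAll (P : Finset E → Prop) (g : Finset E) : List (Bool × BT E) → Prop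
  | [] => P g
  | (_, y) :: ps => P g ∧ PAll P (g ∪ y.su) ps

/-- `P` holds for the sets of all subtrees of all side branches -/
def SAll (P : Finset E → Prop) (ps : List (Bool × BT E)) : Prop :=
  ∀ q ∈ ps, q.2.All P

/-- the number of the subtrees which are cut by `X` -/
def cu (X : Finset E) : BT E → ℕ
  | .leaf _ => 0
  | .node l r => (if ((l.su ∪ r.su) ∩ X).Nonempty ∧ ((l.su ∪ r.su) \ X).Nonempty then 1 else 0) +
      cu X l + cu X r

/-- the number of the subtrees of the side branches which are cut by `X` -/
def cup (X : Finset E) (ps : List (Bool × BT E)) : ℕ := (ps.map fun q => cu X q.2).sum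

end Pool.Agent.BWN
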