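import Mathlib

/-!
# Piece GRA: leading monomials and renaming of the variables
-/

set_option autoImplicit false

open Finset MvPolynomial

namespace Pool.Agent.BWN

universe u

/-- GRA. A strictly monotone renaming of the variables is strictly monotone on the monomials (lexicographic order). -/
theorem lex_mapDomain {σ τ : Type} [LinearOrder σ] [WellFoundedGT σ] [LinearOrder τ] [WellFoundedGT τ]
    {ε : σ → τ} (hε : StrictMono ε) {a b : σ →₀ ℕ}
    (h : MonomialOrder.lex.toSyn a < MonomialOrder.lex.toSyn b) :
    (MonomialOrder.lex (σ := τ)).toSyn (a.mapDomain ε) < MonomialOrder.lex.toSyn (b.mapDomain ε) := by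
  rw [MonomialOrder.lex_lt_iff, Finsupp.Lex.lt_iff] at h
  obtain ⟨i, hi1, hi2⟩ := h
  simp only [ofLex_toLex] at hi1 hi2
  rw [MonomialOrder.lex_lt_iff, Finsupp.Lex.lt_iff]
  refine ⟨ε i, fun j hj => ?_, ?_⟩
  · simp only [ofLex_toLex]
    by_cases hr : j ∈ Set.range ε
    · obtain ⟨j', rfl⟩ := hr
      rw [Finsupp.mapDomain_apply hε.injective, Finsupp.mapDomain_apply hε.injective]
      exact hi1 j' (hε.lt_iff_lt.1 hj)
    · rw [Finsupp.mapDomain_of_notMem_range _ _ hr, Finsupp.mapDomain_of_notMem_range _ _ hr]
  · simp only [ofLex_toLex]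
    rw [Finsupp.mapDomain_apply hε.injective, Finsupp.mapDomain_apply hε.injective]
    exact hi2

/-- GRA. So the leading monomial of the renamed polynomial is the renamed leading monomial. (The support of `rename ε F` is the
image of the support of `F`, as `ε` is injective.) -/
theorem degree_rename {k : Type u} [Field k] {σ τ : Type} [LinearOrder σ] [WellFoundedGT σ] [LinearOrder τ]
    [WellFoundedGT τ] {ε : σ → τ} (hε : StrictMono ε) (F : MvPolynomial σ k) :
    (MonomialOrder.lex (σ := τ)).degree (rename ε F) = ((MonomialOrder.lex (σ := σ)).degree F).mapDomain ε := by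
  classical
  by_cases hF : F = 0
  · subst hF
    simp
  have hle : ∀ {a b : σ →₀ ℕ}, (MonomialOrder.lex (σ := σ)).toSyn a ≤ MonomialOrder.lex.toSyn b →
      (MonomialOrder.lex (σ := τ)).toSyn (a.mapDomain ε) ≤ MonomialOrder.lex.toSyn (b.mapDomain ε) := by
    intro a b hab
    rcases eq_or_lt_of_le hab with h | h
    · rw [(MonomialOrder.lex (σ := σ)).toSyn.injective h]
    · exact (lex_mapDomain hε h).le
  apply (MonomialOrder.lex (σ := τ)).toSyn.injective
  apply le_antisymm
  · rw [MonomialOrder.degree_le_iff]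
    intro c hc
    rw [support_rename_of_injective hε.injective, mem_image] at hc
    obtain ⟨b, hb, rfl⟩ := hc
    exact hle (MonomialOrder.le_degree hb)
  · apply MonomialOrder.le_degree
    rw [support_rename_of_injective hε.injective, mem_image]
    exact ⟨_, MonomialOrder.degree_mem_support hF, rfl⟩

/-- GRA. Cancellation of the leading term: if `F ≠ 0`, `G ≠ 0` and the degree of `G` divides that of `F` then there is a
monomial `P = c x^a` with `degree (F - P G) < degree F`, or `F - P G = 0`. -/
theorem cancel {k : Type u} [Field k] {τ : Type} [LinearOrder τ] [WellFoundedGT τ] {F G : MvPolynomial τ k}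
    (hF : F ≠ 0) (hG : G ≠ 0)
    (h : (MonomialOrder.lex (σ := τ)).degree G ≤ (MonomialOrder.lex (σ := τ)).degree F) :
    ∃ P : MvPolynomial τ k, F - P * G = 0 ∨
      (MonomialOrder.lex (σ := τ)).toSyn ((MonomialOrder.lex (σ := τ)).degree (F - P * G)) <
        (MonomialOrder.lex (σ := τ)).toSyn ((MonomialOrder.lex (σ := τ)).degree F) := by
  have hlc : IsUnit ((MonomialOrder.lex (σ := τ)).leadingCoeff G) := by
    rw [isUnit_iff_ne_zero]
    exact MonomialOrder.leadingCoeff_ne_zero_iff.2 hG
  by_cases h0 : (MonomialOrder.lex (σ := τ)).degree F = 0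
  · have h1 : (MonomialOrder.lex (σ := τ)).degree G = 0 := by
      rw [h0] at h
      exact le_antisymm h (zero_le)
    refine ⟨C ((MonomialOrder.lex (σ := τ)).leadingCoeff F / (MonomialOrder.lex (σ := τ)).leadingCoeff G), Or.inl ?_⟩
    have hF' := MonomialOrder.eq_C_of_degree_eq_zero h0
    have hG' := MonomialOrder.eq_C_of_degree_eq_zero h1
    have h2 : C ((MonomialOrder.lex (σ := τ)).leadingCoeff F / (MonomialOrder.lex (σ := τ)).leadingCoeff G) * G = F := by
      conv_rhs => rw [hF']
      conv_lhs =>
        rw [hG']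
      rw [← C_mul]
      congr 1
      have h3 : (MonomialOrder.lex (σ := τ)).leadingCoeff
          (C ((MonomialOrder.lex (σ := τ)).leadingCoeff G) : MvPolynomial τ k) =
          (MonomialOrder.lex (σ := τ)).leadingCoeff G := MonomialOrder.leadingCoeff_C _ 
      rw [h3]
      exact div_mul_cancel₀ _ (isUnit_iff_ne_zero.1 hlc)
    rw [h2, sub_self]
  · exact ⟨_, Or.inr (MonomialOrder.degree_reduce_lt hlc h h0)⟩

end Pool.Agent.BWN
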