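import Pool.Agent.Lib_MP_001f0c_ag.WQA

/-!
# Piece WQB: trees with labels in a well-quasi-order are well-quasi-ordered by gap embeddings
-/

set_option autoImplicit false

open Finset

namespace Pool.Agent.BWN

universe u

variable {Γ : Type} {M : Type u}

/-- the equality on a finite type is a well-quasi-order -/
theorem WQB_eq_wqo [Finite Γ] : WellQuasiOrdered (α := Γ) (· = ·) :=
  Finite.wellQuasiOrdered _

/-- a pair of nodes with equal colours, comparable labels and comparable children -/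
theorem WQB_pair [Finite Γ] [Preorder M] (lv : Γ → ℕ) (hM : WellQuasiOrdered (α := M) (· ≤ ·))
    (G : Set (Tr Γ M)) (hG : G.PartiallyWellOrderedOn (Le lv)) (c : ℕ → Γ) (m : ℕ → M)
    (l r : ℕ → Tr Γ M) (hl : ∀ n, l n ∈ G) (hr : ∀ n, r n ∈ G) :
    ∃ a b, a < b ∧ c a = c b ∧ m a ≤ m b ∧ Le lv (l a) (l b) ∧ Le lv (r a) (r b) := by
  haveI := le_preorder (M := M) lv
  obtain ⟨g1, h1⟩ := (WQB_eq_wqo (Γ := Γ)).exists_monotone_subseq c
  obtain ⟨g2, h2⟩ := hM.exists_monotone_subseq (fun n => m (g1 n))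
  obtain ⟨g3, h3⟩ := hG.exists_monotone_subseq (f := fun n => l (g1 (g2 n))) (fun n => hl _)
  obtain ⟨a, b, hab, h4⟩ := hG.exists_lt (f := fun n => r (g1 (g2 (g3 n)))) (fun n => hr _)
  have h3' : g3 a < g3 b := g3.strictMono hab
  have h2' : g2 (g3 a) < g2 (g3 b) := g2.strictMono h3'
  have h1' : g1 (g2 (g3 a)) < g1 (g2 (g3 b)) := g1.strictMono h2'
  exact ⟨g1 (g2 (g3 a)), g1 (g2 (g3 b)), h1', h1 _ _ h2'.le, h2 _ _ h3'.le, h3 _ _ hab.le, h4⟩

/-- WQB. The trees of level `j` in `Gen lv j Q`, if `Q` is well-quasi-ordered and the theorem is known for `j + 1`.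

Proof. Suppose not. Let `f` be a minimal bad sequence (`Set.PartiallyWellOrderedOn.exists_min_bad_of_exists_bad` with
`rk = Tr.sz`) in `A = {t | Gen lv j Q t ∧ lv t.col = j}`. Let `D` be the set of the `s ∈ A` which are proper subtrees of some
`f n` (`Prs lv j s (f n)`). `D` is well-quasi-ordered: if `g` is a bad sequence in `D`, `g k` a proper subtree of
`f (n k)`, choose `k₀` with `n k₀` minimal and consider `f 0, …, f (n k₀ - 1), g k₀, g (k₀ + 1), …`. It is in `A`, and it is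
bad: `f m ≤ g k` with `m < n k₀ ≤ n k` implies `f m ≤ f (n k)` (`em_prs`; the levels are all `j`). This contradicts the
minimality of `f` at `n k₀` (`prs_sz`). Let `Q' = Q ∪ D` (`Set.PartiallyWellOrderedOn.union`). There is an `N` with
`f n ∉ Q` for all `n ≥ N` (`Set.PartiallyWellOrderedOn.exists_notMem_of_gt`). So `f n = node c m l r` with
`l, r ∈ Gen lv j Q` for `n ≥ N`, proper subtrees of `f n` and so in `Gen lv (j + 1) Q'` (`gen_prs`). By `ih` (for `Q'`), `hM`,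
finiteness of `Γ` and the lemma on products there are `N ≤ n < n'` with equal colours, `m ≤ m'`, `Le l l'`, `Le r r'`.
So `Le (f n) (f n')` by `Em.node`: a contradiction. -/
theorem wq_level [Finite Γ] [Preorder M] (lv : Γ → ℕ) (hM : WellQuasiOrdered (α := M) (· ≤ ·)) (j : ℕ)
    (ih : ∀ Q : Set (Tr Γ M), Q.PartiallyWellOrderedOn (Le lv) →
      {t | Gen lv (j + 1) Q t}.PartiallyWellOrderedOn (Le lv))
    (Q : Set (Tr Γ M)) (hQ : Q.PartiallyWellOrderedOn (Le lv)) :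
    {t | Gen lv j Q t ∧ lv t.col = j}.PartiallyWellOrderedOn (Le lv) := by
  by_contra hcon
  obtain ⟨A, hA⟩ : ∃ A : Set (Tr Γ M), A = {t | Gen lv j Q t ∧ lv t.col = j} := ⟨_, rfl⟩
  have hAm : ∀ t, t ∈ A ↔ (Gen lv j Q t ∧ lv t.col = j) := by
    intro t
    rw [hA]
    rfl
  rw [← hA, Set.PartiallyWellOrderedOn.iff_forall_not_isBadSeq] at hcon
  push Not at hcon
  obtain ⟨f, hf, hmin⟩ :=
    Set.PartiallyWellOrderedOn.exists_min_bad_of_exists_bad (Le lv) Tr.sz A hcon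
  obtain ⟨hfA, hfbad⟩ := hf
  -- the proper subtrees
  obtain ⟨D, hD⟩ : ∃ D : Set (Tr Γ M), ∀ s, s ∈ D ↔ (s ∈ A ∧ ∃ n, Prs lv j s (f n)) :=
    ⟨{s | s ∈ A ∧ ∃ n, Prs lv j s (f n)}, fun s => Iff.rfl⟩
  have hDwq : D.PartiallyWellOrderedOn (Le lv) := by
    rw [Set.PartiallyWellOrderedOn.iff_forall_not_isBadSeq]
    rintro g ⟨hgD, hgbad⟩
    have hn : ∀ k, ∃ n, Prs lv j (g k) (f n) := fun k => ((hD _).1 (hgD k)).2
    choose n hn using hn
    obtain ⟨k₀, hk₀⟩ : ∃ k₀, ∀ k, n k₀ ≤ n k := by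
      have hne : (Set.range n).Nonempty := ⟨n 0, 0, rfl⟩
      obtain ⟨k₀, hk₀⟩ := Nat.sInf_mem hne
      exact ⟨k₀, fun k => by rw [hk₀]; exact Nat.sInf_le ⟨k, rfl⟩⟩
    obtain ⟨h, hh⟩ : ∃ h : ℕ → Tr Γ M, h = fun i =>
      if i < n k₀ then f i else g (k₀ + (i - n k₀)) := ⟨_, rfl⟩
    have hh1 : ∀ i, i < n k₀ → h i = f i := fun i hi => by rw [hh]; simp only [if_pos hi]
    have hh2 : ∀ i, n k₀ ≤ i → h i = g (k₀ + (i - n k₀)) := fun i hi => by
      rw [hh]; simp only [if_neg (not_lt.2 hi)]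
    refine hmin (n k₀) h (fun i hi => (hh1 i hi).symm) ?_ ⟨?_, ?_⟩
    · rw [hh2 _ le_rfl, Nat.sub_self, Nat.add_zero]
      exact prs_sz (hn k₀)
    · intro i
      by_cases hi : i < n k₀
      · rw [hh1 i hi]
        exact hfA i
      · rw [hh2 i (not_lt.1 hi)]
        exact ((hD _).1 (hgD _)).1
    · intro a b hab hle
      by_cases hb : b < n k₀
      · rw [hh1 a (by omega), hh1 b hb] at hle
        exact hfbad a b hab hle
      · by_cases ha : a < n k₀
        · rw [hh1 a ha, hh2 b (not_lt.1 hb)] at hle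
          have h1 := ((hAm _).1 (hfA a)).2
          have h2 := hn (k₀ + (b - n k₀))
          have h3 := em_prs hle.1 h1 h2
          have h4 := hk₀ (k₀ + (b - n k₀))
          refine hfbad a (n (k₀ + (b - n k₀))) (by omega) ⟨h3, ?_⟩
          rw [h1, ((hAm _).1 (hfA _)).2]
        · rw [hh2 a (not_lt.1 ha), hh2 b (not_lt.1 hb)] at hle
          exact hgbad _ _ (by omega) hle
  have hQ' : (Q ∪ D).PartiallyWellOrderedOn (Le lv) := hQ.union hDwq
  have hG := ih (Q ∪ D) hQ'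
  obtain ⟨N, hN⟩ := hQ.exists_notMem_of_gt (f := f) hfbad
  have hnode : ∀ i, ∃ (c : Γ) (m : M) (l r : Tr Γ M), f (N + 1 + i) = .node c m l r ∧
      Gen lv (j + 1) (Q ∪ D) l ∧ Gen lv (j + 1) (Q ∪ D) r := by
    intro i
    have h1 := hN (N + 1 + i) (by omega)
    have h2 := ((hAm _).1 (hfA (N + 1 + i))).1
    obtain ⟨t, ht⟩ : ∃ t, t = f (N + 1 + i) := ⟨_, rfl⟩
    rw [← ht] at h1 h2 ⊢
    cases h2 with
    | base _ h => exact absurd h h1
    | node c m l r hl hr hc =>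
      have hsub : ∀ s, Prs lv j s (.node c m l r) → Gen lv j Q s → lv s.col = j → s ∈ Q ∪ D := by
        intro s hs1 hs2 hs3
        refine Or.inr ((hD s).2 ⟨(hAm s).2 ⟨hs2, hs3⟩, N + 1 + i, ?_⟩)
        rw [← ht]
        exact hs1
      exact ⟨c, m, l, r, rfl, gen_prs Set.subset_union_left hsub hl (Prs.lft c m l r hc),
        gen_prs Set.subset_union_left hsub hr (Prs.rgt c m l r hc)⟩
  choose c m l r hnode hlG hrG using hnode
  obtain ⟨a, b, hab, h1, h2, h3, h4⟩ := WQB_pair lv hM _ hG c m l r hlG hrG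
  refine hfbad (N + 1 + a) (N + 1 + b) (by omega) ?_
  rw [hnode a, hnode b, h1]
  exact ⟨Em.node (c b) (m a) (m b) (l a) (r a) (l b) (r b) h2 h3.1 h4.1 h3.2 h4.2, rfl⟩

/-- WQB. Downward induction on `j` (`Γ` is finite, so `lv c < J` for some `J`; `gen_top`). Step: `wq_level`, and `gen_succ` for
`Q' = Q ∪ {t | Gen lv j Q t ∧ lv t.col = j}`. -/
theorem wq_gen [Finite Γ] [Preorder M] (lv : Γ → ℕ) (hM : WellQuasiOrdered (α := M) (· ≤ ·)) (j : ℕ)
    (Q : Set (Tr Γ M)) (hQ : Q.PartiallyWellOrderedOn (Le lv)) :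
    {t | Gen lv j Q t}.PartiallyWellOrderedOn (Le lv) := by
  obtain ⟨J, hJ⟩ : ∃ J, ∀ c, lv c < J := by
    haveI := Fintype.ofFinite Γ
    refine ⟨(∑ c, lv c) + 1, fun c => Nat.lt_succ_of_le ?_⟩
    exact Finset.single_le_sum (f := lv) (fun _ _ => Nat.zero_le _) (Finset.mem_univ c)
  have key : ∀ d j, J ≤ j + d → ∀ Q : Set (Tr Γ M), Q.PartiallyWellOrderedOn (Le lv) →
      {t | Gen lv j Q t}.PartiallyWellOrderedOn (Le lv) := by
    intro d
    induction d with
    | zero =>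
      intro j hj Q hQ
      refine hQ.mono ?_
      intro t ht
      have h1 : Gen lv j Q t := ht
      rw [gen_top (fun c => (hJ c).trans_le (by omega)) Q] at h1
      exact h1
    | succ d ihd =>
      intro j hj Q hQ
      have ih : ∀ Q : Set (Tr Γ M), Q.PartiallyWellOrderedOn (Le lv) →
          {t | Gen lv (j + 1) Q t}.PartiallyWellOrderedOn (Le lv) := ihd (j + 1) (by omega)
      have h1 := wq_level lv hM j ih Q hQ
      refine (ih _ (hQ.union h1)).mono ?_
      intro t ht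
      exact gen_succ (Q' := Q ∪ {t | Gen lv j Q t ∧ lv t.col = j}) Set.subset_union_left
        (fun s hs1 hs2 => Or.inr ⟨hs1, hs2⟩) ht
  exact key J j (by omega) Q hQ

/-- WQB. `wq_gen` for `j = 0` and the set of the leaves (`gen_zero`), which is well-quasi-ordered: finitely many colours, and
labels in `M`. -/
theorem wqo_tree [Finite Γ] [Preorder M] (lv : Γ → ℕ) (hM : WellQuasiOrdered (α := M) (· ≤ ·))
    (f : ℕ → Tr Γ M) : ∃ i j, i < j ∧ Em lv (· ≤ ·) (f i) (f j) ∧ lv (f i).col = lv (f j).col := by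
  have hleaf : {s : Tr Γ M | ∃ c m, s = Tr.leaf c m}.PartiallyWellOrderedOn (Le lv) := by
    rw [Set.partiallyWellOrderedOn_iff_exists_lt]
    intro g hg
    have hg' : ∀ n, ∃ (c : Γ) (m : M), g n = Tr.leaf c m := hg
    choose c m hcm using hg'
    obtain ⟨g1, h1⟩ := (WQB_eq_wqo (Γ := Γ)).exists_monotone_subseq c
    obtain ⟨a, b, hab, h2⟩ := hM (fun n => m (g1 n))
    refine ⟨g1 a, g1 b, g1.strictMono hab, ?_⟩
    rw [hcm, hcm, h1 a b hab.le]
    exact ⟨Em.leaf _ _ _ h2, rfl⟩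
  have h := wq_gen lv hM 0 _ hleaf
  obtain ⟨a, b, hab, h1⟩ := h.exists_lt (f := f) (fun n => gen_zero lv (f n))
  exact ⟨a, b, hab, h1.1, h1.2⟩

end Pool.Agent.BWN
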