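import Pool.Agent.Lib_MP_001f0c_ag.VAR
import Pool.Agent.Lib_MP_001f0c_ag.WQB
import Pool.Agent.Lib_MP_001f0c_ag.GRA

/-!
# Piece GRB: the leading monomial argument
-/

set_option autoImplicit false

open Finset MvPolynomial

namespace Pool.Agent.BWN

universe u

variable {Γ : Type} {ι : Type} {lv : Γ → ℕ}

theorem measure_wf_grb {k : Type u} [Field k] [Finite ι] [LinearOrder ι] (S : Tr Γ Unit) :
    WellFounded (fun G H : MvPolynomial (Va ι S) k =>
      (MonomialOrder.lex (σ := Va ι S)).toSyn ((MonomialOrder.lex (σ := Va ι S)).degree G) <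
        (MonomialOrder.lex (σ := Va ι S)).toSyn ((MonomialOrder.lex (σ := Va ι S)).degree H)) :=
  InvImage.wf (fun G : MvPolynomial (Va ι S) k =>
    (MonomialOrder.lex (σ := Va ι S)).toSyn ((MonomialOrder.lex (σ := Va ι S)).degree G)) wellFounded_lt

/-- GRB. Bad sequences of polynomials and points do not exist.

Proof. Suppose not. Choose a linear order on `ι` (`Finite`). For every `j` let `P j` be the set of the polynomials `F` with
`F (q j) ≠ 0` and `F (q l ∘ ε) = 0` for all `l > j` and all embeddings `ε` of `T j` into `T l` (with equal levels of the top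
edges). `F j ∈ P j` by assumption. Choose `G j ∈ P j` with minimal leading monomial `d j` (`MonomialOrder.lex`,
well-founded). Apply `wqo_tree` to the trees `lab (T j) (d j)` with labels in `ι → ℕ` (`WellQuasiOrdered.pi`; the order of
`ι → ℕ` is pointwise): there are `i < j` and by `em_extract` a strictly monotone `ε : Va ι (T i) → Va ι (T j)`, an
embedding, with `d i v ≤ d j (ε v)` for all `v`; so the monomial `(d i).mapDomain ε`, which is the leading monomial of
`rename ε (G i)` (`degree_rename`), divides `d j`. Let `H = G j - P * rename ε (G i)` as in `cancel` (`G i`, `G j` are not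
zero, as they have a non-zero value). `H (q j) = G j (q j) - P (q j) * G i (q j ∘ ε) = G j (q j) ≠ 0`, as `G i ∈ P i`,
`i < j`. So `H ≠ 0`. For `l > j` and an embedding `δ` of `T j` into `T l`: `H (q l ∘ δ) = 0 - P (..) * G i (q l ∘ δ ∘ ε) = 0`
by `em_comp`. So `H ∈ P j` has a smaller leading monomial, a contradiction. -/
theorem grobner {k : Type u} [Field k] [Finite Γ] [Finite ι] (lv : Γ → ℕ) (T : ℕ → Tr Γ Unit)
    (L : ℕ → Type u) [∀ i, Field (L i)] [∀ i, Algebra k (L i)] (q : ∀ i, Va ι (T i) → L i)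
    (F : ∀ i, MvPolynomial (Va ι (T i)) k) (h0 : ∀ i, aeval (q i) (F i) ≠ 0) :
    ∃ i j, i < j ∧ ∃ ε : Va ι (T i) → Va ι (T j), Em lv Eq (lab (T i) ε) (lab (T j) id) ∧
      lv (T i).col = lv (T j).col ∧ aeval (fun v => q j (ε v)) (F i) ≠ 0 := by
  classical
  by_contra hcon
  obtain ⟨n, ⟨eq⟩⟩ := Finite.exists_equiv_fin ι
  letI : LinearOrder ι := LinearOrder.lift' eq eq.injective
  let P : ∀ j, Set (MvPolynomial (Va ι (T j)) k) := fun j =>
    {G | aeval (q j) G ≠ 0 ∧ ∀ l, j < l → ∀ ε : Va ι (T j) → Va ι (T l),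
      Em lv Eq (lab (T j) ε) (lab (T l) id) → lv (T j).col = lv (T l).col →
        aeval (fun v => q l (ε v)) G = 0}
  have hFP : ∀ j, F j ∈ P j := by
    intro j
    refine ⟨h0 j, fun l hl ε hε hlv => ?_⟩
    by_contra h
    exact hcon ⟨j, l, hl, ε, hε, hlv, h⟩
  have hmin : ∀ j, ∃ G ∈ P j, ∀ H ∈ P j,
      ¬ (MonomialOrder.lex (σ := Va ι (T j))).toSyn ((MonomialOrder.lex (σ := Va ι (T j))).degree H) <
        (MonomialOrder.lex (σ := Va ι (T j))).toSyn ((MonomialOrder.lex (σ := Va ι (T j))).degree G) := by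
    intro j
    obtain ⟨G, hG, hG'⟩ := (measure_wf_grb (T j)).has_min (P j) ⟨F j, hFP j⟩
    exact ⟨G, hG, hG'⟩
  choose G hG hGmin using hmin
  obtain ⟨i, j, hij, hem, hlv⟩ := wqo_tree (M := ι → ℕ) lv wellQuasiOrdered_le
    (fun j => lab (T j) fun v => (MonomialOrder.lex (σ := Va ι (T j))).degree (G j) v)
  rw [lab_col, lab_col] at hlv
  obtain ⟨ε, hε, hle, hEm⟩ := em_extract (R := fun a b : ℕ => a ≤ b) (T j) (T i) _ _ hem
  have hGi : G i ≠ 0 := fun h => (hG i).1 (by rw [h, map_zero])
  have hGj : G j ≠ 0 := fun h => (hG j).1 (by rw [h, map_zero])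
  have hren : rename ε (G i) ≠ 0 := by
    rw [Ne, map_eq_zero_iff _ (rename_injective ε hε.injective)]
    exact hGi
  have hdeg : (MonomialOrder.lex (σ := Va ι (T j))).degree (rename ε (G i)) ≤
      (MonomialOrder.lex (σ := Va ι (T j))).degree (G j) := by
    rw [degree_rename hε]
    intro x
    by_cases hx : x ∈ Set.range ε
    · obtain ⟨y, rfl⟩ := hx
      rw [Finsupp.mapDomain_apply hε.injective]
      exact hle y
    · rw [Finsupp.mapDomain_notin_range _ _ hx]
      exact Nat.zero_le _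
  obtain ⟨P0, hP0⟩ := cancel hGj hren hdeg
  have hval : aeval (q j) (G j - P0 * rename ε (G i)) = aeval (q j) (G j) := by
    rw [map_sub, map_mul, aeval_rename]
    have : aeval (q j ∘ ε) (G i) = 0 := (hG i).2 j hij ε hEm hlv
    rw [this, mul_zero, sub_zero]
  rcases hP0 with h | h
  · rw [h, map_zero] at hval
    exact (hG j).1 hval.symm
  · refine hGmin j _ ⟨by rw [hval]; exact (hG j).1, fun l hl δ hδ hlv' => ?_⟩ h
    rw [map_sub, map_mul, aeval_rename, (hG j).2 l hl δ hδ hlv']
    have : aeval ((fun v => q l (δ v)) ∘ ε) (G i) = 0 :=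
      (hG i).2 l (hij.trans hl) (fun v => δ (ε v)) (em_comp hEm hδ) (hlv.trans hlv')
    rw [this, mul_zero, sub_zero]

end Pool.Agent.BWN
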