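import Pool.Agent.Lib_MP_001f0c_ag.STB

/-!
# Piece STT: the structure theorem
-/

set_option autoImplicit false

open Finset

namespace Pool.Agent.BWN

universe u

variable {K : Type u} [Field K] {p : ℕ} {v : ℕ → Fin p → K} {U : Finset ℕ} {w : ℕ}

theorem stt_id {N : ℕ} {e : ℕ → ℕ} (he : StrictMonoOn e (Set.Ico 0 N)) (h : ∀ x < N, e x < N) :
    ∀ x < N, e x = x := by
  have h1 : ∀ x < N, x ≤ e x := by
    intro x
    induction x with
    | zero => intro _; exact Nat.zero_le _
    | succ x ih =>
      intro hx
      have h2 := ih (by omega)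
      have h3 := he (Set.mem_Ico.2 ⟨Nat.zero_le _, by omega⟩) (Set.mem_Ico.2 ⟨Nat.zero_le _, hx⟩)
        (Nat.lt_succ_self x)
      omega
  have h2 : ∀ d x, x + d + 1 = N → e x ≤ x := by
    intro d
    induction d with
    | zero =>
      intro x hx
      have := h x (by omega)
      omega
    | succ d ih =>
      intro x hx
      have h3 := ih (x + 1) (by omega)
      have h4 := he (Set.mem_Ico.2 ⟨Nat.zero_le _, by omega⟩) (Set.mem_Ico.2 ⟨Nat.zero_le _, by omega⟩)
        (Nat.lt_succ_self x)
      have h5 : x < x.succ := Nat.lt_succ_self x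
      have h6 : e x < e (x + 1) := h4
      omega
  intro x hx
  exact le_antisymm (h2 (N - x - 1) x (by omega)) (h1 x hx)

/-- STT. The structure theorem. `build` for the environment with one entry, for the level of the ground set `[0, N)`: the family
of `spn_root`, (linkedness: for the subtrees of level `p % 2` of `t`, the width is `0 ≤ lam X`). Then the whole tree `T`
(`Lk.here`) has the level of this entry and so is a minor of the family, with no contracted and no deleted element, up to a sign.
If the sign is `-1` the sign can be put into the label of the root; or: choose the family in the proof directly. -/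
theorem structure_thm {N : ℕ} (hr : rkf v (Finset.range N) = p) (t : BT ℕ) (hls : t.ls = List.range N)
    (hw : t.All fun g => lam (rkf v) (Finset.range N) g ≤ w)
    (hL : LinkedT (lam (rkf v) (Finset.range N)) t) :
    ∃ (T : Tr (Gm w) (Ix (2 ^ w) → K)) (η : ℤ), (η = 1 ∨ η = -1) ∧ T.nl = N ∧ rk ccG T = p ∧
      Cons lvG ccG T ∧ Good lvG ccG T 0 ∧
      ∀ I ⊆ Finset.range N, (η : K) * ev (2 ^ w) T 0 I ⟨0, Nat.two_pow_pos w⟩ = Dt v I.sort := by
  classical
  have hnl : t.nl = N := by rw [nl_ls, hls, List.length_range]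
  have hls' : t.ls = List.range' 0 t.nl := by rw [hnl, hls, List.range_eq_range']
  have hIco : Finset.Ico 0 (0 + N) = Finset.range N := by
    rw [Nat.zero_add, Nat.Ico_zero_eq_range]
  have hsu : t.su = Finset.range N := by rw [su_Ico hls', hnl, hIco]
  let env : Env K w := fun ℓ => if ℓ = lev2 (rkf v) (Finset.range N) (Finset.range N) then
    some (0, N, fun I s => if s = ⟨0, Nat.two_pow_pos w⟩ then Dt v I.sort else 0) else none
  have henv : EnvOK v (Finset.range N) env t 0 := by
    intro ℓ b n g hg
    have hg' : (if ℓ = lev2 (rkf v) (Finset.range N) (Finset.range N) then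
      some (0, N, fun I s => if s = ⟨0, Nat.two_pow_pos w⟩ then Dt v I.sort else 0) else none :
        Option (ℕ × ℕ × (Finset ℕ → Fin (2 ^ w) → K))) = some (b, n, g) := hg
    split_ifs at hg' with hℓ
    · simp only [Option.some.injEq, Prod.mk.injEq] at hg'
      obtain ⟨rfl, rfl, rfl⟩ := hg'
      rw [hIco]
      refine ⟨⟨le_rfl, by omega, subset_rfl⟩, hℓ.symm, spn_root v _ _, ?_⟩
      intro s _ _ X _ hX
      have h1 : lam (rkf v) (Finset.range N) (Finset.range N) = 0 := by
        unfold lam
        rw [Finset.sdiff_self, (rk_rkf v).zero]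
        ring
      rw [h1]
      exact lam_nonneg (rk_rkf v) hX
  obtain ⟨T, hT1, hT2, hT3, hT4, hT5, hT6, hT7⟩ := build (v := v) (U := Finset.range N) (w := w) t 0 env
    hls' hsu.subset hw hL henv
  have hmi := hT7 _ 0 N _ (if_pos rfl) T 0 (Lk.here T 0) (by rw [hT2, hsu])
  rw [hIco, hT3, hsu, sub_self, hT1, hnl] at hmi
  obtain ⟨e, C, η, hη, he, heC, hC, hcard, hval⟩ := hmi
  have hC0 : C = ∅ := by
    rw [← Finset.card_eq_zero]
    exact_mod_cast hcard
  subst hC0
  have hid := stt_id (N := N) (by simpa using he) (fun x hx => by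
    have := (heC x (by simpa using hx)).1
    simpa using this)
  refine ⟨T, η, hη, by rw [hT1, hnl], by rw [hT3, hsu, hr], hT4, hT6, ?_⟩
  intro I hI
  have h1 := hval I (by rw [hIco]; exact hI) ⟨0, Nat.two_pow_pos w⟩
  have h2 : I.image e = I := by
    ext x
    simp only [Finset.mem_image]
    constructor
    · rintro ⟨y, hy, rfl⟩
      rw [hid y (Finset.mem_range.1 (hI hy))]
      exact hy
    · intro hx
      exact ⟨x, hx, hid x (Finset.mem_range.1 (hI hx))⟩
  have h3 : sg I ∅ = 1 := by
    unfold sg
    simp
  have hsq : (η : K) * (η : K) = 1 := by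
    rcases hη with h | h <;> rw [h] <;> push_cast <;> ring
  rw [h1, h2, h3, Finset.union_empty]
  simp only [if_true]
  push_cast
  linear_combination (Dt v (I.sort fun a b => a ≤ b)) * hsq

end Pool.Agent.BWN
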