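import Pool.Agent.Lib_MP_001f0c_ag.PLY
import Pool.Agent.Lib_MP_001f0c_ag.STT
import Pool.Agent.Lib_MP_001f0c_ag.GRB

/-!
# Piece COR: no bad sequences of decomposable vectors of bounded branch-width
-/

set_option autoImplicit false

open Finset MvPolynomial

namespace Pool.Agent.BWN

universe u

theorem cor_rk_lab {Γ ι : Type} {X : Type*} (cc : Γ → ℤ) (S : Tr Γ Unit) : ∀ q : Va ι S → X,
    rk cc (lab S q) = rk cc S := by
  induction S with
  | leaf c m => intro q; rfl
  | node c m l r ihl ihr =>
    intro q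
    show rk cc (lab l _) + rk cc (lab r _) - cc c = _
    rw [ihl, ihr]
    rfl

theorem cor_nl_lab {Γ ι : Type} {X : Type*} (S : Tr Γ Unit) : ∀ q : Va ι S → X,
    (lab S q).nl = S.nl := by
  induction S with
  | leaf c m => intro q; rfl
  | node c m l r ihl ihr =>
    intro q
    show (lab l _).nl + (lab r _).nl = _
    rw [ihl, ihr]
    rfl

theorem cor_rk_sh {Γ : Type} {M : Type*} (cc : Γ → ℤ) (t : Tr Γ M) : rk cc t.sh = rk cc t := by
  induction t with
  | leaf c m => rfl
  | node c m l r ihl ihr =>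
    show rk cc l.sh + rk cc r.sh - cc c = _
    rw [ihl, ihr]
    rfl

theorem cor_nl_sh {Γ : Type} {M : Type*} (t : Tr Γ M) : t.sh.nl = t.nl := by
  induction t with
  | leaf c m => rfl
  | node c m l r ihl ihr =>
    show l.sh.nl + r.sh.nl = _
    rw [ihl, ihr]
    rfl

/-- COR. The core theorem: for every sequence of matrices `v i` (with `p i` rows and columns `0, …, N i - 1`, of rank `p i`) over
fields `L i ⊇ k` with linked branch decompositions of width `≤ w` and polynomials `f i` over `k` in the maximal minors, which do not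
vanish for `v i`, there are `i < j` and a minor of `v j` (contract `C`, keep the image of `e`) for which
`f i` does not vanish.

Proof. `structure_thm` gives `T i`, `η i`; `lab_surj`; `poly_of` gives polynomials `F i` with
`F i (q i) = f i (v i) ≠ 0` (`Dt v I.sort`). `grobner` gives `i < j` and `ε` with `F i (q j ∘ ε) ≠ 0`, where by `em_eval`
`s = lab (T i).sh (q j ∘ ε)` is embedded into `T j`, with equal levels. `em_mi` (for the positions `0`, `0`) gives `e`, `C`, `η'`,
`ev s 0 I 0 = η' sg (e I) C ev (T j) 0 (e I ∪ C) 0` for `I ⊆ [0, N i)`, and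
`|C| = rk (T j) - rk s = p j - p i` (`rk` and `nl` of `s` are those of the shape). Finally
`ev (T j) 0 (e I ∪ C) 0 = η j * Dt (v j) (e I ∪ C).sort`. -/
theorem core {k : Type u} [Field k] (w : ℕ) (L : ℕ → Type u) [∀ i, Field (L i)] [∀ i, Algebra k (L i)]
    (N p : ℕ → ℕ) (v : ∀ i, ℕ → Fin (p i) → L i) (hr : ∀ i, rkf (v i) (Finset.range (N i)) = p i)
    (t : ℕ → BT ℕ) (hls : ∀ i, (t i).ls = List.range (N i))
    (hw : ∀ i, (t i).All fun g => lam (rkf (v i)) (Finset.range (N i)) g ≤ w)
    (hL : ∀ i, LinkedT (lam (rkf (v i)) (Finset.range (N i))) (t i))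
    (f : ℕ → MvPolynomial (Finset ℕ) k)
    (hf : ∀ i, aeval (fun I : Finset ℕ => if I ⊆ Finset.range (N i) ∧ I.card = p i then
      Dt (v i) I.sort else 0) (f i) ≠ 0) :
    ∃ i j, i < j ∧ ∃ (e : ℕ → ℕ) (C : Finset ℕ) (η : ℤ), (η = 1 ∨ η = -1) ∧
      StrictMonoOn e (Set.Ico 0 (N i)) ∧ (∀ x < N i, e x < N j ∧ e x ∉ C) ∧ C ⊆ Finset.range (N j) ∧
      C.card + p i = p j ∧
      aeval (fun I : Finset ℕ => if I ⊆ Finset.range (N i) ∧ I.card = p i then
        (η : L j) * ((sg (I.image e) C : ℤ) : L j) * Dt (v j) (I.image e ∪ C).sort else 0) (f i) ≠ 0 := by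
  classical
  choose T η hη hnl hrk hcons hgood hev using fun i => structure_thm (hr i) (t i) (hls i) (hw i) (hL i)
  choose q hq using fun i => lab_surj (T i)
  choose F hF using fun i => poly_of (k := k) (T i).sh (N i) (p i) (η i) (f i)
  have h0 : ∀ i, aeval (q i) (F i) ≠ 0 := by
    intro i
    rw [hF i (L i) (q i), hq i]
    refine fun h => hf i (Eq.trans (congrArg (fun g : Finset ℕ → L i => aeval g (f i)) ?_) h)
    funext I
    split_ifs with hI
    · exact (hev i I hI.1).symm
    · rfl
  obtain ⟨i, j, hij, ε, hε, hlv, hne⟩ := grobner (k := k) lvG (fun i => (T i).sh) L q F h0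
  have hem := em_eval hε (q j)
  rw [hq j] at hem
  have hl : lvG (lab (T i).sh fun v => q j (ε v)).col = lvG (T j).col := by
    rw [lab_col, hlv]
    unfold Tr.sh
    rw [Tr.col_map]
  have hm := em_mi hem hl 0 0 (hgood j) (hcons j)
  have hrks : rk ccG (lab (T i).sh fun v => q j (ε v)) = p i := by
    rw [cor_rk_lab, cor_rk_sh, hrk i]
  have hnls : (lab (T i).sh fun v => q j (ε v)).nl = N i := by
    rw [cor_nl_lab, cor_nl_sh, hnl i]
  rw [hrks, hrk j, hnls, hnl j] at hm
  obtain ⟨e, C, η', hη', he, heC, hC, hcard, hval⟩ := hm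
  rw [hF i (L j) fun v => q j (ε v)] at hne
  have hsq : ((η j : ℤ) : L j) * (η j : ℤ) = 1 := by
    rcases hη j with h | h <;> rw [h] <;> push_cast <;> ring
  refine ⟨i, j, hij, e, C, η i * η' * η j, ?_, by simpa using he, fun x hx => ?_, ?_, ?_, ?_⟩
  · rcases hη i with h1 | h1 <;> rcases hη' with h2 | h2 <;> rcases hη j with h3 | h3 <;>
      rw [h1, h2, h3] <;> norm_num
  · have := heC x (by simpa using hx)
    simpa using this
  · intro x hx
    have := hC hx
    simpa using this
  · omega
  · refine fun h => hne (Eq.trans (congrArg (fun g : Finset ℕ → L j => aeval g (f i)) ?_) h)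
    funext I
    split_ifs with hI
    · have hI' : I ⊆ Finset.Ico 0 (0 + N i) := by
        rw [Nat.zero_add, Nat.Ico_zero_eq_range]
        exact hI.1
      rw [hval I hI']
      have hsub : I.image e ∪ C ⊆ Finset.range (N j) := by
        refine union_subset ?_ ?_
        · intro y hy
          obtain ⟨x, hx, rfl⟩ := mem_image.1 hy
          have := (heC x (hI' hx)).1
          simpa using this
        · intro x hx
          have := hC hx
          simpa using this
      have h1 := hev j (I.image e ∪ C) hsub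
      rw [← h1]
      push_cast
      linear_combination (-(η i : L j) * (η' : L j) * ((sg (I.image e) C : ℤ) : L j) *
        ev (2 ^ w) (T j) 0 (I.image e ∪ C) ⟨0, Nat.two_pow_pos w⟩) * hsq
    · rfl

end Pool.Agent.BWN
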