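import Pool.Agent.Lib_MP_001f0c_ag.Det

/-!
# Piece DVA: determinants of lists of vectors
-/

set_option autoImplicit false

open Finset

namespace Pool.Agent.BWN

universe u

variable {K : Type u} [Field K] {p : ℕ}

/-- the columns of a list -/
noncomputable def dvaCol (l : List (Fin p → K)) (h : l.length = p) : Fin p → Fin p → K :=
  fun j => l.get (j.cast h.symm)

theorem dva_eq {l : List (Fin p → K)} (h : l.length = p) :
    DV l = Matrix.detRowAlternating (dvaCol l h) := by
  unfold DV
  rw [dif_pos h, ← Matrix.det_transpose]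
  rfl

theorem dva_ne {l : List (Fin p → K)} (h : ¬ l.length = p) : DV l = 0 := by
  unfold DV
  rw [dif_neg h]

omit [Field K] in
theorem dva_update (l₁ l₂ : List (Fin p → K)) (x : Fin p → K)
    (h : (l₁ ++ x :: l₂).length = p) (z : Fin p → K) (hz : (l₁ ++ z :: l₂).length = p)
    (hk : l₁.length < p) :
    dvaCol (l₁ ++ x :: l₂) h = Function.update (dvaCol (l₁ ++ z :: l₂) hz) ⟨l₁.length, hk⟩ x := by
  funext j
  unfold dvaCol
  simp only [List.get_eq_getElem, Fin.val_cast]
  rcases lt_trichotomy (j : ℕ) l₁.length with hj | hj | hj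
  · rw [Function.update_of_ne (by intro h'; rw [h'] at hj; exact absurd hj (lt_irrefl _)),
      List.getElem_append_left hj, List.getElem_append_left hj]
  · have : j = ⟨l₁.length, hk⟩ := Fin.ext hj
    subst this
    rw [Function.update_self]
    simp
  · rw [Function.update_of_ne (by intro h'; rw [h'] at hj; exact absurd hj (lt_irrefl _)),
      List.getElem_append_right hj.le, List.getElem_append_right hj.le]
    obtain ⟨k, hk⟩ : ∃ k, (j : ℕ) - l₁.length = k + 1 := ⟨(j : ℕ) - l₁.length - 1, by omega⟩
    simp only [hk, List.getElem_cons_succ]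

/-- DVA. Multilinearity. (Both lengths are the same; `Matrix.det_updateCol_add`, `Matrix.det_updateCol_smul`, or
`MultilinearMap`.) -/
theorem DV_sum {ι : Type} (l₁ l₂ : List (Fin p → K)) (S : Finset ι) (c : ι → K) (u : ι → Fin p → K) :
    DV (l₁ ++ (∑ y ∈ S, c y • u y) :: l₂) = ∑ y ∈ S, c y * DV (l₁ ++ u y :: l₂) := by
  classical
  by_cases h : l₁.length + (l₂.length + 1) = p
  · have hl : ∀ x : Fin p → K, (l₁ ++ x :: l₂).length = p := fun x => by
      rw [List.length_append, List.length_cons, h]
    have hk : l₁.length < p := by omega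
    have key : ∀ x : Fin p → K, DV (l₁ ++ x :: l₂) =
        Matrix.detRowAlternating
          (Function.update (dvaCol (l₁ ++ 0 :: l₂) (hl 0)) ⟨l₁.length, hk⟩ x) := fun x => by
      rw [dva_eq (hl x), dva_update l₁ l₂ x (hl x) 0 (hl 0) hk]
    rw [key]
    simp only [key]
    rw [AlternatingMap.map_update_sum]
    refine Finset.sum_congr rfl fun y _ => ?_
    rw [AlternatingMap.map_update_smul, smul_eq_mul]
  · have hl : ∀ x : Fin p → K, DV (l₁ ++ x :: l₂) = 0 := fun x => dva_ne (by
      rw [List.length_append, List.length_cons]; exact h)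
    simp only [hl, mul_zero, Finset.sum_const_zero]

/-- DVA. Transposition of neighbours. -/
theorem DV_swap (l₁ l₂ : List (Fin p → K)) (x y : Fin p → K) :
    DV (l₁ ++ x :: y :: l₂) = - DV (l₁ ++ y :: x :: l₂) := by
  by_cases h : l₁.length + (l₂.length + 1 + 1) = p
  · have hl : ∀ x y : Fin p → K, (l₁ ++ x :: y :: l₂).length = p := fun x y => by
      rw [List.length_append, List.length_cons, List.length_cons, h]
    have h1 : l₁.length < p := by omega
    have h2 : l₁.length + 1 < p := by omega
    rw [dva_eq (hl x y), dva_eq (hl y x)]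
    have hne : (⟨l₁.length, h1⟩ : Fin p) ≠ ⟨l₁.length + 1, h2⟩ := by
      intro h'
      have := congrArg Fin.val h'
      simp at this
    have hswap : dvaCol (l₁ ++ x :: y :: l₂) (hl x y) =
        dvaCol (l₁ ++ y :: x :: l₂) (hl y x) ∘
          Equiv.swap (⟨l₁.length, h1⟩ : Fin p) ⟨l₁.length + 1, h2⟩ := by
      funext j
      simp only [Function.comp_apply]
      rcases lt_trichotomy (j : ℕ) l₁.length with hj | hj | hj
      · rw [Equiv.swap_apply_of_ne_of_ne
          (by intro h'; rw [h'] at hj; exact absurd hj (lt_irrefl _))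
          (by intro h'; rw [h'] at hj; simp at hj)]
        unfold dvaCol
        simp only [List.get_eq_getElem, Fin.val_cast]
        rw [List.getElem_append_left hj, List.getElem_append_left hj]
      · have : j = ⟨l₁.length, h1⟩ := Fin.ext hj
        subst this
        rw [Equiv.swap_apply_left]
        unfold dvaCol
        simp only [List.get_eq_getElem, Fin.val_cast]
        rw [List.getElem_append_right (by simp), List.getElem_append_right (by simp)]
        simp
      · by_cases hj2 : (j : ℕ) = l₁.length + 1
        · have : j = ⟨l₁.length + 1, h2⟩ := Fin.ext hj2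
          subst this
          rw [Equiv.swap_apply_right]
          unfold dvaCol
          simp only [List.get_eq_getElem, Fin.val_cast]
          rw [List.getElem_append_right (by simp), List.getElem_append_right (by simp)]
          simp
        · rw [Equiv.swap_apply_of_ne_of_ne
            (by intro h'; rw [h'] at hj; exact absurd hj (lt_irrefl _))
            (by intro h'; rw [h'] at hj2; exact hj2 rfl)]
          unfold dvaCol
          simp only [List.get_eq_getElem, Fin.val_cast]
          rw [List.getElem_append_right hj.le, List.getElem_append_right hj.le]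
          obtain ⟨k, hk⟩ : ∃ k, (j : ℕ) - l₁.length = k + 1 + 1 :=
            ⟨(j : ℕ) - l₁.length - 2, by omega⟩
          simp only [hk, List.getElem_cons_succ]
    rw [hswap, AlternatingMap.map_swap _ _ hne]
  · have hl : ∀ x y : Fin p → K, DV (l₁ ++ x :: y :: l₂) = 0 := fun x y => dva_ne (by
      rw [List.length_append, List.length_cons, List.length_cons]; exact h)
    rw [hl, hl, neg_zero]

/-- DVA. Equal columns. -/
theorem DV_dup {l : List (Fin p → K)} (h : ¬ l.Nodup) : DV l = 0 := by
  by_cases hl : l.length = p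
  · rw [dva_eq hl]
    have h1 : ∃ i j : Fin l.length, i ≠ j ∧ l.get i = l.get j := by
      by_contra hcon
      push Not at hcon
      refine h (List.nodup_iff_injective_get.2 fun i j hij => ?_)
      by_contra hne
      exact hcon i j hne hij
    obtain ⟨i, j, hij, he⟩ := h1
    refine AlternatingMap.map_eq_zero_of_eq _ (dvaCol l hl) (i := i.cast hl) (j := j.cast hl) ?_ ?_
    · unfold dvaCol
      simpa using he
    · intro h'
      apply hij
      have := congrArg Fin.val h'
      exact Fin.ext (by simpa using this)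
  · exact dva_ne hl

/-- DVA. Permutations change the determinant by a sign which depends only on the permuted part (the same sign for all `l₁`,
`l₂`). Induction on `List.Perm`, `DV_swap`. -/
theorem DV_perm {E : Type} {m m' : List E} (h : m.Perm m') :
    ∃ η : ℤ, (η = 1 ∨ η = -1) ∧ ∀ (v : E → Fin p → K) (l₁ l₂ : List (Fin p → K)),
      DV (l₁ ++ m.map v ++ l₂) = (η : K) * DV (l₁ ++ m'.map v ++ l₂) := by
  induction h with
  | nil => exact ⟨1, Or.inl rfl, fun v l₁ l₂ => by simp⟩
  | cons x _ ih =>
    obtain ⟨η, hη, ih⟩ := ih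
    refine ⟨η, hη, fun v l₁ l₂ => ?_⟩
    have := ih v (l₁ ++ [v x]) l₂
    simpa using this
  | swap x y l =>
    refine ⟨-1, Or.inr rfl, fun v l₁ l₂ => ?_⟩
    have := DV_swap l₁ (l.map v ++ l₂) (v y) (v x)
    simpa using this
  | trans _ _ ih1 ih2 =>
    obtain ⟨η1, h1, ih1⟩ := ih1
    obtain ⟨η2, h2, ih2⟩ := ih2
    refine ⟨η1 * η2, ?_, fun v l₁ l₂ => ?_⟩
    · rcases h1 with rfl | rfl <;> rcases h2 with rfl | rfl <;> simp
    · rw [ih1, ih2]
      push_cast
      ring

theorem dva_move_one (l₀ l₂ l₃ : List (Fin p → K)) (x : Fin p → K) :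
    DV (l₀ ++ x :: (l₂ ++ l₃)) = (-1) ^ l₂.length * DV (l₀ ++ l₂ ++ x :: l₃) := by
  induction l₂ generalizing l₀ with
  | nil => simp
  | cons y l ih =>
    have h1 := DV_swap l₀ (l ++ l₃) x y
    have h2 := ih (l₀ ++ [y])
    simp only [List.append_assoc, List.cons_append, List.nil_append, List.length_cons] at h1 h2 ⊢
    rw [h1, h2, pow_succ]
    ring

/-- DVA. Move a block: the sign depends only on the lengths. -/
theorem DV_move (l₀ l₁ l₂ l₃ : List (Fin p → K)) :
    DV (l₀ ++ l₁ ++ l₂ ++ l₃) = (-1) ^ (l₁.length * l₂.length) * DV (l₀ ++ l₂ ++ l₁ ++ l₃) := by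
  induction l₁ generalizing l₀ with
  | nil => simp
  | cons x l ih =>
    have h1 := ih (l₀ ++ [x])
    have h2 := dva_move_one l₀ l₂ (l ++ l₃) x
    simp only [List.append_assoc, List.cons_append, List.nil_append, List.length_cons] at h1 h2 ⊢
    rw [h1, h2, ← mul_assoc, ← pow_add]
    congr 2
    ring

end Pool.Agent.BWN
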