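import Pool.Agent.Lib_MP_001f0c_ag.DVA

/-!
# Piece DVB: determinants: Cramer, linear independence
-/

set_option autoImplicit false

open Finset

namespace Pool.Agent.BWN

universe u

variable {K : Type u} [Field K] {p : ℕ}

/-- DVB. Cramer's rule (`Matrix.mulVec_cramer`, `Matrix.cramer_apply`), for a linear functional `φ`. If the length of `l` is
not `p` both sides are `0`. -/
theorem DV_cramer (φ : (Fin p → K) →ₗ[K] K) (x : Fin p → K) (l : List (Fin p → K)) :
    φ x * DV l = ∑ i : Fin l.length, φ (l.get i) * DV (l.set i x) := by
  by_cases h : l.length = p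
  · set M : Matrix (Fin p) (Fin p) K := fun i j => l.get (j.cast h.symm) i with hM
    have h1 : DV l = M.det := by
      unfold DV
      rw [dif_pos h]
    have h2 : ∀ i : Fin p, DV (l.set i x) = M.cramer x i := by
      intro i
      unfold DV
      rw [dif_pos ((List.length_set ..).trans h), Matrix.cramer_apply]
      congr 1
      ext a j
      rw [Matrix.updateCol_apply]
      simp only [List.get_eq_getElem, Fin.val_cast, List.getElem_set]
      by_cases hij : j = i
      · subst hij
        simp
      · have : (i : ℕ) ≠ j := fun hh => hij (Fin.ext hh.symm)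
        simp [hij, this, hM]
    have h3 : M.mulVec (M.cramer x) = M.det • x := Matrix.mulVec_cramer M x
    have h4 : M.mulVec (M.cramer x) = ∑ j, M.cramer x j • l.get (j.cast h.symm) := by
      ext a
      simp only [Matrix.mulVec, dotProduct, Finset.sum_apply, Pi.smul_apply, smul_eq_mul]
      refine Finset.sum_congr rfl fun j _ => ?_
      rw [mul_comm]
    have h5 := congrArg φ (h3.symm.trans h4)
    rw [map_smul, map_sum] at h5
    simp only [map_smul, smul_eq_mul] at h5
    rw [h1, mul_comm, h5]
    rw [← (finCongr h.symm).sum_comp]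
    refine Finset.sum_congr rfl fun i _ => ?_
    rw [← h2, mul_comm]
    rfl
  · have h0 : DV l = 0 := by
      unfold DV
      rw [dif_neg h]
    rw [h0, mul_zero]
    symm
    refine Finset.sum_eq_zero fun i _ => ?_
    have : DV (l.set i x) = 0 := by
      unfold DV
      rw [dif_neg]
      rwa [List.length_set]
    rw [this, mul_zero]

/-- DVB. -/
theorem DVB_Dt_det {E : Type} [LinearOrder E] (v : E → Fin p → K) {J : Finset E} (hc : J.card = p) :
    Dt v J.sort = Matrix.det (fun i j : Fin p => v (J.orderEmbOfFin hc j) i) := by
  unfold Dt DV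
  have hl : (J.sort.map v).length = p := by simp [hc]
  rw [dif_pos hl]
  congr 1
  funext i j
  simp only [List.get_eq_getElem, Fin.val_cast, List.getElem_map, Finset.orderEmbOfFin_apply]
  rfl

/-- DVB. Nonzero determinants mean linear independence. -/
theorem Dt_ne {E : Type} [LinearOrder E] {v : E → Fin p → K} {J : Finset E} :
    Dt v J.sort ≠ 0 ↔ J.card = p ∧ LinearIndepOn K v (J : Set E) := by
  by_cases hc : J.card = p
  · rw [DVB_Dt_det v hc]
    simp only [hc, true_and]
    set M : Matrix (Fin p) (Fin p) K := fun i j : Fin p => v (J.orderEmbOfFin hc j) i with hM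
    have h1 : M.det ≠ 0 ↔ LinearIndependent K M.col := by
      rw [Matrix.linearIndependent_cols_iff_isUnit, Matrix.isUnit_iff_isUnit_det, isUnit_iff_ne_zero]
    rw [h1]
    have h2 : M.col = (fun x : J => v x) ∘ (J.orderIsoOfFin hc).toEquiv := by
      funext j
      ext i
      rfl
    rw [h2, linearIndependent_equiv (J.orderIsoOfFin hc).toEquiv]
    rfl
  · have h0 : Dt v J.sort = 0 := by
      unfold Dt DV
      rw [dif_neg]
      simpa using hc
    simp [h0, hc]

/-- DVB. -/
theorem Dt_det {E : Type} [LinearOrder E] (v : E → Fin p → K) {J : Finset E} (hc : J.card = p) :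
    Dt v J.sort = Matrix.det (fun i j : Fin p => v (J.orderEmbOfFin hc j) i) :=
  DVB_Dt_det v hc

end Pool.Agent.BWN
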