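import Mathlib

/-!
# MP_001f0c_ag: definitions for the statement

The affine infinite Grassmannian `X`, the action of `S_∞`, and the part of `X` of branch-width at most `w`.
-/

set_option autoImplicit false

open Finset

namespace Pool.Agent.BWN

universe u

/-! ## Maya diagrams: the indices of the coordinates -/

/-- Maya diagrams of charge `0`: sets `I` of nonzero integers which contain all `i > m` and no `i < -m`, and exactly `m`
of the `2 m` nonzero integers in `[-m, m]`, for some `m`. They are the sets `J ∪ {p + 1, p + 2, …}` where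
`J ⊆ {-n, …, -1, 1, …, p}` has `p` elements. -/
def IsMaya (I : Set ℤ) : Prop :=
  (0 : ℤ) ∉ I ∧ ∃ m : ℕ, (∀ i : ℤ, (m : ℤ) < i → i ∈ I) ∧ (∀ i : ℤ, i < -(m : ℤ) → i ∉ I) ∧
    (I ∩ Set.Icc (-(m : ℤ)) m).ncard = m

/-- Maya diagrams of charge `0` -/
def Maya : Type := {I : Set ℤ // IsMaya I}

/-- The index set `{-n, …, -1, 1, …, p}` of the basis of `V_{n,p}`. -/
noncomputable def gr (n p : ℕ) : Finset ℤ := (Finset.Icc (-(n : ℤ)) (p : ℤ)).erase 0

theorem isMaya_up {n p : ℕ} {J : Finset ℤ} (hJ : J ⊆ gr n p) (hc : J.card = p) :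
    IsMaya ((J : Set ℤ) ∪ Set.Ioi (p : ℤ)) := by
  have h0 : (0 : ℤ) ∉ J := fun h => by
    have := hJ h
    simp [gr] at this
  have hb : ∀ i ∈ J, -(n : ℤ) ≤ i ∧ i ≤ p := fun i hi => by
    have := hJ hi
    simp only [gr, mem_erase, mem_Icc] at this
    exact this.2
  refine ⟨?_, max n p, ?_, ?_, ?_⟩
  · rintro (h | h)
    · exact h0 h
    · simp only [Set.mem_Ioi] at h
      omega
  · intro i hi
    right
    simp only [Set.mem_Ioi]
    push_cast at hi
    omega
  · rintro i hi (h | h)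
    · have := hb i h
      push_cast at hi
      omega
    · simp only [Set.mem_Ioi] at h
      push_cast at hi
      omega
  · have h1 : ((J : Set ℤ) ∪ Set.Ioi (p : ℤ)) ∩ Set.Icc (-((max n p : ℕ) : ℤ)) ((max n p : ℕ) : ℤ) =
        ((J ∪ Finset.Ioc (p : ℤ) ((max n p : ℕ) : ℤ) : Finset ℤ) : Set ℤ) := by
      ext i
      simp only [Set.mem_inter_iff, Set.mem_union, Finset.mem_coe, Set.mem_Ioi, Set.mem_Icc,
        Finset.coe_union, Finset.coe_Ioc, Set.mem_Ioc]
      constructor
      · rintro ⟨h | h, h2⟩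
        · exact Or.inl h
        · exact Or.inr ⟨h, h2.2⟩
      · rintro (h | h)
        · have := hb i h
          refine ⟨Or.inl h, ?_, ?_⟩ <;> push_cast <;> omega
        · refine ⟨Or.inr h.1, ?_, h.2⟩
          push_cast
          omega
    rw [h1, Set.ncard_coe_finset, Finset.card_union_of_disjoint, hc, Int.card_Ioc]
    · push_cast
      omega
    · rw [Finset.disjoint_left]
      intro i hi h2
      rw [Finset.mem_Ioc] at h2
      have := hb i hi
      omega

/-- The Maya diagram `J ∪ {p + 1, p + 2, …}` of a `p`-subset `J` of `{-n, …, -1, 1, …, p}`. -/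
def up {n p : ℕ} (J : Finset ℤ) (hJ : J ⊆ gr n p) (hc : J.card = p) : Maya :=
  ⟨(J : Set ℤ) ∪ Set.Ioi (p : ℤ), isMaya_up hJ hc⟩

open scoped Classical in
/-- The level `(n, p)` of a point with coordinates `x`: the coordinates of a `p`-vector of `V^*_{n,p}`
(the coordinate of the `p`-subset `J` is its value at `x_{j_1} ∧ … ∧ x_{j_p}`, `j_1 < … < j_p`). The maps between the levels
(`ξ` and `θ`) are compatible with this: `x_{j_1} ∧ … ∧ x_{j_p} ∧ x_{p+1}` for `J ∪ {p + 1}`. -/
noncomputable def lev {K : Type u} [Zero K] (x : Maya → K) (n p : ℕ) (J : Finset ℤ) : K :=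
  if h : J ⊆ gr n p ∧ J.card = p then x (up J h.1 h.2) else 0

/-- The level `(n, p)` is decomposable: there are `p` linear forms (the rows of `A`) whose wedge product it is.
(The zero vector is decomposable.) -/
def Dec {K : Type u} [Field K] (x : Maya → K) (n p : ℕ) : Prop :=
  ∃ A : Fin p → ℤ → K, ∀ (J : Finset ℤ) (_ : J ⊆ gr n p) (hc : J.card = p),
    lev x n p J = Matrix.det (fun i j : Fin p => A i (J.orderEmbOfFin hc j))

/-! ## The action of `S_∞` -/

/-- The permutations in `S_∞`: permutations of the nonzero integers with finite support. -/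
def IsFin (τ : Equiv.Perm ℤ) : Prop := τ 0 = 0 ∧ {i | τ i ≠ i}.Finite

theorem isMaya_image {τ : Equiv.Perm ℤ} (hτ : IsFin τ) {I : Set ℤ} (hI : IsMaya I) : IsMaya (τ '' I) := by
  obtain ⟨h0, m, h1, h2, h3⟩ := hI
  obtain ⟨hτ0, hfin⟩ := hτ
  obtain ⟨M, hM, hM2⟩ : ∃ M : ℕ, m ≤ M ∧ ∀ i : ℤ, τ i ≠ i → -(M : ℤ) ≤ i ∧ i ≤ M := by
    refine ⟨m + ∑ i ∈ hfin.toFinset, i.natAbs, Nat.le_add_right _ _, fun i hi => ?_⟩
    have h4 : i.natAbs ≤ ∑ i ∈ hfin.toFinset, i.natAbs :=
      Finset.single_le_sum (f := fun i : ℤ => i.natAbs) (fun _ _ => Nat.zero_le _)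
        (hfin.mem_toFinset.2 hi)
    omega
  have hmap : ∀ i : ℤ, i ∈ Set.Icc (-(M : ℤ)) M ↔ τ i ∈ Set.Icc (-(M : ℤ)) M := by
    intro i
    by_cases h : τ i = i
    · rw [h]
    · have h5 := hM2 i h
      have h6 : τ (τ i) ≠ τ i := fun h7 => h (τ.injective h7)
      have h8 := hM2 _ h6
      simp only [Set.mem_Icc]
      tauto
  have hfix : ∀ i : ℤ, i ∉ Set.Icc (-(M : ℤ)) M → τ i = i := by
    intro i hi
    by_contra h
    exact hi (hM2 i h)
  have hn : (I ∩ Set.Icc (-(M : ℤ)) M).ncard = M := by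
    have h4 : I ∩ Set.Icc (-(M : ℤ)) M = (I ∩ Set.Icc (-(m : ℤ)) m) ∪ Set.Ioc (m : ℤ) M := by
      ext i
      simp only [Set.mem_inter_iff, Set.mem_Icc, Set.mem_union, Set.mem_Ioc]
      constructor
      · rintro ⟨hi, h5, h6⟩
        by_cases h7 : i ≤ m
        · left
          refine ⟨hi, ?_, h7⟩
          by_contra h8
          exact h2 i (by omega) hi
        · right
          omega
      · rintro (⟨hi, h5, h6⟩ | ⟨h5, h6⟩)
        · refine ⟨hi, ?_, ?_⟩ <;> omega
        · exact ⟨h1 i h5, by omega, h6⟩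
    have h5 : (Set.Ioc (m : ℤ) M).ncard = M - m := by
      rw [← Finset.coe_Ioc, Set.ncard_coe_finset, Int.card_Ioc]
      omega
    rw [h4, Set.ncard_union_eq, h3, h5]
    · omega
    · rw [Set.disjoint_left]
      rintro i ⟨_, hi⟩ hi2
      simp only [Set.mem_Icc] at hi
      simp only [Set.mem_Ioc] at hi2
      omega
  refine ⟨?_, M, ?_, ?_, ?_⟩
  · rintro ⟨i, hi, h4⟩
    rw [← hτ0] at h4
    rw [τ.injective h4] at hi
    exact h0 hi
  · intro i hi
    refine ⟨i, h1 i (by omega), hfix i ?_⟩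
    rw [Set.mem_Icc]
    omega
  · rintro i hi ⟨j, hj, h4⟩
    have h5 : i ∉ Set.Icc (-(M : ℤ)) M := by
      rw [Set.mem_Icc]
      omega
    have h6 : τ i = i := hfix i h5
    have h7 : j = i := τ.injective (h4.trans h6.symm)
    rw [h7] at hj
    exact h2 i (by omega) hj
  · have h4 : τ '' I ∩ Set.Icc (-(M : ℤ)) M = τ '' (I ∩ Set.Icc (-(M : ℤ)) M) := by
      ext i
      constructor
      · rintro ⟨⟨j, hj, rfl⟩, hi⟩
        exact ⟨j, ⟨hj, (hmap j).2 hi⟩, rfl⟩
      · rintro ⟨j, ⟨hj, hj2⟩, rfl⟩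
        exact ⟨⟨j, hj, rfl⟩, (hmap j).1 hj2⟩
    rw [h4, Set.ncard_image_of_injective _ τ.injective, hn]

/-- the image of a Maya diagram -/
def Maya.im (τ : Equiv.Perm ℤ) (hτ : IsFin τ) (I : Maya) : Maya := ⟨τ '' I.1, isMaya_image hτ I.2⟩

/-- The sign of the permutation which sorts `τ (i_1), τ (i_2), …` for `I = {i_1 < i_2 < …}`: `(-1)` to the (finite) number
of inversions of `τ` on `I`. -/
noncomputable def sgn (τ : Equiv.Perm ℤ) (I : Maya) : ℤ :=
  (-1) ^ {x : ℤ × ℤ | x.1 ∈ I.1 ∧ x.2 ∈ I.1 ∧ x.1 < x.2 ∧ τ x.2 < τ x.1}.ncard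

variable (k : Type u) [Field k]

/-- The coordinate ring of the space of all families of coordinates; `k[X]` is its quotient modulo the relations which hold
for decomposable vectors. -/
abbrev Rg : Type u := MvPolynomial Maya k

variable {k}

/-- The action of `σ = τ⁻¹ ∈ S_∞` on the coordinates: `(σ ω) (x_{i_1}, x_{i_2}, …) = ω (x_{τ i_1}, x_{τ i_2}, …)`. -/
noncomputable def actR (τ : Equiv.Perm ℤ) (hτ : IsFin τ) : Rg k →+* Rg k :=
  (MvPolynomial.aeval (R := k) fun I : Maya =>
    ((sgn τ I : ℤ) : Rg k) * MvPolynomial.X (Maya.im τ hτ I)).toRingHom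

/-- The action of `τ⁻¹` on the points. -/
noncomputable def act (τ : Equiv.Perm ℤ) (hτ : IsFin τ) (P : PrimeSpectrum (Rg k)) : PrimeSpectrum (Rg k) :=
  PrimeSpectrum.comap (actR τ hτ) P

/-- stable under `S_∞` -/
def Stable (Z : Set (PrimeSpectrum (Rg k))) : Prop :=
  ∀ (τ : Equiv.Perm ℤ) (hτ : IsFin τ), ∀ P ∈ Z, act τ hτ P ∈ Z

/-- The residue field of a point. -/
abbrev Res (P : PrimeSpectrum (Rg k)) : Type u := FractionRing (Rg k ⧸ P.asIdeal)

/-- The image of an element of a ring in the fraction field of the quotient by an ideal (which is the residue field if the ideal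
is prime). -/
noncomputable def toRes {R : Type u} [CommRing R] (p : Ideal R) (a : R) : FractionRing (R ⧸ p) :=
  algebraMap (R ⧸ p) (FractionRing (R ⧸ p)) (Ideal.Quotient.mk p a)

/-- The coordinates of a point, in the residue field. -/
noncomputable def val (P : PrimeSpectrum (Rg k)) (I : Maya) : Res P :=
  toRes P.asIdeal (MvPolynomial.X I)

variable (k) in
/-- The points of the affine infinite Grassmannian `X`, a closed subset of the spectrum of `k[x_I : I]`. -/
def AG : Set (PrimeSpectrum (Rg k)) :=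
  {P | ∀ n p : ℕ, 1 ≤ n → 1 ≤ p → Dec (val P) n p}

/-! ## Branch-width -/

/-- binary trees with leaves in `E` -/
inductive BT (E : Type) : Type
  | leaf (x : E) : BT E
  | node (l r : BT E) : BT E

/-- the list of the leaves -/
def BT.ls {E : Type} : BT E → List E
  | .leaf x => [x]
  | .node l r => l.ls ++ r.ls

/-- the set of the leaves -/
def BT.su {E : Type} [DecidableEq E] : BT E → Finset E
  | .leaf x => {x}
  | .node l r => l.su ∪ r.su

/-- `P` holds for the set of leaves of every subtree -/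
def BT.All {E : Type} [DecidableEq E] (P : Finset E → Prop) : BT E → Prop
  | .leaf x => P {x}
  | .node l r => P (l.su ∪ r.su) ∧ l.All P ∧ r.All P

open scoped Classical in
/-- The rank of a set `A` of elements in the matroid of the nonzero decomposable vector `ω` (with coordinates `ω J`, `J ⊆ G`):
the largest number of elements of `A` in a basis. -/
noncomputable def rkC {K : Type u} [Zero K] (ω : Finset ℤ → K) (G A : Finset ℤ) : ℕ :=
  (G.powerset.filter fun J => ω J ≠ 0).sup fun J => (J ∩ A).card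

/-- The level `(n, p)` is zero, or it has a branch decomposition (a binary tree whose leaves are the elements of
`{-n, …, -1, 1, …, p}`, every one once) all of whose separations `(A, B)` have `r(A) + r(B) - p ≤ w`, that is: its
matroid has branch-width at most `w + 1` (if the convention is `λ(A) = r(A) + r(B) - r(M) + 1`). -/
def BWle {K : Type u} [Field K] (x : Maya → K) (n p w : ℕ) : Prop :=
  (∀ J, lev x n p J = 0) ∨ ∃ t : BT ℤ, t.ls.Nodup ∧ t.su = gr n p ∧
    t.All fun A => rkC (lev x n p) (gr n p) A + rkC (lev x n p) (gr n p) (gr n p \ A) ≤ p + w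

variable (k) in
/-- The part `X_{≤ w}` of branch-width at most `w` of the affine infinite Grassmannian. -/
def AGw (w : ℕ) : Set (PrimeSpectrum (Rg k)) :=
  {P | P ∈ AG k ∧ ∀ n p : ℕ, 1 ≤ n → 1 ≤ p → BWle (val P) n p w}

end Pool.Agent.BWN
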