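import Pool.Agent.Lib_MP_001f0c_ag.EMB

/-!
# Evaluation of labelled trees; minors (definitions)
-/

set_option autoImplicit false

open Finset

namespace Pool.Agent.BWN

universe u

variable {Γ : Type}

/-- The indices of the labels of a vertex. For an inner node `(x, y, s)` is the coefficient of the product of the functions
`x` and `y` of the children in the function `s`; for a leaf `(b, s)` is the value of the function `s` on the empty set
(`b = false`) or on the set which consists of the leaf (`b = true`). -/
abbrev Ix (D : ℕ) : Type := (Fin D × Fin D × Fin D) ⊕ (Bool × Fin D)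

/-- The family of `D` functions on the subsets of the set `{a, a + 1, …}` of (the positions of) the leaves. -/
def ev {R : Type u} [CommRing R] (D : ℕ) : Tr Γ (Ix D → R) → ℕ → Finset ℕ → Fin D → R
  | .leaf _ m, a, I, s => m (Sum.inr (decide (a ∈ I), s))
  | .node _ m l r, a, I, s => ∑ x : Fin D, ∑ y : Fin D,
      m (Sum.inl (x, y, s)) * (ev D l a I x * ev D r (a + l.nl) I y)

/-- the sign of the permutation which sorts `A, B` (if `A`, `B` are disjoint) -/
def sg (A B : Finset ℕ) : ℤ := ∏ a ∈ A, ∏ b ∈ B, if b < a then -1 else 1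

/-- The family `g` of functions on the subsets of `[a, a + n)` is a (signed) minor of the family `g'` of functions on the
subsets of `[a', a' + n')`: the elements of `C` are contracted, `e` is the embedding of the remaining elements, the
other elements are deleted. `c` is the number of the elements of `C`. -/
def Mi {R : Type u} [CommRing R] {D : ℕ} (g : Finset ℕ → Fin D → R) (a n : ℕ)
    (g' : Finset ℕ → Fin D → R) (a' n' : ℕ) (c : ℤ) : Prop :=
  ∃ (e : ℕ → ℕ) (C : Finset ℕ) (η : ℤ), (η = 1 ∨ η = -1) ∧
    StrictMonoOn e (Set.Ico a (a + n)) ∧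
    (∀ x ∈ Finset.Ico a (a + n), e x ∈ Finset.Ico a' (a' + n') ∧ e x ∉ C) ∧
    C ⊆ Finset.Ico a' (a' + n') ∧ (C.card : ℤ) = c ∧
    ∀ I ⊆ Finset.Ico a (a + n), ∀ s,
      g I s = (η : R) * ((sg (I.image e) C : ℤ) : R) * g' (I.image e ∪ C) s

/-- All linked pairs of subtrees are minors. -/
def Good {R : Type u} [CommRing R] {D : ℕ} (lv : Γ → ℕ) (cc : Γ → ℤ) : Tr Γ (Ix D → R) → ℕ → Prop
  | .leaf _ _, _ => True
  | .node c m l r, a =>
    (∀ s b, Lk lv (lv c) s b (.node c m l r) a → lv s.col = lv c →
      Mi (ev D s b) b s.nl (ev D (.node c m l r) a) a (l.nl + r.nl) (rk cc (.node c m l r) - rk cc s)) ∧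
    Good lv cc l a ∧ Good lv cc r (a + l.nl)

end Pool.Agent.BWN
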