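import Pool.Agent.Lib_MP_001f0c_ag.Rank
import Pool.Agent.Lib_MP_001f0c_ag.Ev

/-!
# Determinants of lists of columns; state spaces (definitions)
-/

set_option autoImplicit false

open Finset

namespace Pool.Agent.BWN

universe u

variable {K : Type u} [Field K] {p : ℕ}

/-- the determinant of the matrix with the columns `l` (`0` if their number is not `p`) -/
noncomputable def DV (l : List (Fin p → K)) : K :=
  if h : l.length = p then Matrix.det (fun i j : Fin p => l.get (j.cast h.symm) i) else 0

/-- the determinant of the columns of `v` with the indices `l` -/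
noncomputable def Dt {E : Type} (v : E → Fin p → K) (l : List E) : K := DV (l.map v)

/-- The state space: spanned by the functions `I ↦ det (I, C, l)` on the subsets `I` of `A`, for lists `l` of elements
of `G`. -/
noncomputable def SS (v : ℕ → Fin p → K) (A C G : Finset ℕ) : Submodule K (Finset ℕ → K) :=
  Submodule.span K {g | ∃ l : List ℕ, (∀ x ∈ l, x ∈ G) ∧
    g = fun I => if I ⊆ A then Dt v (I.sort ++ C.sort ++ l) else 0}

/-- The family `g` (restricted to the subsets of `A`) spans the state space of `A ⊆ U`. -/
def Spn (v : ℕ → Fin p → K) (U A : Finset ℕ) {D : ℕ} (g : Finset ℕ → Fin D → K) : Prop :=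
  Submodule.span K (Set.range fun s : Fin D => fun I : Finset ℕ => if I ⊆ A then g I s else 0) =
    SS v A ∅ (U \ A)

end Pool.Agent.BWN
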