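import Pool.Agent.Lib_MP_001f0c_ag.Tree

/-!
# Piece EMB: simple facts on gap embeddings
-/

set_option autoImplicit false

open Finset

namespace Pool.Agent.BWN

universe u v w

variable {Γ : Type} {M : Type u} {M' : Type v} {M'' : Type w} {lv : Γ → ℕ}

/-- EMB. By cases. -/
theorem em_lv {R : M → M' → Prop} {t : Tr Γ M} {t' : Tr Γ M'} (h : Em lv R t t') :
    lv t.col ≤ lv t'.col := by
  cases h with
  | leaf c m m' h => exact le_rfl
  | node c m m' l r l' r' h hl hr el er => exact le_rfl
  | gapl _ c m l r h hle => exact hle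
  | gapr _ c m l r h hle => exact hle

/-- EMB. Induction on `t`. -/
theorem em_refl {R : M → M → Prop} (hR : ∀ m, R m m) (t : Tr Γ M) : Em lv R t t := by
  induction t with
  | leaf c m => exact Em.leaf c m m (hR m)
  | node c m l r ihl ihr => exact Em.node c m m l r l r (hR m) ihl ihr rfl rfl

/-- EMB. Induction on the second embedding (generalizing `t`), cases on the first one; `em_lv`. -/
theorem em_trans {R₁ : M → M' → Prop} {R₂ : M' → M'' → Prop} {R₃ : M → M'' → Prop}
    (hR : ∀ a b c, R₁ a b → R₂ b c → R₃ a c) {t : Tr Γ M} {t' : Tr Γ M'} {t'' : Tr Γ M''}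
    (h : Em lv R₁ t t') (h' : Em lv R₂ t' t'') : Em lv R₃ t t'' := by
  induction h' generalizing t with
  | leaf c m m' h2 =>
    cases h with
    | leaf _ m0 _ h1 => exact Em.leaf c m0 m' (hR _ _ _ h1 h2)
  | node c m m' l r l' r' h2 hl hr el er ihl ihr =>
    cases h with
    | node _ m0 _ l0 r0 _ _ h1 hl0 hr0 el0 er0 =>
      exact Em.node c m0 m' l0 r0 l' r' (hR _ _ _ h1 h2) (ihl hl0) (ihr hr0) (el0.trans el)
        (er0.trans er)
    | gapl _ _ _ _ _ h1 hle => exact Em.gapl t c m' l' r' (ihl h1) hle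
    | gapr _ _ _ _ _ h1 hle => exact Em.gapr t c m' l' r' (ihr h1) hle
  | gapl t' c m l r h2 hle ih => exact Em.gapl t c m l r (ih h) ((em_lv h).trans hle)
  | gapr t' c m l r h2 hle ih => exact Em.gapr t c m l r (ih h) ((em_lv h).trans hle)

/-- EMB. Labels can be changed. -/
theorem em_map {N : Type*} {N' : Type*} {R : M → M' → Prop} {S : N → N' → Prop} (f : M → N) (g : M' → N')
    (hR : ∀ a b, R a b → S (f a) (g b)) {t : Tr Γ M} {t' : Tr Γ M'} (h : Em lv R t t') :
    Em lv S (t.map f) (t'.map g) := by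
  induction h with
  | leaf c m m' h => exact Em.leaf c _ _ (hR _ _ h)
  | node c m m' l r l' r' h hl hr el er ihl ihr =>
    exact Em.node c _ _ _ _ _ _ (hR _ _ h) ihl ihr (by rw [Tr.col_map, Tr.col_map, el])
      (by rw [Tr.col_map, Tr.col_map, er])
  | gapl t c m l r h hle ih => exact Em.gapl _ c _ _ _ ih (by rw [Tr.col_map]; exact hle)
  | gapr t c m l r h hle ih => exact Em.gapr _ c _ _ _ ih (by rw [Tr.col_map]; exact hle)

/-- EMB. Embedding into a subtree. Induction on `Lk`. -/
theorem em_lk {R : M → M' → Prop} {t : Tr Γ M} {s t' : Tr Γ M'} {b a : ℕ} (h : Em lv R t s)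
    (hl : Lk lv (lv t.col) s b t' a) : Em lv R t t' := by
  induction hl with
  | here => exact h
  | left c m l r a _ hle ih => exact Em.gapl _ c m _ _ ih hle
  | right c m l r a _ hle ih => exact Em.gapr _ c m _ _ ih hle

theorem lk_trans {j : ℕ} {s t u : Tr Γ M} {a b c : ℕ} (h : Lk lv j s a t b) (h' : Lk lv j t b u c) :
    Lk lv j s a u c := by
  induction h' with
  | here => exact h
  | left c m l r a _ hle ih => exact Lk.left _ _ c m _ _ _ ih hle
  | right c m l r a _ hle ih => exact Lk.right _ _ c m _ _ _ ih hle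

theorem lk_mono {i j : ℕ} (hij : i ≤ j) {s t : Tr Γ M} {a b : ℕ} (h : Lk lv j s a t b) :
    Lk lv i s a t b := by
  induction h with
  | here => exact Lk.here _ _
  | left c m l r a _ hle ih => exact Lk.left _ _ c m _ _ _ ih (hij.trans hle)
  | right c m l r a _ hle ih => exact Lk.right _ _ c m _ _ _ ih (hij.trans hle)

end Pool.Agent.BWN
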