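import Pool.Agent.Lib_MP_001f0c_ag.MYA

/-!
# Piece EVL: values at points
-/

set_option autoImplicit false

open Finset MvPolynomial

namespace Pool.Agent.BWN

universe u

variable {k : Type u} [Field k]

/-- the value of a polynomial at `P` is its image in the residue field -/
theorem evl_aeval (P : PrimeSpectrum (Rg k)) (f : Rg k) :
    aeval (val P) f = algebraMap (Rg k ⧸ P.asIdeal) (Res P) (Ideal.Quotient.mk P.asIdeal f) := by
  have h : (aeval (val P) : Rg k →ₐ[k] Res P) =
      (IsScalarTower.toAlgHom k (Rg k ⧸ P.asIdeal) (Res P)).comp (Ideal.Quotient.mkₐ k P.asIdeal) := by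
    apply MvPolynomial.algHom_ext
    intro I
    rw [aeval_X]
    rfl
  rw [h]
  rfl

/-- EVL. `f` vanishes at `P` if and only if its value is `0`. -/
theorem mem_iff (P : PrimeSpectrum (Rg k)) (f : Rg k) : f ∈ P.asIdeal ↔ aeval (val P) f = 0 := by
  rw [evl_aeval]
  constructor
  · intro h
    rw [Ideal.Quotient.eq_zero_iff_mem.2 h, map_zero]
  · intro h
    rw [← Ideal.Quotient.eq_zero_iff_mem]
    exact (injective_iff_map_eq_zero _).1 (IsFractionRing.injective (Rg k ⧸ P.asIdeal) (Res P)) _ h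

/-- EVL. Values at `τ⁻¹ P`. -/
theorem mem_act_iff (P : PrimeSpectrum (Rg k)) (τ : Equiv.Perm ℤ) (hτ : IsFin τ) (f : Rg k) :
    f ∈ (act τ hτ P).asIdeal ↔
      aeval (fun I => ((sgn τ I : ℤ) : Res P) * val P (Maya.im τ hτ I)) f = 0 := by
  have h1 : f ∈ (act τ hτ P).asIdeal ↔ actR τ hτ f ∈ P.asIdeal := Iff.rfl
  rw [h1, mem_iff]
  have h2 : (aeval (fun I => ((sgn τ I : ℤ) : Res P) * val P (Maya.im τ hτ I)) : Rg k →ₐ[k] Res P) =
      (aeval (val P) : Rg k →ₐ[k] Res P).comp
        (MvPolynomial.aeval (R := k) fun I : Maya =>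
          ((sgn τ I : ℤ) : Rg k) * MvPolynomial.X (Maya.im τ hτ I)) := by
    apply MvPolynomial.algHom_ext
    intro I
    rw [aeval_X, AlgHom.comp_apply, aeval_X, map_mul, map_intCast, aeval_X]
  rw [h2]
  rfl

/-- EVL. If `Z` is closed in `A` and `P ∈ A \ Z` there is an `f` which vanishes on `Z` but not at `P`. -/
theorem separate {A Z : Set (PrimeSpectrum (Rg k))} (hZ : ∃ C, IsClosed C ∧ Z = C ∩ A)
    {P : PrimeSpectrum (Rg k)} (hP : P ∈ A) (hPZ : P ∉ Z) :
    ∃ f : Rg k, f ∉ P.asIdeal ∧ ∀ Q ∈ Z, f ∈ Q.asIdeal := by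
  obtain ⟨C, hC, rfl⟩ := hZ
  have hPC : P ∉ C := fun h => hPZ ⟨h, hP⟩
  obtain ⟨s, rfl⟩ := (PrimeSpectrum.isClosed_iff_zeroLocus C).1 hC
  rw [PrimeSpectrum.mem_zeroLocus, Set.not_subset] at hPC
  obtain ⟨f, hf, hfP⟩ := hPC
  refine ⟨f, hfP, fun Q hQ => ?_⟩
  exact (PrimeSpectrum.mem_zeroLocus Q s).1 hQ.1 hf

/-- EVL. Only finitely many points of a bad sequence are zero at the level of their polynomial: if `f i` does not vanish at `P i`,
but vanishes at `P j` for `j > i`, all diagrams in `f i` have level `m i`, `m` is monotone, then there is an `i₀` such that the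
level `m i` of `P i` is not zero for all `i ≥ i₀`. (If it is zero for `i < j` then the value of `f i` at `P i` and at `P j` is the
constant coefficient of `f i`, as the coordinates of level `m i ≤ m j` vanish: `lev_fi`, `lvl_mono`.) -/
theorem zero_case (P : ℕ → PrimeSpectrum (Rg k)) (f : ℕ → Rg k) (m : ℕ → ℕ) (hm : Monotone m)
    (hl : ∀ i, ∀ I ∈ (f i).vars, Lvl (m i) I) (h1 : ∀ i, f i ∉ (P i).asIdeal)
    (h2 : ∀ i j, i < j → f i ∈ (P j).asIdeal) :
    ∃ i₀, ∀ i, i₀ ≤ i → ∃ J, lev (val (P i)) (m i) (m i) J ≠ 0 := by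
  by_contra hcon
  push Not at hcon
  obtain ⟨i, _, hi⟩ := hcon 0
  obtain ⟨j, hij, hj⟩ := hcon (i + 1)
  have hlt : i < j := by omega
  have e1 : aeval (val (P i)) (f i) = algebraMap k (Res (P i)) (constantCoeff (f i)) := by
    apply aeval_eq_constantCoeff_of_vars
    intro I hI
    rw [← lev_fi (val (P i)) (hl i I hI)]
    exact hi _
  have e2 : aeval (val (P j)) (f i) = algebraMap k (Res (P j)) (constantCoeff (f i)) := by
    apply aeval_eq_constantCoeff_of_vars
    intro I hI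
    rw [← lev_fi (val (P j)) (lvl_mono (hm hlt.le) (hl i I hI))]
    exact hj _
  have h3 := (mem_iff (P j) (f i)).1 (h2 i j hlt)
  rw [e2] at h3
  have h4 : constantCoeff (f i) = 0 := by
    exact (injective_iff_map_eq_zero _).1 (FaithfulSMul.algebraMap_injective k (Res (P j))) _ h3
  apply h1 i
  rw [mem_iff, e1, h4, map_zero]

end Pool.Agent.BWN
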