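import Pool.Agent.Lib_MP_001f0c_ag.Rank

/-!
# Piece LNA: the connectivity function; one element
-/

set_option autoImplicit false

open Finset

namespace Pool.Agent.BWN

variable {E : Type} [DecidableEq E] {r : Finset E → ℤ}

/-- LNA. `lam` of subsets `X` of `U` -/
theorem lam_symm (r : Finset E → ℤ) {U X : Finset E} (hX : X ⊆ U) : lam r U (U \ X) = lam r U X := by
  unfold lam
  rw [Finset.sdiff_sdiff_eq_self hX]
  ring

theorem lam_sub (hr : Rk r) {U X Y : Finset E} (hX : X ⊆ U) (hY : Y ⊆ U) :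
    lam r U (X ∩ Y) + lam r U (X ∪ Y) ≤ lam r U X + lam r U Y := by
  unfold lam
  have h1 := hr.sub X Y
  have h2 := hr.sub (U \ X) (U \ Y)
  have h3 : (U \ X) ∪ (U \ Y) = U \ (X ∩ Y) := by
    ext a; simp only [mem_union, mem_sdiff, mem_inter]; tauto
  have h4 : (U \ X) ∩ (U \ Y) = U \ (X ∪ Y) := by
    ext a; simp only [mem_union, mem_sdiff, mem_inter]; tauto
  rw [h3, h4] at h2
  linarith

theorem lam_nonneg (hr : Rk r) {U X : Finset E} (hX : X ⊆ U) : 0 ≤ lam r U X := by
  unfold lam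
  have h1 := hr.sub X (U \ X)
  have h3 : X ∪ (U \ X) = U := union_sdiff_of_subset hX
  have h4 : X ∩ (U \ X) = ∅ := by
    ext a; simp only [mem_sdiff, mem_inter, notMem_empty, iff_false]; tauto
  rw [h3, h4, hr.zero] at h1
  linarith

theorem lam_empty (hr : Rk r) (U : Finset E) : lam r U ∅ = 0 := by
  unfold lam
  rw [hr.zero, sdiff_empty]
  ring

theorem lam_union (hr : Rk r) {U X Y : Finset E} (hX : X ⊆ U) (hY : Y ⊆ U) (hd : Disjoint X Y) :
    r X + r Y - r (X ∪ Y) ≤ lam r U X := by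
  unfold lam
  have h1 := hr.sub (X ∪ Y) (U \ X)
  have h3 : (X ∪ Y) ∪ (U \ X) = U := by
    ext a
    have ha := @hX a
    have hb := @hY a
    simp only [mem_union, mem_sdiff]; tauto
  have h4 : (X ∪ Y) ∩ (U \ X) = Y := by
    ext a
    have ha := @hX a
    have hb := @hY a
    have hc : a ∈ X → a ∉ Y := fun h => Finset.disjoint_left.1 hd h
    simp only [mem_union, mem_sdiff, mem_inter]; tauto
  rw [h3, h4] at h1
  linarith

/-- the connectivity function of the minor: contract `C`, restrict to `A ∪ G` (`X ⊆ A ∪ G`) -/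
def lmn (r : Finset E → ℤ) (A C G X : Finset E) : ℤ :=
  r (X ∪ C) + r (((A ∪ G) \ X) ∪ C) - r (A ∪ G ∪ C) - r C

/-- LNA. The minor does not have larger connectivity: submodularity for `U \ A` and `A ∪ G ∪ C`, and for `A` and `C`. -/
theorem lmn_le (hr : Rk r) {U A C G : Finset E} (hA : A ⊆ U) (hC : C ⊆ U) (hG : G ⊆ U)
    (hAC : Disjoint A C) (hAG : Disjoint A G) : lmn r A C G A ≤ lam r U A := by
  unfold lmn lam
  have h1 := hr.sub (U \ A) (A ∪ G ∪ C)
  have h2 := hr.sub A C
  have h3 : (U \ A) ∪ (A ∪ G ∪ C) = U := by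
    ext a
    have ha := @hA a
    have hb := @hC a
    have hc := @hG a
    simp only [mem_union, mem_sdiff]; tauto
  have h4 : (U \ A) ∩ (A ∪ G ∪ C) = ((A ∪ G) \ A) ∪ C := by
    ext a
    have ha := @hA a
    have hb := @hC a
    have hc := @hG a
    have hd : a ∈ A → a ∉ C := fun h => Finset.disjoint_left.1 hAC h
    have he : a ∈ A → a ∉ G := fun h => Finset.disjoint_left.1 hAG h
    simp only [mem_union, mem_sdiff, mem_inter]; tauto
  have h5 : A ∩ C = ∅ := Finset.disjoint_iff_inter_eq_empty.1 hAC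
  rw [h3, h4] at h1
  rw [h5, hr.zero] at h2
  linarith

/-- LNA. One element. If neither deletion nor contraction of `x` preserves the connectivity `≥ j` there are `X₁`, `X₂`
with `A ⊆ X_i ⊆ A ∪ F` (`F = (G ∩ B) \ {x}`), `lmn r A C (G \ x) X₁ < j`, `lmn r A (C ∪ x) (G \ x) X₂ < j`. By submodularity
the sum of these two is at least
`lmn r A C G (X₁ ∩ X₂) + lmn r A C G (X₁ ∪ X₂ ∪ x) + (r (A ∪ G ∪ C) - r (A ∪ (G \ x) ∪ C) + r C - r (C ∪ x)) ≥ 2 j - 1`.
(This is for the family `X ↦ lmn`, `X` between `A` and `A ∪ (G ∩ B)`.) -/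
theorem lnk_one (hr : Rk r) {A B C G : Finset E} {x : E} {j : ℤ} (hAC : Disjoint A C)
    (hAG : Disjoint A G) (hCG : Disjoint C G) (hx : x ∈ G) (hxB : x ∈ B)
    (h : ∀ X, A ⊆ X → X ⊆ A ∪ (G ∩ B) → j ≤ lmn r A C G X) :
    (∀ X, A ⊆ X → X ⊆ A ∪ (G.erase x ∩ B) → j ≤ lmn r A C (G.erase x) X) ∨
    (∀ X, A ⊆ X → X ⊆ A ∪ (G.erase x ∩ B) → j ≤ lmn r A (insert x C) (G.erase x) X) := by
  have hxA : x ∉ A := fun h => Finset.disjoint_left.1 hAG h hx
  by_contra hcon
  rw [not_or] at hcon
  obtain ⟨hc1, hc2⟩ := hcon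
  push Not at hc1 hc2
  obtain ⟨X₁, hA1, hB1, hl1⟩ := hc1
  obtain ⟨X₂, hA2, hB2, hl2⟩ := hc2
  have hx1 : x ∉ X₁ := fun h => by
    have h2 := hB1 h
    simp only [mem_union, mem_inter, mem_erase] at h2
    tauto
  have hx2 : x ∉ X₂ := fun h => by
    have h2 := hB2 h
    simp only [mem_union, mem_inter, mem_erase] at h2
    tauto
  have hj1 := h (X₁ ∩ X₂) (subset_inter hA1 hA2) (by
    intro a ha
    have h1 := hB1 (mem_inter.1 ha).1
    simp only [mem_union, mem_inter, mem_erase] at h1 ⊢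
    tauto)
  have hj2 := h (insert x (X₁ ∪ X₂)) (by
    intro a ha
    exact mem_insert_of_mem (mem_union_left _ (hA1 ha))) (by
    intro a ha
    rw [mem_insert, mem_union] at ha
    rcases ha with rfl | ha | ha
    · exact mem_union_right _ (mem_inter.2 ⟨hx, hxB⟩)
    · have h1 := hB1 ha
      simp only [mem_union, mem_inter, mem_erase] at h1 ⊢
      tauto
    · have h1 := hB2 ha
      simp only [mem_union, mem_inter, mem_erase] at h1 ⊢
      tauto)
  unfold lmn at hj1 hj2 hl1 hl2
  have s1 := hr.sub (X₁ ∪ C) (X₂ ∪ insert x C)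
  have s2 := hr.sub (((A ∪ G.erase x) \ X₁) ∪ C) (((A ∪ G.erase x) \ X₂) ∪ insert x C)
  have e1 : (X₁ ∪ C) ∪ (X₂ ∪ insert x C) = insert x (X₁ ∪ X₂) ∪ C := by
    ext a; simp only [mem_union, mem_insert]; tauto
  have e2 : (X₁ ∪ C) ∩ (X₂ ∪ insert x C) = (X₁ ∩ X₂) ∪ C := by
    ext a
    have : a = x → a ∉ X₁ := by rintro rfl; exact hx1
    simp only [mem_union, mem_insert, mem_inter]; tauto
  have e3 : (((A ∪ G.erase x) \ X₁) ∪ C) ∪ (((A ∪ G.erase x) \ X₂) ∪ insert x C) =
      ((A ∪ G) \ (X₁ ∩ X₂)) ∪ C := by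
    ext a
    have h1 : a = x → a ∉ X₁ := by rintro rfl; exact hx1
    have h2 : a = x → a ∈ G := by rintro rfl; exact hx
    simp only [mem_union, mem_insert, mem_inter, mem_sdiff, mem_erase]; tauto
  have e4 : (((A ∪ G.erase x) \ X₁) ∪ C) ∩ (((A ∪ G.erase x) \ X₂) ∪ insert x C) =
      ((A ∪ G) \ insert x (X₁ ∪ X₂)) ∪ C := by
    ext a
    have h1 : a = x → a ∉ A := by rintro rfl; exact hxA
    simp only [mem_union, mem_insert, mem_inter, mem_sdiff, mem_erase]; tauto
  have e5 : A ∪ G.erase x ∪ insert x C = A ∪ G ∪ C := by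
    ext a
    have h2 : a = x → a ∈ G := by rintro rfl; exact hx
    simp only [mem_union, mem_insert, mem_erase]; tauto
  rw [e1, e2] at s1
  rw [e3, e4] at s2
  rw [e5] at hl2
  have m1 : r (A ∪ G.erase x ∪ C) ≤ r (A ∪ G ∪ C) := hr.mono _ _ (by
    intro a ha
    simp only [mem_union, mem_erase] at ha ⊢
    tauto)
  have u1 := hr.unit C x
  linarith

/-- LNA. One element, with a step. Let `lmn r A C G A = j`.

If `x` is a coloop of the minor (`r (A ∪ G ∪ C) = r (A ∪ G.erase x ∪ C) + 1`), then contraction preserves all `lmn` (`X`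
without `x`), and `con` is a step, as `x` is not in the closure of `A ∪ C` (which is smaller than `A ∪ G.erase x ∪ C`).
If `x` is a loop (`r (insert x C) = r C`), then deletion preserves all `lmn`, and `del` is a step.
Otherwise use `lnk_one`. First case (deletion): `lmn r A C (G.erase x) A ≥ j = lmn r A C G A`
gives `r (G ∪ C) - r (G.erase x ∪ C) ≤ r (A ∪ G ∪ C) - r (A ∪ G.erase x ∪ C) = 0`: `del` is a step. Second case
(contraction): `lmn r A (insert x C) (G.erase x) A ≥ j` gives `r (insert x (A ∪ C)) - r (A ∪ C) ≥ r (insert x C) - r C = 1`: `con`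
is a step. In all cases `lmn` of `A` is still `j`: it is `≥ j`, and `≤ j` as it is a minor (submodularity). -/
theorem lnk_step (hr : Rk r) {A B C G : Finset E} {x : E} {j : ℤ} (hAC : Disjoint A C)
    (hAG : Disjoint A G) (hCG : Disjoint C G) (hx : x ∈ G) (hxB : x ∈ B) (hj : lmn r A C G A = j)
    (h : ∀ X, A ⊆ X → X ⊆ A ∪ (G ∩ B) → j ≤ lmn r A C G X) :
    ∃ C' G', Stp r A (C, G) (C', G') ∧ G' = G.erase x ∧ (C' = C ∨ C' = insert x C) ∧
      lmn r A C' G' A = j ∧ ∀ X, A ⊆ X → X ⊆ A ∪ (G' ∩ B) → j ≤ lmn r A C' G' X := by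
  have hxA : x ∉ A := fun h => Finset.disjoint_left.1 hAG h hx
  have hxC : x ∉ C := fun h => Finset.disjoint_left.1 hCG h hx
  have eG : insert x (A ∪ G.erase x ∪ C) = A ∪ G ∪ C := by
    ext a
    have h2 : a = x → a ∈ G := by rintro rfl; exact hx
    simp only [mem_union, mem_insert, mem_erase]; tauto
  have eG' : A ∪ G.erase x ∪ insert x C = A ∪ G ∪ C := by
    ext a
    have h2 : a = x → a ∈ G := by rintro rfl; exact hx
    simp only [mem_union, mem_insert, mem_erase]; tauto
  have eC : ∀ X : Finset E, x ∉ X → insert x (((A ∪ G.erase x) \ X) ∪ C) = ((A ∪ G) \ X) ∪ C := by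
    intro X hxX
    ext a
    have h2 : a = x → a ∈ G := by rintro rfl; exact hx
    have h3 : a = x → a ∉ X := by rintro rfl; exact hxX
    simp only [mem_union, mem_insert, mem_erase, mem_sdiff]; tauto
  have eX : ∀ Y : Finset E, Y ∪ insert x C = insert x (Y ∪ C) := by
    intro Y
    ext a
    simp only [mem_union, mem_insert]; tauto
  have hxX : ∀ X : Finset E, X ⊆ A ∪ (G.erase x ∩ B) → x ∉ X := by
    intro X hX h1
    have h2 := hX h1
    simp only [mem_union, mem_inter, mem_erase] at h2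
    tauto
  have hXm : ∀ X : Finset E, X ⊆ A ∪ (G.erase x ∩ B) → X ⊆ A ∪ (G ∩ B) := by
    intro X hX a ha
    have h2 := hX ha
    simp only [mem_union, mem_inter, mem_erase] at h2 ⊢
    tauto
  have hm : r (A ∪ G.erase x ∪ C) ≤ r (A ∪ G ∪ C) := by
    rw [← eG]; exact hr.mono _ _ (subset_insert _ _)
  have hu : r (A ∪ G ∪ C) ≤ r (A ∪ G.erase x ∪ C) + 1 := by
    rw [← eG]; exact hr.unit _ _
  have hmC : r C ≤ r (insert x C) := hr.mono _ _ (subset_insert _ _)
  have huC : r (insert x C) ≤ r C + 1 := hr.unit _ _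
  have eA1 : ((A ∪ G) \ A) ∪ C = C ∪ G := by
    ext a
    have h2 : a ∈ G → a ∉ A := fun h3 h4 => Finset.disjoint_left.1 hAG h4 h3
    simp only [mem_union, mem_sdiff]; tauto
  have eA2 : ((A ∪ G.erase x) \ A) ∪ C = C ∪ G.erase x := by
    ext a
    have h2 : a ∈ G → a ∉ A := fun h3 h4 => Finset.disjoint_left.1 hAG h4 h3
    simp only [mem_union, mem_sdiff, mem_erase]; tauto
  have hsA : A ⊆ A ∪ (G.erase x ∩ B) := subset_union_left
  by_cases hcol : r (A ∪ G ∪ C) = r (A ∪ G.erase x ∪ C) + 1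
  · -- coloop
    have hY : ∀ Y : Finset E, Y ⊆ A ∪ G.erase x ∪ C → r (insert x Y) = r Y + 1 := by
      intro Y hYs
      have h1 := hr.sub (insert x Y) (A ∪ G.erase x ∪ C)
      have hxn : x ∉ A ∪ G.erase x ∪ C := by
        simp only [mem_union, mem_erase]; tauto
      have h2 : insert x Y ∪ (A ∪ G.erase x ∪ C) = A ∪ G ∪ C := by
        rw [← eG]
        ext a
        have := @hYs a
        simp only [mem_union, mem_insert] at this ⊢; tauto
      have h3 : insert x Y ∩ (A ∪ G.erase x ∪ C) = Y := by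
        ext a
        have h4 := @hYs a
        have h5 : a = x → a ∉ A ∪ G.erase x ∪ C := by rintro rfl; exact hxn
        rw [mem_inter, mem_insert]; tauto
      rw [h2, h3] at h1
      have h6 := hr.unit Y x
      linarith
    have hXC : ∀ X : Finset E, X ⊆ A ∪ (G.erase x ∩ B) → X ∪ C ⊆ A ∪ G.erase x ∪ C := by
      intro X hX a ha
      rw [mem_union] at ha
      rcases ha with ha | ha
      · have := hX ha
        simp only [mem_union, mem_inter] at this ⊢
        tauto
      · exact mem_union_right _ ha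
    have key : ∀ X : Finset E, X ⊆ A ∪ (G.erase x ∩ B) →
        lmn r A (insert x C) (G.erase x) X = lmn r A C G X := by
      intro X hX
      unfold lmn
      have h1 : ((A ∪ G.erase x) \ X) ∪ C ⊆ A ∪ G.erase x ∪ C := by
        intro a ha
        simp only [mem_union, mem_sdiff] at ha ⊢
        tauto
      rw [eX X, eX ((A ∪ G.erase x) \ X), eG', eC X (hxX X hX), hY _ (hXC X hX),
        hY C subset_union_right]
      linarith
    refine ⟨insert x C, G.erase x, Stp.con C G x hx hxC ?_, rfl, Or.inr rfl, ?_, ?_⟩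
    · rw [hY (A ∪ C) (hXC A hsA)]; linarith
    · rw [key A hsA, hj]
    · intro X hAX hX
      rw [key X hX]
      exact h X hAX (hXm X hX)
  by_cases hloop : r (insert x C) = r C
  · -- loop
    have hY : ∀ Y : Finset E, x ∉ Y → C ⊆ Y → r (insert x Y) = r Y := by
      intro Y hxY hCY
      have h1 := hr.sub (insert x C) Y
      have h2 : insert x C ∪ Y = insert x Y := by
        ext a
        have := @hCY a
        simp only [mem_union, mem_insert]; tauto
      have h3 : insert x C ∩ Y = C := by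
        ext a
        have h4 := @hCY a
        have h5 : a = x → a ∉ Y := by rintro rfl; exact hxY
        simp only [mem_inter, mem_insert]; tauto
      rw [h2, h3] at h1
      have h6 := hr.mono _ _ (subset_insert x Y)
      linarith
    have key : ∀ X : Finset E, X ⊆ A ∪ (G.erase x ∩ B) →
        lmn r A C (G.erase x) X = lmn r A C G X := by
      intro X hX
      unfold lmn
      rw [← eC X (hxX X hX), ← eG, hY _ _ subset_union_right, hY _ _ subset_union_right]
      · simp only [mem_union, mem_erase]; tauto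
      · simp only [mem_union, mem_erase, mem_sdiff]; tauto
    refine ⟨C, G.erase x, Stp.del C G x hx hxC ?_, rfl, Or.inl rfl, ?_, ?_⟩
    · have h1 : C ∪ G = insert x (C ∪ G.erase x) := by
        ext a
        have h2 : a = x → a ∈ G := by rintro rfl; exact hx
        simp only [mem_union, mem_insert, mem_erase]; tauto
      rw [h1, hY _ _ subset_union_left]
      simp only [mem_union, mem_erase]; tauto
    · rw [key A hsA, hj]
    · intro X hAX hX
      rw [key X hX]
      exact h X hAX (hXm X hX)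
  -- neither
  have hG : r (A ∪ G ∪ C) = r (A ∪ G.erase x ∪ C) := by omega
  have hC1 : r (insert x C) = r C + 1 := by omega
  rcases lnk_one hr hAC hAG hCG hx hxB h with h1 | h1
  · have h2 := h1 A (Subset.refl A) hsA
    have h3 : r (C ∪ G) = r (C ∪ G.erase x) := by
      have h4 : r (C ∪ G.erase x) ≤ r (C ∪ G) :=
        hr.mono _ _ (union_subset_union_right (erase_subset _ _))
      unfold lmn at h2 hj
      rw [eA1] at hj
      rw [eA2] at h2
      linarith
    refine ⟨C, G.erase x, Stp.del C G x hx hxC h3, rfl, Or.inl rfl, ?_, h1⟩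
    unfold lmn at hj ⊢
    rw [eA1] at hj
    rw [eA2]
    linarith
  · have h2 := h1 A (Subset.refl A) hsA
    have e6 : ((A ∪ G.erase x) \ A) ∪ insert x C = C ∪ G := by
      rw [eX, eC A hxA, eA1]
    have h3 : r (insert x (A ∪ C)) = r (A ∪ C) + 1 := by
      have h4 := hr.unit (A ∪ C) x
      unfold lmn at h2 hj
      rw [eA1] at hj
      rw [eG', e6, eX A] at h2
      linarith
    refine ⟨insert x C, G.erase x, Stp.con C G x hx hxC (by linarith), rfl, Or.inr rfl, ?_, h1⟩
    unfold lmn at hj ⊢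
    rw [eA1] at hj
    rw [eG', e6, eX A]
    linarith

end Pool.Agent.BWN
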