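import Pool.Agent.Lib_MP_001f0c_ag.Rank

/-!
# Piece RKA: the rank function of a family of vectors
-/

set_option autoImplicit false

open Finset

namespace Pool.Agent.BWN

universe u

variable {E : Type} [DecidableEq E] {K : Type u} [Field K] {p : ℕ}

theorem rka_card {v : E → Fin p → K} {J : Finset E} (hl : LinearIndepOn K v (J : Set E)) :
    rkf v J = J.card := by
  unfold rkf Set.finrank
  have h1 : LinearIndependent K (fun j : (J : Set E) => v j) := hl
  have h2 := finrank_span_eq_card h1
  have h3 : Set.range (fun j : (J : Set E) => v j) = v '' (J : Set E) := by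
    ext x
    simp
  rw [h3] at h2
  rw [h2]
  simp

theorem rka_mono (v : E → Fin p → K) {X Y : Finset E} (h : X ⊆ Y) : rkf v X ≤ rkf v Y := by
  unfold rkf
  exact_mod_cast Set.finrank_mono (Set.image_mono (Finset.coe_subset.2 h))

/-- RKA. (`Submodule.finrank_sup_add_finrank_inf_eq` for the submodularity.) -/
theorem rk_rkf (v : E → Fin p → K) : Rk (rkf v) := by
  refine ⟨?_, fun X Y h => rka_mono v h, fun X x => ?_, fun X Y => ?_⟩
  · unfold rkf Set.finrank
    simp
  · unfold rkf Set.finrank
    rw [Finset.coe_insert, Set.image_insert_eq, Submodule.span_insert]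
    have h1 := Submodule.finrank_add_le_finrank_add_finrank (Submodule.span K {v x})
      (Submodule.span K (v '' (X : Set E)))
    have h2 : Module.finrank K (Submodule.span K ({v x} : Set (Fin p → K))) ≤ 1 := by
      have h3 := finrank_span_finset_le_card (R := K) ({v x} : Finset (Fin p → K))
      rw [Finset.card_singleton] at h3
      have h4 : ((({v x} : Finset (Fin p → K)) : Finset (Fin p → K)) : Set (Fin p → K)) = {v x} :=
        Finset.coe_singleton _
      rw [h4] at h3
      exact h3
    have h5 := h1.trans (Nat.add_le_add_right h2 _)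
    have h6 : (Module.finrank K ↥(Submodule.span K {v x} ⊔ Submodule.span K (v '' (X : Set E))) : ℤ) ≤
        (1 + Module.finrank K (Submodule.span K (v '' (X : Set E))) : ℕ) := by
      exact_mod_cast h5
    push_cast at h6
    linarith
  · unfold rkf Set.finrank
    have h1 : Submodule.span K (v '' ((X ∪ Y : Finset E) : Set E)) =
        Submodule.span K (v '' (X : Set E)) ⊔ Submodule.span K (v '' (Y : Set E)) := by
      rw [Finset.coe_union, Set.image_union, Submodule.span_union]
    have h2 : Submodule.span K (v '' ((X ∩ Y : Finset E) : Set E)) ≤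
        Submodule.span K (v '' (X : Set E)) ⊓ Submodule.span K (v '' (Y : Set E)) := by
      refine le_inf (Submodule.span_mono (Set.image_mono ?_)) (Submodule.span_mono (Set.image_mono ?_))
      · exact Finset.coe_subset.2 inter_subset_left
      · exact Finset.coe_subset.2 inter_subset_right
    have h3 := Submodule.finrank_sup_add_finrank_inf_eq (Submodule.span K (v '' (X : Set E)))
      (Submodule.span K (v '' (Y : Set E)))
    have h4 := Submodule.finrank_mono h2
    rw [h1]
    exact_mod_cast (by omega)

/-- RKA. equal ranks: `x` is in the span of `X` -/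
theorem rkf_insert_eq {v : E → Fin p → K} {X : Finset E} {x : E} :
    rkf v (insert x X) = rkf v X ↔ v x ∈ Submodule.span K (v '' (X : Set E)) := by
  constructor
  · intro h
    have h1 : Submodule.span K (v '' (X : Set E)) ≤
        Submodule.span K (v '' ((insert x X : Finset E) : Set E)) :=
      Submodule.span_mono (Set.image_mono (Finset.coe_subset.2 (Finset.subset_insert _ _)))
    have h2 : Submodule.span K (v '' (X : Set E)) =
        Submodule.span K (v '' ((insert x X : Finset E) : Set E)) := by
      refine Submodule.eq_of_le_of_finrank_eq h1 ?_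
      unfold rkf Set.finrank at h
      exact_mod_cast h.symm
    rw [h2]
    exact Submodule.subset_span ⟨x, by simp, rfl⟩
  · intro h
    unfold rkf Set.finrank
    rw [Finset.coe_insert, Set.image_insert_eq, Submodule.span_insert_eq_span h]

/-- RKA. -/
theorem rkf_le (v : E → Fin p → K) (X : Finset E) : 0 ≤ rkf v X ∧ rkf v X ≤ p ∧ rkf v X ≤ X.card := by
  classical
  unfold rkf
  refine ⟨by positivity, ?_, ?_⟩
  · have h1 : Set.finrank K (v '' (X : Set E)) ≤ Module.finrank K (Fin p → K) :=
      Submodule.finrank_le _
    rw [Module.finrank_fin_fun] at h1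
    exact_mod_cast h1
  · have h1 := finrank_span_finset_le_card (R := K) (X.image v)
    rw [Finset.coe_image] at h1
    exact_mod_cast h1.trans Finset.card_image_le

/-- RKA. a set of `p` linearly independent vectors has rank `p` -/
theorem rkf_eq {v : E → Fin p → K} {J : Finset E} (hc : J.card = p)
    (hl : LinearIndepOn K v (J : Set E)) {X : Finset E} (hX : J ⊆ X) : rkf v X = p := by
  have h1 := rka_mono v hX
  rw [rka_card hl, hc] at h1
  exact le_antisymm (rkf_le v X).2.1 h1

/-- RKA. If `X ⊆ U` and `U` has rank `p` there is a basis `J ⊆ U` which contains `rkf v X` elements of `X`. (Maximal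
linearly independent subset of `X`, extended.) -/
theorem rkf_basis {v : E → Fin p → K} {X U : Finset E} (hX : X ⊆ U) (hU : rkf v U = p) :
    ∃ J ⊆ U, J.card = p ∧ LinearIndepOn K v (J : Set E) ∧ ((J ∩ X).card : ℤ) = rkf v X := by
  classical
  have key : ∀ (J₀ Y : Finset E), LinearIndepOn K v (J₀ : Set E) → J₀ ⊆ Y →
      ∃ J : Finset E, J ⊆ Y ∧ J₀ ⊆ J ∧ LinearIndepOn K v (J : Set E) ∧ rkf v J = rkf v Y := by
    intro J₀ Y h0 h1
    obtain ⟨b, hb1, hb2, hb3, hb4⟩ := exists_linearIndepOn_extension h0 (Finset.coe_subset.2 h1)
    have hfin : b.Finite := Y.finite_toSet.subset hb1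
    refine ⟨hfin.toFinset, ?_, ?_, ?_, ?_⟩
    · intro x hx
      exact hb1 (hfin.mem_toFinset.1 hx)
    · intro x hx
      exact hfin.mem_toFinset.2 (hb2 hx)
    · rw [hfin.coe_toFinset]
      exact hb4
    · refine le_antisymm (rka_mono v fun x hx => hb1 (hfin.mem_toFinset.1 hx)) ?_
      unfold rkf Set.finrank
      rw [hfin.coe_toFinset]
      exact_mod_cast Submodule.finrank_mono (Submodule.span_le.2 hb3)
  obtain ⟨J₀, h1, -, h2, h3⟩ := key ∅ X (by simp) (Finset.empty_subset _)
  obtain ⟨J, h4, h5, h6, h7⟩ := key J₀ U h2 (h1.trans hX)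
  refine ⟨J, h4, ?_, h6, ?_⟩
  · have := rka_card h6
    rw [h7, hU] at this
    exact_mod_cast this.symm
  · have h8 : LinearIndepOn K v ((J ∩ X : Finset E) : Set E) :=
      h6.mono (Finset.coe_subset.2 Finset.inter_subset_left)
    refine le_antisymm ?_ ?_
    · rw [← rka_card h8]
      exact rka_mono v Finset.inter_subset_right
    · rw [← h3, ← rka_card h8]
      exact rka_mono v (Finset.subset_inter h5 h1)

/-- RKA. and no basis contains more -/
theorem rkf_basis_le {v : E → Fin p → K} {X J : Finset E} (hl : LinearIndepOn K v (J : Set E)) :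
    ((J ∩ X).card : ℤ) ≤ rkf v X := by
  have h8 : LinearIndepOn K v ((J ∩ X : Finset E) : Set E) :=
    hl.mono (Finset.coe_subset.2 Finset.inter_subset_left)
  rw [← rka_card h8]
  exact rka_mono v Finset.inter_subset_right

end Pool.Agent.BWN
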