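import Pool.Agent.Lib_MP_001f0c_ag.MYA
import Pool.Agent.Lib_MP_001f0c_ag.BLT
import Pool.Agent.Lib_MP_001f0c_ag.RKA
import Pool.Agent.Lib_MP_001f0c_ag.LNA
import Pool.Agent.Lib_MP_001f0c_ag.DVB

/-!
# Piece PTD: the matrices of points of bounded branch-width
-/

set_option autoImplicit false

open Finset

namespace Pool.Agent.BWN

universe u

/-- PTD. The rank in terms of the coordinates is the rank of the columns (`Dt_ne`, `rkf_basis`, `rkf_basis_le`). -/
theorem rkC_eq {K : Type u} [Field K] {p : ℕ} {v : ℤ → Fin p → K} {G : Finset ℤ} {ω : Finset ℤ → K}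
    (hω : ∀ J, J ⊆ G → (ω J ≠ 0 ↔ J.card = p ∧ LinearIndepOn K v (J : Set ℤ))) (hr : rkf v G = p)
    {A : Finset ℤ} (hA : A ⊆ G) : (rkC ω G A : ℤ) = rkf v A := by
  classical
  apply le_antisymm
  · have h0 : 0 ≤ rkf v A := (rkf_le v A).1
    have h1 : rkC ω G A ≤ (rkf v A).toNat := by
      unfold rkC
      refine Finset.sup_le fun J hJ => ?_
      obtain ⟨hJ1, hJ2⟩ := Finset.mem_filter.1 hJ
      have h2 := rkf_basis_le (X := A) ((hω J (Finset.mem_powerset.1 hJ1)).1 hJ2).2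
      omega
    omega
  · obtain ⟨J, hJ, hc, hl, hJA⟩ := rkf_basis hA hr
    rw [← hJA]
    have h1 : (J ∩ A).card ≤ rkC ω G A := by
      unfold rkC
      exact Finset.le_sup (f := fun J : Finset ℤ => (J ∩ A).card)
        (Finset.mem_filter.2 ⟨Finset.mem_powerset.2 hJ, (hω J hJ).2 ⟨hc, hl⟩⟩)
    exact_mod_cast h1

/-- PTD. The matrix (columns `v x i = A i x` for `A` as in `Dec`; `Dt_det`) and a linked branch decomposition of width `≤ w`
(`rkC_eq`, `linked_exists` for `lam (rkf v) (gr m m)`; `lam_symm`, `lam_sub`, `lam_empty`, `lam_nonneg`, `rk_rkf`). -/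
theorem pt_data {k : Type u} [Field k] {w : ℕ} {P : PrimeSpectrum (Rg k)} (hP : P ∈ AGw k w) {m : ℕ} (hm : 1 ≤ m)
    (hne : ∃ J, lev (val P) m m J ≠ 0) :
    ∃ v : ℤ → Fin m → Res P, (∀ J, J ⊆ gr m m → J.card = m → lev (val P) m m J = Dt v J.sort) ∧
      rkf v (gr m m) = m ∧ ∃ t : BT ℤ, t.ls.Nodup ∧ t.su = gr m m ∧
        (t.All fun g => lam (rkf v) (gr m m) g ≤ w) ∧ LinkedT (lam (rkf v) (gr m m)) t := by
  obtain ⟨hP1, hP2⟩ := hP
  obtain ⟨A, hA⟩ := hP1 m m hm hm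
  have h1 : ∀ J, J ⊆ gr m m → J.card = m →
      lev (val P) m m J = Dt (fun x i => A i x) J.sort := by
    intro J hJ hc
    rw [hA J hJ hc, Dt_det _ hc]
  have h2 : ∀ J, J ⊆ gr m m → (lev (val P) m m J ≠ 0 ↔ J.card = m ∧
      LinearIndepOn (Res P) (fun (x : ℤ) (i : Fin m) => A i x) (J : Set ℤ)) := by
    intro J hJ
    by_cases hc : J.card = m
    · rw [h1 J hJ hc, Dt_ne]
    · have h3 : lev (val P) m m J = 0 := dif_neg fun h => hc h.2
      exact ⟨fun h => absurd h3 h, fun h => absurd h.1 hc⟩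
  have h3 : rkf (fun (x : ℤ) (i : Fin m) => A i x) (gr m m) = m := by
    obtain ⟨J, hJ⟩ := hne
    have hJ1 : J ⊆ gr m m := by
      by_contra h
      exact hJ (dif_neg fun h' => h h'.1)
    obtain ⟨h4, h5⟩ := (h2 J hJ1).1 hJ
    exact rkf_eq h4 h5 hJ1
  refine ⟨fun x i => A i x, h1, h3, ?_⟩
  rcases hP2 m m hm hm with h4 | ⟨t, ht1, ht2, ht3⟩
  · obtain ⟨J, hJ⟩ := hne
    exact absurd (h4 J) hJ
  · have hR := rk_rkf (E := ℤ) (fun (x : ℤ) (i : Fin m) => A i x)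
    refine linked_exists (fun X hX => lam_symm _ hX) (fun X Y hX hY => lam_sub hR hX hY)
      (lam_empty hR _) (fun X hX => lam_nonneg hR hX) ht1 ht2 ?_
    refine all_mono (fun g hg => ?_) (all_and ht3 (all_sub (t := t)))
    obtain ⟨hg1, hg2, -⟩ := hg
    rw [ht2] at hg2
    have h5 := rkC_eq h2 h3 hg2
    have h6 := rkC_eq h2 h3 (Finset.sdiff_subset (s := gr m m) (t := g))
    unfold lam
    rw [← h5, ← h6, h3]
    have h7 : ((rkC (lev (val P) m m) (gr m m) g : ℕ) : ℤ) +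
        ((rkC (lev (val P) m m) (gr m m) (gr m m \ g) : ℕ) : ℤ) ≤ (m : ℤ) + w := by
      exact_mod_cast hg1
    omega

end Pool.Agent.BWN
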