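import Pool.Agent.Lib_MP_001f0c_ag.BTd
import Pool.Agent.Lib_MP_001f0c_ag.BRA
import Pool.Agent.Lib_MP_001f0c_ag.RKA

/-!
# Piece REL: positions of the leaves
-/

set_option autoImplicit false

open Finset

namespace Pool.Agent.BWN

universe u

/-- relabel the leaves -/
def BT.map {E F : Type} (φ : E → F) : BT E → BT F
  | .leaf x => .leaf (φ x)
  | .node l r => .node (l.map φ) (r.map φ)

/-- REL -/
theorem map_ls {E F : Type} (φ : E → F) (t : BT E) : (t.map φ).ls = t.ls.map φ := by
  induction t with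
  | leaf x => rfl
  | node l r ihl ihr =>
    show (l.map φ).ls ++ (r.map φ).ls = (l.ls ++ r.ls).map φ
    rw [ihl, ihr, List.map_append]

theorem map_su {E F : Type} [DecidableEq E] [DecidableEq F] (φ : E → F) (t : BT E) :
    (t.map φ).su = t.su.image φ := by
  induction t with
  | leaf x => exact (Finset.image_singleton φ x).symm
  | node l r ihl ihr =>
    show (l.map φ).su ∪ (r.map φ).su = (l.su ∪ r.su).image φ
    rw [ihl, ihr, Finset.image_union]

theorem blk_su {E : Type} [DecidableEq E] {lm : Finset E → ℤ} {j : ℤ} {s t : BT E}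
    (h : BLk lm j s t) : s.su ⊆ t.su := by
  induction h with
  | here => exact Finset.Subset.refl _
  | left l r _ _ ih => exact ih.trans Finset.subset_union_left
  | right l r _ _ ih => exact ih.trans Finset.subset_union_right

theorem map_blk {E F : Type} [DecidableEq E] [DecidableEq F] {lm : Finset E → ℤ} {lm' : Finset F → ℤ}
    {G : Finset E} {φ : E → F} (hlm : ∀ X, X ⊆ G → lm' (X.image φ) = lm X) {j : ℤ} {t : BT E}
    (hG : t.su ⊆ G) {s' : BT F} (h : BLk lm' j s' (t.map φ)) :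
    ∃ s, s' = s.map φ ∧ BLk lm j s t := by
  induction t generalizing s' with
  | leaf x =>
    have h' : BLk lm' j s' (BT.leaf (φ x)) := h
    cases h' with
    | here => exact ⟨.leaf x, rfl, BLk.here _⟩
  | node l r ihl ihr =>
    have hl : l.su ⊆ G := Finset.subset_union_left.trans hG
    have hr : r.su ⊆ G := Finset.subset_union_right.trans hG
    have h' : BLk lm' j s' (BT.node (l.map φ) (r.map φ)) := h
    have e : lm' ((l.map φ).su ∪ (r.map φ).su) = lm (l.su ∪ r.su) := by
      rw [map_su, map_su, ← Finset.image_union]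
      exact hlm _ hG
    cases h' with
    | here => exact ⟨.node l r, rfl, BLk.here _⟩
    | left _ _ h1 h2 =>
      obtain ⟨s, h3, h4⟩ := ihl hl h1
      exact ⟨s, h3, BLk.left s l r h4 (by rw [← e]; exact h2)⟩
    | right _ _ h1 h2 =>
      obtain ⟨s, h3, h4⟩ := ihr hr h1
      exact ⟨s, h3, BLk.right s l r h4 (by rw [← e]; exact h2)⟩

/-- REL. `All` and `LinkedT` are preserved by an injective relabelling `φ` with inverse `ψ` (on `G`, `φ G`), if
`lm' (φ X) = lm X` for `X ⊆ G`. -/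
theorem map_linked {E F : Type} [DecidableEq E] [DecidableEq F] {lm : Finset E → ℤ} {lm' : Finset F → ℤ}
    {G : Finset E} {φ : E → F} (hφ : Set.InjOn φ G) (hlm : ∀ X, X ⊆ G → lm' (X.image φ) = lm X) {t : BT E}
    (hG : t.su ⊆ G) {w : ℤ} (hw : t.All fun g => lm g ≤ w) (hL : LinkedT lm t) :
    ((t.map φ).All fun g => lm' g ≤ w) ∧ LinkedT lm' (t.map φ) := by
  induction t with
  | leaf x =>
    refine ⟨?_, trivial⟩
    have h1 : lm {x} ≤ w := hw
    have h2 := hlm {x} hG
    rw [Finset.image_singleton] at h2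
    show lm' {φ x} ≤ w
    rw [h2]
    exact h1
  | node l r ihl ihr =>
    have hl : l.su ⊆ G := Finset.subset_union_left.trans hG
    have hr : r.su ⊆ G := Finset.subset_union_right.trans hG
    obtain ⟨hw1, hw2, hw3⟩ := hw
    obtain ⟨hL1, hL2, hL3⟩ := hL
    obtain ⟨a1, a2⟩ := ihl hl hw2 hL2
    obtain ⟨b1, b2⟩ := ihr hr hw3 hL3
    have e : lm' ((l.map φ).su ∪ (r.map φ).su) = lm (l.su ∪ r.su) := by
      rw [map_su, map_su, ← Finset.image_union]
      exact hlm _ hG
    refine ⟨⟨?_, a1, b1⟩, ⟨?_, a2, b2⟩⟩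
    · show lm' ((l.map φ).su ∪ (r.map φ).su) ≤ w
      rw [e]
      exact hw1
    · intro s' h1 h2 X' h3 h4
      rw [e] at h1 h2 ⊢
      obtain ⟨s, rfl, h5⟩ := map_blk (t := BT.node l r) hlm hG h1
      have h6 : s.su ⊆ l.su ∪ r.su := blk_su h5
      rw [map_su] at h2 h3
      rw [map_su, map_su, ← Finset.image_union] at h4
      rw [hlm _ (h6.trans hG)] at h2
      have h7 : ((l.su ∪ r.su).filter fun x => φ x ∈ X').image φ = X' := by
        ext y
        rw [Finset.mem_image]
        constructor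
        · rintro ⟨x, hx, rfl⟩
          exact (Finset.mem_filter.1 hx).2
        · intro hy
          obtain ⟨x, hx, rfl⟩ := Finset.mem_image.1 (h4 hy)
          exact ⟨x, Finset.mem_filter.2 ⟨hx, hy⟩, rfl⟩
      have hG' : l.su ∪ r.su ⊆ G := hG
      rw [← h7, hlm _ ((Finset.filter_subset _ _).trans hG')]
      refine hL1 s h5 h2 _ ?_ (Finset.filter_subset _ _)
      intro x hx
      exact Finset.mem_filter.2 ⟨h6 hx, h3 (Finset.mem_image_of_mem φ hx)⟩

/-- REL. `τ i = t.ls.getD i 0`, `φ = t.ls.idxOf`. -/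
theorem relabel {K : Type u} [Field K] {p : ℕ} {v : ℤ → Fin p → K} {G : Finset ℤ} {t : BT ℤ} (hn : t.ls.Nodup)
    (hG : t.su = G) {w : ℤ} (hw : t.All fun g => lam (rkf v) G g ≤ w) (hL : LinkedT (lam (rkf v) G) t) :
    ∃ (τ : ℕ → ℤ) (φ : ℤ → ℕ) (t' : BT ℕ), (∀ i < G.card, τ i ∈ G ∧ φ (τ i) = i) ∧
      (∀ x ∈ G, φ x < G.card ∧ τ (φ x) = x) ∧ t'.ls = List.range G.card ∧
      rkf (fun i => v (τ i)) (Finset.range G.card) = rkf v G ∧
      (t'.All fun g => lam (rkf fun i => v (τ i)) (Finset.range G.card) g ≤ w) ∧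
      LinkedT (lam (rkf fun i => v (τ i)) (Finset.range G.card)) t' := by
  have hmem : ∀ x, x ∈ G ↔ x ∈ t.ls := by
    intro x
    rw [← hG, su_eq, List.mem_toFinset]
  have hcard : t.ls.length = G.card := by
    rw [← hG, su_eq, List.toFinset_card_of_nodup hn]
  have h1 : ∀ i < G.card, t.ls.getD i 0 ∈ G ∧ t.ls.idxOf (t.ls.getD i 0) = i := by
    intro i hi
    have hi' : i < t.ls.length := by omega
    rw [List.getD_eq_getElem _ _ hi', hmem]
    exact ⟨List.getElem_mem hi', hn.idxOf_getElem i hi'⟩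
  have h2 : ∀ x ∈ G, t.ls.idxOf x < G.card ∧ t.ls.getD (t.ls.idxOf x) 0 = x := by
    intro x hx
    have h3 : t.ls.idxOf x < t.ls.length := List.idxOf_lt_length_of_mem ((hmem x).1 hx)
    refine ⟨by omega, ?_⟩
    rw [List.getD_eq_getElem _ _ h3, List.getElem_idxOf]
  have himg : G.image t.ls.idxOf = Finset.range G.card := by
    ext i
    rw [Finset.mem_image, Finset.mem_range]
    constructor
    · rintro ⟨x, hx, rfl⟩
      exact (h2 x hx).1
    · intro hi
      exact ⟨_, (h1 i hi).1, (h1 i hi).2⟩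
  have hinj : Set.InjOn t.ls.idxOf (G : Set ℤ) := by
    intro x hx y hy hxy
    have h3 := (h2 x hx).2
    have h4 := (h2 y hy).2
    have hxy' : t.ls.idxOf x = t.ls.idxOf y := hxy
    rw [hxy', h4] at h3
    exact h3.symm
  have hrk : ∀ X, X ⊆ G → rkf (fun i => v (t.ls.getD i 0)) (X.image t.ls.idxOf) = rkf v X := by
    intro X hX
    unfold rkf
    congr 2
    ext y
    simp only [Finset.coe_image, Set.mem_image, Finset.mem_coe]
    constructor
    · rintro ⟨i, ⟨x, hx, rfl⟩, rfl⟩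
      refine ⟨x, hx, ?_⟩
      rw [(h2 x (hX hx)).2]
    · rintro ⟨x, hx, rfl⟩
      refine ⟨_, ⟨x, hx, rfl⟩, ?_⟩
      rw [(h2 x (hX hx)).2]
  have hlm : ∀ X, X ⊆ G → lam (rkf fun i => v (t.ls.getD i 0)) (Finset.range G.card)
      (X.image t.ls.idxOf) = lam (rkf v) G X := by
    intro X hX
    have h3 : Finset.range G.card \ X.image t.ls.idxOf = (G \ X).image t.ls.idxOf := by
      rw [← himg]
      ext i
      rw [Finset.mem_sdiff, Finset.mem_image, Finset.mem_image, Finset.mem_image]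
      constructor
      · rintro ⟨⟨x, hx, rfl⟩, h4⟩
        refine ⟨x, Finset.mem_sdiff.2 ⟨hx, fun h5 => h4 ⟨x, h5, rfl⟩⟩, rfl⟩
      · rintro ⟨x, hx, rfl⟩
        obtain ⟨hx1, hx2⟩ := Finset.mem_sdiff.1 hx
        refine ⟨⟨x, hx1, rfl⟩, ?_⟩
        rintro ⟨y, hy, h4⟩
        have := hinj (hX hy) hx1 h4
        rw [this] at hy
        exact hx2 hy
    unfold lam
    rw [h3, hrk _ hX, hrk _ Finset.sdiff_subset]
    rw [← himg, hrk _ (Finset.Subset.refl G)]
  obtain ⟨h3, h4⟩ := map_linked (φ := t.ls.idxOf) hinj hlm (t := t) hG.subset hw hL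
  refine ⟨fun i => t.ls.getD i 0, t.ls.idxOf, t.map t.ls.idxOf, h1, h2, ?_, ?_, h3, h4⟩
  · rw [map_ls]
    refine List.ext_getElem ?_ ?_
    · rw [List.length_map, List.length_range, hcard]
    · intro i hi hi'
      rw [List.getElem_map, List.getElem_range]
      rw [List.length_map] at hi
      exact hn.idxOf_getElem i hi
  · rw [← himg]
    exact hrk G (Finset.Subset.refl G)

end Pool.Agent.BWN
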