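import Pool.Agent.Lib_MP_001f0c_ag.PSB
import Pool.Agent.Lib_MP_001f0c_ag.REL
import Pool.Agent.Lib_MP_001f0c_ag.COR
import Pool.Agent.Lib_MP_001f0c_ag.PTD

/-!
# Piece FIN: the part of bounded branch-width of the affine infinite Grassmannian is noetherian
-/

set_option autoImplicit false

open Finset MvPolynomial

namespace Pool.Agent.BWN

universe u

variable {k : Type u} [Field k]

/-- FIN. Bad sequences do not exist: points `P i` of the stable sets `Z i`, which decrease, and polynomials `f i` which do not vanish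
at `P i` and vanish on `Z (i + 1)`.

Proof. Let `m i = 1 + ∑ i' ≤ i, M i'` where all diagrams of `f i'` have level `M i'` (`lvl_exists`, `lvl_mono`). By `zero_case`, after
a shift, the level `m i` of `P i` is not zero for all `i`. `pt_data`, `relabel` (`card_gr`), and `core` for `v i ∘ τ i`,
`N i = 2 * m i`, `p i = m i`, `posP (m i) (τ i) (φ i) (f i)` (`posP_self`, `mem_iff`). `posP_minor` and `mem_act_iff` give `ρ` such
that `f i` does not vanish at `act ρ (P j) ∈ Z j ⊆ Z (i + 1)`. -/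
theorem no_bad {w : ℕ} (Z : ℕ → Set (PrimeSpectrum (Rg k))) (hs : ∀ i, Stable (Z i))
    (hd : ∀ i, Z (i + 1) ⊆ Z i) (hZ : ∀ i, Z i ⊆ AGw k w) (P : ℕ → PrimeSpectrum (Rg k)) (hP : ∀ i, P i ∈ Z i)
    (f : ℕ → Rg k) (h1 : ∀ i, f i ∉ (P i).asIdeal) (h2 : ∀ i, ∀ Q ∈ Z (i + 1), f i ∈ Q.asIdeal) : False := by
  classical
  have hanti : ∀ i j, i ≤ j → Z j ⊆ Z i := by
    intro i j hij
    induction hij with
    | refl => exact subset_rfl
    | step _ ih => exact (hd _).trans ih
  choose M hM using fun i => lvl_exists (f i).vars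
  let m : ℕ → ℕ := fun i => 1 + ∑ i' ∈ Finset.range (i + 1), M i'
  have hmm : Monotone m := by
    intro i j hij
    exact Nat.add_le_add_left (Finset.sum_le_sum_of_subset
      (Finset.range_subset_range.2 (Nat.succ_le_succ hij))) 1
  have hMm : ∀ i, M i ≤ m i := by
    intro i
    have : M i ≤ ∑ i' ∈ Finset.range (i + 1), M i' :=
      Finset.single_le_sum (f := M) (fun _ _ => Nat.zero_le _) (Finset.mem_range.2 (Nat.lt_succ_self i))
    show M i ≤ 1 + _
    omega
  have hm1 : ∀ i, 1 ≤ m i := fun i => Nat.le_add_right 1 _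
  have hl : ∀ i, ∀ I ∈ (f i).vars, Lvl (m i) I := fun i I hI => lvl_mono (hMm i) (hM i I hI)
  obtain ⟨i₀, hi₀⟩ := zero_case P f m hmm hl h1 fun i j hij => h2 i _ (hanti _ _ hij (hP j))
  -- the data of the points
  choose v hv hr t htn htG htw htL using fun i : ℕ =>
    pt_data (hZ _ (hP (i₀ + i))) (hm1 (i₀ + i)) (hi₀ (i₀ + i) (Nat.le_add_right _ _))
  have hcard : ∀ i, (gr (m i) (m i)).card = 2 * m i := fun i => by rw [card_gr, two_mul]
  choose τ φ t' hτ hφ hls hr' hw' hL' using fun i : ℕ =>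
    relabel (v := v i) (htn i) (htG i) (w := (w : ℤ)) (htw i) (htL i)
  simp only [hcard] at hτ hφ hls hr' hw' hL'
  have hf : ∀ i, aeval (fun I : Finset ℕ => if I ⊆ Finset.range (2 * m (i₀ + i)) ∧ I.card = m (i₀ + i) then
      Dt (fun n => v i (τ i n)) I.sort else 0)
      (posP (m (i₀ + i)) (τ i) (φ i) (f (i₀ + i))) ≠ 0 := by
    intro i
    rw [posP_self (hv i) (hτ i) (hφ i) (hl (i₀ + i))]
    exact fun h => h1 (i₀ + i) ((mem_iff _ _).2 h)
  obtain ⟨i, j, hij, e, C, η, hη, he, heC, hC, hcc, hne⟩ :=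
    core w (fun i => Res (P (i₀ + i))) (fun i => 2 * m (i₀ + i)) (fun i => m (i₀ + i))
      (fun i n => v i (τ i n)) (fun i => by rw [hr' i, hr i]) t' hls hw' hL'
      (fun i => posP (m (i₀ + i)) (τ i) (φ i) (f (i₀ + i))) hf
  obtain ⟨ρ, hρ, hval⟩ := posP_minor (hv j) (hτ i) (hφ i) (hτ j) (hφ j) (hl (i₀ + i)) hη he heC hC hcc
  rw [hval] at hne
  refine hne ((mem_act_iff _ ρ hρ _).1 ?_)
  refine h2 (i₀ + i) _ (hanti _ _ ?_ (hs (i₀ + j) ρ hρ _ (hP (i₀ + j))))
  omega

/-- FIN. The main theorem: for every field `k` and every `w` the space `X_{≤ w}` is topologically `S_∞`-noetherian: every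
descending chain of `S_∞`-stable (relatively) closed subsets stabilises. (A chain which does not stabilise has a strictly
decreasing subsequence; `separate`, `no_bad`.) -/
theorem main (k : Type u) [Field k] (w : ℕ) (Z : ℕ → Set (PrimeSpectrum (Rg k)))
    (hc : ∀ i, ∃ C, IsClosed C ∧ Z i = C ∩ AGw k w) (hs : ∀ i, Stable (Z i))
    (hd : ∀ i, Z (i + 1) ⊆ Z i) : ∃ n, ∀ i, n ≤ i → Z i = Z n := by
  classical
  by_contra hcon
  push Not at hcon
  have hanti : ∀ i j, i ≤ j → Z j ⊆ Z i := by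
    intro i j hij
    induction hij with
    | refl => exact subset_rfl
    | step _ ih => exact (hd _).trans ih
  choose g hg1 hg2 using hcon
  let φ : ℕ → ℕ := fun n => g^[n] 0
  have hφ : ∀ n, φ (n + 1) = g (φ n) := fun n => Function.iterate_succ_apply' g n 0
  have hZφ : ∀ n, Z (φ n) ⊆ AGw k w := by
    intro n
    obtain ⟨C, -, hC⟩ := hc (φ n)
    rw [hC]
    exact Set.inter_subset_right
  have hstep : ∀ n, ∃ P, P ∈ Z (φ n) ∧ P ∉ Z (φ (n + 1)) := by
    intro n
    rw [hφ]
    by_contra h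
    push Not at h
    exact hg2 (φ n) (Set.Subset.antisymm (hanti _ _ (hg1 _)) fun P hP => h P hP)
  choose P hP1 hP2 using hstep
  choose f hf1 hf2 using fun n => separate (hc (φ (n + 1))) (hZφ n (hP1 n)) (hP2 n)
  exact no_bad (fun n => Z (φ n)) (fun n => hs _) (fun n => by
    show Z (φ (n + 1)) ⊆ Z (φ n)
    rw [hφ]
    exact hanti _ _ (hg1 _)) hZφ P hP1 f hf1 hf2

end Pool.Agent.BWN
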