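import Mathlib

/-!
# Piece TEN: functions of two variables
-/

set_option autoImplicit false

open Finset

namespace Pool.Agent.BWN

universe u

variable {K : Type u} [Field K] {p : ℕ} {v : ℕ → Fin p → K}

/-- TEN. Linear algebra: a function of two variables (`a ∈ α` finite) which is in the span of the `g x` as a function of the
first variable and in the span of the `g' y` as a function of the second one.

Proof. Let `S` be the span of the `g x`, with a basis `u₁, …, u_m`; `F (·, b) = ∑ c_i (b) u_i`. As `α` is finite the
coefficient functionals on `S` extend to `α → K`, that is `c_i (b) = ∑ a, λ_{i a} F (a, b)`. So `c_i` is in the span of the `g' y`;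
express the `u_i` by the `g x` and the `c_i` by the `g' y`. -/
theorem tensor {α β : Type} [Finite α] {D : ℕ} (g : Fin D → α → K) (g' : Fin D → β → K) (F : α → β → K)
    (h1 : ∀ b, (fun a => F a b) ∈ Submodule.span K (Set.range g))
    (h2 : ∀ a, F a ∈ Submodule.span K (Set.range g')) :
    ∃ m : Fin D → Fin D → K, ∀ a b, F a b = ∑ x, ∑ y, m x y * (g x a * g' y b) := by
  classical
  haveI := Fintype.ofFinite α
  let G : (Fin D → K) →ₗ[K] (α → K) := Fintype.linearCombination K g
  have hG : ∀ h ∈ Submodule.span K (Set.range g), h ∈ LinearMap.range G := by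
    intro h hh
    rw [Fintype.range_linearCombination]
    exact hh
  obtain ⟨σ, hσ⟩ := G.rangeRestrict.exists_rightInverse_of_surjective
    (LinearMap.range_eq_top.2 G.surjective_rangeRestrict)
  obtain ⟨ψ, hψ⟩ := LinearMap.exists_extend σ
  have hGψ : ∀ h ∈ LinearMap.range G, G (ψ h) = h := by
    intro h hh
    have h3 : ψ h = σ ⟨h, hh⟩ := by
      rw [← hψ]
      rfl
    have h4 := LinearMap.congr_fun hσ ⟨h, hh⟩
    have h5 := congrArg Subtype.val h4
    rw [h3]
    exact h5
  -- the coefficient functions
  have hc : ∀ x, (fun b => ψ (fun a => F a b) x) ∈ Submodule.span K (Set.range g') := by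
    intro x
    have h3 : (fun b => ψ (fun a => F a b) x) = ∑ a, ψ (Pi.single a 1) x • F a := by
      funext b
      have h4 : (fun a => F a b) = ∑ a, F a b • (Pi.single a (1 : K) : α → K) := by
        funext a'
        rw [Finset.sum_apply, Finset.sum_eq_single a']
        · simp
        · intro c _ hc
          simp [Pi.single_eq_of_ne (Ne.symm hc)]
        · intro h
          exact absurd (Finset.mem_univ _) h
      conv_lhs => rw [h4]
      rw [map_sum, Finset.sum_apply, Finset.sum_apply]
      refine Finset.sum_congr rfl fun a _ => ?_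
      rw [map_smul, Pi.smul_apply, Pi.smul_apply, smul_eq_mul, smul_eq_mul, mul_comm]
    rw [h3]
    exact Submodule.sum_mem _ fun a _ => Submodule.smul_mem _ _ (h2 a)
  have hm : ∀ x, ∃ m : Fin D → K, ∑ y, m y • g' y = fun b => ψ (fun a => F a b) x := fun x =>
    (Submodule.mem_span_range_iff_exists_fun K).1 (hc x)
  choose m hm using hm
  refine ⟨m, fun a b => ?_⟩
  have h5 := congrFun (hGψ _ (hG _ (h1 b))) a
  have h6 : G (ψ fun a => F a b) a = ∑ x, ψ (fun a => F a b) x * g x a := by
    simp [G, Fintype.linearCombination_apply, Finset.sum_apply]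
  rw [h6] at h5
  rw [← h5]
  refine Finset.sum_congr rfl fun x _ => ?_
  have h7 := congrFun (hm x) b
  simp only [Finset.sum_apply, Pi.smul_apply, smul_eq_mul] at h7
  rw [← h7, Finset.sum_mul]
  refine Finset.sum_congr rfl fun y _ => ?_
  ring

end Pool.Agent.BWN
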