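import Pool.Agent.Lib_MP_001f0c_ag.SSC
import Pool.Agent.Lib_MP_001f0c_ag.TEN

/-!
# Piece GLU: gluing
-/

set_option autoImplicit false

open Finset

namespace Pool.Agent.BWN

universe u

variable {K : Type u} [Field K] {p : ℕ} {v : ℕ → Fin p → K}

theorem glu_sort {a b c : ℕ} {I J : Finset ℕ} (hI : I ⊆ Finset.Ico a b) (hJ : J ⊆ Finset.Ico b c) :
    (I ∪ J).sort = I.sort ++ J.sort := by
  have hdisj : List.Disjoint I.sort J.sort := by
    intro x hx hy
    rw [Finset.mem_sort] at hx hy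
    have h1 := Finset.mem_Ico.1 (hI hx)
    have h2 := Finset.mem_Ico.1 (hJ hy)
    omega
  have hnd : (I.sort ++ J.sort).Nodup :=
    List.nodup_append'.2 ⟨Finset.sort_nodup _ _, Finset.sort_nodup _ _, hdisj⟩
  have h := (List.toFinset_sort (r := (· ≤ ·)) hnd).2 (by
    rw [List.pairwise_append]
    refine ⟨Finset.pairwise_sort _ _, Finset.pairwise_sort _ _, ?_⟩
    intro x hx y hy
    rw [Finset.mem_sort] at hx hy
    have h1 := Finset.mem_Ico.1 (hI hx)
    have h2 := Finset.mem_Ico.1 (hJ hy)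
    show x ≤ y
    omega)
  rw [← h]
  congr 1
  rw [List.toFinset_append, Finset.sort_toFinset, Finset.sort_toFinset]

/-- restriction to the subsets of `A` of a function on finite sets -/
def gluRes (A : Finset ℕ) : (Finset ℕ → K) →ₗ[K] ({I : Finset ℕ // I ⊆ A} → K) where
  toFun h := fun I => h I.1
  map_add' _ _ := rfl
  map_smul' _ _ := rfl

/-- `h ↦ (I ↦ h (I ∪ J))` -/
def gluL (A J : Finset ℕ) : (Finset ℕ → K) →ₗ[K] ({I : Finset ℕ // I ⊆ A} → K) where
  toFun h := fun I => h (I.1 ∪ J)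
  map_add' _ _ := rfl
  map_smul' _ _ := rfl

/-- `h ↦ (J ↦ h (I ∪ J))` -/
def gluR (B I : Finset ℕ) : (Finset ℕ → K) →ₗ[K] ({J : Finset ℕ // J ⊆ B} → K) where
  toFun h := fun J => h (I ∪ J.1)
  map_add' _ _ := rfl
  map_smul' _ _ := rfl

theorem glu_res {U A : Finset ℕ} {D : ℕ} {g : Finset ℕ → Fin D → K} (hg : Spn v U A g)
    {h : Finset ℕ → K} (hh : h ∈ SS v A ∅ (U \ A)) :
    gluRes A h ∈ Submodule.span K
      (Set.range fun (x : Fin D) (I : {I : Finset ℕ // I ⊆ A}) => g I.1 x) := by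
  rw [← hg] at hh
  have h1 := Submodule.mem_map_of_mem (f := gluRes (K := K) A) hh
  rw [Submodule.map_span, ← Set.range_comp] at h1
  convert h1 using 3
  funext x
  funext I
  show g I.1 x = if I.1 ⊆ A then g I.1 x else 0
  rw [if_pos I.2]

theorem glu_left {U : Finset ℕ} {a b c : ℕ} (hab : a ≤ b) (hbc : b ≤ c) (hU : Finset.Ico a c ⊆ U) {D : ℕ}
    {g₁ : Finset ℕ → Fin D → K} (hg₁ : Spn v U (Finset.Ico a b) g₁) {J : Finset ℕ} (hJ : J ⊆ Finset.Ico b c)
    {h : Finset ℕ → K} (hh : h ∈ SS v (Finset.Ico a c) ∅ (U \ Finset.Ico a c)) :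
    gluL (Finset.Ico a b) J h ∈ Submodule.span K
      (Set.range fun (x : Fin D) (I : {I : Finset ℕ // I ⊆ Finset.Ico a b}) => g₁ I.1 x) := by
  have key : SS v (Finset.Ico a c) ∅ (U \ Finset.Ico a c) ≤ Submodule.comap (gluL (K := K) (Finset.Ico a b) J)
      (Submodule.span K (Set.range fun (x : Fin D) (I : {I : Finset ℕ // I ⊆ Finset.Ico a b}) => g₁ I.1 x)) := by
    unfold SS
    rw [Submodule.span_le]
    rintro f ⟨l, hl, rfl⟩
    rw [SetLike.mem_coe, Submodule.mem_comap]
    have hgen : (fun I : Finset ℕ => if I ⊆ Finset.Ico a b then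
        Dt v (I.sort ++ (∅ : Finset ℕ).sort ++ (J.sort ++ l)) else 0) ∈ SS v (Finset.Ico a b) ∅ (U \ Finset.Ico a b) := by
      apply Submodule.subset_span
      refine ⟨J.sort ++ l, ?_, rfl⟩
      intro x hx
      rw [List.mem_append, Finset.mem_sort] at hx
      rw [Finset.mem_sdiff]
      rcases hx with hx | hx
      · have h1 := Finset.mem_Ico.1 (hJ hx)
        refine ⟨hU (Finset.mem_Ico.2 (by omega)), fun h2 => ?_⟩
        have := Finset.mem_Ico.1 h2
        omega
      · have h1 := Finset.mem_sdiff.1 (hl x hx)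
        refine ⟨h1.1, fun h2 => h1.2 ?_⟩
        have := Finset.mem_Ico.1 h2
        exact Finset.mem_Ico.2 (by omega)
    have h2 := glu_res hg₁ hgen
    convert h2 using 1
    funext I
    show (if I.1 ∪ J ⊆ Finset.Ico a c then Dt v ((I.1 ∪ J).sort ++ (∅ : Finset ℕ).sort ++ l) else 0) =
      if I.1 ⊆ Finset.Ico a b then Dt v (I.1.sort ++ (∅ : Finset ℕ).sort ++ (J.sort ++ l)) else 0
    rw [if_pos I.2, if_pos (Finset.union_subset (I.2.trans (Finset.Ico_subset_Ico_right hbc))
      (hJ.trans (Finset.Ico_subset_Ico_left hab))), glu_sort I.2 hJ]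
    simp
  exact key hh

theorem glu_right {U : Finset ℕ} {a b c : ℕ} (hab : a ≤ b) (hbc : b ≤ c) (hU : Finset.Ico a c ⊆ U) {D : ℕ}
    {g₂ : Finset ℕ → Fin D → K} (hg₂ : Spn v U (Finset.Ico b c) g₂) {I : Finset ℕ} (hI : I ⊆ Finset.Ico a b)
    {h : Finset ℕ → K} (hh : h ∈ SS v (Finset.Ico a c) ∅ (U \ Finset.Ico a c)) :
    gluR (Finset.Ico b c) I h ∈ Submodule.span K
      (Set.range fun (x : Fin D) (J : {J : Finset ℕ // J ⊆ Finset.Ico b c}) => g₂ J.1 x) := by
  have key : SS v (Finset.Ico a c) ∅ (U \ Finset.Ico a c) ≤ Submodule.comap (gluR (K := K) (Finset.Ico b c) I)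
      (Submodule.span K (Set.range fun (x : Fin D) (J : {J : Finset ℕ // J ⊆ Finset.Ico b c}) => g₂ J.1 x)) := by
    unfold SS
    rw [Submodule.span_le]
    rintro f ⟨l, hl, rfl⟩
    rw [SetLike.mem_coe, Submodule.mem_comap]
    have hgen : (fun J : Finset ℕ => if J ⊆ Finset.Ico b c then
        Dt v (J.sort ++ (∅ : Finset ℕ).sort ++ (I.sort ++ l)) else 0) ∈ SS v (Finset.Ico b c) ∅ (U \ Finset.Ico b c) := by
      apply Submodule.subset_span
      refine ⟨I.sort ++ l, ?_, rfl⟩
      intro x hx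
      rw [List.mem_append, Finset.mem_sort] at hx
      rw [Finset.mem_sdiff]
      rcases hx with hx | hx
      · have h1 := Finset.mem_Ico.1 (hI hx)
        refine ⟨hU (Finset.mem_Ico.2 (by omega)), fun h2 => ?_⟩
        have := Finset.mem_Ico.1 h2
        omega
      · have h1 := Finset.mem_sdiff.1 (hl x hx)
        refine ⟨h1.1, fun h2 => h1.2 ?_⟩
        have := Finset.mem_Ico.1 h2
        exact Finset.mem_Ico.2 (by omega)
    have h2 := Submodule.smul_mem _ ((-1 : K) ^ (I.card * (p - l.length - I.card))) (glu_res hg₂ hgen)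
    convert h2 using 1
    funext J
    show (if I ∪ J.1 ⊆ Finset.Ico a c then Dt v ((I ∪ J.1).sort ++ (∅ : Finset ℕ).sort ++ l) else 0) =
      (-1 : K) ^ (I.card * (p - l.length - I.card)) *
      (if J.1 ⊆ Finset.Ico b c then Dt v (J.1.sort ++ (∅ : Finset ℕ).sort ++ (I.sort ++ l)) else 0)
    rw [if_pos J.2, if_pos (Finset.union_subset (hI.trans (Finset.Ico_subset_Ico_right hbc))
      (J.2.trans (Finset.Ico_subset_Ico_left hab))), glu_sort hI J.2]
    have hm := DV_move ([] : List (Fin p → K)) (I.sort.map v) (J.1.sort.map v) (l.map v)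
    simp only [List.length_map, Finset.length_sort, List.nil_append] at hm
    have e1 : Dt v (I.sort ++ J.1.sort ++ (∅ : Finset ℕ).sort ++ l) =
        DV (I.sort.map v ++ J.1.sort.map v ++ l.map v) := by
      unfold Dt; simp
    have e2 : Dt v (J.1.sort ++ (∅ : Finset ℕ).sort ++ (I.sort ++ l)) =
        DV (J.1.sort.map v ++ I.sort.map v ++ l.map v) := by
      unfold Dt; simp
    rw [e1, e2, hm]
    by_cases hlen : I.card + J.1.card + l.length = p
    · have : J.1.card = p - l.length - I.card := by omega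
      rw [this]
    · have h0 : DV (J.1.sort.map v ++ I.sort.map v ++ l.map v) = 0 := dva_ne (by
        simp only [List.length_append, List.length_map, Finset.length_sort]; omega)
      rw [h0, mul_zero, mul_zero]
  exact key hh

/-- GLU. Gluing. `A = [a, b)`, `B = [b, c)`. Every element `h` of the state space of `[a, c)`, as a function of `(I, J)`,
`I ⊆ A`, `J ⊆ B`, is in the state space of `A` for fixed `J` and in that of `B` for fixed `I`: for a generator
`(I ∪ J).sort = I.sort ++ J.sort`, so `h (I ∪ J) = det (I, J, l)`, and this is `(-1)^(|I| |J|) det (J, I, l)`, where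
`|J| = p - |l| - |I|` (otherwise it is `0`). Then `tensor` with `α = {I // I ⊆ A}`, `β = {J // J ⊆ B}`. -/
theorem glue {U : Finset ℕ} {a b c : ℕ} (hab : a ≤ b) (hbc : b ≤ c) (hU : Finset.Ico a c ⊆ U) {D : ℕ}
    {g g₁ g₂ : Finset ℕ → Fin D → K} (hg : Spn v U (Finset.Ico a c) g) (hg₁ : Spn v U (Finset.Ico a b) g₁)
    (hg₂ : Spn v U (Finset.Ico b c) g₂) :
    ∃ m : Fin D → Fin D → Fin D → K, ∀ I ⊆ Finset.Ico a c, ∀ s,
      g I s = ∑ x, ∑ y, m x y s * (g₁ (I ∩ Finset.Ico a b) x * g₂ (I ∩ Finset.Ico b c) y) := by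
  have hs : ∀ s : Fin D, ∃ m : Fin D → Fin D → K, ∀ (I : {I : Finset ℕ // I ⊆ Finset.Ico a b})
      (J : {J : Finset ℕ // J ⊆ Finset.Ico b c}),
      g (I.1 ∪ J.1) s = ∑ x, ∑ y, m x y * (g₁ I.1 x * g₂ J.1 y) := by
    intro s
    have hmem : (fun I : Finset ℕ => if I ⊆ Finset.Ico a c then g I s else 0) ∈
        SS v (Finset.Ico a c) ∅ (U \ Finset.Ico a c) := by
      rw [← hg]
      exact Submodule.subset_span ⟨s, rfl⟩
    have hval : ∀ (I : {I : Finset ℕ // I ⊆ Finset.Ico a b}) (J : {J : Finset ℕ // J ⊆ Finset.Ico b c}),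
        (if I.1 ∪ J.1 ⊆ Finset.Ico a c then g (I.1 ∪ J.1) s else 0) = g (I.1 ∪ J.1) s := by
      intro I J
      rw [if_pos (Finset.union_subset (I.2.trans (Finset.Ico_subset_Ico_right hbc))
        (J.2.trans (Finset.Ico_subset_Ico_left hab)))]
    have : Finite {I : Finset ℕ // I ⊆ Finset.Ico a b} :=
      Set.Finite.to_subtype ((Finset.finite_toSet (Finset.Ico a b).powerset).subset
        (fun I hI => Finset.mem_coe.2 (Finset.mem_powerset.2 hI)))
    refine tensor (α := {I : Finset ℕ // I ⊆ Finset.Ico a b}) (β := {J : Finset ℕ // J ⊆ Finset.Ico b c})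
      (fun x I => g₁ I.1 x) (fun y J => g₂ J.1 y) (fun I J => g (I.1 ∪ J.1) s) ?_ ?_
    · intro J
      have h1 := glu_left hab hbc hU hg₁ J.2 hmem
      convert h1 using 1
      funext I
      exact (hval I J).symm
    · intro I
      have h1 := glu_right hab hbc hU hg₂ I.2 hmem
      convert h1 using 1
      funext J
      exact (hval I J).symm
  choose m hm using hs
  refine ⟨fun x y s => m s x y, ?_⟩
  intro I hI s
  have h1 := hm s ⟨I ∩ Finset.Ico a b, Finset.inter_subset_right⟩ ⟨I ∩ Finset.Ico b c, Finset.inter_subset_right⟩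
  have h2 : I ∩ Finset.Ico a b ∪ I ∩ Finset.Ico b c = I := by
    rw [← Finset.inter_union_distrib_left, Finset.Ico_union_Ico_eq_Ico hab hbc]
    exact Finset.inter_eq_left.2 hI
  simp only [h2] at h1
  exact h1

end Pool.Agent.BWN
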