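import Pool.Agent.Lib_MP_001f0c_ag.LNA

/-!
# Piece LNB: the linking theorem
-/

set_option autoImplicit false

open Finset

namespace Pool.Agent.BWN

variable {E : Type} [DecidableEq E] {r : Finset E → ℤ}

theorem LNB_aux (hr : Rk r) {A B : Finset E} {j : ℤ} : ∀ (m : ℕ) (C G : Finset E), (G ∩ B).card = m →
    Disjoint A C → Disjoint A G → Disjoint C G → lmn r A C G A = j →
    (∀ X, A ⊆ X → X ⊆ A ∪ (G ∩ B) → j ≤ lmn r A C G X) →
    ∃ C', C' ⊆ C ∪ (G ∩ B) ∧ Relation.ReflTransGen (Stp r A) (C, G) (C', G \ B) := by
  intro m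
  induction m with
  | zero =>
    intro C G hm _ _ _ _ _
    have h0 : G ∩ B = ∅ := card_eq_zero.1 hm
    have h1 : G \ B = G := by
      ext a
      have h2 : a ∈ G → a ∉ B := fun h3 h4 => by
        have h5 : a ∈ G ∩ B := mem_inter.2 ⟨h3, h4⟩
        rw [h0] at h5
        exact notMem_empty _ h5
      simp only [mem_sdiff]; tauto
    rw [h1]
    exact ⟨C, subset_union_left, Relation.ReflTransGen.refl⟩
  | succ m ih =>
    intro C G hm hAC hAG hCG hj h
    obtain ⟨x, hx⟩ : (G ∩ B).Nonempty := by
      rw [← card_pos]; omega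
    have hxG : x ∈ G := (mem_inter.1 hx).1
    have hxB : x ∈ B := (mem_inter.1 hx).2
    obtain ⟨C1, G1, hst, hG1, hC1, hj1, h1⟩ := lnk_step hr hAC hAG hCG hxG hxB hj h
    subst hG1
    have hxA : x ∉ A := fun h => Finset.disjoint_left.1 hAG h hxG
    have hcard : (G.erase x ∩ B).card = m := by
      have h2 : G.erase x ∩ B = (G ∩ B).erase x := by
        ext a; simp only [mem_inter, mem_erase]; tauto
      rw [h2, card_erase_of_mem hx]; omega
    have hd1 : Disjoint A C1 := by
      rcases hC1 with rfl | rfl
      · exact hAC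
      · rw [disjoint_insert_right]; exact ⟨hxA, hAC⟩
    have hd2 : Disjoint A (G.erase x) := hAG.mono_right (erase_subset _ _)
    have hd3 : Disjoint C1 (G.erase x) := by
      rcases hC1 with rfl | rfl
      · exact hCG.mono_right (erase_subset _ _)
      · rw [disjoint_insert_left]; exact ⟨notMem_erase _ _, hCG.mono_right (erase_subset _ _)⟩
    obtain ⟨C2, hC2, hr2⟩ := ih C1 (G.erase x) hcard hd1 hd2 hd3 hj1 h1
    have hGB : G.erase x \ B = G \ B := by
      ext a
      have h2 : a = x → a ∈ B := by rintro rfl; exact hxB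
      simp only [mem_sdiff, mem_erase]; tauto
    rw [hGB] at hr2
    refine ⟨C2, ?_, Relation.ReflTransGen.head hst hr2⟩
    intro a ha
    have h3 := hC2 ha
    have h4 : a = x → a ∈ G ∩ B := by rintro rfl; exact hx
    simp only [mem_union, mem_inter, mem_erase] at h3 h4 ⊢
    rcases hC1 with rfl | rfl
    · tauto
    · simp only [mem_insert] at h3
      tauto

/-- LNB. The linking theorem: induction on the number of the elements of `G ∩ B`, `lnk_step`, from `(∅, U \ A)`. -/
theorem linking (hr : Rk r) {U A B : Finset E} (hAB : A ⊆ B) (hB : B ⊆ U)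
    (h : ∀ X, A ⊆ X → X ⊆ B → lam r U A ≤ lam r U X) :
    ∃ C ⊆ B \ A, Relation.ReflTransGen (Stp r A) (∅, U \ A) (C, U \ B) := by
  have hAU : A ⊆ U := hAB.trans hB
  have e1 : A ∪ (U \ A) = U := union_sdiff_of_subset hAU
  have e2 : A ∪ (U \ A ∩ B) = B := by
    ext a
    have h1 := @hAB a
    have h2 := @hB a
    simp only [mem_union, mem_inter, mem_sdiff]; tauto
  have e3 : (U \ A) \ B = U \ B := by
    ext a
    have h1 := @hAB a
    simp only [mem_sdiff]; tauto
  have hl : ∀ X, lmn r A ∅ (U \ A) X = lam r U X := by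
    intro X
    unfold lmn lam
    rw [e1, union_empty, union_empty, union_empty, hr.zero]
    ring
  obtain ⟨C, hC, h2⟩ := LNB_aux hr (A := A) (B := B) (j := lam r U A) _ ∅ (U \ A) rfl
    (Finset.disjoint_empty_right _) disjoint_sdiff (Finset.disjoint_empty_left _) (hl A) (by
      intro X hX hX2
      rw [e2] at hX2
      rw [hl]
      exact h X hX hX2)
  rw [e3] at h2
  refine ⟨C, fun a ha => ?_, h2⟩
  have h3 := hC ha
  simp only [mem_union, mem_inter, mem_sdiff, notMem_empty] at h3 ⊢
  tauto

/-- LNB. Invariants of the steps (`C ∪ G` gets smaller, but keeps its rank; the elements of `C` are independent over `A`). -/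
theorem stp_inv (hr : Rk r) {U A C G : Finset E}
    (h : Relation.ReflTransGen (Stp r A) (∅, U \ A) (C, G)) :
    C ⊆ U \ A ∧ G ⊆ U \ A ∧ Disjoint C G ∧ r (C ∪ G) = r (U \ A) ∧ r (A ∪ C) = r A + C.card := by
  have key : ∀ q : Finset E × Finset E, Relation.ReflTransGen (Stp r A) (∅, U \ A) q →
      q.1 ⊆ U \ A ∧ q.2 ⊆ U \ A ∧ Disjoint q.1 q.2 ∧ r (q.1 ∪ q.2) = r (U \ A) ∧
        r (A ∪ q.1) = r A + q.1.card := by
    intro q hq
    induction hq with
    | refl => exact ⟨empty_subset _, Subset.refl _, Finset.disjoint_empty_left _, by simp, by simp⟩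
    | tail _ hst ih =>
      cases hst with
      | del C G x hx hxC hrk =>
        obtain ⟨i1, i2, i3, i4, i5⟩ := ih
        exact ⟨i1, (erase_subset _ _).trans i2, i3.mono_right (erase_subset _ _),
          hrk.symm.trans i4, i5⟩
      | con C G x hx hxC hrk =>
        obtain ⟨i1, i2, i3, i4, i5⟩ := ih
        simp only at i1 i2 i3 i4 i5
        refine ⟨insert_subset (i2 hx) i1, (erase_subset _ _).trans i2, ?_, ?_, ?_⟩
        · simp only [disjoint_insert_left]
          exact ⟨notMem_erase _ _, i3.mono_right (erase_subset _ _)⟩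
        · rw [← i4]
          congr 1
          ext a
          have h2 : a = x → a ∈ G := by rintro rfl; exact hx
          simp only [mem_union, mem_insert, mem_erase]; tauto
        · have h1 := hr.unit (A ∪ C) x
          have h2 : A ∪ insert x C = insert x (A ∪ C) := by
            ext a; simp only [mem_union, mem_insert]; tauto
          simp only
          rw [h2, card_insert_of_notMem hxC]
          push_cast
          linarith
  exact key (C, G) h

theorem LNB_card (hr : Rk r) (C Y : Finset E) : r (C ∪ Y) ≤ C.card + r Y := by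
  induction C using Finset.induction_on with
  | empty => simp
  | insert x C hx ih =>
    rw [insert_union, card_insert_of_notMem hx]
    have := hr.unit (C ∪ Y) x
    push_cast
    linarith

/-- LNB. The number of the contracted elements, if `lam r U A = lam r U B`: `r A + |C| = r (A ∪ C) ≤ r B` and
`r (U \ A) = r (C ∪ (U \ B)) ≤ |C| + r (U \ B)`. -/
theorem linking_card (hr : Rk r) {U A B C : Finset E} (hAB : A ⊆ B) (hB : B ⊆ U) (hC : C ⊆ B \ A)
    (hl : lam r U A = lam r U B)
    (h : Relation.ReflTransGen (Stp r A) (∅, U \ A) (C, U \ B)) : (C.card : ℤ) = r B - r A := by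
  obtain ⟨_, _, _, h4, h5⟩ := stp_inv hr h
  have h6 : r (A ∪ C) ≤ r B := hr.mono _ _ (union_subset hAB (hC.trans sdiff_subset))
  have h7 := LNB_card hr C (U \ B)
  unfold lam at hl
  linarith

/-- LNB. Bounded number of remaining elements: take steps as long as possible (the number of elements of `G` decreases). At the end
`x` is not in the closure of `C ∪ G.erase x` and in the closure of `A ∪ C`, for all `x ∈ G`. So
`r (C ∪ G) = r C + |G|` and `r (A ∪ C ∪ G) = r (A ∪ C)`, and `|G| = lmn r A C G A ≤ lam r U A` (`lmn_le`). -/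
theorem stp_bound (hr : Rk r) {U A : Finset E} (hA : A ⊆ U) :
    ∃ C G, Relation.ReflTransGen (Stp r A) (∅, U \ A) (C, G) ∧ (G.card : ℤ) ≤ lam r U A := by
  have key : ∀ (m : ℕ) (C G : Finset E), G.card = m →
      Relation.ReflTransGen (Stp r A) (∅, U \ A) (C, G) →
      ∃ C' G', Relation.ReflTransGen (Stp r A) (∅, U \ A) (C', G') ∧ (G'.card : ℤ) ≤ lam r U A := by
    intro m
    induction m using Nat.strong_induction_on with
    | _ m ih =>
    intro C G hm hCG
    obtain ⟨i1, i2, i3, i4, i5⟩ := stp_inv hr hCG
    have hnC : ∀ x ∈ G, x ∉ C := fun x hx hx2 => Finset.disjoint_left.1 i3 hx2 hx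
    by_cases h1 : ∃ x ∈ G, r (C ∪ G) = r (C ∪ G.erase x)
    · obtain ⟨x, hx, h2⟩ := h1
      have h3 := card_erase_of_mem hx
      have h4 := card_pos.2 ⟨x, hx⟩
      exact ih (G.erase x).card (by omega) C (G.erase x) rfl
        (hCG.tail (Stp.del C G x hx (hnC x hx) h2))
    by_cases h2 : ∃ x ∈ G, r (A ∪ C) < r (insert x (A ∪ C))
    · obtain ⟨x, hx, h3⟩ := h2
      have h4 := card_erase_of_mem hx
      have h5 := card_pos.2 ⟨x, hx⟩
      exact ih (G.erase x).card (by omega) (insert x C) (G.erase x) rfl
        (hCG.tail (Stp.con C G x hx (hnC x hx) h3))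
    push Not at h1 h2
    have hAC : Disjoint A C := by
      rw [Finset.disjoint_left]
      intro a ha ha2
      exact (mem_sdiff.1 (i1 ha2)).2 ha
    have hAG : Disjoint A G := by
      rw [Finset.disjoint_left]
      intro a ha ha2
      exact (mem_sdiff.1 (i2 ha2)).2 ha
    have hcol : ∀ H : Finset E, H ⊆ G → r (C ∪ H) = r C + H.card := by
      intro H
      induction H using Finset.induction_on with
      | empty => intro _; simp
      | insert x H hxH ihH =>
        intro hs
        have hxG : x ∈ G := hs (mem_insert_self _ _)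
        have hHG : H ⊆ G := (subset_insert _ _).trans hs
        have h3 := ihH hHG
        have h4 := hr.sub (C ∪ insert x H) (C ∪ G.erase x)
        have h5 : (C ∪ insert x H) ∪ (C ∪ G.erase x) = C ∪ G := by
          ext a
          have h6 : a = x → a ∈ G := by rintro rfl; exact hxG
          have h7 := @hHG a
          simp only [mem_union, mem_insert, mem_erase]; tauto
        have h6 : (C ∪ insert x H) ∩ (C ∪ G.erase x) = C ∪ H := by
          ext a
          have h7 := @hHG a
          have h8 : a = x → a ∉ H := by rintro rfl; exact hxH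
          simp only [mem_union, mem_insert, mem_erase, mem_inter]; tauto
        rw [h5, h6] at h4
        have h7 : r (C ∪ G.erase x) ≤ r (C ∪ G) :=
          hr.mono _ _ (union_subset_union_right (erase_subset _ _))
        have h8 := h1 x hxG
        have h9 : r (C ∪ insert x H) ≤ r (C ∪ H) + 1 := by
          have : C ∪ insert x H = insert x (C ∪ H) := by
            ext a; simp only [mem_union, mem_insert]; tauto
          rw [this]; exact hr.unit _ _
        have h10 : r (C ∪ G.erase x) + 1 ≤ r (C ∪ G) := by
          rcases lt_or_eq_of_le h7 with h11 | h11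
          · omega
          · exact absurd h11.symm h8
        rw [card_insert_of_notMem hxH]
        push_cast
        linarith
    have hspan : ∀ H : Finset E, H ⊆ G → r (A ∪ C ∪ H) = r (A ∪ C) := by
      intro H
      induction H using Finset.induction_on with
      | empty => intro _; simp
      | insert x H hxH ihH =>
        intro hs
        have hxG : x ∈ G := hs (mem_insert_self _ _)
        have hHG : H ⊆ G := (subset_insert _ _).trans hs
        have h3 := ihH hHG
        have h4 := hr.sub (insert x (A ∪ C)) (A ∪ C ∪ H)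
        have h5 : insert x (A ∪ C) ∪ (A ∪ C ∪ H) = A ∪ C ∪ insert x H := by
          ext a; simp only [mem_union, mem_insert]; tauto
        have h6 : r (A ∪ C) ≤ r (insert x (A ∪ C) ∩ (A ∪ C ∪ H)) := hr.mono _ _ (by
          intro a ha
          rw [mem_inter]
          exact ⟨mem_insert_of_mem ha, mem_union_left _ ha⟩)
        rw [h5] at h4
        have h7 := h2 x hxG
        have h8 : r (A ∪ C) ≤ r (A ∪ C ∪ insert x H) := hr.mono _ _ subset_union_left
        linarith
    refine ⟨C, G, hCG, ?_⟩
    have hAUC : C ⊆ U := i1.trans sdiff_subset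
    have hAUG : G ⊆ U := i2.trans sdiff_subset
    refine le_trans ?_ (lmn_le hr hA hAUC hAUG hAC hAG)
    unfold lmn
    have e1 : ((A ∪ G) \ A) ∪ C = C ∪ G := by
      ext a
      have h2 : a ∈ G → a ∉ A := fun h3 h4 => Finset.disjoint_left.1 hAG h4 h3
      simp only [mem_union, mem_sdiff]; tauto
    have e2 : A ∪ G ∪ C = A ∪ C ∪ G := by
      ext a; simp only [mem_union]; tauto
    rw [e1, e2, hcol G (Subset.refl _), hspan G (Subset.refl _)]
    linarith
  exact key _ ∅ (U \ A) rfl Relation.ReflTransGen.refl

end Pool.Agent.BWN
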