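import Pool.Agent.Lib_MP_001f0c_ag.Ev

/-!
# Piece MIA: signs, minors: reflexivity and transitivity
-/

set_option autoImplicit false

open Finset

namespace Pool.Agent.BWN

universe u

/-- MIA -/
theorem sg_union_left {A A' B : Finset ℕ} (h : Disjoint A A') : sg (A ∪ A') B = sg A B * sg A' B :=
  prod_union h

/-- MIA -/
theorem sg_union_right {A B B' : Finset ℕ} (h : Disjoint B B') : sg A (B ∪ B') = sg A B * sg A B' := by
  unfold sg
  rw [← prod_mul_distrib]
  exact prod_congr rfl fun a _ => prod_union h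

/-- MIA -/
theorem sg_sq (A B : Finset ℕ) : sg A B = 1 ∨ sg A B = -1 := by
  have hmul : ∀ x y : ℤ, (x = 1 ∨ x = -1) → (y = 1 ∨ y = -1) → (x * y = 1 ∨ x * y = -1) := by
    rintro x y (rfl | rfl) (rfl | rfl) <;> simp
  unfold sg
  refine prod_induction _ (fun x : ℤ => x = 1 ∨ x = -1) hmul (Or.inl rfl) fun a _ => ?_
  refine prod_induction _ (fun x : ℤ => x = 1 ∨ x = -1) hmul (Or.inl rfl) fun b _ => ?_
  split_ifs
  · exact Or.inr rfl
  · exact Or.inl rfl

/-- MIA. All elements of `A` are before those of `B`. -/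
theorem sg_lt {A B : Finset ℕ} (h : ∀ a ∈ A, ∀ b ∈ B, a < b) : sg A B = 1 :=
  prod_eq_one fun a ha => prod_eq_one fun b hb => if_neg (h a ha b hb).asymm

/-- MIA. All elements of `A` are after those of `B`, whose number is even. -/
theorem sg_gt_even {A B : Finset ℕ} (h : ∀ a ∈ A, ∀ b ∈ B, b < a) (hB : Even B.card) : sg A B = 1 := by
  refine prod_eq_one fun a ha => ?_
  rw [prod_congr rfl fun b hb => if_pos (h a ha b hb), prod_const, hB.neg_one_pow]

/-- MIA. Strictly monotone maps preserve the sign. -/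
theorem sg_image {A B : Finset ℕ} {e : ℕ → ℕ} (h : StrictMonoOn e ((A : Set ℕ) ∪ B)) :
    sg (A.image e) (B.image e) = sg A B := by
  have hi := h.injOn
  unfold sg
  rw [prod_image fun x hx y hy hxy => hi (Or.inl hx) (Or.inl hy) hxy]
  refine prod_congr rfl fun a ha => ?_
  rw [prod_image fun x hx y hy hxy => hi (Or.inr hx) (Or.inr hy) hxy]
  refine prod_congr rfl fun b hb => ?_
  simp only [h.lt_iff_lt (Or.inr (mem_coe.2 hb)) (Or.inl (mem_coe.2 ha))]

variable {R : Type u} [CommRing R] {D : ℕ}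

/-- MIA -/
theorem mi_refl (g : Finset ℕ → Fin D → R) (a n : ℕ) : Mi g a n g a n 0 := by
  refine ⟨id, ∅, 1, Or.inl rfl, strictMonoOn_id, fun x hx => ⟨hx, notMem_empty x⟩,
    empty_subset _, by simp, fun I _ s => ?_⟩
  simp [sg]

/-- MIA. Composition: `e'' = e' ∘ e`, `C'' = e'(C) ∪ C'`, `η'' = η η' sg(e'(C), C')`. For `I ⊆ [a, a + n)`:
`g I = η sg(e I, C) g'(e I ∪ C) = η sg(e I, C) η' sg(e' e I ∪ e' C, C') g''(e' e I ∪ e' C ∪ C')` and
`sg(e' e I ∪ e' C, C') = sg(e' e I, C') sg(e' C, C')` (`sg_union_left`), `sg(e I, C) = sg(e' e I, e' C)` (`sg_image`),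
`sg(e' e I, e' C) sg(e' e I, C') = sg(e' e I, C'')` (`sg_union_right`). -/
theorem mi_trans {g g' g'' : Finset ℕ → Fin D → R} {a n a' n' a'' n'' : ℕ} {c c' : ℤ}
    (h : Mi g a n g' a' n' c) (h' : Mi g' a' n' g'' a'' n'' c') : Mi g a n g'' a'' n'' (c + c') := by
  obtain ⟨e, C, η, hη, he, hx, hC, hcard, hg⟩ := h
  obtain ⟨e', C', η', hη', he', hx', hC', hcard', hg'⟩ := h'
  have hinj : ∀ x ∈ Ico a' (a' + n'), ∀ y ∈ Ico a' (a' + n'), e' x = e' y → x = y := by
    intro x hxm y hym hxy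
    exact he'.injOn (by simpa using hxm) (by simpa using hym) hxy
  have hdisj : Disjoint (C.image e') C' := by
    rw [disjoint_left]
    intro y hy hyC'
    obtain ⟨x, hxC, rfl⟩ := mem_image.1 hy
    exact (hx' x (hC hxC)).2 hyC'
  have heI : ∀ I ⊆ Ico a (a + n), I.image e ⊆ Ico a' (a' + n') := by
    intro I hI y hy
    obtain ⟨x, hxI, rfl⟩ := mem_image.1 hy
    exact (hx x (hI hxI)).1
  have hmul : ∀ x y : ℤ, (x = 1 ∨ x = -1) → (y = 1 ∨ y = -1) → (x * y = 1 ∨ x * y = -1) := by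
    rintro x y (rfl | rfl) (rfl | rfl) <;> simp
  refine ⟨e' ∘ e, C.image e' ∪ C', η * η' * sg (C.image e') C', ?_, ?_, ?_, ?_, ?_, ?_⟩
  · exact hmul _ _ (hmul _ _ hη hη') (sg_sq _ _)
  · intro x hxm y hym hxy
    refine he' ?_ ?_ (he hxm hym hxy)
    · simpa using (hx x (by simpa using hxm)).1
    · simpa using (hx y (by simpa using hym)).1
  · intro x hxm
    obtain ⟨h1, h2⟩ := hx x hxm
    refine ⟨(hx' _ h1).1, ?_⟩
    rw [mem_union, not_or]
    refine ⟨fun hmem => ?_, (hx' _ h1).2⟩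
    obtain ⟨y, hyC, hye⟩ := mem_image.1 hmem
    exact h2 (hinj y (hC hyC) _ h1 hye ▸ hyC)
  · refine union_subset ?_ hC'
    intro y hy
    obtain ⟨x, hxC, rfl⟩ := mem_image.1 hy
    exact (hx' x (hC hxC)).1
  · rw [card_union_of_disjoint hdisj, card_image_of_injOn (fun x hxC y hyC hxy =>
      hinj x (hC hxC) y (hC hyC) hxy)]
    push_cast
    rw [hcard, hcard']
  · intro I hI s
    have hIC : I.image e ∪ C ⊆ Ico a' (a' + n') := union_subset (heI I hI) hC
    have hd2 : Disjoint ((I.image e).image e') (C.image e') := by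
      rw [disjoint_left]
      intro y hy hyC
      obtain ⟨x, hxI, rfl⟩ := mem_image.1 hy
      obtain ⟨z, hzC, hze⟩ := mem_image.1 hyC
      obtain ⟨w, hwI, rfl⟩ := mem_image.1 hxI
      exact (hx w (hI hwI)).2 (hinj z (hC hzC) _ (heI I hI hxI) hze ▸ hzC)
    have hsg : sg ((I.image e).image e') (C.image e') = sg (I.image e) C := by
      refine sg_image (he'.mono ?_)
      intro y hy
      have : y ∈ Ico a' (a' + n') := by
        rcases hy with hy | hy
        · exact heI I hI (mem_coe.1 hy)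
        · exact hC (mem_coe.1 hy)
      simpa using this
    rw [hg I hI s, hg' _ hIC s, image_union, sg_union_left hd2, ← image_image,
      sg_union_right hdisj, hsg, union_assoc]
    push_cast
    ring

/-- MIA. `Mi` depends only on the values on the subsets of the intervals. -/
theorem mi_congr {g g₁ g' g₁' : Finset ℕ → Fin D → R} {a n a' n' : ℕ} {c : ℤ}
    (h : Mi g a n g' a' n' c) (h1 : ∀ I ⊆ Finset.Ico a (a + n), ∀ s, g₁ I s = g I s)
    (h2 : ∀ I ⊆ Finset.Ico a' (a' + n'), ∀ s, g₁' I s = g' I s) : Mi g₁ a n g₁' a' n' c := by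
  obtain ⟨e, C, η, hη, he, hx, hC, hcard, hg⟩ := h
  refine ⟨e, C, η, hη, he, hx, hC, hcard, fun I hI s => ?_⟩
  rw [h1 I hI s, hg I hI s, h2 _ (union_subset ?_ hC) s]
  intro y hy
  obtain ⟨x, hxI, rfl⟩ := mem_image.1 hy
  exact (hx x (hI hxI)).1

end Pool.Agent.BWN
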