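import Pool.Agent.Lib_MP_001f0c_ag.MIA

/-!
# Piece MIB: minors of the children give minors
-/

set_option autoImplicit false

open Finset

namespace Pool.Agent.BWN

universe u

variable {Γ : Type} {R : Type u} [CommRing R] {D : ℕ}

/-- MIB. Locality: only the positions of the leaves matter. Induction on `t`. -/
theorem ev_local (t : Tr Γ (Ix D → R)) : ∀ (a : ℕ) (I J : Finset ℕ),
    (∀ x ∈ Finset.Ico a (a + t.nl), x ∈ I ↔ x ∈ J) → ∀ s, ev D t a I s = ev D t a J s := by
  induction t with
  | leaf c m =>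
    intro a I J h s
    have h1 : a ∈ I ↔ a ∈ J := h a (by simp)
    simp only [ev, h1]
  | node c m l r ihl ihr =>
    intro a I J h s
    simp only [Tr.nl_node] at h
    simp only [ev]
    refine sum_congr rfl fun x _ => sum_congr rfl fun y _ => ?_
    rw [ihl a I J (fun z hz => h z ?_) x, ihr (a + l.nl) I J (fun z hz => h z ?_) y]
    · rw [mem_Ico] at hz ⊢
      omega
    · rw [mem_Ico] at hz ⊢
      omega

/-- MIB. Ring homomorphisms. Induction on `t`. -/
theorem ev_map {R' : Type*} [CommRing R'] (φ : R →+* R') (t : Tr Γ (Ix D → R)) : ∀ (a : ℕ) (I : Finset ℕ) (s : Fin D),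
    φ (ev D t a I s) = ev D (t.map fun m i => φ (m i)) a I s := by
  induction t with
  | leaf c m =>
    intro a I s
    rfl
  | node c m l r ihl ihr =>
    intro a I s
    have hnl : ∀ t : Tr Γ (Ix D → R), (t.map fun m i => φ (m i)).nl = t.nl := by
      intro t
      induction t with
      | leaf c m => rfl
      | node c m l r ihl ihr => simp only [Tr.map_node, Tr.nl_node, ihl, ihr]
    simp only [ev, Tr.map_node, map_sum, map_mul, hnl]
    refine sum_congr rfl fun x _ => sum_congr rfl fun y _ => ?_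
    rw [ihl, ihr]

/-- MIB. Let `e x = e_l x` for `x < a + l.nl` and `e x = e_r x` otherwise, `C = C_l ∪ C_r`, `η = η_l η_r`. For
`I ⊆ [a, a + n_l + n_r)` let `I_l`, `I_r` be the parts in `[a, a + n_l)` and in the rest. By `ev_local` only these
matter for `l`, `r`, and only the part `e(I_l) ∪ C_l` or `e(I_r) ∪ C_r` of `e(I) ∪ C` for `l'`, `r'`. And
`sg(e(I), C) = sg(e I_l, C_l) sg(e I_l, C_r) sg(e I_r, C_l) sg(e I_r, C_r)`, where the second factor is `1` (`sg_lt`) and
the third as well, as the number of the elements of `C_l` is even (`sg_gt_even`). -/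
theorem mi_node {c c' : Γ} {m : Ix D → R} {l r l' r' : Tr Γ (Ix D → R)} {a a' : ℕ} {cl cr : ℤ}
    (hl : Mi (ev D l a) a l.nl (ev D l' a') a' l'.nl cl)
    (hr : Mi (ev D r (a + l.nl)) (a + l.nl) r.nl (ev D r' (a' + l'.nl)) (a' + l'.nl) r'.nl cr)
    (hcl : Even cl) :
    Mi (ev D (.node c m l r) a) a (l.nl + r.nl) (ev D (.node c' m l' r') a') a' (l'.nl + r'.nl)
      (cl + cr) := by
  obtain ⟨el, Cl, ηl, hηl, hel, hxl, hCl, hcardl, hgl⟩ := hl
  obtain ⟨er, Cr, ηr, hηr, her, hxr, hCr, hcardr, hgr⟩ := hr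
  have hmul : ∀ x y : ℤ, (x = 1 ∨ x = -1) → (y = 1 ∨ y = -1) → (x * y = 1 ∨ x * y = -1) := by
    rintro x y (rfl | rfl) (rfl | rfl) <;> simp
  set e : ℕ → ℕ := fun x => if x < a + l.nl then el x else er x with he
  have e_l : ∀ x, x < a + l.nl → e x = el x := fun x hx => if_pos hx
  have e_r : ∀ x, a + l.nl ≤ x → e x = er x := fun x hx => if_neg (not_lt.2 hx)
  have hxl' : ∀ x, a ≤ x → x < a + l.nl → (a' ≤ e x ∧ e x < a' + l'.nl) ∧ e x ∉ Cl := by
    intro x h1 h2
    rw [e_l x h2]
    obtain ⟨h3, h4⟩ := hxl x (mem_Ico.2 ⟨h1, h2⟩)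
    exact ⟨mem_Ico.1 h3, h4⟩
  have hxr' : ∀ x, a + l.nl ≤ x → x < a + l.nl + r.nl →
      (a' + l'.nl ≤ e x ∧ e x < a' + l'.nl + r'.nl) ∧ e x ∉ Cr := by
    intro x h1 h2
    rw [e_r x h1]
    obtain ⟨h3, h4⟩ := hxr x (mem_Ico.2 ⟨h1, h2⟩)
    exact ⟨mem_Ico.1 h3, h4⟩
  have hCl' : ∀ x ∈ Cl, a' ≤ x ∧ x < a' + l'.nl := fun x hx => mem_Ico.1 (hCl hx)
  have hCr' : ∀ x ∈ Cr, a' + l'.nl ≤ x ∧ x < a' + l'.nl + r'.nl := fun x hx => mem_Ico.1 (hCr hx)
  have hdC : Disjoint Cl Cr := by
    rw [disjoint_left]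
    intro x hx hx'
    have h1 := hCl' x hx
    have h2 := hCr' x hx'
    omega
  refine ⟨e, Cl ∪ Cr, ηl * ηr, hmul _ _ hηl hηr, ?_, ?_, ?_, ?_, ?_⟩
  · intro x hx y hy hxy
    rw [Set.mem_Ico] at hx hy
    by_cases h1 : y < a + l.nl
    · rw [e_l x (hxy.trans h1), e_l y h1]
      exact hel ⟨hx.1, hxy.trans h1⟩ ⟨hy.1, h1⟩ hxy
    · by_cases h2 : x < a + l.nl
      · have h3 := hxl' x hx.1 h2
        have h4 := hxr' y (not_lt.1 h1) (by omega)
        omega
      · rw [e_r x (not_lt.1 h2), e_r y (not_lt.1 h1)]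
        refine her ⟨not_lt.1 h2, by omega⟩ ⟨not_lt.1 h1, by omega⟩ hxy
  · intro x hx
    rw [mem_Ico] at hx
    rw [mem_Ico, mem_union, not_or]
    by_cases h1 : x < a + l.nl
    · have h3 := hxl' x hx.1 h1
      refine ⟨by omega, h3.2, fun h4 => ?_⟩
      have := hCr' _ h4
      omega
    · have h3 := hxr' x (not_lt.1 h1) (by omega)
      refine ⟨by omega, fun h4 => ?_, h3.2⟩
      have := hCl' _ h4
      omega
  · intro x hx
    rw [mem_Ico]
    rcases mem_union.1 hx with h | h
    · have := hCl' _ h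
      omega
    · have := hCr' _ h
      omega
  · rw [card_union_of_disjoint hdC]
    push_cast
    rw [hcardl, hcardr]
  · intro I hI s
    set Il := I.filter (fun x => x < a + l.nl) with hIl
    set Ir := I.filter (fun x => ¬ x < a + l.nl) with hIr
    have hIu : Il ∪ Ir = I := filter_union_filter_not_eq _ _
    have hIb : ∀ x ∈ I, a ≤ x ∧ x < a + (l.nl + r.nl) := fun x hx => mem_Ico.1 (hI hx)
    have hIls : ∀ x ∈ Il, a ≤ x ∧ x < a + l.nl := by
      intro x hx
      rw [hIl, mem_filter] at hx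
      exact ⟨(hIb x hx.1).1, hx.2⟩
    have hIrs : ∀ x ∈ Ir, a + l.nl ≤ x ∧ x < a + l.nl + r.nl := by
      intro x hx
      rw [hIr, mem_filter] at hx
      have := hIb x hx.1
      omega
    have hel' : Il.image e = Il.image el := image_congr fun x hx => e_l x (hIls x hx).2
    have her' : Ir.image e = Ir.image er := image_congr fun x hx => e_r x (hIrs x hx).1
    have hIe : I.image e = Il.image e ∪ Ir.image e := by
      rw [← image_union, hIu]
    have hIle : ∀ x ∈ Il.image e, (a' ≤ x ∧ x < a' + l'.nl) ∧ x ∉ Cl := by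
      intro x hx
      obtain ⟨y, hy, rfl⟩ := mem_image.1 hx
      exact hxl' y (hIls y hy).1 (hIls y hy).2
    have hIre : ∀ x ∈ Ir.image e, (a' + l'.nl ≤ x ∧ x < a' + l'.nl + r'.nl) ∧ x ∉ Cr := by
      intro x hx
      obtain ⟨y, hy, rfl⟩ := mem_image.1 hx
      exact hxr' y (hIrs y hy).1 (hIrs y hy).2
    have hdI : Disjoint (Il.image e) (Ir.image e) := by
      rw [disjoint_left]
      intro x hx hx'
      have h1 := hIle x hx
      have h2 := hIre x hx'
      omega
    have hsg : sg (I.image e) (Cl ∪ Cr) = sg (Il.image el) Cl * sg (Ir.image er) Cr := by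
      rw [hIe, sg_union_right hdC, sg_union_left hdI, sg_union_left hdI,
        sg_gt_even (A := Ir.image e) (B := Cl), sg_lt (A := Il.image e) (B := Cr), hel', her', mul_one,
        one_mul]
      · intro x hx y hy
        have h1 := hIle x hx
        have h2 := hCr' y hy
        omega
      · intro x hx y hy
        have h1 := hIre x hx
        have h2 := hCl' y hy
        omega
      · rw [← hcardl] at hcl
        exact_mod_cast hcl
    have hevl : ∀ x, ev D l a I x = (ηl : R) * ((sg (Il.image el) Cl : ℤ) : R) * ev D l' a' (I.image e ∪ (Cl ∪ Cr)) x := by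
      intro x
      rw [ev_local l a I Il ?_ x, hgl Il ?_ x, ev_local l' a' (Il.image el ∪ Cl) (I.image e ∪ (Cl ∪ Cr)) ?_ x]
      · intro z hz
        rw [mem_Ico] at hz
        rw [hIe, ← hel']
        simp only [mem_union]
        constructor
        · rintro (h | h)
          · exact Or.inl (Or.inl h)
          · exact Or.inr (Or.inl h)
        · rintro ((h | h) | (h | h))
          · exact Or.inl h
          · have := hIre z h
            omega
          · exact Or.inr h
          · have := hCr' z h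
            omega
      · intro x hx
        exact mem_Ico.2 (hIls x hx)
      · intro z hz
        rw [mem_Ico] at hz
        rw [hIl, mem_filter]
        exact ⟨fun h => ⟨h, hz.2⟩, fun h => h.1⟩
    have hevr : ∀ x, ev D r (a + l.nl) I x = (ηr : R) * ((sg (Ir.image er) Cr : ℤ) : R) *
        ev D r' (a' + l'.nl) (I.image e ∪ (Cl ∪ Cr)) x := by
      intro x
      rw [ev_local r (a + l.nl) I Ir ?_ x, hgr Ir ?_ x,
        ev_local r' (a' + l'.nl) (Ir.image er ∪ Cr) (I.image e ∪ (Cl ∪ Cr)) ?_ x]
      · intro z hz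
        rw [mem_Ico] at hz
        rw [hIe, ← her']
        simp only [mem_union]
        constructor
        · rintro (h | h)
          · exact Or.inl (Or.inr h)
          · exact Or.inr (Or.inr h)
        · rintro ((h | h) | (h | h))
          · have := hIle z h
            omega
          · exact Or.inl h
          · have := hCl' z h
            omega
          · exact Or.inr h
      · intro x hx
        exact mem_Ico.2 (hIrs x hx)
      · intro z hz
        rw [mem_Ico] at hz
        rw [hIr, mem_filter]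
        exact ⟨fun h => ⟨h, not_lt.2 hz.1⟩, fun h => h.1⟩
    rw [hsg]
    simp only [ev, mul_sum]
    refine sum_congr rfl fun x _ => sum_congr rfl fun y _ => ?_
    rw [hevl x, hevr y]
    push_cast
    ring

end Pool.Agent.BWN
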