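import Pool.Agent.Lib_MP_001f0c_ag.MIB

/-!
# Piece MIC: embedded trees are minors
-/

set_option autoImplicit false

open Finset

namespace Pool.Agent.BWN

universe u

variable {Γ : Type} {R : Type u} [CommRing R] {D : ℕ} {lv : Γ → ℕ} {cc : Γ → ℤ}

/-- MIC. `Good` is inherited by subtrees. Induction on `Lk`. -/
theorem good_lk {t s : Tr Γ (Ix D → R)} {a b : ℕ} {j : ℕ} (h : Good lv cc t a) (hs : Lk lv j s b t a) :
    Good lv cc s b := by
  induction hs with
  | here => exact h
  | left c m l r a _ _ ih => exact ih h.2.1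
  | right c m l r a _ _ ih => exact ih h.2.2

/-- MIC. `Good` in the form which is used (for a leaf `s = t` and `mi_refl`). -/
theorem good_mi {t s : Tr Γ (Ix D → R)} {a b : ℕ} (h : Good lv cc t a) (hs : Lk lv (lv t.col) s b t a)
    (hl : lv s.col = lv t.col) : Mi (ev D s b) b s.nl (ev D t a) a t.nl (rk cc t - rk cc s) := by
  cases t with
  | leaf c m =>
    cases hs
    rw [sub_self]
    exact mi_refl _ _ _
  | node c m l r => exact h.1 s b hs hl

/-- MIC. -/
theorem cons_lk {t s : Tr Γ (Ix D → R)} {a b : ℕ} {j : ℕ} (h : Cons lv cc t) (hs : Lk lv j s b t a) :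
    Cons lv cc s := by
  induction hs with
  | here => exact h
  | left c m l r a _ _ ih => exact ih h.2.1
  | right c m l r a _ _ ih => exact ih h.2.2

/-- MIC. -/
theorem cons_even {t : Tr Γ (Ix D → R)} (h : Cons lv cc t) : Even (rk cc t - lv t.col) := by
  cases t with
  | leaf c m => exact h
  | node c m l r => exact h.1

/-- MIC. Induction on the embedding (for all `a`, `a'`). The statement: there is a subtree `u` of `T'` at `b` with
`Lk lv (lv s.col) u b T' a'`, the same level as `s`, `Mi (ev D s a) … (ev D u b) …`, and the parity statement.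
`leaf`: `u = T'`, `mi_refl` up to a shift of the positions (`e x = x + a' - a`); `gapl`, `gapr`: `Lk.left`, `Lk.right`.
`node`: the induction hypothesis gives subtrees `u_l` of `l'`, `u_r` of `r'` of the same levels as `l'`, `r'`, so by
`good_mi`, `mi_trans` `l`, `r` are minors of `l'`, `r'` with `rk l' - rk l`, `rk r' - rk r`, which are even by the parity
statements and `cons_even`; take `u = T'` and `mi_node`. The parity statement: `rk s = rk l + rk r - cc c` has the parity of
`rk l' + rk r' - cc c`, and so of `lv c`. -/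
theorem em_mi_aux {s T' : Tr Γ (Ix D → R)} (h : Em lv Eq s T') : ∀ (a a' : ℕ), Good lv cc T' a' →
    Cons lv cc T' → ∃ u b, Lk lv (lv s.col) u b T' a' ∧ lv u.col = lv s.col ∧
      Mi (ev D s a) a s.nl (ev D u b) b u.nl (rk cc u - rk cc s) ∧ Even (rk cc s - lv s.col) := by
  induction h with
  | leaf c m m' hm =>
    intro a a' _ hC
    subst hm
    refine ⟨_, a', Lk.here _ _, rfl, ?_, hC⟩
    refine ⟨fun _ => a', ∅, 1, Or.inl rfl, ?_, ?_, empty_subset _, by simp, ?_⟩
    · intro x hx y hy hxy
      simp only [Tr.nl_leaf, Set.mem_Ico] at hx hy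
      omega
    · intro x _
      simp
    · intro I hI s
      have hI' : I ⊆ {a} := by
        intro x hx
        have := hI hx
        simp only [Tr.nl_leaf, mem_Ico] at this
        rw [mem_singleton]
        omega
      rcases subset_singleton_iff.1 hI' with rfl | rfl
      · simp [sg, ev]
      · simp [sg, ev]
  | node c m m' l r l' r' hm h1 h2 hl hr ih1 ih2 =>
    intro a a' hG hC
    subst hm
    obtain ⟨u, b, hu1, hu2, hu3, hu4⟩ := ih1 a a' hG.2.1 hC.2.1
    obtain ⟨u', b', hu1', hu2', hu3', hu4'⟩ := ih2 (a + l.nl) (a' + l'.nl) hG.2.2 hC.2.2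
    have hml := mi_trans hu3 (good_mi hG.2.1 (by rw [← hl]; exact hu1) (hu2.trans hl))
    have hmr := mi_trans hu3' (good_mi hG.2.2 (by rw [← hr]; exact hu1') (hu2'.trans hr))
    have hcl : Even (rk cc u - rk cc l + (rk cc l' - rk cc u)) := by
      have h3 := cons_even hC.2.1
      rw [← hl] at h3
      have h4 := h3.sub hu4
      have h5 : rk cc u - rk cc l + (rk cc l' - rk cc u) =
          rk cc l' - (lv l.col : ℤ) - (rk cc l - (lv l.col : ℤ)) := by ring
      rw [h5]
      exact h4
    refine ⟨_, a', Lk.here _ _, rfl, ?_, ?_⟩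
    · have h5 := mi_node (c := c) (c' := c) (m := m) hml hmr hcl
      have h6 : rk cc (Tr.node c m l' r') - rk cc (Tr.node c m l r) =
          rk cc u - rk cc l + (rk cc l' - rk cc u) + (rk cc u' - rk cc r + (rk cc r' - rk cc u')) := by
        rw [rk_node, rk_node]
        ring
      rw [h6]
      exact h5
    · have h6 := cons_even hC.2.1
      have h7 := cons_even hC.2.2
      rw [← hl] at h6
      rw [← hr] at h7
      have h8 := hC.1
      have h9 := (h8.sub (h6.sub hu4)).sub (h7.sub hu4')
      have h10 : rk cc (Tr.node c m l r) - (lv (Tr.node c m l r).col : ℤ) =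
          rk cc l' + rk cc r' - cc c - (lv c : ℤ) -
            (rk cc l' - (lv l.col : ℤ) - (rk cc l - (lv l.col : ℤ))) -
            (rk cc r' - (lv r.col : ℤ) - (rk cc r - (lv r.col : ℤ))) := by
        rw [rk_node, Tr.col_node]
        ring
      rw [h10]
      exact h9
  | gapl t c m l r h1 h2 ih =>
    intro a a' hG hC
    obtain ⟨u, b, hu1, hu2⟩ := ih a a' hG.2.1 hC.2.1
    exact ⟨u, b, Lk.left _ _ _ _ _ _ _ hu1 h2, hu2⟩
  | gapr t c m l r h1 h2 ih =>
    intro a a' hG hC
    obtain ⟨u, b, hu1, hu2⟩ := ih a (a' + l.nl) hG.2.2 hC.2.2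
    exact ⟨u, b, Lk.right _ _ _ _ _ _ _ hu1 h2, hu2⟩

/-- MIC. `em_mi_aux`, `good_mi`, `mi_trans`. -/
theorem em_mi {s T' : Tr Γ (Ix D → R)} (h : Em lv Eq s T') (hl : lv s.col = lv T'.col) (a a' : ℕ)
    (hG : Good lv cc T' a') (hC : Cons lv cc T') :
    Mi (ev D s a) a s.nl (ev D T' a') a' T'.nl (rk cc T' - rk cc s) := by
  obtain ⟨u, b, hu1, hu2, hu3, _⟩ := em_mi_aux h a a' hG hC
  have h1 := mi_trans hu3 (good_mi hG (by rw [← hl]; exact hu1) (hu2.trans hl))
  have h2 : rk cc T' - rk cc s = rk cc u - rk cc s + (rk cc T' - rk cc u) := by ring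
  rw [h2]
  exact h1

end Pool.Agent.BWN
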