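import Pool.Agent.Lib_MP_001f0c_ag.Defs

/-!
# Piece MYA: Maya diagrams of level `m`
-/

set_option autoImplicit false

open Finset

namespace Pool.Agent.BWN

universe u

/-- `I` is a Maya diagram of level `m`: it contains all `i > m` and no `i < -m` -/
def Lvl (m : ℕ) (I : Maya) : Prop :=
  (∀ i : ℤ, (m : ℤ) < i → i ∈ I.1) ∧ ∀ i : ℤ, i < -(m : ℤ) → i ∉ I.1

open scoped Classical in
/-- the part of `I` in `{-m, …, m}` -/
noncomputable def fi (m : ℕ) (I : Maya) : Finset ℤ := (gr m m).filter fun i => i ∈ I.1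

/-- MYA -/
theorem mem_gr {n p : ℕ} {i : ℤ} : i ∈ gr n p ↔ i ≠ 0 ∧ -(n : ℤ) ≤ i ∧ i ≤ p := by
  rw [gr, Finset.mem_erase, Finset.mem_Icc]

/-- MYA -/
theorem card_gr (n p : ℕ) : (gr n p).card = n + p := by
  rw [gr, Finset.card_erase_of_mem, Int.card_Icc]
  · omega
  · rw [Finset.mem_Icc]
    omega

/-- MYA -/
theorem lvl_mono {m m' : ℕ} (h : m ≤ m') {I : Maya} (hI : Lvl m I) : Lvl m' I := by
  refine ⟨fun i hi => hI.1 i ?_, fun i hi => hI.2 i ?_⟩
  · omega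
  · omega

/-- MYA -/
theorem lvl_exists (s : Finset Maya) : ∃ m, ∀ I ∈ s, Lvl m I := by
  have h : ∀ I : Maya, ∃ m, Lvl m I := by
    intro I
    obtain ⟨_, m, h1, h2, _⟩ := I.2
    exact ⟨m, h1, h2⟩
  choose f hf using h
  exact ⟨s.sup f, fun I hI => lvl_mono (Finset.le_sup hI) (hf I)⟩

theorem MYA_mem_fi {m : ℕ} {I : Maya} {i : ℤ} :
    i ∈ fi m I ↔ i ∈ I.1 ∧ -(m : ℤ) ≤ i ∧ i ≤ m := by
  classical
  rw [fi, Finset.mem_filter, mem_gr]
  constructor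
  · rintro ⟨⟨_, h2⟩, h3⟩
    exact ⟨h3, h2⟩
  · rintro ⟨h1, h2⟩
    refine ⟨⟨?_, h2⟩, h1⟩
    rintro rfl
    exact I.2.1 h1

theorem MYA_union {m M : ℕ} (h : m ≤ M) {I : Maya} (hI : Lvl m I) :
    fi M I = fi m I ∪ Finset.Ioc (m : ℤ) M := by
  ext i
  rw [Finset.mem_union, MYA_mem_fi, MYA_mem_fi, Finset.mem_Ioc]
  constructor
  · rintro ⟨h1, h2, h3⟩
    by_cases h4 : (m : ℤ) < i
    · exact Or.inr ⟨h4, h3⟩
    · refine Or.inl ⟨h1, ?_, by omega⟩
      by_contra h5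
      exact hI.2 i (by omega) h1
  · rintro (⟨h1, h2, h3⟩ | ⟨h1, h2⟩)
    · exact ⟨h1, by omega, by omega⟩
    · exact ⟨hI.1 i h1, by omega, h2⟩

theorem MYA_disj (m M : ℕ) (I : Maya) : Disjoint (fi m I) (Finset.Ioc (m : ℤ) M) := by
  rw [Finset.disjoint_left]
  intro i h1 h2
  rw [MYA_mem_fi] at h1
  rw [Finset.mem_Ioc] at h2
  omega

theorem MYA_card {m M : ℕ} (h : m ≤ M) {I : Maya} (hI : Lvl m I) :
    (fi M I).card = (fi m I).card + (M - m) := by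
  rw [MYA_union h hI, Finset.card_union_of_disjoint (MYA_disj m M I), Int.card_Ioc]
  congr 1
  omega

/-- MYA. (`IsMaya` for a larger number, minus the interval between.) -/
theorem card_fi {m : ℕ} {I : Maya} (h : Lvl m I) : (fi m I).card = m := by
  obtain ⟨_, m₀, h1, h2, h3⟩ := I.2
  have h4 : I.1 ∩ Set.Icc (-(m₀ : ℤ)) m₀ = ((fi m₀ I : Finset ℤ) : Set ℤ) := by
    ext i
    rw [Finset.mem_coe, MYA_mem_fi, Set.mem_inter_iff, Set.mem_Icc]
  rw [h4, Set.ncard_coe_finset] at h3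
  have h5 := MYA_card (le_max_left m m₀) h
  have h6 := MYA_card (le_max_right m m₀) (I := I) ⟨h1, h2⟩
  have h7 := le_max_left m m₀
  have h8 := le_max_right m m₀
  omega

theorem fi_sub (m : ℕ) (I : Maya) : fi m I ⊆ gr m m := by
  intro i hi
  rw [MYA_mem_fi] at hi
  rw [mem_gr]
  refine ⟨?_, hi.2⟩
  rintro rfl
  exact I.2.1 hi.1

/-- MYA -/
theorem up_fi {m : ℕ} {I : Maya} (h : Lvl m I) : up (fi m I) (fi_sub m I) (card_fi h) = I := by
  apply Subtype.ext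
  show ((fi m I : Finset ℤ) : Set ℤ) ∪ Set.Ioi (m : ℤ) = I.1
  ext i
  rw [Set.mem_union, Finset.mem_coe, MYA_mem_fi, Set.mem_Ioi]
  constructor
  · rintro (⟨h1, _⟩ | h1)
    · exact h1
    · exact h.1 i h1
  · intro h1
    by_cases h2 : (m : ℤ) < i
    · exact Or.inr h2
    · refine Or.inl ⟨h1, ?_, by omega⟩
      by_contra h3
      exact h.2 i (by omega) h1

/-- MYA. Every coordinate is a coordinate of a level. -/
theorem lev_fi {K : Type u} [Zero K] (x : Maya → K) {m : ℕ} {I : Maya} (h : Lvl m I) :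
    lev x m m (fi m I) = x I := by
  unfold lev
  rw [dif_pos ⟨fi_sub m I, card_fi h⟩, up_fi h]

/-- MYA -/
theorem fi_succ {m M : ℕ} (h : m ≤ M) {I : Maya} (hI : Lvl m I) :
    fi M I = fi m I ∪ Finset.Ioc (m : ℤ) M ∧ Disjoint (fi m I) (Finset.Ioc (m : ℤ) M) ∧
      (fi M I).sort = (fi m I).sort ++ (Finset.Ioc (m : ℤ) (M : ℤ)).sort := by
  refine ⟨MYA_union h hI, MYA_disj m M I, ?_⟩
  have h1 : ((fi m I).sort ++ (Finset.Ioc (m : ℤ) (M : ℤ)).sort).Nodup := by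
    rw [List.nodup_append]
    refine ⟨Finset.sort_nodup _ _, Finset.sort_nodup _ _, ?_⟩
    intro a ha b hb hab
    rw [Finset.mem_sort] at ha hb
    rw [hab] at ha
    exact (Finset.disjoint_left.1 (MYA_disj m M I)) ha hb
  have h2 : ((fi m I).sort ++ (Finset.Ioc (m : ℤ) (M : ℤ)).sort).Pairwise (· ≤ ·) := by
    rw [List.pairwise_append]
    refine ⟨Finset.pairwise_sort _ _, Finset.pairwise_sort _ _, ?_⟩
    intro a ha b hb
    rw [Finset.mem_sort, MYA_mem_fi] at ha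
    rw [Finset.mem_sort, Finset.mem_Ioc] at hb
    omega
  have h3 : ((fi m I).sort ++ (Finset.Ioc (m : ℤ) (M : ℤ)).sort).toFinset = fi M I := by
    rw [List.toFinset_append, Finset.sort_toFinset, Finset.sort_toFinset, MYA_union h hI]
  rw [← h3]
  exact (List.toFinset_sort (r := (· ≤ ·)) h1).2 h2

end Pool.Agent.BWN
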