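import Pool.Agent.Lib_MP_001f0c_ag.EMB

/-!
# Piece VAR: variables
-/

set_option autoImplicit false

open Finset

namespace Pool.Agent.BWN

universe u v

variable {Γ : Type} {ι : Type} {lv : Γ → ℕ}

/-- The variables of a shape: `ι` for every vertex, ordered (if `ι` is) by preorder. -/
def Va (ι : Type) : Tr Γ Unit → Type
  | .leaf _ _ => ι
  | .node _ _ l r => ι ⊕ₗ (Va ι l ⊕ₗ Va ι r)

/-- The tree with given shape whose labels are given by a function on the variables. -/
def lab {X : Type u} : (T : Tr Γ Unit) → (Va ι T → X) → Tr Γ (ι → X)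
  | .leaf c _, q => .leaf c q
  | .node c _ l r, q => .node c (fun i => q (Sum.inlₗ i)) (lab l fun v => q (Sum.inrₗ (Sum.inlₗ v)))
      (lab r fun v => q (Sum.inrₗ (Sum.inrₗ v)))

/-- the shape of a tree -/
def Tr.sh {M : Type u} (t : Tr Γ M) : Tr Γ Unit := t.map fun _ => ()

/-- VAR -/
instance instFiniteVa [Finite ι] (T : Tr Γ Unit) : Finite (Va ι T) := by
  induction T with
  | leaf c m => exact inferInstanceAs (Finite ι)
  | node c m l r ihl ihr =>
    exact inferInstanceAs (Finite (ι ⊕ (Va ι l ⊕ Va ι r)))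

/-- the lexicographic order of the variables -/
@[instance_reducible]
noncomputable def linVa [LinearOrder ι] : (T : Tr Γ Unit) → LinearOrder (Va ι T)
  | .leaf _ _ => inferInstanceAs (LinearOrder ι)
  | .node _ _ l r => @Sum.Lex.linearOrder ι (Lex (Va ι l ⊕ Va ι r)) _
      (@Sum.Lex.linearOrder (Va ι l) (Va ι r) (linVa l) (linVa r))

noncomputable instance instLinearOrderVa [LinearOrder ι] (T : Tr Γ Unit) : LinearOrder (Va ι T) :=
  linVa T

/-- VAR. Every tree is given by a function on the variables of its shape. -/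
theorem lab_surj {X : Type u} (t : Tr Γ (ι → X)) : ∃ q : Va ι t.sh → X, lab t.sh q = t := by
  induction t with
  | leaf c m => exact ⟨m, rfl⟩
  | node c m l r ihl ihr =>
    obtain ⟨ql, hl⟩ := ihl
    obtain ⟨qr, hr⟩ := ihr
    refine ⟨fun v => Sum.elim m (fun w => Sum.elim ql qr (ofLex w)) (ofLex v), ?_⟩
    change Tr.node c m (lab l.sh ql) (lab r.sh qr) = Tr.node c m l r
    rw [hl, hr]

/-- VAR -/
theorem lab_map {X : Type u} {Y : Type v} (f : X → Y) (T : Tr Γ Unit) (q : Va ι T → X) :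
    (lab T q).map (fun m i => f (m i)) = lab T fun v => f (q v) := by
  induction T with
  | leaf c m => rfl
  | node c m l r ihl ihr =>
    simp only [lab, Tr.map_node, ihl, ihr]

/-- VAR -/
theorem lab_col {X : Type u} (T : Tr Γ Unit) (q : Va ι T → X) : (lab T q).col = T.col := by
  cases T <;> rfl

theorem var_mono_l [LinearOrder ι] {c : Γ} {m : Unit} {T l r : Tr Γ Unit} {ε : Va ι T → Va ι l}
    (hε : StrictMono ε) :
    StrictMono (fun v => (Sum.inrₗ (Sum.inlₗ (ε v)) : Va ι (.node c m l r))) := by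
  intro a b hab
  have h1 : (Sum.inlₗ (ε a) : Lex (Va ι l ⊕ Va ι r)) < Sum.inlₗ (ε b) :=
    Sum.Lex.inl_lt_inl_iff.2 (hε hab)
  have h2 : (Sum.inrₗ (Sum.inlₗ (ε a)) : Lex (ι ⊕ (Lex (Va ι l ⊕ Va ι r)))) < Sum.inrₗ (Sum.inlₗ (ε b)) :=
    Sum.Lex.inr_lt_inr_iff.2 h1
  exact h2

theorem var_mono_r [LinearOrder ι] {c : Γ} {m : Unit} {T l r : Tr Γ Unit} {ε : Va ι T → Va ι r}
    (hε : StrictMono ε) :
    StrictMono (fun v => (Sum.inrₗ (Sum.inrₗ (ε v)) : Va ι (.node c m l r))) := by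
  intro a b hab
  have h1 : (Sum.inrₗ (ε a) : Lex (Va ι l ⊕ Va ι r)) < Sum.inrₗ (ε b) :=
    Sum.Lex.inr_lt_inr_iff.2 (hε hab)
  have h2 : (Sum.inrₗ (Sum.inrₗ (ε a)) : Lex (ι ⊕ (Lex (Va ι l ⊕ Va ι r)))) < Sum.inrₗ (Sum.inrₗ (ε b)) :=
    Sum.Lex.inr_lt_inr_iff.2 h1
  exact h2

/-- the map of the variables of a node -/
def varMap {c c' : Γ} {m m' : Unit} {l r l' r' : Tr Γ Unit} (εl : Va ι l → Va ι l') (εr : Va ι r → Va ι r') :
    Va ι (.node c m l r) → Va ι (.node c' m' l' r') :=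
  fun v => Sum.elim (fun i => Sum.inlₗ i)
    (fun w => Sum.elim (fun x => Sum.inrₗ (Sum.inlₗ (εl x))) (fun x => Sum.inrₗ (Sum.inrₗ (εr x))) (ofLex w))
    (ofLex (α := ι ⊕ (Lex (Va ι l ⊕ Va ι r))) v)

theorem varMap_mono [LinearOrder ι] {c c' : Γ} {m m' : Unit} {l r l' r' : Tr Γ Unit} {εl : Va ι l → Va ι l'}
    {εr : Va ι r → Va ι r'} (hl : StrictMono εl) (hr : StrictMono εr) :
    StrictMono (varMap εl εr : Va ι (.node c m l r) → Va ι (.node c' m' l' r')) := by
  intro a b hab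
  have hab' : (show Lex (ι ⊕ (Lex (Va ι l ⊕ Va ι r))) from a) < (show Lex (ι ⊕ (Lex (Va ι l ⊕ Va ι r))) from b) := hab
  show (show Lex (ι ⊕ (Lex (Va ι l' ⊕ Va ι r'))) from varMap εl εr a) <
    (show Lex (ι ⊕ (Lex (Va ι l' ⊕ Va ι r'))) from varMap εl εr b)
  rcases a with a | (a | a) <;> rcases b with b | (b | b)
  · exact Sum.Lex.inl_lt_inl_iff.2 (Sum.Lex.inl_lt_inl_iff.1 hab')
  · exact Sum.Lex.inl_lt_inr _ _
  · exact Sum.Lex.inl_lt_inr _ _
  · exact (Sum.Lex.not_inr_lt_inl hab').elim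
  · have h1 := Sum.Lex.inr_lt_inr_iff.1 hab'
    exact Sum.Lex.inr_lt_inr_iff.2 (Sum.Lex.inl_lt_inl_iff.2 (hl (Sum.Lex.inl_lt_inl_iff.1 h1)))
  · exact Sum.Lex.inr_lt_inr_iff.2 (Sum.Lex.inl_lt_inr _ _)
  · exact (Sum.Lex.not_inr_lt_inl hab').elim
  · have h1 := Sum.Lex.inr_lt_inr_iff.1 hab'
    exact (Sum.Lex.not_inr_lt_inl h1).elim
  · have h1 := Sum.Lex.inr_lt_inr_iff.1 hab'
    exact Sum.Lex.inr_lt_inr_iff.2 (Sum.Lex.inr_lt_inr_iff.2 (hr (Sum.Lex.inr_lt_inr_iff.1 h1)))

theorem var_push {Y Z : Type} {T T' : Tr Γ Unit} (f : Y → Z) {p : Va ι T → Y} {q : Va ι T' → Y}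
    (h : Em lv Eq (lab T p) (lab T' q)) : Em lv Eq (lab T fun v => f (p v)) (lab T' fun v => f (q v)) := by
  have h1 := em_map (S := Eq) (fun (m : ι → Y) i => f (m i)) (fun (m : ι → Y) i => f (m i))
    (fun a b hab => by rw [hab]) h
  rwa [lab_map, lab_map] at h1

/-- VAR. An embedding of labelled trees comes from a map of the variables, which is strictly monotone. Induction on `T'`
(generalizing `T`), cases on `T` and on the embedding. For `gapl`: `ε` is the map of the left subtree followed by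
`inrₗ ∘ inlₗ`; for `node`: `inlₗ i ↦ inlₗ i` and the maps of the two subtrees on `inrₗ (inlₗ v)`, `inrₗ (inrₗ v)`.
(`em_map` and `lab_map` move the last statement from the subtrees to the tree: `lab l' id` becomes the left subtree of
`lab (node …) id` with the labels composed with `inrₗ ∘ inlₗ`.) -/
theorem em_extract [LinearOrder ι] {X : Type u} {X' : Type v} {R : X → X' → Prop} (T' : Tr Γ Unit) :
    ∀ (T : Tr Γ Unit) (q : Va ι T → X) (q' : Va ι T' → X'),
      Em lv (fun m m' => ∀ i, R (m i) (m' i)) (lab T q) (lab T' q') →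
      ∃ ε : Va ι T → Va ι T', StrictMono ε ∧ (∀ v, R (q v) (q' (ε v))) ∧
        Em lv Eq (lab T ε) (lab T' id) := by
  induction T' with
  | leaf c' m' =>
    intro T q q' h
    cases T with
    | leaf c m =>
      cases h with
      | leaf _ _ _ hR =>
        exact ⟨id, strictMono_id, hR, Em.leaf _ _ _ rfl⟩
    | node c m l r => cases h
  | node c' m' l' r' ihl ihr =>
    intro T q q' h
    have hgapl : Em lv (fun m m' => ∀ i, R (m i) (m' i)) (lab T q) (lab l' fun v => q' (Sum.inrₗ (Sum.inlₗ v))) →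
        lv T.col ≤ lv c' → ∃ ε : Va ι T → Va ι (.node c' m' l' r'), StrictMono ε ∧ (∀ v, R (q v) (q' (ε v))) ∧
        Em lv Eq (lab T ε) (lab (.node c' m' l' r') id) := by
      intro h1 h2
      obtain ⟨ε, hε, hR, hem⟩ := ihl T q _ h1
      refine ⟨fun v => Sum.inrₗ (Sum.inlₗ (ε v)), var_mono_l (c := c') (m := m') hε, hR, ?_⟩
      refine Em.gapl _ _ _ _ _ ?_ ?_
      · exact var_push (fun v => (Sum.inrₗ (Sum.inlₗ v) : Va ι (.node c' m' l' r'))) hem
      · rw [lab_col]
        exact h2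
    have hgapr : Em lv (fun m m' => ∀ i, R (m i) (m' i)) (lab T q) (lab r' fun v => q' (Sum.inrₗ (Sum.inrₗ v))) →
        lv T.col ≤ lv c' → ∃ ε : Va ι T → Va ι (.node c' m' l' r'), StrictMono ε ∧ (∀ v, R (q v) (q' (ε v))) ∧
        Em lv Eq (lab T ε) (lab (.node c' m' l' r') id) := by
      intro h1 h2
      obtain ⟨ε, hε, hR, hem⟩ := ihr T q _ h1
      refine ⟨fun v => Sum.inrₗ (Sum.inrₗ (ε v)), var_mono_r (c := c') (m := m') hε, hR, ?_⟩
      refine Em.gapr _ _ _ _ _ ?_ ?_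
      · exact var_push (fun v => (Sum.inrₗ (Sum.inrₗ v) : Va ι (.node c' m' l' r'))) hem
      · rw [lab_col]
        exact h2
    cases T with
    | leaf c m =>
      cases h with
      | gapl _ _ _ _ _ h1 h2 => exact hgapl h1 h2
      | gapr _ _ _ _ _ h1 h2 => exact hgapr h1 h2
    | node c m l r =>
      cases h with
      | gapl _ _ _ _ _ h1 h2 => exact hgapl h1 h2
      | gapr _ _ _ _ _ h1 h2 => exact hgapr h1 h2
      | node _ _ _ _ _ _ _ hR h1 h2 h3 h4 =>
        obtain ⟨εl, hεl, hRl, heml⟩ := ihl l _ _ h1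
        obtain ⟨εr, hεr, hRr, hemr⟩ := ihr r _ _ h2
        refine ⟨varMap εl εr, varMap_mono hεl hεr, ?_, ?_⟩
        · rintro (i | (v | v))
          · exact hR i
          · exact hRl v
          · exact hRr v
        · refine Em.node _ _ _ _ _ _ _ rfl ?_ ?_ ?_ ?_
          · exact var_push (fun v => (Sum.inrₗ (Sum.inlₗ v) : Va ι (.node c' m' l' r'))) heml
          · exact var_push (fun v => (Sum.inrₗ (Sum.inrₗ v) : Va ι (.node c' m' l' r'))) hemr
          · rw [lab_col, lab_col] at h3 ⊢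
            exact h3
          · rw [lab_col, lab_col] at h4 ⊢
            exact h4

/-- VAR. The embedding given by a map of the variables can be evaluated. (`em_map`, `lab_map`) -/
theorem em_eval {X : Type u} {T T' : Tr Γ Unit} {ε : Va ι T → Va ι T'} (h : Em lv Eq (lab T ε) (lab T' id))
    (q : Va ι T' → X) : Em lv Eq (lab T fun v => q (ε v)) (lab T' q) := by
  have h1 := em_map (S := Eq) (fun (m : ι → Va ι T') i => q (m i)) (fun (m : ι → Va ι T') i => q (m i))
    (fun a b hab => by rw [hab]) h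
  rw [lab_map, lab_map] at h1
  exact h1

/-- VAR. Composition (`em_eval`, `em_trans`). -/
theorem em_comp {T T' T'' : Tr Γ Unit} {ε : Va ι T → Va ι T'} {δ : Va ι T' → Va ι T''}
    (h : Em lv Eq (lab T ε) (lab T' id)) (h' : Em lv Eq (lab T' δ) (lab T'' id)) :
    Em lv Eq (lab T fun v => δ (ε v)) (lab T'' id) :=
  em_trans (fun _ _ _ h1 h2 => h1.trans h2) (em_eval h δ) h'

end Pool.Agent.BWN
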