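import Pool.Agent.Lib_MP_001f0c_ag.Str
import Pool.Agent.Lib_MP_001f0c_ag.VAR

/-!
# Piece PLY: polynomials from trees
-/

set_option autoImplicit false

open Finset MvPolynomial

namespace Pool.Agent.BWN

universe u

/-- PLY. The vector given by a labelled tree is a polynomial function of the labels: `f (η * ev T 0 I 0)_I` as a polynomial in
the labels. (`ev` of the tree with the labels `MvPolynomial.X v`, in the polynomial ring, and `ev_map`, `lab_map`.) -/
theorem poly_of {k : Type u} [Field k] {w : ℕ} (S : Tr (Gm w) Unit) (N p : ℕ) (η : ℤ)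
    (f : MvPolynomial (Finset ℕ) k) :
    ∃ F : MvPolynomial (Va (Ix (2 ^ w)) S) k, ∀ (L : Type u) [Field L] [Algebra k L]
      (q : Va (Ix (2 ^ w)) S → L), aeval q F =
        aeval (fun I : Finset ℕ => if I ⊆ Finset.range N ∧ I.card = p then
          (η : L) * ev (2 ^ w) (lab S q) 0 I ⟨0, Nat.two_pow_pos w⟩ else 0) f := by
  classical
  refine ⟨aeval (fun I : Finset ℕ => if I ⊆ Finset.range N ∧ I.card = p then
    (η : MvPolynomial (Va (Ix (2 ^ w)) S) k) *
      ev (2 ^ w) (lab S (fun v => (X v : MvPolynomial (Va (Ix (2 ^ w)) S) k))) 0 I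
        ⟨0, Nat.two_pow_pos w⟩ else 0) f, ?_⟩
  intro L _ _ q
  rw [← AlgHom.comp_apply, comp_aeval]
  congr 2
  funext I
  split_ifs with h
  · rw [map_mul, map_intCast]
    congr 1
    have h1 := ev_map (aeval (R := k) q : MvPolynomial (Va (Ix (2 ^ w)) S) k →ₐ[k] L).toRingHom
      (lab S (fun v => (X v : MvPolynomial (Va (Ix (2 ^ w)) S) k))) 0 I ⟨0, Nat.two_pow_pos w⟩
    have h2 := lab_map (fun F : MvPolynomial (Va (Ix (2 ^ w)) S) k => aeval (R := k) q F) S
      (fun v => (X v : MvPolynomial (Va (Ix (2 ^ w)) S) k))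
    simp only [AlgHom.toRingHom_eq_coe, RingHom.coe_coe] at h1
    rw [h1, h2]
    simp only [aeval_X]
  · rw [map_zero]

end Pool.Agent.BWN
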