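import Pool.Agent.Lib_MP_001f0c_ag.SGN

/-!
# Piece SGM: sorting the values of a map
-/

set_option autoImplicit false

open Finset

namespace Pool.Agent.BWN

universe u

variable {K : Type u} [Field K] {p : ℕ}

/-- the number of the inversions of `τ` on `J` -/
def invs {E F : Type} [LinearOrder E] [LinearOrder F] (τ : E → F) (J : Finset E) : ℕ :=
  ((J ×ˢ J).filter fun x => x.1 < x.2 ∧ τ x.2 < τ x.1).card

theorem sgn_invs_insert {E F : Type} [LinearOrder E] [LinearOrder F] (τ : E → F) {J : Finset E}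
    {a : E} (ha : ∀ x ∈ J, x < a) (h : Set.InjOn τ J) :
    invs τ (insert a J) = invs τ J + ((J.image τ).filter fun s => τ a < s).card := by
  unfold invs
  have e : ((insert a J) ×ˢ (insert a J)).filter (fun x => x.1 < x.2 ∧ τ x.2 < τ x.1) =
      (J ×ˢ J).filter (fun x => x.1 < x.2 ∧ τ x.2 < τ x.1) ∪
        (J.filter fun s => τ a < τ s).image (fun s => (s, a)) := by
    ext ⟨x, y⟩
    simp only [mem_filter, mem_product, mem_insert, mem_union, mem_image, Prod.mk.injEq]
    constructor
    · rintro ⟨⟨hx | hx, hy | hy⟩, h1, h2⟩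
      · subst hx; subst hy; exact absurd h1 (lt_irrefl _)
      · subst hx; exact absurd h1 (not_lt.2 (ha y hy).le)
      · subst hy; exact Or.inr ⟨x, ⟨hx, h2⟩, rfl, rfl⟩
      · exact Or.inl ⟨⟨hx, hy⟩, h1, h2⟩
    · rintro (⟨⟨hx, hy⟩, h1, h2⟩ | ⟨z, ⟨hz, h1⟩, rfl, rfl⟩)
      · exact ⟨⟨Or.inr hx, Or.inr hy⟩, h1, h2⟩
      · exact ⟨⟨Or.inr hz, Or.inl rfl⟩, ha z hz, h1⟩
  rw [e, Finset.card_union_of_disjoint]
  · congr 1
    rw [Finset.card_image_of_injective _ (fun s t hst => (Prod.mk.inj hst).1),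
      Finset.filter_image, Finset.card_image_of_injOn]
    intro s hs t ht hst
    exact h (mem_filter.1 hs).1 (mem_filter.1 ht).1 hst
  · rw [Finset.disjoint_left]
    rintro ⟨x, y⟩ h1 h2
    simp only [mem_filter, mem_product, mem_image, Prod.mk.injEq] at h1 h2
    obtain ⟨z, _, _, rfl⟩ := h2
    exact lt_irrefl _ (ha a h1.1.2)

/-- SGM. Sorting `τ j₁, τ j₂, …` for `J = {j₁ < j₂ < …}`. Induction on the number of elements of `J`: let `j` be the largest
element, `J' = J \ {j}`; by induction (with `v (τ j)` as the head of `l₂`) the others are sorted, and `τ j` is moved before the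
`τ i > τ j`, whose number is the number of the inversions with `j`. -/
theorem Dt_sort_map {E F : Type} [LinearOrder E] [LinearOrder F] (τ : E → F) (v : F → Fin p → K)
    (l₁ l₂ : List (Fin p → K)) {J : Finset E} (h : Set.InjOn τ J) :
    DV (l₁ ++ J.sort.map (fun x => v (τ x)) ++ l₂) =
      (-1) ^ invs τ J * DV (l₁ ++ (J.image τ).sort.map v ++ l₂) := by
  induction J using Finset.induction_on_max generalizing l₂ with
  | empty => simp [invs]
  | insert a J ha ih =>
    have hJ : Set.InjOn τ J := h.mono (by simp)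
    have hni : τ a ∉ J.image τ := by
      rw [mem_image]
      rintro ⟨x, hx, hxa⟩
      have := h (by simp [hx]) (by simp) hxa
      exact lt_irrefl _ (this ▸ ha x hx)
    have h1 := ih (v (τ a) :: l₂) hJ
    have h2 := sgn_DV_insert v l₁ l₂ (J.image τ) hni
    rw [sgn_invs_insert τ ha hJ, sgn_sort_insert ha, Finset.image_insert]
    have e : l₁ ++ (J.sort ++ [a]).map (fun x => v (τ x)) ++ l₂ =
        l₁ ++ J.sort.map (fun x => v (τ x)) ++ v (τ a) :: l₂ := by simp
    rw [e, h1, h2, pow_add, mul_assoc]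

end Pool.Agent.BWN
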