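import Pool.Agent.Lib_MP_001f0c_ag.EVL
import Pool.Agent.Lib_MP_001f0c_ag.SGM

/-!
# Piece PSA: positions
-/

set_option autoImplicit false

open Finset MvPolynomial

namespace Pool.Agent.BWN

universe u

variable {k : Type u} [Field k]

/-- The polynomial `f` (all diagrams of level `m`) in terms of the positions: `φ` maps `gr m m` to the positions, `τ` is the
inverse map. -/
noncomputable def posP (m : ℕ) (τ : ℕ → ℤ) (φ : ℤ → ℕ) (f : Rg k) : MvPolynomial (Finset ℕ) k :=
  aeval (fun I : Maya => (-1 : MvPolynomial (Finset ℕ) k) ^ invs τ ((fi m I).image φ) *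
    X ((fi m I).image φ)) f

/-- PSA. The value of `posP f` at the matrix `v ∘ τ` is the value of `f` at the point with the matrix `v`: `Dt_sort_map` for
`J = (fi m I).image φ`, whose image under `τ` is `fi m I`. -/
theorem posP_self {P : PrimeSpectrum (Rg k)} {m : ℕ} {v : ℤ → Fin m → Res P}
    (hv : ∀ J, J ⊆ gr m m → J.card = m → lev (val P) m m J = Dt v J.sort) {τ : ℕ → ℤ} {φ : ℤ → ℕ}
    (h1 : ∀ i < 2 * m, τ i ∈ gr m m ∧ φ (τ i) = i) (h2 : ∀ x ∈ gr m m, φ x < 2 * m ∧ τ (φ x) = x)
    {f : Rg k} (hf : ∀ I ∈ f.vars, Lvl m I) :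
    aeval (fun I : Finset ℕ => if I ⊆ Finset.range (2 * m) ∧ I.card = m then
      Dt (fun i => v (τ i)) I.sort else 0) (posP m τ φ f) = aeval (val P) f := by
  unfold posP
  rw [← AlgHom.comp_apply, comp_aeval]
  refine eval₂Hom_congr' rfl ?_ rfl
  intro I hI _
  have hL : Lvl m I := hf I hI
  obtain ⟨J, hJ⟩ : ∃ J, J = (fi m I).image φ := ⟨_, rfl⟩
  have hinj : Set.InjOn φ (fi m I : Set ℤ) := by
    intro x hx y hy hxy
    have hx' := (h2 x (fi_sub m I hx)).2
    have hy' := (h2 y (fi_sub m I hy)).2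
    rw [← hx', ← hy', hxy]
  have hJsub : J ⊆ Finset.range (2 * m) := by
    intro i hi
    rw [hJ, Finset.mem_image] at hi
    obtain ⟨x, hx, rfl⟩ := hi
    exact Finset.mem_range.2 (h2 x (fi_sub m I hx)).1
  have hJcard : J.card = m := by
    rw [hJ, Finset.card_image_of_injOn hinj, card_fi hL]
  have hJim : J.image τ = fi m I := by
    rw [hJ, Finset.image_image]
    ext x
    rw [Finset.mem_image]
    constructor
    · rintro ⟨y, hy, rfl⟩
      have : (τ ∘ φ) y = y := (h2 y (fi_sub m I hy)).2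
      rw [this]
      exact hy
    · intro hx
      exact ⟨x, hx, (h2 x (fi_sub m I hx)).2⟩
  have hτinj : Set.InjOn τ (J : Set ℕ) := by
    intro x hx y hy hxy
    have hx' := (h1 x (Finset.mem_range.1 (hJsub hx))).2
    have hy' := (h1 y (Finset.mem_range.1 (hJsub hy))).2
    rw [← hx', ← hy', hxy]
  have hsort : Dt (fun i => v (τ i)) J.sort = (-1) ^ invs τ J * Dt v (fi m I).sort := by
    have h := Dt_sort_map τ v [] [] hτinj
    rw [hJim] at h
    simp only [List.nil_append, List.append_nil] at h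
    exact h
  rw [← hJ, map_mul, map_pow, map_neg, map_one, aeval_X, if_pos ⟨hJsub, hJcard⟩, hsort, ← mul_assoc,
    ← mul_pow, neg_one_mul, neg_neg, one_pow, one_mul, ← hv _ (fi_sub m I) (card_fi hL), lev_fi _ hL]

end Pool.Agent.BWN
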