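import Pool.Agent.Lib_MP_001f0c_ag.MYA
import Pool.Agent.Lib_MP_001f0c_ag.SGM

/-!
# Piece REA: injections are realised by permutations
-/

set_option autoImplicit false

open Finset

namespace Pool.Agent.BWN

/-- REA. A permutation of `ℤ` which agrees with `σ` on `gr m M` and which fixes `0` and all `i` with `|i| > M`: extend the injection
`σ : gr m M → gr M M` to a permutation of the finite set `gr M M`. -/
theorem extend_perm {m M : ℕ} (h : m ≤ M) {σ : ℤ → ℤ} (h1 : Set.InjOn σ (gr m M)) (h2 : ∀ x ∈ gr m M, σ x ∈ gr M M) :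
    ∃ τ : Equiv.Perm ℤ, (∀ x ∈ gr m M, τ x = σ x) ∧ (∀ x, x ∈ gr M M ↔ τ x ∈ gr M M) ∧
      ∀ x, x ∉ gr M M → τ x = x := by
  classical
  have hsub : ∀ x ∈ gr m M, x ∈ gr M M := by
    intro x hx
    rw [mem_gr] at hx ⊢
    omega
  obtain ⟨g, hg⟩ := Finset.exists_equiv_extend_of_card_eq (α := {x // x ∈ gr M M}) (t := gr M M)
    (by simp) (s := Finset.univ.filter fun x => x.1 ∈ gr m M) (f := fun x => σ x.1)
    (by
      intro y hy
      obtain ⟨x, hx, rfl⟩ := Finset.mem_image.1 hy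
      exact h2 _ (Finset.mem_filter.1 hx).2)
    (by
      intro x hx y hy hxy
      have hx' := (Finset.mem_filter.1 (Finset.mem_coe.1 hx)).2
      have hy' := (Finset.mem_filter.1 (Finset.mem_coe.1 hy)).2
      exact Subtype.ext (h1 hx' hy' hxy))
  refine ⟨Equiv.Perm.ofSubtype g, fun x hx => ?_, fun x => ?_, fun x hx => ?_⟩
  · rw [Equiv.Perm.ofSubtype_apply_of_mem (p := fun x => x ∈ gr M M) g (hsub x hx)]
    exact hg ⟨x, hsub x hx⟩ (Finset.mem_filter.2 ⟨Finset.mem_univ _, hx⟩)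
  · exact (Equiv.Perm.ofSubtype_apply_mem_iff_mem (p := fun x => x ∈ gr M M) g x).symm
  · exact Equiv.Perm.ofSubtype_apply_of_not_mem (p := fun x => x ∈ gr M M) g hx

theorem REA_zero {I : Maya} : (0 : ℤ) ∉ I.1 := I.2.1

/-- inversions only live in `gr M M` -/
theorem REA_inv {M : ℕ} {τ : Equiv.Perm ℤ} (h1 : ∀ x, x ∈ gr M M ↔ τ x ∈ gr M M)
    (h2 : ∀ x, x ∉ gr M M → τ x = x) {I : Maya} (hI : Lvl M I) {x y : ℤ} (hx : x ∈ I.1) (hy : y ∈ I.1)
    (hxy : x < y) (hτ : τ y < τ x) : x ∈ gr M M ∧ y ∈ gr M M := by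
  have hx0 : x ≠ 0 := fun e => REA_zero (e ▸ hx)
  have hy0 : y ≠ 0 := fun e => REA_zero (e ▸ hy)
  have hxM : -(M : ℤ) ≤ x := by
    by_contra hc
    exact hI.2 x (by omega) hx
  have hyM : -(M : ℤ) ≤ y := by
    by_contra hc
    exact hI.2 y (by omega) hy
  have hy1 : y ∈ gr M M := by
    by_contra hc
    have e1 := h2 y hc
    have hc' : (M : ℤ) < y := by
      rw [mem_gr] at hc
      by_contra hcc
      exact hc ⟨hy0, hyM, by omega⟩
    by_cases hx1 : x ∈ gr M M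
    · have := (h1 x).1 hx1
      rw [mem_gr] at this
      omega
    · have e2 := h2 x hx1
      omega
  refine ⟨?_, hy1⟩
  rw [mem_gr] at hy1 ⊢
  exact ⟨hx0, hxM, by omega⟩

/-- REA. For a permutation `τ` as in `extend_perm`: the image of a Maya diagram of level `m` and the sign. (There are
no inversions with elements outside of `fi M I`: `τ` fixes the `i > M`.) -/
theorem im_sgn {m M : ℕ} (h : m ≤ M) {σ : ℤ → ℤ} {τ : Equiv.Perm ℤ} (hτ : IsFin τ) (h0 : ∀ x ∈ gr m M, τ x = σ x)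
    (h1 : ∀ x, x ∈ gr M M ↔ τ x ∈ gr M M) (h2 : ∀ x, x ∉ gr M M → τ x = x) {I : Maya} (hI : Lvl m I) :
    Lvl M (Maya.im τ hτ I) ∧ fi M (Maya.im τ hτ I) = (fi M I).image σ ∧
      sgn τ I = (-1) ^ invs σ (fi M I) := by
  classical
  have hIM : Lvl M I := lvl_mono h hI
  have hin : ∀ x, x ∈ gr M M → x ∈ I.1 → x ∈ gr m M := by
    intro x hx hxI
    rw [mem_gr] at hx ⊢
    refine ⟨hx.1, ?_, hx.2.2⟩
    by_contra hc
    exact hI.2 x (by omega) hxI
  have him : ∀ J : Maya, ∀ x, x ∈ (Maya.im τ hτ J).1 ↔ ∃ y ∈ J.1, τ y = x := fun J x => Iff.rfl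
  refine ⟨⟨fun i hi => ?_, fun i hi => ?_⟩, ?_, ?_⟩
  · rw [him]
    refine ⟨i, hIM.1 i hi, h2 i ?_⟩
    rw [mem_gr]; omega
  · rw [him]
    rintro ⟨j, hj, rfl⟩
    by_cases hjM : j ∈ gr M M
    · have := (h1 j).1 hjM
      rw [mem_gr] at this
      omega
    · rw [h2 j hjM] at hi
      exact hIM.2 j hi hj
  · ext i
    simp only [fi, Finset.mem_filter, Finset.mem_image]
    constructor
    · rintro ⟨hi, hi2⟩
      rw [him] at hi2
      obtain ⟨j, hj, rfl⟩ := hi2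
      have hjM := (h1 j).2 hi
      exact ⟨j, ⟨hjM, hj⟩, (h0 j (hin j hjM hj)).symm⟩
    · rintro ⟨j, ⟨hjM, hj⟩, rfl⟩
      rw [← h0 j (hin j hjM hj)]
      exact ⟨(h1 j).1 hjM, (him I _).2 ⟨j, hj, rfl⟩⟩
  · unfold sgn invs
    congr 1
    rw [← Set.ncard_coe_finset]
    congr 1
    ext ⟨x, y⟩
    simp only [Set.mem_ofPred_eq, Finset.coe_filter, Finset.mem_product, fi, Finset.mem_filter]
    constructor
    · rintro ⟨hx, hy, hxy, hτxy⟩
      obtain ⟨hx1, hy1⟩ := REA_inv h1 h2 hIM hx hy hxy hτxy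
      refine ⟨⟨⟨hx1, hx⟩, hy1, hy⟩, hxy, ?_⟩
      rwa [← h0 x (hin x hx1 hx), ← h0 y (hin y hy1 hy)]
    · rintro ⟨⟨⟨hx1, hx⟩, hy1, hy⟩, hxy, hσ⟩
      refine ⟨hx, hy, hxy, ?_⟩
      rwa [h0 x (hin x hx1 hx), h0 y (hin y hy1 hy)]

/-- REA. The sign can be changed: compose `τ` with the transposition of `M + 1`, `M + 2` (applied first). All Maya diagrams of
level `M` contain both, so their images do not change, and there is exactly one more inversion. -/
theorem flip {M : ℕ} {τ : Equiv.Perm ℤ} (hτ : IsFin τ) (h1 : ∀ x, x ∈ gr M M ↔ τ x ∈ gr M M)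
    (h2 : ∀ x, x ∉ gr M M → τ x = x) :
    ∃ (τ' : Equiv.Perm ℤ) (hτ' : IsFin τ'), ∀ I : Maya, Lvl M I → Maya.im τ' hτ' I = Maya.im τ hτ I ∧
      sgn τ' I = - sgn τ I := by
  classical
  have e1 : τ ((M : ℤ) + 1) = (M : ℤ) + 1 := h2 _ (by rw [mem_gr]; omega)
  have e2 : τ ((M : ℤ) + 2) = (M : ℤ) + 2 := h2 _ (by rw [mem_gr]; omega)
  set s : Equiv.Perm ℤ := Equiv.swap ((M : ℤ) + 1) ((M : ℤ) + 2) with hs
  have s1 : s ((M : ℤ) + 1) = (M : ℤ) + 2 := Equiv.swap_apply_left _ _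
  have s2 : s ((M : ℤ) + 2) = (M : ℤ) + 1 := Equiv.swap_apply_right _ _
  have s3 : ∀ x : ℤ, x ≠ (M : ℤ) + 1 → x ≠ (M : ℤ) + 2 → s x = x := fun x a b =>
    Equiv.swap_apply_of_ne_of_ne a b
  have hfin : IsFin (τ * s) := by
    refine ⟨?_, ?_⟩
    · rw [Equiv.Perm.mul_apply, s3 0 (by omega) (by omega), hτ.1]
    · refine (hτ.2.union ((Set.finite_singleton ((M : ℤ) + 1)).union
        (Set.finite_singleton ((M : ℤ) + 2)))).subset ?_
      intro x hx
      by_contra hc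
      simp only [Set.mem_union, Set.mem_ofPred_eq, Set.mem_singleton_iff, not_or, not_not] at hc
      apply hx
      rw [Equiv.Perm.mul_apply, s3 x hc.2.1 hc.2.2, hc.1]
  refine ⟨τ * s, hfin, fun I hI => ⟨?_, ?_⟩⟩
  · apply Subtype.ext
    change (⇑(τ * s)) '' I.1 = τ '' I.1
    have hm1 : (M : ℤ) + 1 ∈ I.1 := hI.1 _ (by omega)
    have hm2 : (M : ℤ) + 2 ∈ I.1 := hI.1 _ (by omega)
    have hsI : ∀ x ∈ I.1, s x ∈ I.1 := by
      intro x hx
      by_cases a : x = (M : ℤ) + 1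
      · rw [a, s1]; exact hm2
      · by_cases b : x = (M : ℤ) + 2
        · rw [b, s2]; exact hm1
        · rw [s3 x a b]; exact hx
    ext y
    constructor
    · rintro ⟨x, hx, rfl⟩
      exact ⟨s x, hsI x hx, rfl⟩
    · rintro ⟨x, hx, rfl⟩
      refine ⟨s x, hsI x hx, ?_⟩
      rw [Equiv.Perm.mul_apply, hs, Equiv.swap_apply_self]
  · unfold sgn
    have hm1 : (M : ℤ) + 1 ∈ I.1 := hI.1 _ (by omega)
    have hm2 : (M : ℤ) + 2 ∈ I.1 := hI.1 _ (by omega)
    set A : Set (ℤ × ℤ) := {x : ℤ × ℤ | x.1 ∈ I.1 ∧ x.2 ∈ I.1 ∧ x.1 < x.2 ∧ τ x.2 < τ x.1} with hA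
    have hAfin : A.Finite := by
      refine ((gr M M ×ˢ gr M M).finite_toSet).subset ?_
      rintro ⟨x, y⟩ ⟨hx, hy, hxy, hτxy⟩
      obtain ⟨a, b⟩ := REA_inv h1 h2 hI hx hy hxy hτxy
      exact Finset.mem_coe.2 (Finset.mem_product.2 ⟨a, b⟩)
    have hnot : ((M : ℤ) + 1, (M : ℤ) + 2) ∉ A := by
      rintro ⟨_, _, _, hc⟩
      simp only [e1, e2] at hc
      omega
    have hbd : ∀ x, x ∈ I.1 → x ≤ (M : ℤ) → τ x ≤ (M : ℤ) := by
      intro x hx hxM
      have hx1 : x ∈ gr M M := by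
        rw [mem_gr]
        refine ⟨fun e => REA_zero (e ▸ hx), ?_, hxM⟩
        by_contra hc
        exact hI.2 x (by omega) hx
      have := (h1 x).1 hx1
      rw [mem_gr] at this
      exact this.2.2
    have hbig : ∀ x : ℤ, (M : ℤ) < x → τ x = x := fun x hx => h2 x (by rw [mem_gr]; omega)
    have hset : {x : ℤ × ℤ | x.1 ∈ I.1 ∧ x.2 ∈ I.1 ∧ x.1 < x.2 ∧ (τ * s) x.2 < (τ * s) x.1} =
        insert ((M : ℤ) + 1, (M : ℤ) + 2) A := by
      ext ⟨x, y⟩
      simp only [Set.mem_ofPred_eq, Set.mem_insert_iff, hA, Prod.mk.injEq, Equiv.Perm.mul_apply]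
      constructor
      · rintro ⟨hx, hy, hxy, hc⟩
        by_cases hx1 : x = (M : ℤ) + 1
        · by_cases hy2 : y = (M : ℤ) + 2
          · exact Or.inl ⟨hx1, hy2⟩
          · exfalso
            rw [hx1, s1, e2, s3 y (by omega) hy2, hbig y (by omega)] at hc
            omega
        · by_cases hx2 : x = (M : ℤ) + 2
          · exfalso
            rw [hx2, s2, e1, s3 y (by omega) (by omega), hbig y (by omega)] at hc
            omega
          · rw [s3 x hx1 hx2] at hc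
            by_cases hy1 : y = (M : ℤ) + 1
            · exfalso
              rw [hy1, s1, e2] at hc
              have := hbd x hx (by omega)
              omega
            · by_cases hy2 : y = (M : ℤ) + 2
              · exfalso
                rw [hy2, s2, e1] at hc
                have := hbd x hx (by omega)
                omega
              · rw [s3 y hy1 hy2] at hc
                exact Or.inr ⟨hx, hy, hxy, hc⟩
      · rintro (⟨rfl, rfl⟩ | ⟨hx, hy, hxy, hc⟩)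
        · refine ⟨hm1, hm2, by omega, ?_⟩
          rw [s1, s2, e1, e2]
          omega
        · refine ⟨hx, hy, hxy, ?_⟩
          obtain ⟨a, b⟩ := REA_inv h1 h2 hI hx hy hxy hc
          rw [mem_gr] at a b
          rw [s3 x (by omega) (by omega), s3 y (by omega) (by omega)]
          exact hc
    rw [hset, Set.ncard_insert_of_notMem hnot hAfin, pow_succ]
    ring

/-- REA. Summary: `extend_perm`, `im_sgn`, `flip`. -/
theorem realize {m M : ℕ} (h : m ≤ M) {σ : ℤ → ℤ} (h1 : Set.InjOn σ (gr m M)) (h2 : ∀ x ∈ gr m M, σ x ∈ gr M M)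
    {η : ℤ} (hη : η = 1 ∨ η = -1) :
    ∃ (τ : Equiv.Perm ℤ) (hτ : IsFin τ), ∀ I : Maya, Lvl m I → Lvl M (Maya.im τ hτ I) ∧
      fi M (Maya.im τ hτ I) = (fi M I).image σ ∧ sgn τ I = η * (-1) ^ invs σ (fi M I) := by
  obtain ⟨τ, t0, t1, t2⟩ := extend_perm h h1 h2
  have hτ : IsFin τ := by
    refine ⟨t2 0 (by rw [mem_gr]; omega), ((gr M M).finite_toSet).subset ?_⟩
    intro x hx
    by_contra hc
    exact hx (t2 x hc)
  rcases hη with rfl | rfl
  · refine ⟨τ, hτ, fun I hI => ?_⟩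
    obtain ⟨a, b, c⟩ := im_sgn h hτ t0 t1 t2 hI
    exact ⟨a, b, by rw [c, one_mul]⟩
  · obtain ⟨τ', hτ', h'⟩ := flip hτ t1 t2
    refine ⟨τ', hτ', fun I hI => ?_⟩
    obtain ⟨a, b, c⟩ := im_sgn h hτ t0 t1 t2 hI
    obtain ⟨d, e⟩ := h' I (lvl_mono h hI)
    rw [d]
    exact ⟨a, b, by rw [e, c]; ring⟩

end Pool.Agent.BWN
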