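import Pool.Agent.Lib_MP_001f0c_ag.PSA
import Pool.Agent.Lib_MP_001f0c_ag.REA

/-!
# Piece PSB: values at minors
-/

set_option autoImplicit false

open Finset MvPolynomial

namespace Pool.Agent.BWN

universe u

variable {k : Type u} [Field k]

/-- sorting the image under a strictly monotone map -/
theorem psb_sort_image {α β : Type} [LinearOrder α] [LinearOrder β] {f : α → β} {S : Finset α}
    (h : StrictMonoOn f S) : (S.image f).sort = S.sort.map f := by
  have h0 : (S.sort.map f).toFinset = S.image f := by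
    ext x
    simp
  have hn : (S.sort.map f).Nodup := by
    refine List.Nodup.map_on ?_ (Finset.sort_nodup S _)
    intro x hx y hy hxy
    rw [Finset.mem_sort] at hx hy
    exact h.injOn hx hy hxy
  have hp : (S.sort.map f).Pairwise (· ≤ ·) := by
    rw [List.pairwise_map]
    refine List.Pairwise.imp_of_mem ?_ (Finset.pairwise_sort S (· ≤ ·))
    intro x y hx hy hxy
    rw [Finset.mem_sort] at hx hy
    exact h.monotoneOn hx hy hxy
  rw [← h0]
  exact (List.toFinset_sort (· ≤ ·) hn).2 hp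

/-- a strictly monotone map of `(m, M]` onto `C` -/
theorem psb_enum {m M : ℕ} {C : Finset ℕ} (hcard : C.card + m = M) :
    ∃ g : ℤ → ℕ, StrictMonoOn g (Finset.Ioc (m : ℤ) M) ∧ (Finset.Ioc (m : ℤ) M).image g = C := by
  classical
  have h1 : (Finset.Ioc (m : ℤ) M).card = C.card := by
    rw [Int.card_Ioc]
    omega
  let a := (Finset.Ioc (m : ℤ) M).orderIsoOfFin h1
  let b := C.orderIsoOfFin (rfl : C.card = C.card)
  refine ⟨fun x => if h : x ∈ Finset.Ioc (m : ℤ) M then (b (a.symm ⟨x, h⟩) : ℕ) else 0, ?_, ?_⟩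
  · intro x hx y hy hxy
    rw [Finset.mem_coe] at hx hy
    simp only [hx, hy, dif_pos]
    have h2 : a.symm ⟨x, hx⟩ < a.symm ⟨y, hy⟩ := a.symm.strictMono hxy
    exact b.strictMono h2
  · ext c
    rw [Finset.mem_image]
    constructor
    · rintro ⟨x, hx, rfl⟩
      simp only [hx, dif_pos]
      exact (b (a.symm ⟨x, hx⟩)).2
    · intro hc
      refine ⟨(a (b.symm ⟨c, hc⟩) : ℤ), (a (b.symm ⟨c, hc⟩)).2, ?_⟩
      have h3 : ((a (b.symm ⟨c, hc⟩) : ℤ)) ∈ Finset.Ioc (m : ℤ) M := (a (b.symm ⟨c, hc⟩)).2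
      simp only [h3, dif_pos, Subtype.coe_eta, OrderIso.symm_apply_apply, OrderIso.apply_symm_apply]

theorem psb_mem_gr {m M : ℕ} (h : m ≤ M) {x : ℤ} (hx : x ∈ gr m M) :
    x ∈ gr m m ∨ x ∈ Finset.Ioc (m : ℤ) M := by
  rw [mem_gr] at hx
  by_cases h1 : x ≤ m
  · left
    rw [mem_gr]
    exact ⟨hx.1, hx.2.1, h1⟩
  · right
    rw [Finset.mem_Ioc]
    omega

theorem psb_gr_notMem {m M : ℕ} {x : ℤ} (hx : x ∈ gr m m) : x ∉ Finset.Ioc (m : ℤ) M := by
  rw [mem_gr] at hx
  rw [Finset.mem_Ioc]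
  omega

theorem psb_sg_sq {K : Type u} [Field K] (A B : Finset ℕ) : ((sg A B : ℤ) : K) * ((sg A B : ℤ) : K) = 1 := by
  have h : sg A B * sg A B = 1 := by
    unfold sg
    rw [← Finset.prod_mul_distrib]
    refine Finset.prod_eq_one fun a _ => ?_
    rw [← Finset.prod_mul_distrib]
    refine Finset.prod_eq_one fun b _ => ?_
    split_ifs <;> norm_num
  rw [← Int.cast_mul, h, Int.cast_one]

theorem psb_neg_sq {K : Type u} [Field K] (n : ℕ) : ((-1 : K) ^ n) * (-1) ^ n = 1 := by
  rw [← mul_pow]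
  norm_num

/-- the values of two homomorphisms which agree on the variables -/
theorem psb_aeval_congr {S : Type u} [CommRing S] [Algebra k S] {f : Rg k} {g h : Maya → S}
    (H : ∀ I ∈ f.vars, g I = h I) : aeval g f = aeval h f := by
  have h1 := MvPolynomial.hom_congr_vars (f₁ := (aeval g : Rg k →ₐ[k] S).toRingHom)
    (f₂ := (aeval h : Rg k →ₐ[k] S).toRingHom) (p₁ := f) (p₂ := f) (by
      ext x
      simp) (by
      intro I hI _
      simpa using H I hI) rfl
  exact h1

/-- PSB. The values at a minor are the values at a point of the orbit. Here `P` is the point with the larger level `M`, the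
positions `τ'`, `φ'` for `gr M M`, and `f` is a polynomial of level `m ≤ M` with positions `τ`, `φ`.

Proof. Let `σ x = τ' (e (φ x))` for `x ∈ gr m m`, and let `σ` map `m + 1, …, M` increasingly (in the order of the positions)
to `τ' c`, `c ∈ C`. `realize` gives a permutation `ρ`; `I ↦ sgn ρ I * val P (ρ I) = η (-1)^(invs σ (fi M I)) * Dt v ((fi M I).image σ).sort`
(`lev_fi`, `hv`) `= η * det of the columns v (σ x), x ∈ fi M I sorted` (`Dt_sort_map`), and
`(fi M I).sort = (fi m I).sort ++ [m + 1, …, M]` (`fi_succ`). On the other side let `J = (fi m I).image φ`;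
`sg (e J) C * Dt (v ∘ τ') (e J ∪ C).sort = det (v (τ' (e y)), y ∈ J sorted; v (τ' c), c ∈ C sorted)` (`Dt_union`), where
`v (τ' (e y)) = v (σ (τ y))` for `y ∈ J`, and by `Dt_sort_map` for `τ` and `J` (`J.image τ = fi m I`) this is
`(-1)^(invs τ J)` times the determinant above. The two signs `(-1)^(invs τ J)` cancel. -/
theorem posP_minor {P : PrimeSpectrum (Rg k)} {m M : ℕ} {v : ℤ → Fin M → Res P}
    (hv : ∀ J, J ⊆ gr M M → J.card = M → lev (val P) M M J = Dt v J.sort) {τ τ' : ℕ → ℤ} {φ φ' : ℤ → ℕ}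
    (h1 : ∀ i < 2 * m, τ i ∈ gr m m ∧ φ (τ i) = i) (h2 : ∀ x ∈ gr m m, φ x < 2 * m ∧ τ (φ x) = x)
    (h1' : ∀ i < 2 * M, τ' i ∈ gr M M ∧ φ' (τ' i) = i) (h2' : ∀ x ∈ gr M M, φ' x < 2 * M ∧ τ' (φ' x) = x)
    {f : Rg k} (hf : ∀ I ∈ f.vars, Lvl m I) {e : ℕ → ℕ} {C : Finset ℕ} {η : ℤ} (hη : η = 1 ∨ η = -1)
    (he : StrictMonoOn e (Set.Ico 0 (2 * m))) (heC : ∀ x < 2 * m, e x < 2 * M ∧ e x ∉ C)
    (hC : C ⊆ Finset.range (2 * M)) (hcard : C.card + m = M) :
    ∃ (ρ : Equiv.Perm ℤ) (hρ : IsFin ρ),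
      aeval (fun I : Finset ℕ => if I ⊆ Finset.range (2 * m) ∧ I.card = m then
        (η : Res P) * ((sg (I.image e) C : ℤ) : Res P) * Dt (fun i => v (τ' i)) (I.image e ∪ C).sort
          else 0) (posP m τ φ f) =
      aeval (fun I => ((sgn ρ I : ℤ) : Res P) * val P (Maya.im ρ hρ I)) f := by
  classical
  have hmM : m ≤ M := by omega
  obtain ⟨g, hg1, hg2⟩ := psb_enum hcard
  have hgC : ∀ x ∈ Finset.Ioc (m : ℤ) M, g x ∈ C := fun x hx => by
    rw [← hg2]
    exact Finset.mem_image_of_mem g hx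
  -- positions of the images
  let idx : ℤ → ℕ := fun x => if x ∈ Finset.Ioc (m : ℤ) M then g x else e (φ x)
  have hidx1 : ∀ x ∈ gr m m, idx x = e (φ x) := fun x hx => if_neg (psb_gr_notMem hx)
  have hidx2 : ∀ x ∈ Finset.Ioc (m : ℤ) M, idx x = g x := fun x hx => if_pos hx
  let σ : ℤ → ℤ := fun x => τ' (idx x)
  have hlt : ∀ x ∈ gr m M, idx x < 2 * M := by
    intro x hx
    rcases psb_mem_gr hmM hx with hx | hx
    · rw [hidx1 x hx]
      exact (heC _ (h2 x hx).1).1
    · rw [hidx2 x hx]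
      exact Finset.mem_range.1 (hC (hgC x hx))
  have hinj : Set.InjOn idx (gr m M) := by
    intro x hx y hy hxy
    rw [Finset.mem_coe] at hx hy
    rcases psb_mem_gr hmM hx with hx | hx <;> rcases psb_mem_gr hmM hy with hy | hy
    · rw [hidx1 x hx, hidx1 y hy] at hxy
      have h3 : φ x = φ y := he.injOn ⟨Nat.zero_le _, (h2 x hx).1⟩ ⟨Nat.zero_le _, (h2 y hy).1⟩ hxy
      rw [← (h2 x hx).2, ← (h2 y hy).2, h3]
    · rw [hidx1 x hx, hidx2 y hy] at hxy
      exact absurd (hxy ▸ hgC y hy) (heC _ (h2 x hx).1).2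
    · rw [hidx2 x hx, hidx1 y hy] at hxy
      exact absurd (hxy ▸ hgC x hx) (heC _ (h2 y hy).1).2
    · rw [hidx2 x hx, hidx2 y hy] at hxy
      exact hg1.injOn hx hy hxy
  have hσinj : Set.InjOn σ (gr m M) := by
    intro x hx y hy hxy
    have h3 : idx x = idx y := by
      have h4 := congrArg φ' hxy
      rw [(h1' _ (hlt x hx)).2, (h1' _ (hlt y hy)).2] at h4
      exact h4
    exact hinj hx hy h3
  have hσm : ∀ x ∈ gr m M, σ x ∈ gr M M := fun x hx => (h1' _ (hlt x hx)).1
  obtain ⟨ρ, hρ, H⟩ := realize hmM hσinj hσm hη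
  refine ⟨ρ, hρ, ?_⟩
  unfold posP
  rw [← AlgHom.comp_apply, MvPolynomial.comp_aeval]
  refine psb_aeval_congr fun I hI => ?_
  have hIm := hf I hI
  obtain ⟨H1, H2, H3⟩ := H I hIm
  obtain ⟨F1, F2, F3⟩ := fi_succ hmM hIm
  have hsubM : ∀ x ∈ fi M I, x ∈ gr m M := by
    intro x hx
    rw [F1, Finset.mem_union] at hx
    rw [mem_gr]
    rcases hx with hx | hx
    · have := fi_sub m I hx
      rw [mem_gr] at this
      omega
    · rw [Finset.mem_Ioc] at hx
      omega
  -- the right hand side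
  have hR : ((sgn ρ I : ℤ) : Res P) * val P (Maya.im ρ hρ I) =
      (η : Res P) * DV ((fi m I).sort.map (fun x => v (σ x)) ++ C.sort.map (fun c => v (τ' c))) := by
    have e1 : val P (Maya.im ρ hρ I) = Dt v ((fi M I).image σ).sort := by
      rw [← lev_fi (val P) H1, hv _ (fi_sub M _) (card_fi H1), H2]
    have e2 : DV ((fi M I).sort.map (fun x => v (σ x))) =
        (-1) ^ invs σ (fi M I) * Dt v ((fi M I).image σ).sort := by
      have h3 := Dt_sort_map σ v [] [] (J := fi M I) (hσinj.mono fun x hx => hsubM x hx)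
      simpa [Dt] using h3
    have e3 : (fi M I).sort.map (fun x => v (σ x)) =
        (fi m I).sort.map (fun x => v (σ x)) ++ C.sort.map (fun c => v (τ' c)) := by
      rw [F3, List.map_append]
      congr 1
      rw [← hg2, psb_sort_image hg1, List.map_map]
      refine List.map_congr_left fun x hx => ?_
      rw [Finset.mem_sort] at hx
      show v (τ' (idx x)) = v (τ' (g x))
      rw [hidx2 x hx]
    rw [H3, e1, ← e3, e2]
    push_cast
    ring
  -- the left hand side
  set J : Finset ℕ := (fi m I).image φ with hJ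
  have hφinj : Set.InjOn φ (fi m I) := by
    intro x hx y hy hxy
    rw [← (h2 x (fi_sub m I hx)).2, ← (h2 y (fi_sub m I hy)).2, hxy]
  have hJr : J ⊆ Finset.range (2 * m) := by
    intro y hy
    rw [hJ, Finset.mem_image] at hy
    obtain ⟨x, hx, rfl⟩ := hy
    exact Finset.mem_range.2 (h2 x (fi_sub m I hx)).1
  have hJc : J.card = m := by
    rw [hJ, Finset.card_image_of_injOn hφinj, card_fi hIm]
  have hJτ : J.image τ = fi m I := by
    ext x
    rw [hJ, Finset.mem_image]
    constructor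
    · rintro ⟨y, hy, rfl⟩
      obtain ⟨z, hz, rfl⟩ := Finset.mem_image.1 hy
      rw [(h2 z (fi_sub m I hz)).2]
      exact hz
    · intro hx
      exact ⟨φ x, Finset.mem_image_of_mem φ hx, (h2 x (fi_sub m I hx)).2⟩
  have hJτm : ∀ y ∈ J, τ y ∈ gr m m ∧ φ (τ y) = y := fun y hy => h1 y (Finset.mem_range.1 (hJr hy))
  have hτinj : Set.InjOn τ J := by
    intro x hx y hy hxy
    rw [← (hJτm x hx).2, ← (hJτm y hy).2, hxy]
  have hdis : Disjoint (J.image e) C := by
    rw [Finset.disjoint_left]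
    intro y hy
    obtain ⟨x, hx, rfl⟩ := Finset.mem_image.1 hy
    exact (heC x (Finset.mem_range.1 (hJr hx))).2
  have heJ : StrictMonoOn e J := he.mono fun x hx =>
    ⟨Nat.zero_le _, Finset.mem_range.1 (hJr hx)⟩
  have L1 : Dt (fun i => v (τ' i)) (J.image e ∪ C).sort =
      ((sg (J.image e) C : ℤ) : Res P) *
        DV (J.sort.map (fun y => v (τ' (e y))) ++ C.sort.map (fun c => v (τ' c))) := by
    have h3 := Dt_union (fun i => v (τ' i)) [] [] hdis
    rw [psb_sort_image heJ, List.map_map] at h3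
    simpa [Dt, Function.comp_def] using h3
  have L2 : J.sort.map (fun y => v (τ' (e y))) = J.sort.map (fun y => v (σ (τ y))) := by
    refine List.map_congr_left fun y hy => ?_
    rw [Finset.mem_sort] at hy
    show v (τ' (e y)) = v (τ' (idx (τ y)))
    rw [hidx1 _ (hJτm y hy).1, (hJτm y hy).2]
  have L3 : DV (J.sort.map (fun y => v (σ (τ y))) ++ C.sort.map (fun c => v (τ' c))) =
      (-1) ^ invs τ J *
        DV ((fi m I).sort.map (fun x => v (σ x)) ++ C.sort.map (fun c => v (τ' c))) := by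
    have h3 := Dt_sort_map τ (fun x => v (σ x)) [] (C.sort.map (fun c => v (τ' c))) hτinj
    rw [hJτ] at h3
    simpa using h3
  rw [hR]
  simp only [map_mul, map_pow, map_neg, map_one, aeval_X]
  rw [if_pos ⟨hJr, hJc⟩, L1, L2, L3]
  have s1 := psb_sg_sq (K := Res P) (J.image e) C
  have s2 := psb_neg_sq (K := Res P) (invs τ J)
  generalize DV ((fi m I).sort.map (fun x => v (σ x)) ++ C.sort.map (fun c => v (τ' c))) = D
  calc (-1) ^ invs τ J * ((η : Res P) * ((sg (J.image e) C : ℤ) : Res P) *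
        (((sg (J.image e) C : ℤ) : Res P) * ((-1) ^ invs τ J * D)))
      = (((-1) ^ invs τ J) * (-1) ^ invs τ J) * (((sg (J.image e) C : ℤ) : Res P) *
          ((sg (J.image e) C : ℤ) : Res P)) * ((η : Res P) * D) := by ring
    _ = (η : Res P) * D := by rw [s1, s2, one_mul, one_mul]

end Pool.Agent.BWN
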