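import Pool.Agent.Lib_MP_001f0c_ag.Defs

/-!
# Rank functions (definitions)
-/

set_option autoImplicit false

open Finset

namespace Pool.Agent.BWN

universe u

variable {E : Type} [DecidableEq E]

/-- rank functions of matroids (without reference to a ground set) -/
structure Rk (r : Finset E → ℤ) : Prop where
  zero : r ∅ = 0
  mono : ∀ X Y, X ⊆ Y → r X ≤ r Y
  unit : ∀ X x, r (insert x X) ≤ r X + 1
  sub : ∀ X Y, r (X ∪ Y) + r (X ∩ Y) ≤ r X + r Y

/-- connectivity function of the matroid on `U` -/
def lam (r : Finset E → ℤ) (U X : Finset E) : ℤ := r X + r (U \ X) - r U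

/-- One step of the reduction of a pair `(C, G)` of sets which are disjoint and disjoint from `A` (`C` is the set of the
contracted elements, `G` the set of the other elements outside of `A`): delete `x ∈ G` if it is in the closure of the
other elements of `C ∪ G`; contract `x ∈ G` if it is not in the closure of `A ∪ C`. -/
inductive Stp (r : Finset E → ℤ) (A : Finset E) : Finset E × Finset E → Finset E × Finset E → Prop
  | del (C G : Finset E) (x : E) : x ∈ G → x ∉ C → r (C ∪ G) = r (C ∪ G.erase x) →
      Stp r A (C, G) (C, G.erase x)
  | con (C G : Finset E) (x : E) : x ∈ G → x ∉ C → r (A ∪ C) < r (insert x (A ∪ C)) →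
      Stp r A (C, G) (insert x C, G.erase x)

/-- rank function of a family of vectors -/
noncomputable def rkf {K : Type u} [Field K] {p : ℕ} (v : E → Fin p → K) (X : Finset E) : ℤ :=
  (Set.finrank K (v '' (X : Set E)) : ℤ)

end Pool.Agent.BWN
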