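import Pool.Agent.Lib_MP_001f0c_ag.DVA

/-!
# Piece SGN: sorting two sets
-/

set_option autoImplicit false

open Finset

namespace Pool.Agent.BWN

universe u

variable {K : Type u} [Field K] {p : ℕ}

/-- Sorting a union of two sets, one below the other. -/
theorem sgn_sort_union {E : Type} [LinearOrder E] {A B : Finset E}
    (h : ∀ a ∈ A, ∀ b ∈ B, a < b) : (A ∪ B).sort = A.sort ++ B.sort := by
  have hd : (A.sort ++ B.sort).Nodup := by
    rw [List.nodup_append]
    refine ⟨A.sort_nodup _, B.sort_nodup _, ?_⟩
    intro a ha b hb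
    exact (h a (by simpa using ha) b (by simpa using hb)).ne
  have hp : (A.sort ++ B.sort).Pairwise (fun a b => a ≤ b) := by
    rw [List.pairwise_append]
    exact ⟨A.pairwise_sort _, B.pairwise_sort _,
      fun a ha b hb => (h a (by simpa using ha) b (by simpa using hb)).le⟩
  have hf : (A.sort ++ B.sort).toFinset = A ∪ B := by
    rw [List.toFinset_append, Finset.sort_toFinset, Finset.sort_toFinset]
  conv_lhs => rw [← hf]
  exact (List.toFinset_sort (r := fun a b => a ≤ b) hd).2 hp

/-- Insertion of one element at the end of a sorted block. -/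
theorem sgn_DV_insert {E : Type} [LinearOrder E] (v : E → Fin p → K) (l₁ l₂ : List (Fin p → K))
    (S : Finset E) {x : E} (hx : x ∉ S) :
    DV (l₁ ++ S.sort.map v ++ v x :: l₂) =
      (-1) ^ (S.filter fun s => x < s).card * DV (l₁ ++ (insert x S).sort.map v ++ l₂) := by
  have h1 : S = (S.filter fun s => s < x) ∪ (S.filter fun s => x < s) := by
    ext s
    simp only [mem_union, mem_filter]
    constructor
    · intro hs
      rcases lt_trichotomy s x with h | h | h
      · exact Or.inl ⟨hs, h⟩
      · exact absurd (h ▸ hs) hx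
      · exact Or.inr ⟨hs, h⟩
    · rintro (h | h) <;> exact h.1
  have h2 : insert x S = (S.filter fun s => s < x) ∪ ({x} ∪ (S.filter fun s => x < s)) := by
    ext s
    simp only [mem_insert, mem_union, mem_filter, mem_singleton]
    constructor
    · rintro (hs | hs)
      · exact Or.inr (Or.inl hs)
      · rcases lt_trichotomy s x with h | h | h
        · exact Or.inl ⟨hs, h⟩
        · exact Or.inr (Or.inl h)
        · exact Or.inr (Or.inr ⟨hs, h⟩)
    · rintro (h | h | h)
      · exact Or.inr h.1
      · exact Or.inl h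
      · exact Or.inr h.1
  have h3 : ∀ a ∈ ({x} : Finset E), ∀ b ∈ (S.filter fun s => x < s), a < b := by
    intro a ha b hb
    rw [mem_singleton.1 ha]
    exact (mem_filter.1 hb).2
  have h4 : ∀ a ∈ (S.filter fun s => s < x), ∀ b ∈ (S.filter fun s => x < s), a < b :=
    fun a ha b hb => (mem_filter.1 ha).2.trans (mem_filter.1 hb).2
  have h5 : ∀ a ∈ (S.filter fun s => s < x), ∀ b ∈ ({x} ∪ (S.filter fun s => x < s)), a < b := by
    intro a ha b hb
    rcases mem_union.1 hb with hb | hb
    · rw [mem_singleton.1 hb]
      exact (mem_filter.1 ha).2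
    · exact h4 a ha b hb
  have e1 : S.sort = (S.filter fun s => s < x).sort ++ (S.filter fun s => x < s).sort := by
    conv_lhs => rw [h1]
    exact sgn_sort_union h4
  have e2 : (insert x S).sort =
      (S.filter fun s => s < x).sort ++ ([x] ++ (S.filter fun s => x < s).sort) := by
    rw [h2, sgn_sort_union h5, sgn_sort_union h3, Finset.sort_singleton]
  have hm := DV_move (l₁ ++ (S.filter fun s => s < x).sort.map v)
    ((S.filter fun s => x < s).sort.map v) [v x] l₂
  simp only [List.length_map, Finset.length_sort, List.length_singleton, mul_one] at hm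
  have e3 : l₁ ++ S.sort.map v ++ v x :: l₂ = l₁ ++ (S.filter fun s => s < x).sort.map v ++
      (S.filter fun s => x < s).sort.map v ++ [v x] ++ l₂ := by
    rw [e1]; simp
  have e4 : l₁ ++ (insert x S).sort.map v ++ l₂ = l₁ ++ (S.filter fun s => s < x).sort.map v ++
      [v x] ++ (S.filter fun s => x < s).sort.map v ++ l₂ := by
    rw [e2]; simp
  rw [e3, e4, hm]

theorem sgn_sort_insert {E : Type} [LinearOrder E] {S : Finset E} {a : E} (h : ∀ x ∈ S, x < a) :
    (insert a S).sort = S.sort ++ [a] := by
  have e : insert a S = S ∪ {a} := by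
    ext s
    simp only [mem_insert, mem_union, mem_singleton]
    tauto
  rw [e, sgn_sort_union, Finset.sort_singleton]
  intro x hx b hb
  rw [mem_singleton.1 hb]
  exact h x hx

theorem sgn_sg_insert (A : Finset ℕ) {B : Finset ℕ} {b : ℕ} (hb : b ∉ B) :
    sg A (insert b B) = (-1) ^ (A.filter fun s => b < s).card * sg A B := by
  unfold sg
  have h : ∀ a, (∏ x ∈ insert b B, if x < a then (-1 : ℤ) else 1) =
      (if b < a then -1 else 1) * ∏ x ∈ B, if x < a then (-1 : ℤ) else 1 :=
    fun a => Finset.prod_insert hb
  simp only [h]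
  rw [Finset.prod_mul_distrib]
  congr 1
  rw [Finset.prod_ite]
  simp

/-- SGN. Sorting `A, B`. Induction on the number of elements of `A ∪ B`: take the smallest element. (Stated with a list `l₁` of
vectors in front.) -/
theorem Dt_union (v : ℕ → Fin p → K) (l₁ l₂ : List (Fin p → K)) {A B : Finset ℕ} (h : Disjoint A B) :
    DV (l₁ ++ (A ∪ B).sort.map v ++ l₂) =
      ((sg A B : ℤ) : K) * DV (l₁ ++ A.sort.map v ++ B.sort.map v ++ l₂) := by
  induction B using Finset.induction_on_max generalizing l₂ with
  | empty => simp [sg]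
  | insert b B hb ih =>
    have hbB : b ∉ B := fun hc => lt_irrefl _ (hb b hc)
    have hd : Disjoint A B := Finset.disjoint_of_subset_right (Finset.subset_insert _ _) h
    have hbA : b ∉ A := fun hc => (Finset.disjoint_left.1 h hc) (Finset.mem_insert_self _ _)
    have hbU : b ∉ A ∪ B := by
      rw [mem_union]; tauto
    have h1 := ih (v b :: l₂) hd
    have h2 := sgn_DV_insert v l₁ l₂ (A ∪ B) hbU
    have hf : (A ∪ B).filter (fun s => b < s) = A.filter fun s => b < s := by
      ext s
      simp only [mem_filter, mem_union]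
      constructor
      · rintro ⟨hs | hs, hlt⟩
        · exact ⟨hs, hlt⟩
        · exact absurd hlt (not_lt.2 (hb s hs).le)
      · rintro ⟨hs, hlt⟩
        exact ⟨Or.inl hs, hlt⟩
    rw [hf] at h2
    rw [sgn_sg_insert A hbB, sgn_sort_insert hb, Finset.union_insert]
    have e : l₁ ++ A.sort.map v ++ (B.sort ++ [b]).map v ++ l₂ =
        l₁ ++ A.sort.map v ++ B.sort.map v ++ v b :: l₂ := by simp
    rw [e]
    have hs : ((-1 : K) ^ (A.filter fun s => b < s).card) * (-1) ^ (A.filter fun s => b < s).card
        = 1 := by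
      rw [← mul_pow]; simp
    push_cast
    rw [mul_assoc, ← h1, h2, ← mul_assoc, hs, one_mul]

end Pool.Agent.BWN
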