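import Pool.Agent.Lib_MP_001f0c_ag.DVB
import Pool.Agent.Lib_MP_001f0c_ag.RKA

/-!
# Piece SSA: steps preserve the state space
-/

set_option autoImplicit false

open Finset

namespace Pool.Agent.BWN

universe u

variable {K : Type u} [Field K] {p : ℕ} {v : ℕ → Fin p → K}

/-- the generators of the state space -/
noncomputable def SSA_g (v : ℕ → Fin p → K) (A C : Finset ℕ) (l : List ℕ) : Finset ℕ → K :=
  fun I => if I ⊆ A then Dt v (I.sort ++ C.sort ++ l) else 0

theorem SSA_mem {A C G : Finset ℕ} {l : List ℕ} (h : ∀ x ∈ l, x ∈ G) :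
    SSA_g v A C l ∈ SS v A C G := Submodule.subset_span ⟨l, h, rfl⟩

theorem SSA_dup {A C : Finset ℕ} {l : List ℕ} {y : ℕ} (hC : y ∈ C) (hl : y ∈ l) :
    SSA_g v A C l = 0 := by
  funext I
  simp only [SSA_g, Pi.zero_apply]
  split_ifs with hI
  · apply DV_dup
    intro hn
    have hn' : (I.sort ++ C.sort ++ l).Nodup := List.Nodup.of_map _ hn
    rw [List.nodup_append] at hn'
    exact hn'.2.2 y (List.mem_append_right _ ((Finset.mem_sort _).2 hC)) y hl rfl
  · rfl

theorem SSA_sum {A C : Finset ℕ} (l₁ l₂ : List ℕ) {x : ℕ} (S : Finset ℕ) (c : ℕ → K)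
    (h : ∑ y ∈ S, c y • v y = v x) :
    SSA_g v A C (l₁ ++ x :: l₂) = ∑ y ∈ S, c y • SSA_g v A C (l₁ ++ y :: l₂) := by
  funext I
  rw [Finset.sum_apply]
  simp only [SSA_g, Pi.smul_apply, smul_eq_mul]
  by_cases hI : I ⊆ A
  · simp only [if_pos hI]
    have h1 := DV_sum ((I.sort ++ C.sort ++ l₁).map v) (l₂.map v) S c v
    rw [h] at h1
    simp only [Dt]
    simp only [List.map_append, List.map_cons, List.append_assoc] at h1 ⊢
    exact h1
  · simp only [if_neg hI, mul_zero, Finset.sum_const_zero]

theorem SSA_del_aux {A C G : Finset ℕ} {x : ℕ} (S : Finset ℕ) (hS : S = C ∪ G.erase x) (c : ℕ → K)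
    (h : ∑ y ∈ S, c y • v y = v x) : ∀ (n : ℕ) (l : List ℕ), l.count x = n → (∀ y ∈ l, y ∈ G) →
      SSA_g v A C l ∈ SS v A C (G.erase x) := by
  intro n
  induction n with
  | zero =>
    intro l hl hG
    apply SSA_mem
    intro y hy
    rw [Finset.mem_erase]
    refine ⟨?_, hG y hy⟩
    rintro rfl
    exact List.count_eq_zero.1 hl hy
  | succ n ih =>
    intro l hl hG
    have hx : x ∈ l := by
      apply List.count_pos_iff.1
      omega
    obtain ⟨l₁, l₂, rfl⟩ := List.append_of_mem hx
    rw [SSA_sum l₁ l₂ S c h]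
    apply Submodule.sum_mem
    intro y hy
    apply Submodule.smul_mem
    rw [hS, Finset.mem_union, Finset.mem_erase] at hy
    by_cases hyC : y ∈ C
    · rw [SSA_dup hyC (by simp)]
      exact Submodule.zero_mem _
    · rcases hy with hy | ⟨hyx, hyG⟩
      · exact absurd hy hyC
      · apply ih
        · rw [List.count_append, List.count_cons_self] at hl
          rw [List.count_append, List.count_cons_of_ne hyx]
          omega
        · intro z hz
          rw [List.mem_append, List.mem_cons] at hz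
          rcases hz with hz | rfl | hz
          · exact hG z (by simp [hz])
          · exact hyG
          · exact hG z (by simp [hz])

/-- SSA. Deletion. `v x = ∑ c y • v y`, `y ∈ C ∪ G.erase x` (`rkf_insert_eq`). Let `l` be a list over `G`. Induction on
the number of the `x` in `l`: replace one of them by the sum (`DV_sum`); the terms with `y ∈ C` vanish (`DV_dup`), the others
have fewer `x`. -/
theorem ss_del {A C G : Finset ℕ} {x : ℕ} (hx : x ∈ G) (hxC : x ∉ C)
    (h : rkf v (C ∪ G) = rkf v (C ∪ G.erase x)) : SS v A C G ≤ SS v A C (G.erase x) := by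
  have h1 : C ∪ G = insert x (C ∪ G.erase x) := by
    ext z
    simp only [Finset.mem_union, Finset.mem_insert, Finset.mem_erase]
    constructor
    · rintro (hz | hz)
      · exact Or.inr (Or.inl hz)
      · by_cases hzx : z = x
        · exact Or.inl hzx
        · exact Or.inr (Or.inr ⟨hzx, hz⟩)
    · rintro (rfl | hz | ⟨_, hz⟩)
      · exact Or.inr hx
      · exact Or.inl hz
      · exact Or.inr hz
  rw [h1, rkf_insert_eq, Submodule.mem_span_image_finset_iff_exists_fun] at h
  obtain ⟨c, hc⟩ := h
  have hc' : ∑ y ∈ C ∪ G.erase x, (if hy : y ∈ C ∪ G.erase x then c ⟨y, hy⟩ else 0) • v y = v x := by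
    rw [← hc, ← Finset.sum_coe_sort (C ∪ G.erase x)
      (fun y => (if hy : y ∈ C ∪ G.erase x then c ⟨y, hy⟩ else 0) • v y)]
    apply Finset.sum_congr rfl
    intro i _
    rw [dif_pos i.2]
  rw [SS, Submodule.span_le]
  rintro g ⟨l, hl, rfl⟩
  exact SSA_del_aux (C ∪ G.erase x) rfl _ hc' _ l rfl hl

theorem SSA_cr (φ : (Fin p → K) →ₗ[K] K) (x : Fin p → K) (a b : List (Fin p → K))
    (ha : ∀ y ∈ a, φ y = 0) :
    φ x * DV (a ++ b) = ∑ i ∈ Finset.range b.length, φ (b.getD i 0) * DV (a ++ b.set i x) := by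
  have h1 := DV_cramer φ x (a ++ b)
  have h2 : (∑ i : Fin (a ++ b).length, φ ((a ++ b).get i) * DV ((a ++ b).set i x)) =
      ∑ i ∈ Finset.range (a ++ b).length, φ ((a ++ b).getD i 0) * DV ((a ++ b).set i x) := by
    rw [← Fin.sum_univ_eq_sum_range
      (fun i => φ ((a ++ b).getD i 0) * DV ((a ++ b).set i x)) (a ++ b).length]
    apply Finset.sum_congr rfl
    intro i _
    congr 2
    rw [List.getD_eq_getElem _ _ i.2]
    rfl
  rw [h1, h2, List.length_append, Finset.sum_range_add]
  have h3 : (∑ i ∈ Finset.range a.length, φ ((a ++ b).getD i 0) * DV ((a ++ b).set i x)) = 0 := by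
    apply Finset.sum_eq_zero
    intro i hi
    rw [Finset.mem_range] at hi
    rw [List.getD_append _ _ _ _ hi, List.getD_eq_getElem _ _ hi, ha _ (List.getElem_mem hi), zero_mul]
  rw [h3, zero_add]
  apply Finset.sum_congr rfl
  intro i _
  rw [List.getD_append_right _ _ _ _ (by omega), List.set_append_right _ _ (by omega)]
  rw [Nat.add_sub_cancel_left]

theorem SSA_con_aux {A C G : Finset ℕ} {x : ℕ} (hx : x ∈ G) (hxC : x ∉ C)
    (φ : (Fin p → K) →ₗ[K] K) (h0 : ∀ y ∈ A ∪ C, φ (v y) = 0) (h1 : φ (v x) = 1) (l : List ℕ)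
    (hl : ∀ y ∈ l, y ∈ G) : SSA_g v A C l ∈ SS v A (insert x C) (G.erase x) := by
  have h2 : SSA_g v A C l =
      ∑ i ∈ Finset.range l.length, φ ((l.map v).getD i 0) • SSA_g v A C (l.set i x) := by
    funext I
    rw [Finset.sum_apply]
    simp only [SSA_g, Pi.smul_apply, smul_eq_mul]
    by_cases hI : I ⊆ A
    · simp only [if_pos hI]
      have h3 := SSA_cr φ (v x) ((I.sort ++ C.sort).map v) (l.map v) (by
        intro y hy
        rw [List.mem_map] at hy
        obtain ⟨z, hz, rfl⟩ := hy
        apply h0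
        rw [List.mem_append, Finset.mem_sort, Finset.mem_sort] at hz
        rw [Finset.mem_union]
        rcases hz with hz | hz
        · exact Or.inl (hI hz)
        · exact Or.inr hz)
      rw [h1, one_mul, List.length_map] at h3
      simp only [Dt]
      rw [List.map_append, h3]
      apply Finset.sum_congr rfl
      intro i _
      have e : (I.sort ++ C.sort ++ l.set i x).map v = (I.sort ++ C.sort).map v ++ (l.map v).set i (v x) := by
        rw [List.map_append, List.map_set]
      rw [e]
    · simp only [if_neg hI, mul_zero, Finset.sum_const_zero]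
  rw [h2]
  apply Submodule.sum_mem
  intro i hi
  rw [Finset.mem_range] at hi
  apply Submodule.smul_mem
  have hp : (C.sort ++ l.set i x).Perm ((insert x C).sort ++ l.eraseIdx i) := by
    have e1 : (l.set i x).Perm (x :: l.eraseIdx i) := List.set_perm_cons_eraseIdx hi x
    have e2 : ((insert x C).sort).Perm (x :: C.sort) := by
      rw [List.perm_ext_iff_of_nodup (Finset.sort_nodup _ _)
        (List.nodup_cons.2 ⟨by rw [Finset.mem_sort]; exact hxC, Finset.sort_nodup _ _⟩)]
      intro z
      simp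
    refine (List.Perm.append_left _ e1).trans ?_
    refine List.perm_middle.trans ?_
    exact (List.Perm.append_right _ e2).symm
  obtain ⟨η, _, hη⟩ := DV_perm (K := K) (p := p) hp
  have h4 : SSA_g v A C (l.set i x) = (η : K) • SSA_g v A (insert x C) (l.eraseIdx i) := by
    funext I
    simp only [SSA_g, Pi.smul_apply, smul_eq_mul]
    by_cases hI : I ⊆ A
    · simp only [if_pos hI]
      have h5 := hη v (I.sort.map v) []
      simp only [Dt]
      simp only [List.map_append, List.append_assoc, List.append_nil] at h5 ⊢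
      exact h5
    · simp only [if_neg hI, mul_zero]
  rw [h4]
  apply Submodule.smul_mem
  by_cases hxl : x ∈ l.eraseIdx i
  · rw [SSA_dup (Finset.mem_insert_self x C) hxl]
    exact Submodule.zero_mem _
  · apply SSA_mem
    intro y hy
    rw [Finset.mem_erase]
    refine ⟨?_, hl y (List.mem_of_mem_eraseIdx hy)⟩
    rintro rfl
    exact hxl hy

/-- SSA. Contraction. There is a linear functional `φ` with `φ (v y) = 0` for `y ∈ A ∪ C` and `φ (v x) = 1`
(`rkf_insert_eq`; `Submodule.exists_le_ker_of_notMem` or similar). For a list `l` over `G` and `I ⊆ A`, `DV_cramer` gives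
`det (I, C, l) = ∑ i, φ (l_i) det (I, C, l.set i x)` (the other terms vanish), and every `det (I, C, l.set i x)` is, up to a sign
which does not depend on `I` (`DV_perm`, `DV_move`), `det (I, (insert x C).sort, l.eraseIdx i)`; if `x` is in
`l.eraseIdx i` it is `0` (`DV_dup`). -/
theorem ss_con {A C G : Finset ℕ} {x : ℕ} (hx : x ∈ G) (hxC : x ∉ C)
    (h : rkf v (A ∪ C) < rkf v (insert x (A ∪ C))) : SS v A C G ≤ SS v A (insert x C) (G.erase x) := by
  have h1 : v x ∉ Submodule.span K (v '' ((A ∪ C : Finset ℕ) : Set ℕ)) := by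
    intro h2
    rw [← rkf_insert_eq] at h2
    omega
  obtain ⟨f, hf1, hf2⟩ := Submodule.exists_le_ker_of_notMem h1
  rw [SS, Submodule.span_le]
  rintro g ⟨l, hl, rfl⟩
  refine SSA_con_aux hx hxC ((f (v x))⁻¹ • f) ?_ ?_ l hl
  · intro y hy
    have h3 : v y ∈ LinearMap.ker f := hf2 (Submodule.subset_span ⟨y, hy, rfl⟩)
    rw [LinearMap.mem_ker] at h3
    rw [LinearMap.smul_apply, h3, smul_zero]
  · rw [LinearMap.smul_apply, smul_eq_mul]
    exact inv_mul_cancel₀ hf1

end Pool.Agent.BWN
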