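import Pool.Agent.Lib_MP_001f0c_ag.SSC
import Pool.Agent.Lib_MP_001f0c_ag.SGN

/-!
# Piece SSB: minors of spanning families
-/

set_option autoImplicit false

open Finset

namespace Pool.Agent.BWN

universe u

variable {K : Type u} [Field K] {p : ℕ} {v : ℕ → Fin p → K}

theorem ssb_sg_sq (A B : Finset ℕ) : sg A B * sg A B = 1 := by
  unfold sg
  rw [← Finset.prod_mul_distrib]
  refine Finset.prod_eq_one fun a _ => ?_
  rw [← Finset.prod_mul_distrib]
  refine Finset.prod_eq_one fun b _ => ?_
  split_ifs <;> norm_num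

/-- SSB. The linear map `ρ h = (I ↦ sg I C * h (I ∪ C)` for `I ⊆ A`, otherwise `0)`. -/
def ssbRho (K : Type u) [Field K] (A C : Finset ℕ) : (Finset ℕ → K) →ₗ[K] (Finset ℕ → K) where
  toFun h := fun I => if I ⊆ A then ((sg I C : ℤ) : K) * h (I ∪ C) else 0
  map_add' h h' := by
    funext I
    by_cases hI : I ⊆ A
    · simp only [if_pos hI, Pi.add_apply, mul_add]
    · simp only [if_neg hI, Pi.add_apply, add_zero]
  map_smul' c h := by
    funext I
    by_cases hI : I ⊆ A
    · simp only [if_pos hI, Pi.smul_apply, smul_eq_mul, RingHom.id_apply]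
      ring
    · simp only [if_neg hI, Pi.smul_apply, smul_eq_mul, mul_zero]

/-- SSB. The linear map `ρ h = (I ↦ sg I C * h (I ∪ C)` for `I ⊆ A`, otherwise `0)` maps the function of a list `l` over
`U \ B` on the subsets of `B` to `I ↦ det (I, C, l)` (`Dt_union`), so it maps `SS v B ∅ (U \ B)` onto `SS v A C (U \ B)`, which
is `SS v A ∅ (U \ A)` by `ss_steps`. -/
theorem spn_rho {U A B C : Finset ℕ} (hAB : A ⊆ B) (hC : C ⊆ B \ A)
    (h : Relation.ReflTransGen (Stp (rkf v) A) (∅, U \ A) (C, U \ B)) {D : ℕ}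
    {g : Finset ℕ → Fin D → K} (hg : Spn v U B g) :
    Spn v U A fun I s => ((sg I C : ℤ) : K) * g (I ∪ C) s := by
  have hCB : C ⊆ B := hC.trans Finset.sdiff_subset
  have hmap := congrArg (Submodule.map (ssbRho K A C)) hg
  rw [Submodule.map_span, ← Set.range_comp] at hmap
  unfold Spn
  have h1 : (fun s : Fin D => fun I : Finset ℕ =>
      if I ⊆ A then ((sg I C : ℤ) : K) * g (I ∪ C) s else 0) =
      (⇑(ssbRho K A C) ∘ fun s : Fin D => fun I : Finset ℕ => if I ⊆ B then g I s else 0) := by
    funext s I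
    show _ = if I ⊆ A then ((sg I C : ℤ) : K) * (if I ∪ C ⊆ B then g (I ∪ C) s else 0) else 0
    by_cases hI : I ⊆ A
    · rw [if_pos hI, if_pos hI, if_pos (Finset.union_subset (hI.trans hAB) hCB)]
    · rw [if_neg hI, if_neg hI]
  rw [h1, hmap, ss_steps h]
  unfold SS
  rw [Submodule.map_span]
  congr 1
  ext k
  have key : ∀ l : List ℕ, ssbRho K A C (fun I => if I ⊆ B then Dt v (I.sort ++ (∅ : Finset ℕ).sort ++ l)
      else 0) = fun I => if I ⊆ A then Dt v (I.sort ++ C.sort ++ l) else 0 := by
    intro l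
    funext I
    show (if I ⊆ A then ((sg I C : ℤ) : K) * (if I ∪ C ⊆ B then
      Dt v ((I ∪ C).sort ++ (∅ : Finset ℕ).sort ++ l) else 0) else 0) = _
    by_cases hI : I ⊆ A
    · rw [if_pos hI, if_pos hI, if_pos (Finset.union_subset (hI.trans hAB) hCB), Finset.sort_empty,
        List.append_nil]
      have hd : Disjoint I C := by
        rw [Finset.disjoint_left]
        intro x hx hx'
        exact (Finset.mem_sdiff.1 (hC hx')).2 (hI hx)
      have h2 := Dt_union v [] (l.map v) hd
      unfold Dt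
      rw [List.map_append, List.map_append, List.map_append]
      rw [List.nil_append, List.nil_append] at h2
      rw [h2, ← mul_assoc]
      have h3 : ((sg I C : ℤ) : K) * ((sg I C : ℤ) : K) = 1 := by
        rw [← Int.cast_mul, ssb_sg_sq, Int.cast_one]
      rw [h3, one_mul]
    · rw [if_neg hI, if_neg hI]
  constructor
  · rintro ⟨_, ⟨l, hl, rfl⟩, rfl⟩
    exact ⟨l, hl, key l⟩
  · rintro ⟨l, hl, rfl⟩
    exact ⟨_, ⟨l, hl, rfl⟩, key l⟩

/-- SSB. The whole ground set. -/
theorem spn_root (v : ℕ → Fin p → K) (U : Finset ℕ) {D : ℕ} (hD : 0 < D) :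
    Spn v U U (D := D) fun I s => if s = ⟨0, hD⟩ then Dt v I.sort else 0 := by
  unfold Spn SS
  apply le_antisymm
  · rw [Submodule.span_le]
    rintro _ ⟨s, rfl⟩
    by_cases hs : s = ⟨0, hD⟩
    · refine Submodule.subset_span ⟨[], by simp, ?_⟩
      funext I
      simp only [hs, if_true, Finset.sort_empty, List.append_nil]
    · have h1 : (fun I : Finset ℕ => if I ⊆ U then (if s = ⟨0, hD⟩ then Dt v I.sort else 0) else 0) =
          (0 : Finset ℕ → K) := by
        funext I
        simp only [if_neg hs, ite_self, Pi.zero_apply]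
      show (fun I : Finset ℕ => if I ⊆ U then (if s = ⟨0, hD⟩ then Dt v I.sort else 0) else 0) ∈ _
      rw [h1]
      exact Submodule.zero_mem _
  · rw [Submodule.span_le]
    rintro _ ⟨l, hl, rfl⟩
    have hl' : l = [] := by
      rcases l with _ | ⟨x, l⟩
      · rfl
      · have := hl x (by simp)
        simp at this
    subst hl'
    refine Submodule.subset_span ⟨⟨0, hD⟩, ?_⟩
    funext I
    simp only [if_true, Finset.sort_empty, List.append_nil]

end Pool.Agent.BWN
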