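import Pool.Agent.Lib_MP_001f0c_ag.SSA
import Pool.Agent.Lib_MP_001f0c_ag.LNB

/-!
# Piece SSC: the state space: reduction and spanning families
-/

set_option autoImplicit false

open Finset

namespace Pool.Agent.BWN

universe u

variable {K : Type u} [Field K] {p : ℕ} {v : ℕ → Fin p → K}

/-- SSC. `ss_del`, `ss_con`; and `SS v A C G ≤ SS v A ∅ (U \ A)` as `C.sort ++ l` is a list over `U \ A`. -/
theorem ss_steps {U A C G : Finset ℕ}
    (h : Relation.ReflTransGen (Stp (rkf v) A) (∅, U \ A) (C, G)) : SS v A ∅ (U \ A) = SS v A C G := by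
  obtain ⟨hC, hG, -, -, -⟩ := stp_inv (rk_rkf v) h
  apply le_antisymm
  · have key : ∀ q : Finset ℕ × Finset ℕ, Relation.ReflTransGen (Stp (rkf v) A) (∅, U \ A) q →
        SS v A ∅ (U \ A) ≤ SS v A q.1 q.2 := by
      intro q hq
      induction hq with
      | refl => exact le_rfl
      | tail _ hs ih =>
        refine ih.trans ?_
        cases hs with
        | del C G x h1 h2 h3 => exact ss_del h1 h2 h3
        | con C G x h1 h2 h3 => exact ss_con h1 h2 h3
    exact key (C, G) h
  · unfold SS
    refine Submodule.span_mono ?_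
    rintro _ ⟨l, hl, rfl⟩
    refine ⟨C.sort ++ l, ?_, ?_⟩
    · intro x hx
      rcases List.mem_append.1 hx with h1 | h1
      · exact hC ((Finset.mem_sort _).1 h1)
      · exact hG (hl x h1)
    · funext I
      by_cases hI : I ⊆ A
      · rw [if_pos hI, if_pos hI, Finset.sort_empty, List.append_nil, List.append_assoc]
      · rw [if_neg hI, if_neg hI]

/-- SSC. `SS v A C G` is spanned by the functions for `l = J.sort`, `J ⊆ G` (`DV_perm`, `DV_dup`). -/
theorem ss_sorted (A C G : Finset ℕ) : SS v A C G = Submodule.span K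
    (Set.range fun J : {J // J ⊆ G} => fun I : Finset ℕ =>
      if I ⊆ A then Dt v (I.sort ++ C.sort ++ J.1.sort) else 0) := by
  classical
  apply le_antisymm
  · unfold SS
    rw [Submodule.span_le]
    rintro _ ⟨l, hl, rfl⟩
    by_cases hn : l.Nodup
    · have hJ : l.toFinset ⊆ G := fun x hx => hl x (List.mem_toFinset.1 hx)
      have hp : l.Perm l.toFinset.sort := by
        rw [List.perm_ext_iff_of_nodup hn (Finset.sort_nodup _ _)]
        intro x
        rw [Finset.mem_sort, List.mem_toFinset]
      obtain ⟨η, -, hη⟩ := DV_perm (K := K) (p := p) hp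
      have h1 : (fun I : Finset ℕ => if I ⊆ A then Dt v (I.sort ++ C.sort ++ l) else 0) =
          (η : K) • fun I : Finset ℕ =>
            if I ⊆ A then Dt v (I.sort ++ C.sort ++ l.toFinset.sort) else 0 := by
        funext I
        rw [Pi.smul_apply, smul_eq_mul]
        by_cases hI : I ⊆ A
        · rw [if_pos hI, if_pos hI]
          have h2 := hη v ((I.sort ++ C.sort).map v) []
          rw [List.append_nil, List.append_nil, ← List.map_append, ← List.map_append] at h2
          exact h2
        · rw [if_neg hI, if_neg hI, mul_zero]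
      rw [SetLike.mem_coe, h1]
      exact Submodule.smul_mem _ _ (Submodule.subset_span ⟨⟨l.toFinset, hJ⟩, rfl⟩)
    · have h1 : (fun I : Finset ℕ => if I ⊆ A then Dt v (I.sort ++ C.sort ++ l) else 0) = 0 := by
        funext I
        by_cases hI : I ⊆ A
        · rw [if_pos hI]
          unfold Dt
          refine DV_dup fun h2 => hn ?_
          rw [List.map_append] at h2
          exact List.Nodup.of_map v (List.nodup_append.1 h2).2.1
        · rw [if_neg hI]
          rfl
      rw [SetLike.mem_coe, h1]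
      exact Submodule.zero_mem _
  · rw [Submodule.span_le]
    rintro _ ⟨⟨J, hJ⟩, rfl⟩
    exact Submodule.subset_span ⟨J.sort, fun x hx => hJ ((Finset.mem_sort _).1 hx), rfl⟩

/-- SSC. A spanning family with `2 ^ w` elements: `stp_bound`, `ss_steps`, `ss_sorted`. (`G` has at most `w` elements, so there is
a surjection from `Fin (2 ^ w)` onto `{J // J ⊆ G}`.) -/
theorem ss_fam {U A : Finset ℕ} {w : ℕ} (hA : A ⊆ U) (hw : lam (rkf v) U A ≤ w) :
    ∃ g : Finset ℕ → Fin (2 ^ w) → K, Spn v U A g := by
  classical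
  obtain ⟨C, G, hst, hc⟩ := stp_bound (rk_rkf v) hA
  have hc' : G.card ≤ w := by exact_mod_cast hc.trans hw
  have h1 : Fintype.card {J // J ∈ G.powerset} ≤ Fintype.card (Fin (2 ^ w)) := by
    rw [Fintype.card_coe, Finset.card_powerset, Fintype.card_fin]
    exact Nat.pow_le_pow_right (by norm_num) hc'
  obtain ⟨f⟩ := Function.Embedding.nonempty_of_card_le h1
  have hne : Nonempty {J // J ∈ G.powerset} := ⟨⟨∅, Finset.empty_mem_powerset _⟩⟩
  let φ : Fin (2 ^ w) → {J // J ∈ G.powerset} := Function.invFun f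
  have hφ : Function.Surjective φ := Function.invFun_surjective f.injective
  refine ⟨fun I s => Dt v (I.sort ++ C.sort ++ (φ s).1.sort), ?_⟩
  unfold Spn
  rw [ss_steps hst, ss_sorted]
  congr 1
  ext h
  constructor
  · rintro ⟨s, rfl⟩
    exact ⟨⟨(φ s).1, Finset.mem_powerset.1 (φ s).2⟩, rfl⟩
  · rintro ⟨⟨J, hJ⟩, rfl⟩
    obtain ⟨s, hs⟩ := hφ ⟨J, Finset.mem_powerset.2 hJ⟩
    refine ⟨s, ?_⟩
    show (fun I : Finset ℕ => if I ⊆ A then Dt v (I.sort ++ C.sort ++ (φ s).1.sort) else 0) = _
    rw [hs]

end Pool.Agent.BWN
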