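import Pool.Agent.Lib_MP_001f0c_ag.Str

/-!
# Piece STA: tools for the structure theorem
-/

set_option autoImplicit false

open Finset

namespace Pool.Agent.BWN

universe u

variable {K : Type u} [Field K] {p : ℕ} {v : ℕ → Fin p → K} {U : Finset ℕ} {w : ℕ}

/-- STA -/
theorem nl_ls {F : Type} (t : BT F) : t.nl = t.ls.length := by
  induction t with
  | leaf x => rfl
  | node l r ihl ihr =>
    show l.nl + r.nl = (l.ls ++ r.ls).length
    rw [List.length_append, ihl, ihr]

theorem sta_mem_su {t : BT ℕ} {x : ℕ} : x ∈ t.su ↔ x ∈ t.ls := by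
  induction t with
  | leaf y =>
    show x ∈ ({y} : Finset ℕ) ↔ x ∈ [y]
    rw [Finset.mem_singleton, List.mem_singleton]
  | node l r ihl ihr =>
    show x ∈ l.su ∪ r.su ↔ x ∈ l.ls ++ r.ls
    rw [Finset.mem_union, List.mem_append, ihl, ihr]

/-- STA -/
theorem su_Ico {t : BT ℕ} {a : ℕ} (h : t.ls = List.range' a t.nl) : t.su = Finset.Ico a (a + t.nl) := by
  ext x
  rw [sta_mem_su, h, Finset.mem_Ico, List.mem_range'_1]

/-- STA -/
theorem ls_split {l r : BT ℕ} {a : ℕ} (h : (BT.node l r).ls = List.range' a (BT.node l r).nl) :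
    l.ls = List.range' a l.nl ∧ r.ls = List.range' (a + l.nl) r.nl := by
  have h1 : l.ls ++ r.ls = List.range' a l.nl ++ List.range' (a + l.nl) r.nl := by
    have h2 := List.range'_append_1 (s := a) (m := l.nl) (n := r.nl)
    rw [h2]
    exact h
  refine List.append_inj h1 ?_
  rw [List.length_range', nl_ls]

/-- STA. `lev2` knows `lam` and the parity of the rank -/
theorem lev2_eq {X Y : Finset ℕ} (hX : X ⊆ U) (hY : Y ⊆ U)
    (h : lev2 (rkf v) U X = lev2 (rkf v) U Y) : lam (rkf v) U X = lam (rkf v) U Y := by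
  have h1 := lam_nonneg (rk_rkf v) hX
  have h2 := lam_nonneg (rk_rkf v) hY
  unfold lev2 at h
  omega

/-- STA. Higher level means at least the same width. -/
theorem lev2_lt {X Y : Finset ℕ} (hX : X ⊆ U) (hY : Y ⊆ U)
    (h : lev2 (rkf v) U X < lev2 (rkf v) U Y) : lam (rkf v) U X ≤ lam (rkf v) U Y := by
  have h1 := lam_nonneg (rk_rkf v) hX
  have h2 := lam_nonneg (rk_rkf v) hY
  unfold lev2 at h
  omega

/-- STA. The first vertex of level `ℓ` on the way from the root to `s`. Induction on `Lk`. -/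
theorem top_lk {Γ : Type} {M : Type*} {lv : Γ → ℕ} {ℓ : ℕ} {s t : Tr Γ M} {b a : ℕ} (h : Lk lv ℓ s b t a)
    (hs : lv s.col = ℓ) : ∃ u d, Lk lv ℓ s b u d ∧ Lk lv (ℓ + 1) u d t a ∧ lv u.col = ℓ := by
  induction h with
  | here => exact ⟨_, _, Lk.here _ _, Lk.here _ _, hs⟩
  | left c m l r a h hc ih =>
    by_cases hl : lv c = ℓ
    · exact ⟨_, _, Lk.left _ _ c m l r _ h hc, Lk.here _ _, hl⟩
    · obtain ⟨u, d, h1, h2, h3⟩ := ih
      exact ⟨u, d, h1, Lk.left _ _ _ _ _ _ _ h2 (by omega), h3⟩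
  | right c m l r a h hc ih =>
    by_cases hl : lv c = ℓ
    · exact ⟨_, _, Lk.right _ _ c m l r _ h hc, Lk.here _ _, hl⟩
    · obtain ⟨u, d, h1, h2, h3⟩ := ih
      exact ⟨u, d, h1, Lk.right _ _ _ _ _ _ _ h2 (by omega), h3⟩

/-- STA. The spanning property depends only on the values on the subsets of `A`. -/
theorem spn_congr {A : Finset ℕ} {D : ℕ} {g g' : Finset ℕ → Fin D → K} (h : Spn v U A g)
    (h' : ∀ I ⊆ A, ∀ s, g' I s = g I s) : Spn v U A g' := by
  have h1 : (fun s : Fin D => fun I : Finset ℕ => if I ⊆ A then g' I s else 0) =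
      fun s : Fin D => fun I : Finset ℕ => if I ⊆ A then g I s else 0 := by
    funext s I
    by_cases hI : I ⊆ A
    · rw [if_pos hI, if_pos hI, h' I hI s]
    · rw [if_neg hI, if_neg hI]
  unfold Spn
  rw [h1]
  exact h

end Pool.Agent.BWN
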