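import Pool.Agent.Lib_MP_001f0c_ag.STA

/-!
# Piece STD: the environment of the children
-/

set_option autoImplicit false

open Finset

namespace Pool.Agent.BWN

universe u

variable {K : Type u} [Field K] {p : ℕ} {v : ℕ → Fin p → K} {U : Finset ℕ} {w : ℕ}

theorem std_blk_su {lm : Finset ℕ → ℤ} {j : ℤ} {s t : BT ℕ} (h : BLk lm j s t) : s.su ⊆ t.su := by
  induction h with
  | here => exact subset_rfl
  | left l r _ _ ih => exact ih.trans subset_union_left
  | right l r _ _ ih => exact ih.trans subset_union_right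

theorem std_conv {A : Finset ℕ} (hA : A ⊆ U) {s c : BT ℕ}
    (h : BLk (fun X => (lev2 (rkf v) U X : ℤ)) ((lev2 (rkf v) U A : ℤ) + 1) s c) (hc : c.su ⊆ U) :
    BLk (lam (rkf v) U) (lam (rkf v) U A) s c := by
  induction h with
  | here => exact BLk.here s
  | left l r _ h2 ih =>
    refine BLk.left s l r (ih (subset_union_left.trans hc)) (lev2_lt hA hc ?_)
    have h3 : ((lev2 (rkf v) U A : ℤ) + 1) ≤ (lev2 (rkf v) U (l.su ∪ r.su) : ℤ) := h2
    show lev2 (rkf v) U A < lev2 (rkf v) U (l.su ∪ r.su)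
    omega
  | right l r _ h2 ih =>
    refine BLk.right s l r (ih (subset_union_right.trans hc)) (lev2_lt hA hc ?_)
    have h3 : ((lev2 (rkf v) U A : ℤ) + 1) ≤ (lev2 (rkf v) U (l.su ∪ r.su) : ℤ) := h2
    show lev2 (rkf v) U A < lev2 (rkf v) U (l.su ∪ r.su)
    omega

theorem std_aux {env : Env K w} {c t : BT ℕ} {a ac : ℕ} (h1 : a ≤ ac) (h2 : ac + c.nl ≤ a + t.nl)
    (hsu : t.su = Finset.Ico a (a + t.nl)) (hU : t.su ⊆ U) (hcU : c.su ⊆ U)
    (hB : ∀ (lm : Finset ℕ → ℤ) (j : ℤ) (s : BT ℕ), BLk lm j s c → j ≤ lm t.su → BLk lm j s t)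
    (hL : ∀ s, BLk (lam (rkf v) U) (lam (rkf v) U t.su) s t → lam (rkf v) U s.su = lam (rkf v) U t.su →
      ∀ X, s.su ⊆ X → X ⊆ t.su → lam (rkf v) U t.su ≤ lam (rkf v) U X)
    (henv : EnvOK v U env t a) {g : Finset ℕ → Fin (2 ^ w) → K} (hg : Spn v U t.su g) :
    EnvOK v U (fun ℓ => if ℓ < lev2 (rkf v) U t.su then env ℓ else
      if ℓ = lev2 (rkf v) U t.su then some (a, t.nl, g) else none) c ac := by
  intro ℓ b n g' hg'
  simp only at hg'
  split_ifs at hg' with h3 h4
  · obtain ⟨⟨e1, e2, e3⟩, e4, e5, e6⟩ := henv ℓ b n g' hg'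
    refine ⟨⟨by omega, by omega, e3⟩, e4, e5, fun s hs hs' => e6 s (hB _ _ s hs ?_) hs'⟩
    show ((ℓ : ℤ) + 1) ≤ (lev2 (rkf v) U t.su : ℤ)
    omega
  · simp only [Option.some.injEq, Prod.mk.injEq] at hg'
    obtain ⟨rfl, rfl, rfl⟩ := hg'
    rw [← hsu]
    refine ⟨⟨h1, h2, hU⟩, h4.symm, hg, fun s hs hs' => ?_⟩
    subst h4
    exact hL s (hB _ _ s (std_conv hU hs hcU) le_rfl)
      (lev2_eq ((std_blk_su hs).trans hcU) hU hs')

/-- STD. The environment of the children of a node `t` with the family `g`. The linkedness of the new entry: `LinkedT`,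
`lev2_lt`, `lev2_eq` (all sets of subtrees are subsets of `U`). The entries of level `< ℓ`: `BLk.left`, `BLk.right`. -/
theorem env_child {env : Env K w} {l r : BT ℕ} {a : ℕ}
    (hls : (BT.node l r).ls = List.range' a (BT.node l r).nl) (hU : (BT.node l r).su ⊆ U)
    (hL : LinkedT (lam (rkf v) U) (.node l r)) (henv : EnvOK v U env (.node l r) a)
    {g : Finset ℕ → Fin (2 ^ w) → K} (hg : Spn v U (BT.node l r).su g) :
    EnvOK v U (fun ℓ => if ℓ < lev2 (rkf v) U (BT.node l r).su then env ℓ else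
      if ℓ = lev2 (rkf v) U (BT.node l r).su then some (a, (BT.node l r).nl, g) else none) l a ∧
    EnvOK v U (fun ℓ => if ℓ < lev2 (rkf v) U (BT.node l r).su then env ℓ else
      if ℓ = lev2 (rkf v) U (BT.node l r).su then some (a, (BT.node l r).nl, g) else none) r (a + l.nl) := by
  have hsu := su_Ico hls
  have hnl : (BT.node l r).nl = l.nl + r.nl := rfl
  refine ⟨std_aux le_rfl (by omega) hsu hU (subset_union_left.trans hU)
    (fun lm j s h h' => BLk.left s l r h h') hL.1 henv hg,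
    std_aux (by omega) (by omega) hsu hU (subset_union_right.trans hU)
    (fun lm j s h h' => BLk.right s l r h h') hL.1 henv hg⟩

end Pool.Agent.BWN
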