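import Pool.Agent.Lib_MP_001f0c_ag.STC
import Pool.Agent.Lib_MP_001f0c_ag.STD
import Pool.Agent.Lib_MP_001f0c_ag.GLU

/-!
# Piece STN: inner nodes
-/

set_option autoImplicit false

open Finset

namespace Pool.Agent.BWN

universe u

variable {K : Type u} [Field K] {p : ℕ} {v : ℕ → Fin p → K} {U : Finset ℕ} {w : ℕ}

/-- inversion for `Lk` at a node -/
theorem stn_inv {Γ : Type} {M : Type u} {lv : Γ → ℕ} {j : ℕ} {c : Γ} {m : M} {l r s : Tr Γ M} {a b : ℕ}
    (h : Lk lv j s b (.node c m l r) a) : (s = .node c m l r ∧ b = a) ∨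
      (Lk lv j s b l a ∧ j ≤ lv c) ∨ (Lk lv j s b r (a + l.nl) ∧ j ≤ lv c) := by
  cases h with
  | here => exact Or.inl ⟨rfl, rfl⟩
  | left => rename_i h2 h1; exact Or.inr (Or.inl ⟨h1, h2⟩)
  | right => rename_i h2 h1; exact Or.inr (Or.inr ⟨h1, h2⟩)

/-- the top node: minors of the node -/
theorem stn_good {w : ℕ} {M : Ix (2 ^ w) → K} {c : Gm w} {Tl Tr' : Tr (Gm w) (Ix (2 ^ w) → K)} {a : ℕ}
    {g : Finset ℕ → Fin (2 ^ w) → K} {ρ : ℤ}
    (hev : ∀ I ⊆ Finset.Ico a (a + (Tl.nl + Tr'.nl)), ∀ s,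
      ev (2 ^ w) (Tr.node c M Tl Tr') a I s = g I s)
    {u : Tr (Gm w) (Ix (2 ^ w) → K)} {d : ℕ}
    {s : Tr (Gm w) (Ix (2 ^ w) → K)} {b : ℕ}
    (hsu : Mi (ev (2 ^ w) s b) b s.nl (ev (2 ^ w) u d) d u.nl (rk ccG u - rk ccG s))
    (hug : Mi (ev (2 ^ w) u d) d u.nl g a (Tl.nl + Tr'.nl) (ρ - rk ccG u)) :
    Mi (ev (2 ^ w) s b) b s.nl (ev (2 ^ w) (Tr.node c M Tl Tr') a) a (Tl.nl + Tr'.nl)
      (ρ - rk ccG s) := by
  have h1 := mi_trans hsu hug
  have h2 : rk ccG u - rk ccG s + (ρ - rk ccG u) = ρ - rk ccG s := by ring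
  rw [h2] at h1
  exact mi_congr h1 (fun I _ s => rfl) hev

/-- STN. Inner nodes. Let `g` be as in `fam_step`, `T_l`, `T_r` the trees for the children in the environment of `env_child`, `m`
as in `glue` for `g`, `ev T_l a`, `ev T_r (a + n_l)`; `T = node c M T_l T_r` with `M (inl (x, y, s)) = m x y s`,
`c = (lev2 …, r L + r R - r (L ∪ R))` (`lam_union`, `Rk.sub`). Then `ev T a I s = g I s` for `I ⊆ [a, a + n)` by
`ev_local`. `Good`: let `s` be a linked subtree. `s = T`: `mi_refl`. `s` in `T_l`: `top_lk` gives `u`; `s` is a minor of `u` by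
`good_lk`, `good_mi`, and `u` is a minor of `g` by the last property of `T_l` for the entry of level `ℓ` of the
environment; `mi_trans`, `mi_congr`. The last property: `s = T`: `fam_step`; `s` in `T_l`: then the level of `T` is `> ℓ` and the
entry of the environment is the same. -/
theorem build_node (l r : BT ℕ) (a : ℕ) (env : Env K w)
    (hls : (BT.node l r).ls = List.range' a (BT.node l r).nl) (hU : (BT.node l r).su ⊆ U)
    (hw : (BT.node l r).All fun g => lam (rkf v) U g ≤ w) (hL : LinkedT (lam (rkf v) U) (.node l r))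
    (henv : EnvOK v U env (.node l r) a)
    (ihl : ∀ env' : Env K w, EnvOK v U env' l a → ∃ T, Built v U env' l a T)
    (ihr : ∀ env' : Env K w, EnvOK v U env' r (a + l.nl) → ∃ T, Built v U env' r (a + l.nl) T) :
    ∃ T, Built v U env (.node l r) a T := by
  classical
  obtain ⟨g, hg, hgm⟩ := fam_step hls hU hw.1 henv
  obtain ⟨hel, her⟩ := env_child hls hU hL henv hg
  obtain ⟨Tl, hl1, hl2, hl3, hl4, hl5, hl6, hl7⟩ := ihl _ hel
  obtain ⟨Tr', hr1, hr2, hr3, hr4, hr5, hr6, hr7⟩ := ihr _ her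
  obtain ⟨hlsl, hlsr⟩ := ls_split hls
  have hsl : l.su = Finset.Ico a (a + l.nl) := su_Ico hlsl
  have hsr : r.su = Finset.Ico (a + l.nl) (a + l.nl + r.nl) := su_Ico hlsr
  have hst : (BT.node l r).su = Finset.Ico a (a + (l.nl + r.nl)) := su_Ico hls
  have hst' : (BT.node l r).su = Finset.Ico a (a + l.nl + r.nl) := by rw [hst, add_assoc]
  have hRk : Rk (rkf v) := rk_rkf v
  -- the levels and the correction
  set t : BT ℕ := BT.node l r with ht
  have hLU : l.su ⊆ U := subset_trans (by rw [ht]; exact subset_union_left) hU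
  have hRU : r.su ⊆ U := subset_trans (by rw [ht]; exact subset_union_right) hU
  have hdis : Disjoint l.su r.su := by
    rw [hsl, hsr, Finset.disjoint_left]
    intro x hx hx'
    rw [Finset.mem_Ico] at hx hx'
    omega
  have hsu : t.su = l.su ∪ r.su := rfl
  have hlamt : lam (rkf v) U t.su ≤ w := hw.1
  have hlaml : lam (rkf v) U l.su ≤ w := by
    have h := hw.2.1
    cases l with
    | leaf x => exact h
    | node l1 l2 => exact h.1
  have hcc1 : rkf v l.su + rkf v r.su - rkf v t.su ≤ w :=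
    (lam_union hRk hLU hRU hdis).trans hlaml
  have hcc0 : 0 ≤ rkf v l.su + rkf v r.su - rkf v t.su := by
    have h1 := hRk.sub l.su r.su
    rw [Finset.disjoint_iff_inter_eq_empty.1 hdis, hRk.zero] at h1
    rw [hsu]
    linarith
  have hρ0 : 0 ≤ rkf v t.su := (rkf_le v t.su).1
  have hlev : lev2 (rkf v) U t.su < 2 * w + 2 := by
    unfold lev2
    have h1 : (lam (rkf v) U t.su).toNat ≤ w := by omega
    omega
  have hcc : (rkf v l.su + rkf v r.su - rkf v t.su).toNat < w + 2 := by omega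
  let c : Gm w := (⟨lev2 (rkf v) U t.su, hlev⟩, ⟨_, hcc⟩)
  have hcl : lvG c = lev2 (rkf v) U t.su := rfl
  have hcg : ccG c = rkf v l.su + rkf v r.su - rkf v t.su := by
    show (((rkf v l.su + rkf v r.su - rkf v t.su).toNat : ℕ) : ℤ) = _
    omega
  -- the gluing
  obtain ⟨m, hm⟩ := glue (v := v) (U := U) (a := a) (b := a + l.nl) (c := a + l.nl + r.nl)
    (by omega) (by omega) (by rw [← hst']; exact hU) (g := g) (g₁ := ev (2 ^ w) Tl a)
    (g₂ := ev (2 ^ w) Tr' (a + l.nl)) (by rw [← hst']; exact hg) (by rw [← hsl]; exact hl5)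
    (by rw [← hsr]; exact hr5)
  let M : Ix (2 ^ w) → K := fun i => match i with
    | Sum.inl q => m q.1 q.2.1 q.2.2
    | Sum.inr _ => 0
  let T : Tr (Gm w) (Ix (2 ^ w) → K) := Tr.node c M Tl Tr'
  have hev : ∀ I ⊆ Finset.Ico a (a + (Tl.nl + Tr'.nl)), ∀ s, ev (2 ^ w) T a I s = g I s := by
    intro I hI s
    rw [hl1, hr1, ← add_assoc] at hI
    rw [hm I hI s]
    show ∑ x : Fin (2 ^ w), ∑ y : Fin (2 ^ w),
      M (Sum.inl (x, y, s)) * (ev (2 ^ w) Tl a I x * ev (2 ^ w) Tr' (a + Tl.nl) I y) = _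
    refine Finset.sum_congr rfl fun x _ => Finset.sum_congr rfl fun y _ => ?_
    have h1 : ev (2 ^ w) Tl a I x = ev (2 ^ w) Tl a (I ∩ Finset.Ico a (a + l.nl)) x := by
      refine ev_local Tl a _ _ ?_ x
      intro z hz
      rw [hl1] at hz
      rw [Finset.mem_inter]
      exact ⟨fun h => ⟨h, hz⟩, fun h => h.1⟩
    have h2 : ev (2 ^ w) Tr' (a + Tl.nl) I y =
        ev (2 ^ w) Tr' (a + l.nl) (I ∩ Finset.Ico (a + l.nl) (a + l.nl + r.nl)) y := by
      rw [hl1]
      refine ev_local Tr' _ _ _ ?_ y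
      intro z hz
      rw [hr1] at hz
      rw [Finset.mem_inter]
      exact ⟨fun h => ⟨h, hz⟩, fun h => h.1⟩
    rw [h1, h2]
  have hTn : T.nl = t.nl := by
    show Tl.nl + Tr'.nl = l.nl + r.nl
    rw [hl1, hr1]
  have hrkT : rk ccG T = rkf v t.su := by
    show rk ccG Tl + rk ccG Tr' - ccG c = _
    rw [hl3, hr3, hcg]
    ring
  refine ⟨T, hTn, rfl, hrkT, ⟨?_, hl4, hr4⟩, ?_, ⟨?_, hl6, ?_⟩, ?_⟩
  · show Even (rk ccG Tl + rk ccG Tr' - ccG c - lvG c)
    have h1 : rk ccG Tl + rk ccG Tr' - ccG c = rkf v t.su := hrkT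
    rw [h1, hcl]
    unfold lev2
    push_cast
    rw [Int.even_iff]
    omega
  · refine spn_congr hg fun I hI s => ?_
    refine hev I ?_ s
    rw [hl1, hr1, ← hst]
    exact hI
  · intro s b hs hsl'
    have hrT : rk ccG (Tr.node c M Tl Tr') = rkf v t.su := hrkT
    have hentry : (fun ℓ => if ℓ < lev2 (rkf v) U t.su then env ℓ else
      if ℓ = lev2 (rkf v) U t.su then some (a, t.nl, g) else none) (lvG c) = some (a, t.nl, g) := by
      simp only [hcl, lt_irrefl, if_false, if_true]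
    have hIco : Finset.Ico a (a + t.nl) = t.su := hst.symm
    rcases stn_inv hs with ⟨rfl, rfl⟩ | ⟨hs, hlc⟩ | ⟨hs, hlc⟩
    · have h1 := mi_refl (ev (2 ^ w) (Tr.node c M Tl Tr') b) b (Tl.nl + Tr'.nl)
      rw [sub_self]
      exact h1
    · obtain ⟨u, d, h1, h2, h3⟩ := top_lk hs hsl'
      have h4 := good_lk hl6 h2
      have h5 := good_mi h4 (by rw [h3]; exact h1) (by rw [h3]; exact hsl')
      have h6 := hl7 _ _ _ _ hentry u d h2 h3
      rw [hIco] at h6
      rw [hrT]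
      refine stn_good hev h5 ?_
      have h7 : t.nl = Tl.nl + Tr'.nl := hTn.symm
      rw [← h7]
      exact h6
    · rw [hl1] at hs
      obtain ⟨u, d, h1, h2, h3⟩ := top_lk hs hsl'
      have h4 := good_lk hr6 h2
      have h5 := good_mi h4 (by rw [h3]; exact h1) (by rw [h3]; exact hsl')
      have h6 := hr7 _ _ _ _ hentry u d h2 h3
      rw [hIco] at h6
      rw [hrT]
      refine stn_good hev h5 ?_
      have h7 : t.nl = Tl.nl + Tr'.nl := hTn.symm
      rw [← h7]
      exact h6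
  · rw [hl1]
    exact hr6
  · intro ℓ b n g' hb s c' hs hsl'
    have hentry : ℓ < lev2 (rkf v) U t.su → (fun ℓ => if ℓ < lev2 (rkf v) U t.su then env ℓ else
      if ℓ = lev2 (rkf v) U t.su then some (a, t.nl, g) else none) ℓ = some (b, n, g') := by
      intro h
      simp only [h, if_true]
      exact hb
    rcases stn_inv hs with ⟨rfl, rfl⟩ | ⟨hs, hlc⟩ | ⟨hs, hlc⟩
    · have hℓ : ℓ = lev2 (rkf v) U t.su := hsl'.symm
      rw [hℓ] at hb
      have h1 := hgm b n g' hb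
      rw [hrkT]
      refine mi_congr ?_ (fun I hI s => hev I hI s) (fun I _ s => rfl)
      rw [hTn]
      exact h1
    · exact hl7 ℓ b n g' (hentry (by rw [hcl] at hlc; omega)) s c' hs hsl'
    · rw [hl1] at hs
      exact hr7 ℓ b n g' (hentry (by rw [hcl] at hlc; omega)) s c' hs hsl'

end Pool.Agent.BWN
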