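import Pool.Agent.Lib_MP_001f0c_ag.STC
import Pool.Agent.Lib_MP_001f0c_ag.STN

/-!
# Piece STB: leaves; induction
-/

set_option autoImplicit false

open Finset

namespace Pool.Agent.BWN

universe u

variable {K : Type u} [Field K] {p : ℕ} {v : ℕ → Fin p → K} {U : Finset ℕ} {w : ℕ}

/-- STB. Leaves: `T = leaf c m` with `m (inr (b, s)) = g (if b then {a} else ∅) s` for `g` as in `fam_step`,
`c = (lev2 …, r {a})`. -/
theorem build_leaf (x : ℕ) (a : ℕ) (env : Env K w)
    (hls : (BT.leaf x).ls = List.range' a (BT.leaf x).nl) (hU : (BT.leaf x).su ⊆ U)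
    (hw : lam (rkf v) U (BT.leaf x).su ≤ w) (henv : EnvOK v U env (.leaf x) a) :
    ∃ T, Built v U env (.leaf x) a T := by
  classical
  obtain ⟨g, hg, hgm⟩ := fam_step hls hU hw henv
  have hxa : x = a := by
    have h : [x] = List.range' a 1 := hls
    simpa using h
  subst hxa
  have hsu : (BT.leaf x).su = {x} := rfl
  have hr := rkf_le v ({x} : Finset ℕ)
  have hr1 : rkf v ({x} : Finset ℕ) ≤ 1 := by
    have := hr.2.2
    rw [Finset.card_singleton] at this
    exact_mod_cast this
  have hlev : lev2 (rkf v) U ({x} : Finset ℕ) < 2 * w + 2 := by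
    have h1 : lam (rkf v) U ({x} : Finset ℕ) ≤ w := hw
    unfold lev2
    omega
  have hcc : (rkf v ({x} : Finset ℕ)).toNat < w + 2 := by omega
  let c : Gm w := (⟨lev2 (rkf v) U ({x} : Finset ℕ), hlev⟩, ⟨_, hcc⟩)
  have hcl : lvG c = lev2 (rkf v) U ({x} : Finset ℕ) := rfl
  have hcg : ccG c = rkf v ({x} : Finset ℕ) := by
    show (((rkf v ({x} : Finset ℕ)).toNat : ℕ) : ℤ) = _
    omega
  let M : Ix (2 ^ w) → K := fun i => match i with
    | Sum.inl _ => 0
    | Sum.inr q => g (if q.1 then {x} else ∅) q.2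
  have hev : ∀ I ⊆ ({x} : Finset ℕ), ∀ s, ev (2 ^ w) (Tr.leaf c M) x I s = g I s := by
    intro I hI s
    show g (if decide (x ∈ I) = true then {x} else ∅) s = g I s
    by_cases hx : x ∈ I
    · have h1 : I = {x} := Finset.Subset.antisymm hI (Finset.singleton_subset_iff.2 hx)
      rw [if_pos (by simpa using hx), h1]
    · have h1 : I = ∅ := by
        rcases Finset.subset_singleton_iff.1 hI with h | h
        · exact h
        · rw [h] at hx
          exact absurd (Finset.mem_singleton_self x) hx
      rw [if_neg (by simpa using hx), h1]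
  refine ⟨Tr.leaf c M, rfl, rfl, hcg, ?_, ?_, trivial, ?_⟩
  · show Even (ccG c - lvG c)
    rw [hcg, hcl]
    unfold lev2
    push_cast
    rw [Int.even_iff]
    omega
  · exact spn_congr hg hev
  · intro ℓ b n g' hb s c' hs hsl
    cases hs with
    | here =>
      have hℓ : ℓ = lev2 (rkf v) U (BT.leaf x).su := hsl.symm
      rw [hℓ] at hb
      have h1 := hgm b n g' hb
      have h2 : rk ccG (Tr.leaf c M) = rkf v (BT.leaf x).su := hcg
      rw [h2]
      refine mi_congr h1 (fun I hI s => hev I ?_ s) (fun I _ s => rfl)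
      intro y hy
      have := hI hy
      rw [Finset.mem_Ico] at this
      rw [Finset.mem_singleton]
      have h3 : (Tr.leaf c M).nl = 1 := rfl
      omega

/-- STB. Induction on `t`. -/
theorem build (t : BT ℕ) : ∀ (a : ℕ) (env : Env K w),
    t.ls = List.range' a t.nl → t.su ⊆ U → (t.All fun g => lam (rkf v) U g ≤ w) →
    LinkedT (lam (rkf v) U) t → EnvOK v U env t a → ∃ T, Built v U env t a T := by
  induction t with
  | leaf x =>
    intro a env hls hU hw _ henv
    exact build_leaf x a env hls hU hw henv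
  | node l r ihl ihr =>
    intro a env hls hU hw hL henv
    obtain ⟨h1, h2⟩ := ls_split hls
    exact build_node l r a env hls hU hw hL henv
      (fun env' h => ihl a env' h1 (subset_union_left.trans hU) hw.2.1 hL.2.1 h)
      (fun env' h => ihr (a + l.nl) env' h2 (subset_union_right.trans hU) hw.2.2 hL.2.2 h)

end Pool.Agent.BWN
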