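import Pool.Agent.Lib_MP_001f0c_ag.STA

/-!
# Piece STC: the choice of the family
-/

set_option autoImplicit false

open Finset

namespace Pool.Agent.BWN

universe u

variable {K : Type u} [Field K] {p : ℕ} {v : ℕ → Fin p → K} {U : Finset ℕ} {w : ℕ}

/-- STC. The choice of the family. If there is an ancestor `(b, n, gf)` of the same level: `linking` for
`A = [a, a + n_t) ⊆ B = [b, b + n)` (`EnvOK`, `BLk.here`; `lam` is equal by `lev2_eq`) gives `C`; take
`g I s = sg I C * gf (I ∪ C) s` (`spn_rho`); it is a minor of `gf` with `e = id`, `η = 1`, and `linking_card`. If there is no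
ancestor: `ss_fam`. -/
theorem fam_step {env : Env K w} {t : BT ℕ} {a : ℕ}
    (hls : t.ls = List.range' a t.nl) (hU : t.su ⊆ U) (hw : lam (rkf v) U t.su ≤ w)
    (henv : EnvOK v U env t a) :
    ∃ g : Finset ℕ → Fin (2 ^ w) → K, Spn v U t.su g ∧
      ∀ b n gf, env (lev2 (rkf v) U t.su) = some (b, n, gf) →
        Mi g a t.nl gf b n (rkf v (Finset.Ico b (b + n)) - rkf v t.su) := by
  classical
  have hA : t.su = Finset.Ico a (a + t.nl) := su_Ico hls
  rcases hE : env (lev2 (rkf v) U t.su) with _ | ⟨b, n, gf⟩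
  · obtain ⟨g, hg⟩ := ss_fam hU hw
    refine ⟨g, hg, fun b n gf h => ?_⟩
    exact absurd h (by simp)
  · obtain ⟨⟨h1, h2, h3⟩, h4, h5, h6⟩ := henv _ b n gf hE
    have h7 := lev2_eq h3 hU h4
    have hAB : t.su ⊆ Finset.Ico b (b + n) := by
      rw [hA]
      intro x hx
      rw [Finset.mem_Ico] at hx ⊢
      omega
    obtain ⟨C, hC, hst⟩ := linking (rk_rkf v) hAB h3 fun X hX1 hX2 => by
      rw [← h7]
      exact h6 t (BLk.here t) rfl X hX1 hX2
    refine ⟨fun I s => ((sg I C : ℤ) : K) * gf (I ∪ C) s, spn_rho hAB hC hst h5, ?_⟩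
    intro b' n' gf' h
    obtain ⟨rfl, rfl, rfl⟩ : b = b' ∧ n = n' ∧ gf = gf' := by
      simpa using h
    refine ⟨id, C, 1, Or.inl rfl, strictMonoOn_id, ?_, hC.trans sdiff_subset, ?_, ?_⟩
    · intro x hx
      rw [← hA] at hx
      exact ⟨hAB hx, fun hxC => (Finset.mem_sdiff.1 (hC hxC)).2 hx⟩
    · exact linking_card (rk_rkf v) hAB h3 hC h7.symm hst
    · intro I hI s
      rw [Finset.image_id, Int.cast_one, one_mul]

end Pool.Agent.BWN
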