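import Pool.Agent.Lib_MP_001f0c_ag.BTd
import Pool.Agent.Lib_MP_001f0c_ag.SSB
import Pool.Agent.Lib_MP_001f0c_ag.MIC

/-!
# The structure theorem: definitions
-/

set_option autoImplicit false

open Finset

namespace Pool.Agent.BWN

universe u

/-- The colours: the level (twice the width plus the parity of the rank) and the correction of the rank. -/
abbrev Gm (w : ℕ) : Type := Fin (2 * w + 2) × Fin (w + 2)

/-- the level of a colour -/
def lvG {w : ℕ} (c : Gm w) : ℕ := (c.1 : ℕ)

/-- the correction of the rank of a colour -/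
def ccG {w : ℕ} (c : Gm w) : ℤ := ((c.2 : ℕ) : ℤ)

/-- the level of a set -/
def lev2 (r : Finset ℕ → ℤ) (U X : Finset ℕ) : ℕ := 2 * (lam r U X).toNat + (r X).toNat % 2

/-- environments: for some levels an interval `[b, b + n)` (as `b`, `n`) and a family of functions on its subsets -/
abbrev Env (K : Type u) (w : ℕ) : Type u := ℕ → Option (ℕ × ℕ × (Finset ℕ → Fin (2 ^ w) → K))

variable {K : Type u} [Field K] {p : ℕ}

/-- An environment for the tree `t` at position `a`: for some levels `ℓ` an ancestor of level `ℓ` (with no lower level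
between), the interval `[b, b + n)` and a spanning family `g` for it. The last condition is linkedness: for all subtrees `s`
of `t` of level `ℓ` such that all edges above `s` in `t` have level `> ℓ`. -/
def EnvOK {w : ℕ} (v : ℕ → Fin p → K) (U : Finset ℕ)
    (env : Env K w) (t : BT ℕ) (a : ℕ) : Prop :=
  ∀ ℓ b n g, env ℓ = some (b, n, g) → (b ≤ a ∧ a + t.nl ≤ b + n ∧ Finset.Ico b (b + n) ⊆ U) ∧
    lev2 (rkf v) U (Finset.Ico b (b + n)) = ℓ ∧ Spn v U (Finset.Ico b (b + n)) g ∧
    ∀ s, BLk (fun X => (lev2 (rkf v) U X : ℤ)) (ℓ + 1) s t → lev2 (rkf v) U s.su = ℓ →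
      ∀ X, s.su ⊆ X → X ⊆ Finset.Ico b (b + n) → lam (rkf v) U (Finset.Ico b (b + n)) ≤ lam (rkf v) U X

/-- The result of the construction. -/
def Built {w : ℕ} (v : ℕ → Fin p → K) (U : Finset ℕ)
    (env : Env K w) (t : BT ℕ) (a : ℕ)
    (T : Tr (Gm w) (Ix (2 ^ w) → K)) : Prop :=
  T.nl = t.nl ∧ lvG T.col = lev2 (rkf v) U t.su ∧ rk ccG T = rkf v t.su ∧ Cons lvG ccG T ∧
    Spn v U t.su (ev (2 ^ w) T a) ∧ Good lvG ccG T a ∧
    ∀ ℓ b n g, env ℓ = some (b, n, g) → ∀ s c, Lk lvG (ℓ + 1) s c T a → lvG s.col = ℓ →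
      Mi (ev (2 ^ w) s c) c s.nl g b n (rkf v (Finset.Ico b (b + n)) - rk ccG s)

end Pool.Agent.BWN
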