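import Pool.Agent.Lib_MP_001f0c_ag.Defs

/-!
# Labelled planar binary trees and gap embeddings (definitions)
-/

set_option autoImplicit false

open Finset

namespace Pool.Agent.BWN

universe u v

/-- planar binary trees with colours in `Γ` and labels in `M` -/
inductive Tr (Γ : Type) (M : Type u) : Type u
  | leaf (c : Γ) (m : M) : Tr Γ M
  | node (c : Γ) (m : M) (l r : Tr Γ M) : Tr Γ M

namespace Tr

variable {Γ : Type} {M : Type u} {M' : Type v}

/-- the colour of the root -/
def col : Tr Γ M → Γ
  | .leaf c _ => c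
  | .node c _ _ _ => c

/-- the number of leaves -/
def nl : Tr Γ M → ℕ
  | .leaf _ _ => 1
  | .node _ _ l r => l.nl + r.nl

/-- change of labels -/
def map (f : M → M') : Tr Γ M → Tr Γ M'
  | .leaf c m => .leaf c (f m)
  | .node c m l r => .node c (f m) (l.map f) (r.map f)

@[simp] theorem col_leaf (c : Γ) (m : M) : (Tr.leaf c m).col = c := rfl
@[simp] theorem col_node (c : Γ) (m : M) (l r : Tr Γ M) : (Tr.node c m l r).col = c := rfl
@[simp] theorem nl_leaf (c : Γ) (m : M) : (Tr.leaf c m).nl = 1 := rfl
@[simp] theorem nl_node (c : Γ) (m : M) (l r : Tr Γ M) : (Tr.node c m l r).nl = l.nl + r.nl := rfl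
@[simp] theorem map_leaf (f : M → M') (c : Γ) (m : M) : (Tr.leaf c m).map f = .leaf c (f m) := rfl
@[simp] theorem map_node (f : M → M') (c : Γ) (m : M) (l r : Tr Γ M) :
    (Tr.node c m l r).map f = .node c (f m) (l.map f) (r.map f) := rfl
@[simp] theorem col_map (f : M → M') (t : Tr Γ M) : (t.map f).col = t.col := by
  cases t <;> rfl

end Tr

variable {Γ : Type}

/-- Gap embeddings `t → t'`: planar, the colours agree, the labels are related by `R`; an edge (the top edge of a
subtree; its level is `lv` of the colour of the root of the subtree) goes to a path of edges whose levels are at least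
the level of the edge. Both ends of the path have the same level, except that the top edge of `t` goes to a
path whose upper end is the top edge of `t'`, without condition on the level of `t'` other than `≥`. -/
inductive Em {M : Type u} {M' : Type v} (lv : Γ → ℕ) (R : M → M' → Prop) : Tr Γ M → Tr Γ M' → Prop
  | leaf (c : Γ) (m : M) (m' : M') : R m m' → Em lv R (.leaf c m) (.leaf c m')
  | node (c : Γ) (m : M) (m' : M') (l r : Tr Γ M) (l' r' : Tr Γ M') : R m m' → Em lv R l l' → Em lv R r r' →
      lv l.col = lv l'.col → lv r.col = lv r'.col → Em lv R (.node c m l r) (.node c m' l' r')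
  | gapl (t : Tr Γ M) (c : Γ) (m : M') (l r : Tr Γ M') : Em lv R t l → lv t.col ≤ lv c →
      Em lv R t (.node c m l r)
  | gapr (t : Tr Γ M) (c : Γ) (m : M') (l r : Tr Γ M') : Em lv R t r → lv t.col ≤ lv c →
      Em lv R t (.node c m l r)

/-- `Lk lv j s b t a`: `s` is a subtree of `t`, and all edges above `s` in `t` (including the top edge of `t`, if `s ≠ t`)
have level at least `j`. If the leaves of `t` are at the positions `a, a + 1, …` then those of `s` are at `b, b + 1, …` -/
inductive Lk {M : Type u} (lv : Γ → ℕ) (j : ℕ) : Tr Γ M → ℕ → Tr Γ M → ℕ → Prop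
  | here (t : Tr Γ M) (a : ℕ) : Lk lv j t a t a
  | left (s : Tr Γ M) (b : ℕ) (c : Γ) (m : M) (l r : Tr Γ M) (a : ℕ) : Lk lv j s b l a → j ≤ lv c →
      Lk lv j s b (.node c m l r) a
  | right (s : Tr Γ M) (b : ℕ) (c : Γ) (m : M) (l r : Tr Γ M) (a : ℕ) : Lk lv j s b r (a + l.nl) → j ≤ lv c →
      Lk lv j s b (.node c m l r) a

/-- The number which is `r(A)` for the rank `r`: computed from the colours (for an inner node with the sets `L`, `R`
of leaves below its children the colour gives `r(L) + r(R) - r(L ∪ R)`). -/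
def rk {M : Type u} (cc : Γ → ℤ) : Tr Γ M → ℤ
  | .leaf c _ => cc c
  | .node c _ l r => rk cc l + rk cc r - cc c

/-- the levels know the parity of `rk` -/
def Cons {M : Type u} (lv : Γ → ℕ) (cc : Γ → ℤ) : Tr Γ M → Prop
  | .leaf c _ => Even (cc c - lv c)
  | .node c _ l r => Even (rk cc l + rk cc r - cc c - lv c) ∧ Cons lv cc l ∧ Cons lv cc r

@[simp] theorem rk_leaf {M : Type u} (cc : Γ → ℤ) (c : Γ) (m : M) : rk cc (Tr.leaf c m) = cc c := rfl
@[simp] theorem rk_node {M : Type u} (cc : Γ → ℤ) (c : Γ) (m : M) (l r : Tr Γ M) :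
    rk cc (Tr.node c m l r) = rk cc l + rk cc r - cc c := rfl

end Pool.Agent.BWN
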