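import Pool.Agent.Lib_MP_001f0c_ag.EMB

/-!
# Piece WQA: generated sets of trees
-/

set_option autoImplicit false

open Finset

namespace Pool.Agent.BWN

universe u

variable {Γ : Type} {M : Type u}

/-- the quasi-order on the trees -/
def Le [LE M] (lv : Γ → ℕ) (t t' : Tr Γ M) : Prop :=
  Em lv (· ≤ ·) t t' ∧ lv t.col = lv t'.col

/-- The set of trees which are generated by `Q` with nodes of level at least `j`. -/
inductive Gen (lv : Γ → ℕ) (j : ℕ) (Q : Set (Tr Γ M)) : Tr Γ M → Prop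
  | base (t : Tr Γ M) : t ∈ Q → Gen lv j Q t
  | node (c : Γ) (m : M) (l r : Tr Γ M) : Gen lv j Q l → Gen lv j Q r → j ≤ lv c →
      Gen lv j Q (.node c m l r)

/-- the number of the vertices -/
def Tr.sz : Tr Γ M → ℕ
  | .leaf _ _ => 1
  | .node _ _ l r => l.sz + r.sz + 1

/-- `Pr lv j s t`: `s` is a proper subtree of `t` and all edges above `s` in `t` (including the top edge of `t`) have
level at least `j` -/
inductive Prs (lv : Γ → ℕ) (j : ℕ) : Tr Γ M → Tr Γ M → Prop
  | lft (c : Γ) (m : M) (l r : Tr Γ M) : j ≤ lv c → Prs lv j l (.node c m l r)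
  | rgt (c : Γ) (m : M) (l r : Tr Γ M) : j ≤ lv c → Prs lv j r (.node c m l r)
  | stepl (s : Tr Γ M) (c : Γ) (m : M) (l r : Tr Γ M) : Prs lv j s l → j ≤ lv c → Prs lv j s (.node c m l r)
  | stepr (s : Tr Γ M) (c : Γ) (m : M) (l r : Tr Γ M) : Prs lv j s r → j ≤ lv c → Prs lv j s (.node c m l r)

/-- WQA. `Le` is a quasi-order (`em_refl`, `em_trans`). -/
theorem le_preorder [Preorder M] (lv : Γ → ℕ) : IsPreorder (Tr Γ M) (Le lv) where
  refl := fun t => ⟨em_refl (fun m => le_refl m) t, rfl⟩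
  trans := fun _ _ _ h h' =>
    ⟨em_trans (R₁ := (· ≤ ·)) (R₂ := (· ≤ ·)) (R₃ := (· ≤ ·))
      (fun _ _ _ h1 h2 => le_trans h1 h2) h.1 h'.1, h.2.trans h'.2⟩

/-- WQA. proper subtrees are smaller -/
theorem prs_sz {lv : Γ → ℕ} {j : ℕ} {s t : Tr Γ M} (h : Prs lv j s t) : s.sz < t.sz := by
  induction h with
  | lft c m l r hc => simp only [Tr.sz]; omega
  | rgt c m l r hc => simp only [Tr.sz]; omega
  | stepl s c m l r h hc ih => simp only [Tr.sz]; omega
  | stepr s c m l r h hc ih => simp only [Tr.sz]; omega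

/-- WQA. children of proper subtrees (of level `≥ j`) are proper subtrees -/
theorem prs_child {lv : Γ → ℕ} {j : ℕ} {c : Γ} {m : M} {l r t : Tr Γ M}
    (h : Prs lv j (.node c m l r) t) (hc : j ≤ lv c) : Prs lv j l t ∧ Prs lv j r t := by
  generalize hs : Tr.node c m l r = s at h
  induction h with
  | lft c' m' l' r' hc' =>
    subst hs
    exact ⟨.stepl _ _ _ _ _ (.lft _ _ _ _ hc) hc', .stepl _ _ _ _ _ (.rgt _ _ _ _ hc) hc'⟩
  | rgt c' m' l' r' hc' =>
    subst hs
    exact ⟨.stepr _ _ _ _ _ (.lft _ _ _ _ hc) hc', .stepr _ _ _ _ _ (.rgt _ _ _ _ hc) hc'⟩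
  | stepl s c' m' l' r' h' hc' ih =>
    exact ⟨.stepl _ _ _ _ _ (ih hs).1 hc', .stepl _ _ _ _ _ (ih hs).2 hc'⟩
  | stepr s c' m' l' r' h' hc' ih =>
    exact ⟨.stepr _ _ _ _ _ (ih hs).1 hc', .stepr _ _ _ _ _ (ih hs).2 hc'⟩

/-- WQA. If `a` embeds into the proper subtree `s` of `t` and the level of `a` is `j` then `a` embeds into `t`
(induction on `Prs`, `Em.gapl`, `Em.gapr`) -/
theorem em_prs [LE M] {lv : Γ → ℕ} {j : ℕ} {a s t : Tr Γ M} (h : Em lv (· ≤ ·) a s) (ha : lv a.col = j)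
    (hs : Prs lv j s t) : Em lv (· ≤ ·) a t := by
  induction hs with
  | lft c m l r hc => exact .gapl _ _ _ _ _ h (by omega)
  | rgt c m l r hc => exact .gapr _ _ _ _ _ h (by omega)
  | stepl s c m l r h' hc ih => exact .gapl _ _ _ _ _ (ih h) (by omega)
  | stepr s c m l r h' hc ih => exact .gapr _ _ _ _ _ (ih h) (by omega)

/-- WQA. If all levels are `< j` then `Gen lv j Q = Q`. -/
theorem gen_top {lv : Γ → ℕ} {j : ℕ} (hj : ∀ c, lv c < j) (Q : Set (Tr Γ M)) : Gen lv j Q = (· ∈ Q) := by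
  funext t
  apply propext
  constructor
  · intro h
    induction h with
    | base t h => exact h
    | node c m l r hl hr hc ihl ihr => exact absurd (hj c) (by omega)
  · intro h
    exact .base t h

/-- WQA. every tree is generated by the leaves (`Gen` for level `0`) -/
theorem gen_zero (lv : Γ → ℕ) (t : Tr Γ M) : Gen lv 0 {s | ∃ c m, s = Tr.leaf c m} t := by
  induction t with
  | leaf c m => exact .base _ ⟨c, m, rfl⟩
  | node c m l r ihl ihr => exact .node c m l r ihl ihr (Nat.zero_le _)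

/-- WQA. `Gen lv j Q ⊆ Gen lv (j + 1) Q'` if `Q'` contains `Q` and all elements of `Gen lv j Q` of level `j`.
(Induction.) -/
theorem gen_succ {lv : Γ → ℕ} {j : ℕ} {Q Q' : Set (Tr Γ M)} (hQ : Q ⊆ Q')
    (h : ∀ t, Gen lv j Q t → lv t.col = j → t ∈ Q') {t : Tr Γ M} (ht : Gen lv j Q t) :
    Gen lv (j + 1) Q' t := by
  induction ht with
  | base t ht => exact .base t (hQ ht)
  | node c m l r hl hr hc ihl ihr =>
    rcases Nat.eq_or_lt_of_le hc with h1 | h1
    · exact .base _ (h _ (.node c m l r hl hr hc) h1.symm)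
    · exact .node c m l r ihl ihr h1

/-- WQA. The same for proper subtrees `s` of a tree `t`: `s ∈ Gen lv j Q` is in `Gen lv (j + 1) Q'` if `Q'` contains `Q` and
the proper subtrees of `t` of level `j` which are in `Gen lv j Q`. (Induction on `Gen lv j Q s`; `prs_child`.) -/
theorem gen_prs {lv : Γ → ℕ} {j : ℕ} {Q Q' : Set (Tr Γ M)} (hQ : Q ⊆ Q') {t : Tr Γ M}
    (h : ∀ s, Prs lv j s t → Gen lv j Q s → lv s.col = j → s ∈ Q') {s : Tr Γ M} (hs : Gen lv j Q s)
    (hp : Prs lv j s t) : Gen lv (j + 1) Q' s := by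
  induction hs with
  | base s hs => exact .base s (hQ hs)
  | node c m l r hl hr hc ihl ihr =>
    rcases Nat.eq_or_lt_of_le hc with h1 | h1
    · exact .base _ (h _ hp (.node c m l r hl hr hc) h1.symm)
    · exact .node c m l r (ihl (prs_child hp hc).1) (ihr (prs_child hp hc).2) h1

end Pool.Agent.BWN
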