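import Pool.Agent.Lib_MP_001f0c_ag.XST
import Pool.Agent.Lib_MP_001f0c_ag.REL
import Pool.Agent.Lib_MP_001f0c_ag.BRA

/-!
# Piece XBS: the part of branch-width at most `w` is stable
-/

set_option autoImplicit false

open Finset MvPolynomial

namespace Pool.Agent.BWN

universe u

theorem XBS_lev_ne {K : Type u} [Field K] {x : Maya → K} {n p : ℕ} {J : Finset ℤ} (h : lev x n p J ≠ 0) :
    J ⊆ gr n p ∧ J.card = p := by
  by_contra hc
  apply h
  unfold lev
  rw [dif_neg hc]

theorem XBS_rk {K : Type u} [Field K] {x : Maya → K} {n p N : ℕ} (hn : n ≤ N) (hp : p ≤ N) {J₀ : Finset ℤ}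
    (h0 : lev x n p J₀ ≠ 0) (A : Finset ℤ) :
    rkC (lev x n p) (gr n p) (A ∩ gr n p) + (A ∩ Finset.Ioc (p : ℤ) (N : ℤ)).card ≤
      rkC (lev x N N) (gr N N) A := by
  classical
  unfold rkC
  obtain ⟨hJs, hJc⟩ := XBS_lev_ne h0
  have hne : ((gr n p).powerset.filter fun J => lev x n p J ≠ 0).Nonempty :=
    ⟨J₀, Finset.mem_filter.2 ⟨Finset.mem_powerset.2 hJs, h0⟩⟩
  obtain ⟨J, hJ, hJe⟩ := Finset.exists_mem_eq_sup _ hne (fun J => (J ∩ (A ∩ gr n p)).card)
  rw [hJe]
  obtain ⟨hJ1, hJ2⟩ := Finset.mem_filter.1 hJ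
  obtain ⟨hs, hc⟩ := XBS_lev_ne hJ2
  have hb : ∀ i ∈ J, i ≠ 0 ∧ -(n : ℤ) ≤ i ∧ i ≤ p := fun i hi => mem_gr.1 (hs hi)
  have hs' : J ∪ Finset.Ioc (p : ℤ) (N : ℤ) ⊆ gr N N := by
    intro i hi
    rw [Finset.mem_union, Finset.mem_Ioc] at hi
    rw [mem_gr]
    rcases hi with hi | hi
    · have := hb i hi
      omega
    · omega
  have hdisj : Disjoint J (Finset.Ioc (p : ℤ) (N : ℤ)) := by
    rw [Finset.disjoint_left]
    intro i hi h2
    rw [Finset.mem_Ioc] at h2
    have := hb i hi
    omega
  have hc' : (J ∪ Finset.Ioc (p : ℤ) (N : ℤ)).card = N := by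
    rw [Finset.card_union_of_disjoint hdisj, hc, Int.card_Ioc]
    omega
  have hl : lev x n p J = lev x N N (J ∪ Finset.Ioc (p : ℤ) (N : ℤ)) := by
    refine XDM_lev_eq x hs hc hs' hc' ?_
    ext i
    simp only [Set.mem_union, Finset.mem_coe, Set.mem_Ioi, Finset.mem_union, Finset.mem_Ioc]
    constructor
    · rintro (h | h)
      · exact Or.inl (Or.inl h)
      · by_cases h2 : i ≤ N
        · exact Or.inl (Or.inr ⟨h, h2⟩)
        · right
          omega
    · rintro ((h | h) | h)
      · exact Or.inl h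
      · exact Or.inr h.1
      · right
        omega
  have hmem : J ∪ Finset.Ioc (p : ℤ) (N : ℤ) ∈ (gr N N).powerset.filter fun J => lev x N N J ≠ 0 :=
    Finset.mem_filter.2 ⟨Finset.mem_powerset.2 hs', by rw [← hl]; exact hJ2⟩
  refine le_trans ?_ (Finset.le_sup (f := fun J : Finset ℤ => (J ∩ A).card) hmem)
  have hd2 : Disjoint (J ∩ (A ∩ gr n p)) (A ∩ Finset.Ioc (p : ℤ) (N : ℤ)) :=
    hdisj.mono Finset.inter_subset_left Finset.inter_subset_right
  rw [← Finset.card_union_of_disjoint hd2]
  refine Finset.card_le_card ?_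
  intro i hi
  rw [Finset.mem_union, Finset.mem_inter, Finset.mem_inter, Finset.mem_inter] at hi
  rw [Finset.mem_inter, Finset.mem_union]
  rcases hi with hi | hi
  · exact ⟨Or.inl hi.1, hi.2.1⟩
  · exact ⟨Or.inr hi.2, hi.1⟩

theorem XBS_map_all {E F : Type} [DecidableEq E] [DecidableEq F] (φ : E → F) {P : Finset F → Prop} {t : BT E}
    (h : t.All fun g => P (g.image φ)) : (t.map φ).All P := by
  induction t with
  | leaf x =>
    have h1 : P (({x} : Finset E).image φ) := h
    rw [Finset.image_singleton] at h1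
    exact h1
  | node l r hl hr =>
    refine ⟨?_, hl h.2.1, hr h.2.2⟩
    rw [map_su, map_su, ← Finset.image_union]
    exact h.1

theorem XBS_congr {K L : Type u} [Field K] [Field L] {x : Maya → K} {y : Maya → L} {n p w : ℕ}
    (h : ∀ J, lev x n p J ≠ 0 ↔ lev y n p J ≠ 0) (hx : BWle x n p w) : BWle y n p w := by
  classical
  have hrk : ∀ A, rkC (lev y n p) (gr n p) A = rkC (lev x n p) (gr n p) A := by
    intro A
    unfold rkC
    congr 1
    exact Finset.filter_congr fun J _ => (h J).symm
  rcases hx with h0 | ⟨t, h1, h2, h3⟩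
  · left
    intro J
    by_contra hJ
    exact ((h J).2 hJ) (h0 J)
  · right
    refine ⟨t, h1, h2, all_mono (fun A hA => ?_) h3⟩
    rw [hrk, hrk]
    exact hA

/-- XBS. Branch-width of minors. Let `t` be the tree for the level `(N, N)`, `C = Ioc p N`; take the tree `t.re (gr n p)` (`re_some`, `re_all`,
`re_perm`; it is not `none` since a nonzero coordinate of the level `(n, p)` and `1 ≤ p` show that `gr n p` is not empty). If
`J₁`, `J₂` are nonzero coordinates of level `(n, p)` then `J₁ ∪ C`, `J₂ ∪ C` are nonzero coordinates of level `(N, N)`, and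
`|(J₁ ∪ C) ∩ g| = |J₁ ∩ g| + |C ∩ g|`, `|(J₂ ∪ C) ∩ (gr N N \ g)| = |J₂ \ g| + |C \ g|`, so
`|J₁ ∩ g| + |J₂ \ g| + (N - p) ≤ N + w`. -/
theorem bw_minor {K : Type u} [Field K] {x : Maya → K} {n p N w : ℕ} (hn : n ≤ N) (hp1 : 1 ≤ p) (hp : p ≤ N)
    (h : BWle x N N w) : BWle x n p w := by
  classical
  by_cases hz : ∀ J, lev x n p J = 0
  · exact Or.inl hz
  · right
    push Not at hz
    obtain ⟨J₀, hJ₀⟩ := hz
    rcases h with h | ⟨t, h1, h2, h3⟩
    · exfalso
      obtain ⟨hs, hc⟩ := XBS_lev_ne hJ₀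
      have hb : ∀ i ∈ J₀, i ≠ 0 ∧ -(n : ℤ) ≤ i ∧ i ≤ p := fun i hi => mem_gr.1 (hs hi)
      have hs' : J₀ ∪ Finset.Ioc (p : ℤ) (N : ℤ) ⊆ gr N N := by
        intro i hi
        rw [Finset.mem_union, Finset.mem_Ioc] at hi
        rw [mem_gr]
        rcases hi with hi | hi
        · have := hb i hi
          omega
        · omega
      have hc' : (J₀ ∪ Finset.Ioc (p : ℤ) (N : ℤ)).card = N := by
        rw [Finset.card_union_of_disjoint, hc, Int.card_Ioc]
        · omega
        · rw [Finset.disjoint_left]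
          intro i hi h2
          rw [Finset.mem_Ioc] at h2
          have := hb i hi
          omega
      apply hJ₀
      rw [← h (J₀ ∪ Finset.Ioc (p : ℤ) (N : ℤ))]
      refine XDM_lev_eq x hs hc hs' hc' ?_
      ext i
      simp only [Set.mem_union, Finset.mem_coe, Set.mem_Ioi, Finset.mem_union, Finset.mem_Ioc]
      constructor
      · rintro (h | h)
        · exact Or.inl (Or.inl h)
        · by_cases h2 : i ≤ N
          · exact Or.inl (Or.inr ⟨h, h2⟩)
          · right
            omega
      · rintro ((h | h) | h)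
        · exact Or.inl h
        · exact Or.inr h.1
        · right
          omega
    · have hsub : gr n p ⊆ gr N N := by
        intro i hi
        rw [mem_gr] at hi ⊢
        omega
      rcases hre : t.re (gr n p) with _ | t'
      · exfalso
        have h4 := re_none hre
        rw [h2, Finset.inter_eq_right.2 hsub] at h4
        have h5 : (p : ℤ) ∈ gr n p := by
          rw [mem_gr]
          omega
        rw [h4] at h5
        exact Finset.notMem_empty _ h5
      · refine ⟨t', ?_, ?_, ?_⟩
        · have h4 := re_perm (U := gr N N) (X := gr n p) (t := t) (le_of_eq h2)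
          rw [hre] at h4
          have h5 := h4.nodup_iff.2 h1
          exact (List.nodup_append.1 h5).1
        · rw [re_some hre, h2, Finset.inter_eq_right.2 hsub]
        · refine re_all hre (all_mono (fun g hg => ?_) h3)
          have h4 := XBS_rk hn hp hJ₀ g
          have h5 := XBS_rk hn hp hJ₀ (gr N N \ g)
          have h6 : gr n p \ (g ∩ gr n p) = (gr N N \ g) ∩ gr n p := by
            ext i
            simp only [Finset.mem_sdiff, Finset.mem_inter]
            constructor
            · rintro ⟨h7, h8⟩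
              exact ⟨⟨hsub h7, fun h9 => h8 ⟨h9, h7⟩⟩, h7⟩
            · rintro ⟨⟨_, h7⟩, h8⟩
              exact ⟨h8, fun h9 => h7 h9.1⟩
          have h7 : (g ∩ Finset.Ioc (p : ℤ) (N : ℤ)).card +
              ((gr N N \ g) ∩ Finset.Ioc (p : ℤ) (N : ℤ)).card = N - p := by
            have h8 : (Finset.Ioc (p : ℤ) (N : ℤ)).card = N - p := by
              rw [Int.card_Ioc]
              omega
            rw [← h8, ← Finset.card_union_of_disjoint]
            · congr 1
              ext i
              simp only [Finset.mem_union, Finset.mem_inter, Finset.mem_sdiff]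
              constructor
              · rintro (h9 | h9)
                · exact h9.2
                · exact h9.2
              · intro h9
                by_cases h10 : i ∈ g
                · exact Or.inl ⟨h10, h9⟩
                · refine Or.inr ⟨⟨?_, h10⟩, h9⟩
                  rw [Finset.mem_Ioc] at h9
                  rw [mem_gr]
                  omega
            · rw [Finset.disjoint_left]
              intro i hi h9
              rw [Finset.mem_inter] at hi h9
              exact (Finset.mem_sdiff.1 h9.1).2 hi.1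
          rw [h6]
          omega

/-- XBS. Let `N` be as in `fin_level` (`n, p ≤ N`). The level `(N, N)` is permuted (up to signs): the new coordinate `J` is not zero if
and only if the old coordinate `J.image τ` is not zero (`im_sgn` with `m = M = N`, `σ = τ`, or directly); take the tree
`t.map τ.symm` (`map_ls`, `map_su`). Then `bw_minor`. -/
theorem bw_im {K : Type u} [Field K] {x : Maya → K} {w : ℕ} (h : ∀ n p : ℕ, 1 ≤ n → 1 ≤ p → BWle x n p w)
    (τ : Equiv.Perm ℤ) (hτ : IsFin τ) {n p : ℕ} (hn : 1 ≤ n) (hp : 1 ≤ p) :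
    BWle (fun I => ((sgn τ I : ℤ) : K) * x (Maya.im τ hτ I)) n p w := by
  classical
  obtain ⟨N, hN, h1, h2⟩ := fin_level hτ (max n p)
  have hnN : n ≤ N := (le_max_left n p).trans hN
  have hpN : p ≤ N := (le_max_right n p).trans hN
  refine bw_minor hnN hp hpN ?_
  set y : Maya → K := fun I => ((sgn τ I : ℤ) : K) * x (Maya.im τ hτ I) with hy
  have hlev : ∀ J : Finset ℤ, lev y N N J ≠ 0 → lev x N N (J.image τ) ≠ 0 := by
    intro J hJ0
    obtain ⟨hJ, hc⟩ := XBS_lev_ne hJ0
    obtain ⟨hL, hfi⟩ := XST_fi_up hJ hc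
    obtain ⟨h3, h4, h5⟩ := im_sgn (le_refl N) hτ (fun _ _ => rfl) h1 h2 hL
    rw [hfi] at h4
    have e4 : lev x N N (J.image τ) = x (Maya.im τ hτ (up J hJ hc)) := by
      rw [← h4, lev_fi x h3]
    have e5 : lev y N N J = ((sgn τ (up J hJ hc) : ℤ) : K) * x (Maya.im τ hτ (up J hJ hc)) := by
      unfold lev
      rw [dif_pos ⟨hJ, hc⟩]
    rw [e4]
    rw [e5] at hJ0
    exact right_ne_zero_of_mul hJ0
  have hrk : ∀ A : Finset ℤ, rkC (lev y N N) (gr N N) (A.image τ.symm) ≤ rkC (lev x N N) (gr N N) A := by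
    intro A
    unfold rkC
    refine Finset.sup_le fun J hJ => ?_
    have hJ0 := (Finset.mem_filter.1 hJ).2
    have h3 := hlev J hJ0
    have hmem : J.image τ ∈ (gr N N).powerset.filter fun J => lev x N N J ≠ 0 :=
      Finset.mem_filter.2 ⟨Finset.mem_powerset.2 (XBS_lev_ne h3).1, h3⟩
    refine le_trans ?_ (Finset.le_sup (f := fun J : Finset ℤ => (J ∩ A).card) hmem)
    rw [← Finset.card_image_of_injective (J ∩ A.image τ.symm) τ.injective]
    refine Finset.card_le_card ?_
    intro i hi
    obtain ⟨j, hj, rfl⟩ := Finset.mem_image.1 hi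
    rw [Finset.mem_inter] at hj ⊢
    refine ⟨Finset.mem_image_of_mem _ hj.1, ?_⟩
    obtain ⟨a, ha, hja⟩ := Finset.mem_image.1 hj.2
    rw [← hja, Equiv.apply_symm_apply]
    exact ha
  rcases h N N (hn.trans hnN) (hn.trans hnN) with h0 | ⟨t, ht1, ht2, ht3⟩
  · left
    intro J
    by_contra hJ
    exact hlev J hJ (h0 _)
  · right
    have himg : (gr N N).image τ.symm = gr N N := by
      ext i
      rw [Finset.mem_image]
      constructor
      · rintro ⟨j, hj, rfl⟩
        rw [h1, Equiv.apply_symm_apply]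
        exact hj
      · intro hi
        exact ⟨τ i, (h1 i).1 hi, τ.symm_apply_apply i⟩
    refine ⟨t.map τ.symm, ?_, ?_, ?_⟩
    · rw [map_ls]
      exact ht1.map τ.symm.injective
    · rw [map_su, ht2, himg]
    · refine XBS_map_all _ (all_mono (fun g hg => ?_) ht3)
      have h3 : gr N N \ g.image τ.symm = (gr N N \ g).image τ.symm := by
        rw [Finset.image_sdiff _ _ τ.symm.injective, himg]
      rw [h3]
      exact le_trans (Nat.add_le_add (hrk _) (hrk _)) hg

/-- XBS. `BWle` does not depend on the field. -/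
theorem bw_map {K L : Type u} [Field K] [Field L] (φ : K →+* L) {x : Maya → K} {n p w : ℕ} :
    BWle (fun I => φ (x I)) n p w ↔ BWle x n p w := by
  have h : ∀ J, lev (fun I => φ (x I)) n p J ≠ 0 ↔ lev x n p J ≠ 0 := by
    intro J
    rw [lev_map, Ne, map_eq_zero]
  exact ⟨XBS_congr h, XBS_congr fun J => (h J).symm⟩

/-- XBS. (`ag_stable`, `act_val`, `bw_map`, `bw_im`.) -/
theorem agw_stable (k : Type u) [Field k] (w : ℕ) : Stable (AGw k w) := by
  intro τ hτ P hP
  refine ⟨ag_stable k τ hτ P hP.1, fun n p hn hp => ?_⟩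
  obtain ⟨ι, hι⟩ := act_val P τ hτ
  rw [← bw_map ι]
  have h1 : (fun I => ι (val (act τ hτ P) I)) =
      fun I => ((sgn τ I : ℤ) : Res P) * val P (Maya.im τ hτ I) := funext hι
  rw [h1]
  exact bw_im hP.2 τ hτ hn hp

end Pool.Agent.BWN
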