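import Pool.Agent.Lib_MP_001f0c_ag.EVL
import Pool.Agent.Lib_MP_001f0c_ag.BRA

/-!
# Piece XBW: the part of branch-width at most `w` is closed in `X`
-/

set_option autoImplicit false

open Finset MvPolynomial

namespace Pool.Agent.BWN

universe u

/-- the branch-width condition in terms of the set `B` of the nonzero coordinates -/
def BWs (B : Finset (Finset ℤ)) (n p w : ℕ) : Prop :=
  B = ∅ ∨ ∃ t : BT ℤ, t.ls.Nodup ∧ t.su = gr n p ∧
    t.All fun A => (B.sup fun J => (J ∩ A).card) + (B.sup fun J => (J ∩ (gr n p \ A)).card) ≤ p + w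

/-- XBW. (`all_mono`, `Finset.sup_mono`) -/
theorem bws_mono {B B' : Finset (Finset ℤ)} {n p w : ℕ} (h : B ⊆ B') (hB : BWs B' n p w) : BWs B n p w := by
  rcases hB with hB | ⟨t, h1, h2, h3⟩
  · left
    subst hB
    exact Finset.subset_empty.1 h
  · right
    refine ⟨t, h1, h2, all_mono (fun A hA => ?_) h3⟩
    exact le_trans (Nat.add_le_add (Finset.sup_mono h) (Finset.sup_mono h)) hA

open scoped Classical in
/-- XBW. -/
theorem bw_iff {K : Type u} [Field K] {x : Maya → K} {n p w : ℕ} :
    BWle x n p w ↔ BWs ((gr n p).powerset.filter fun J => lev x n p J ≠ 0) n p w := by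
  unfold BWle BWs
  refine or_congr ?_ ?_
  · constructor
    · intro h
      rw [Finset.filter_eq_empty_iff]
      intro J _ hJ
      exact hJ (h J)
    · intro h J
      by_contra hJ
      have hsub : J ⊆ gr n p := by
        by_contra hs
        apply hJ
        unfold lev
        rw [dif_neg (fun hh => hs hh.1)]
      have hmem : J ∈ (gr n p).powerset.filter fun J => lev x n p J ≠ 0 :=
        Finset.mem_filter.2 ⟨Finset.mem_powerset.2 hsub, hJ⟩
      rw [h] at hmem
      exact Finset.notMem_empty _ hmem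
  · exact Iff.rfl

theorem XBW_iff {K : Type u} [Field K] {x : Maya → K} {n p w : ℕ} :
    BWle x n p w ↔ ∃ S : Finset (Finset ℤ), (S ⊆ (gr n p).powerset ∧ BWs ((gr n p).powerset \ S) n p w) ∧
      ∀ J ∈ S, lev x n p J = 0 := by
  classical
  constructor
  · intro h
    rw [bw_iff] at h
    refine ⟨(gr n p).powerset.filter fun J => lev x n p J = 0,
      ⟨Finset.filter_subset _ _, ?_⟩, ?_⟩
    · refine bws_mono ?_ h
      intro J hJ
      rw [Finset.mem_sdiff, Finset.mem_filter] at hJ
      rw [Finset.mem_filter]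
      exact ⟨hJ.1, fun hc => hJ.2 ⟨hJ.1, hc⟩⟩
    · intro J hJ
      exact (Finset.mem_filter.1 hJ).2
  · rintro ⟨S, ⟨hS, hB⟩, hz⟩
    rw [bw_iff]
    refine bws_mono ?_ hB
    intro J hJ
    rw [Finset.mem_filter] at hJ
    rw [Finset.mem_sdiff]
    exact ⟨hJ.1, fun hJS => hJ.2 (hz J hJS)⟩

theorem XBW_lev_closed {k : Type u} [Field k] (n p : ℕ) (J : Finset ℤ) :
    IsClosed {P : PrimeSpectrum (Rg k) | lev (val P) n p J = 0} := by
  by_cases h : J ⊆ gr n p ∧ J.card = p
  · have h1 : {P : PrimeSpectrum (Rg k) | lev (val P) n p J = 0} =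
        PrimeSpectrum.zeroLocus {(MvPolynomial.X (up J h.1 h.2) : Rg k)} := by
      ext P
      rw [Set.mem_ofPred_eq, PrimeSpectrum.mem_zeroLocus, Set.singleton_subset_iff, SetLike.mem_coe,
        mem_iff, aeval_X]
      unfold lev
      rw [dif_pos h]
    rw [h1]
    exact PrimeSpectrum.isClosed_zeroLocus _
  · have h1 : {P : PrimeSpectrum (Rg k) | lev (val P) n p J = 0} = Set.univ := by
      ext P
      rw [Set.mem_ofPred_eq]
      unfold lev
      rw [dif_neg h]
      simp
    rw [h1]
    exact isClosed_univ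

/-- XBW. The condition `BWle (val P) n p w` is closed: by `bw_iff` and `bws_mono` it says that there is a subset `S` of
`(gr n p).powerset` such that all coordinates `J ∈ S` vanish at `P` and `BWs ((gr n p).powerset \ S) n p w`; there are finitely many
`S` (`Set.Finite.isClosed_biUnion` or `isClosed_iUnion_of_finite`), and `lev (val P) n p J = 0` is closed: it is always true
or it is `X I ∈ P.asIdeal`. -/
theorem bw_closed {k : Type u} [Field k] (n p w : ℕ) :
    IsClosed {P : PrimeSpectrum (Rg k) | BWle (val P) n p w} := by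
  classical
  have h1 : {P : PrimeSpectrum (Rg k) | BWle (val P) n p w} =
      ⋃ S ∈ ((gr n p).powerset.powerset.filter fun S => BWs ((gr n p).powerset \ S) n p w),
        ⋂ J ∈ S, {P : PrimeSpectrum (Rg k) | lev (val P) n p J = 0} := by
    ext P
    simp only [Set.mem_ofPred_eq, Set.mem_iUnion, Set.mem_iInter, Finset.mem_filter,
      Finset.mem_powerset, exists_prop]
    exact XBW_iff
  rw [h1]
  refine Set.Finite.isClosed_biUnion (Finset.finite_toSet _) ?_
  intro S _
  exact isClosed_biInter fun J _ => XBW_lev_closed n p J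

/-- XBW. -/
theorem agw_rel (k : Type u) [Field k] (w : ℕ) : ∃ C, IsClosed C ∧ AGw k w = C ∩ AG k := by
  refine ⟨⋂ (n : ℕ) (p : ℕ) (_ : 1 ≤ n) (_ : 1 ≤ p), {P : PrimeSpectrum (Rg k) | BWle (val P) n p w},
    ?_, ?_⟩
  · exact isClosed_iInter fun n => isClosed_iInter fun p => isClosed_iInter fun _ =>
      isClosed_iInter fun _ => bw_closed n p w
  · ext P
    simp only [AGw, Set.mem_ofPred_eq, Set.mem_inter_iff, Set.mem_iInter]
    tauto

end Pool.Agent.BWN
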