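import Pool.Agent.Lib_MP_001f0c_ag.EVL
import Pool.Agent.Lib_MP_001f0c_ag.SGM
import Pool.Agent.Lib_MP_001f0c_ag.DVB

/-!
# Piece XDC: decomposability is a closed condition
-/

set_option autoImplicit false

open Finset MvPolynomial

namespace Pool.Agent.BWN

universe u

/-- The coordinate of `J` with the element `j` replaced by `l` (up to the sign of the sorting). -/
noncomputable def crx {R : Type u} [CommRing R] (ω : Finset ℤ → R) (J : Finset ℤ) (j l : ℤ) : R :=
  if l ∈ J ∧ l ≠ j then 0 else
    (-1) ^ invs (Function.update id j l : ℤ → ℤ) J * ω (J.image (Function.update id j l))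

theorem xdc_entry {K : Type u} [Field K] {p : ℕ} {v : ℤ → Fin p → K} {G : Finset ℤ} {ω : Finset ℤ → K}
    (hω : ∀ J, J ⊆ G → J.card = p → ω J = Dt v J.sort) {J : Finset ℤ} (hJ : J ⊆ G)
    (hc : J.card = p) (a : Fin p) {l : ℤ} (hl : l ∈ G) :
    (Matrix.updateCol (fun i a => v (J.orderEmbOfFin hc a) i : Matrix (Fin p) (Fin p) K) a
      (fun i => v l i)).det = crx ω J (J.orderEmbOfFin hc a) l := by
  unfold crx
  set j : ℤ := J.orderEmbOfFin hc a with hj
  have hjJ : j ∈ J := J.orderEmbOfFin_mem hc a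
  by_cases h : l ∈ J ∧ l ≠ j
  · rw [if_pos h]
    have h1 : l ∈ Set.range (J.orderEmbOfFin hc) := by
      rw [Finset.range_orderEmbOfFin]
      exact h.1
    obtain ⟨c, hcl⟩ := h1
    have hca : c ≠ a := by
      rintro rfl
      exact h.2 hcl.symm
    refine Matrix.det_zero_of_column_eq hca.symm fun i => ?_
    rw [Matrix.updateCol_self, Matrix.updateCol_ne hca]
    show v l i = v (J.orderEmbOfFin hc c) i
    rw [hcl]
  · rw [if_neg h]
    set τ : ℤ → ℤ := Function.update id j l with hτ
    have hτj : τ j = l := by rw [hτ, Function.update_self]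
    have hτn : ∀ x, x ≠ j → τ x = x := fun x hx => by rw [hτ, Function.update_of_ne hx, id]
    have hinj : Set.InjOn τ J := by
      intro x hx y hy hxy
      by_cases hxj : x = j
      · by_cases hyj : y = j
        · rw [hxj, hyj]
        · exfalso
          rw [hxj, hτj, hτn y hyj] at hxy
          exact h ⟨by rw [hxy]; exact hy, by rw [hxy]; exact hyj⟩
      · by_cases hyj : y = j
        · exfalso
          rw [hyj, hτj, hτn x hxj] at hxy
          exact h ⟨by rw [← hxy]; exact hx, by rw [← hxy]; exact hxj⟩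
        · rw [hτn x hxj, hτn y hyj] at hxy
          exact hxy
    have hsub : J.image τ ⊆ G := by
      intro x hx
      obtain ⟨y, hy, rfl⟩ := Finset.mem_image.1 hx
      by_cases hyj : y = j
      · rw [hyj, hτj]
        exact hl
      · rw [hτn y hyj]
        exact hJ hy
    have hcard : (J.image τ).card = p := by rw [Finset.card_image_of_injOn hinj, hc]
    rw [hω _ hsub hcard]
    have e1 := Dt_sort_map τ v [] [] hinj
    rw [List.nil_append, List.append_nil, List.nil_append, List.append_nil] at e1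
    have e2 : (-1 : K) ^ invs τ J * Dt v (J.image τ).sort = Dt (fun x => v (τ x)) J.sort := e1.symm
    rw [e2, Dt_det (fun x => v (τ x)) hc]
    congr 1
    ext i c
    by_cases hca : c = a
    · subst hca
      rw [Matrix.updateCol_self]
      show v l i = v (τ (J.orderEmbOfFin hc c)) i
      rw [← hj, hτj]
    · rw [Matrix.updateCol_ne hca]
      show v (J.orderEmbOfFin hc c) i = v (τ (J.orderEmbOfFin hc c)) i
      rw [hτn]
      intro h5
      exact hca ((J.orderEmbOfFin hc).injective h5)

/-- XDC. For `ω J = det v_J` the matrix on the right is `adj (v_J) * v_L` (`Matrix.cramer_eq_adjugate_mulVec`,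
`Matrix.cramer_apply`: the entry `(a, b)` is the determinant of `v_J` with the column `j_a` replaced by `v (l_b)`, which is
`0` if `l_b ∈ J`, `l_b ≠ j_a`, and which is given by `Dt_sort_map` for `τ = update id j_a l_b` otherwise), and
`Matrix.det_adjugate`. -/
theorem crx_det {K : Type u} [Field K] {p : ℕ} {v : ℤ → Fin p → K} {G : Finset ℤ} {ω : Finset ℤ → K}
    (hω : ∀ J, J ⊆ G → J.card = p → ω J = Dt v J.sort) {J L : Finset ℤ} (hJ : J ⊆ G) (hL : L ⊆ G)
    (hc : J.card = p) (hc' : L.card = p) :
    ω L * ω J ^ (p - 1) = Matrix.det (fun a b : Fin p =>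
      crx ω J (J.orderEmbOfFin hc a) (L.orderEmbOfFin hc' b)) := by
  set M : Matrix (Fin p) (Fin p) K := fun i a => v (J.orderEmbOfFin hc a) i with hM
  set N : Matrix (Fin p) (Fin p) K := fun i b => v (L.orderEmbOfFin hc' b) i with hN
  have h1 : ω J = M.det := by rw [hω J hJ hc, Dt_det v hc]
  have h2 : ω L = N.det := by rw [hω L hL hc', Dt_det v hc']
  have h3 : (M.adjugate * N).det = ω L * ω J ^ (p - 1) := by
    rw [Matrix.det_mul, Matrix.det_adjugate, Fintype.card_fin, ← h1, ← h2, mul_comm]
  rw [← h3]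
  congr 1
  ext a b
  have h4 : (M.adjugate * N) a b = M.cramer (fun i => v (L.orderEmbOfFin hc' b) i) a := by
    rw [Matrix.cramer_eq_adjugate_mulVec]
    rfl
  rw [h4, Matrix.cramer_apply]
  exact xdc_entry hω hJ hc a (hL (L.orderEmbOfFin_mem hc' b))

/-- XDC. `Dec` in terms of equations. (From left to right: `crx_det`, `Dt_det`. From right to left: if the level is zero take `A = 0`
(`1 ≤ p`); if `ω J ≠ 0` take `A a l = crx ω J j_a l` with the first row divided by `ω J ^ (p - 1)`.) -/
theorem dec_iff {K : Type u} [Field K] {x : Maya → K} {n p : ℕ} (hp : 1 ≤ p) :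
    Dec x n p ↔ ∀ (J L : Finset ℤ) (_ : J ⊆ gr n p) (_ : L ⊆ gr n p) (hc : J.card = p) (hc' : L.card = p),
      lev x n p L * lev x n p J ^ (p - 1) = Matrix.det (fun a b : Fin p =>
        crx (lev x n p) J (J.orderEmbOfFin hc a) (L.orderEmbOfFin hc' b)) := by
  constructor
  · rintro ⟨A, hA⟩ J L hJ hL hc hc'
    refine crx_det (v := fun z i => A i z) (G := gr n p) (fun I hI hcI => ?_) hJ hL hc hc'
    rw [hA I hI hcI, Dt_det _ hcI]
  · intro h
    by_cases hz : ∀ (J : Finset ℤ), J ⊆ gr n p → J.card = p → lev x n p J = 0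
    · refine ⟨fun _ _ => 0, fun J hJ hc => ?_⟩
      rw [hz J hJ hc]
      have : Nonempty (Fin p) := ⟨⟨0, by omega⟩⟩
      exact Matrix.det_zero.symm
    · push Not at hz
      obtain ⟨J, hJ, hc, h0⟩ := hz
      set a0 : Fin p := ⟨0, by omega⟩ with ha0
      refine ⟨fun a l => (if a = a0 then (lev x n p J ^ (p - 1))⁻¹ else 1) *
        crx (lev x n p) J (J.orderEmbOfFin hc a) l, fun L hL hc' => ?_⟩
      have h1 := h J L hJ hL hc hc'
      have h2 := Matrix.det_mul_row (fun a : Fin p => if a = a0 then (lev x n p J ^ (p - 1))⁻¹ else 1)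
        (fun a b : Fin p => crx (lev x n p) J (J.orderEmbOfFin hc b) (L.orderEmbOfFin hc' a))
      have h3 := Matrix.det_mul_column
        (fun a : Fin p => if a = a0 then (lev x n p J ^ (p - 1))⁻¹ else 1)
        (fun a b : Fin p => crx (lev x n p) J (J.orderEmbOfFin hc a) (L.orderEmbOfFin hc' b))
      rw [← h1, Finset.prod_ite_eq' Finset.univ a0 (fun _ => (lev x n p J ^ (p - 1))⁻¹),
        if_pos (Finset.mem_univ _)] at h3
      have h4 : lev x n p J ^ (p - 1) ≠ 0 := pow_ne_zero _ h0
      have h5 : (lev x n p J ^ (p - 1))⁻¹ * (lev x n p L * lev x n p J ^ (p - 1)) = lev x n p L := by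
        field_simp
      rw [h5] at h3
      rw [← h3]
      rfl

/-- XDC. -/
theorem lev_map {R S : Type u} [CommRing R] [CommRing S] (φ : R →+* S) (x : Maya → R) (n p : ℕ) (J : Finset ℤ) :
    lev (fun I => φ (x I)) n p J = φ (lev x n p J) := by
  unfold lev
  split_ifs
  · rfl
  · rw [map_zero]

theorem xdc_crx_map {R S : Type u} [CommRing R] [CommRing S] (φ : R →+* S) (ω : Finset ℤ → R)
    (J : Finset ℤ) (j l : ℤ) : crx (fun I => φ (ω I)) J j l = φ (crx ω J j l) := by
  unfold crx
  split_ifs
  · rw [map_zero]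
  · rw [map_mul, map_pow, map_neg, map_one]

theorem xdc_eq_map {R S : Type u} [CommRing R] [CommRing S] (φ : R →+* S) (x : Maya → R) (n p : ℕ)
    {J L : Finset ℤ} (hc : J.card = p) (hc' : L.card = p) :
    lev (fun I => φ (x I)) n p L * lev (fun I => φ (x I)) n p J ^ (p - 1) -
      Matrix.det (fun a b : Fin p =>
        crx (lev (fun I => φ (x I)) n p) J (J.orderEmbOfFin hc a) (L.orderEmbOfFin hc' b)) =
    φ (lev x n p L * lev x n p J ^ (p - 1) - Matrix.det (fun a b : Fin p =>
        crx (lev x n p) J (J.orderEmbOfFin hc a) (L.orderEmbOfFin hc' b))) := by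
  rw [map_sub, map_mul, map_pow, RingHom.map_det, ← lev_map φ x n p L, ← lev_map φ x n p J]
  congr 2
  ext a b
  have h : lev (fun I => φ (x I)) n p = fun I => φ (lev x n p I) := by
    funext I
    exact lev_map φ x n p I
  rw [h, xdc_crx_map]
  rfl

/-- XDC. `Dec` does not depend on the field (`dec_iff`, `lev_map`, `RingHom.map_det`, injectivity). -/
theorem dec_map {K L : Type u} [Field K] [Field L] (φ : K →+* L) {x : Maya → K} {n p : ℕ} (hp : 1 ≤ p) :
    Dec (fun I => φ (x I)) n p ↔ Dec x n p := by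
  rw [dec_iff hp, dec_iff hp]
  refine forall_congr' fun J => forall_congr' fun M => forall_congr' fun hJ =>
    forall_congr' fun hM => forall_congr' fun hc => forall_congr' fun hc' => ?_
  rw [← sub_eq_zero, xdc_eq_map φ x n p hc hc', map_eq_zero, sub_eq_zero]

/-- XDC. `X` is closed: the equations of `dec_iff` for `x = MvPolynomial.X` (`evl_aeval`, `mem_iff`, `lev_map`,
`PrimeSpectrum.isClosed_zeroLocus`). -/
theorem ag_closed (k : Type u) [Field k] : IsClosed (AG k) := by
  have h : AG k = PrimeSpectrum.zeroLocus {f : Rg k | ∃ (n p : ℕ) (J L : Finset ℤ)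
      (hc : J.card = p) (hc' : L.card = p), 1 ≤ n ∧ 1 ≤ p ∧ J ⊆ gr n p ∧ L ⊆ gr n p ∧
      f = lev (MvPolynomial.X : Maya → Rg k) n p L *
        lev (MvPolynomial.X : Maya → Rg k) n p J ^ (p - 1) - Matrix.det (fun a b : Fin p =>
        crx (lev (MvPolynomial.X : Maya → Rg k) n p) J (J.orderEmbOfFin hc a)
          (L.orderEmbOfFin hc' b))} := by
    ext P
    have key : ∀ (n p : ℕ) (J L : Finset ℤ) (hc : J.card = p) (hc' : L.card = p),
        lev (MvPolynomial.X : Maya → Rg k) n p L *
        lev (MvPolynomial.X : Maya → Rg k) n p J ^ (p - 1) - Matrix.det (fun a b : Fin p =>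
        crx (lev (MvPolynomial.X : Maya → Rg k) n p) J (J.orderEmbOfFin hc a)
          (L.orderEmbOfFin hc' b)) ∈ P.asIdeal ↔
        lev (val P) n p L * lev (val P) n p J ^ (p - 1) = Matrix.det (fun a b : Fin p =>
        crx (lev (val P) n p) J (J.orderEmbOfFin hc a) (L.orderEmbOfFin hc' b)) := by
      intro n p J L hc hc'
      have e1 : (fun I => (aeval (val P) : Rg k →ₐ[k] Res P).toRingHom
          ((MvPolynomial.X : Maya → Rg k) I)) = val P := by
        funext I
        exact aeval_X (val P) I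
      have e2 := xdc_eq_map (aeval (val P) : Rg k →ₐ[k] Res P).toRingHom
        (MvPolynomial.X : Maya → Rg k) n p hc hc'
      rw [e1] at e2
      rw [mem_iff, ← sub_eq_zero (a := lev (val P) n p L * lev (val P) n p J ^ (p - 1)), e2]
      rfl
    rw [PrimeSpectrum.mem_zeroLocus]
    constructor
    · rintro hP f ⟨n, p, J, L, hc, hc', hn, hp, hJ, hL, rfl⟩
      exact (key n p J L hc hc').2 ((dec_iff hp).1 (hP n p hn hp) J L hJ hL hc hc')
    · intro hP n p hn hp
      rw [dec_iff hp]
      intro J L hJ hL hc hc'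
      exact (key n p J L hc hc').1 (hP ⟨n, p, J, L, hc, hc', hn, hp, hJ, hL, rfl⟩)
  rw [h]
  exact PrimeSpectrum.isClosed_zeroLocus _

end Pool.Agent.BWN
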