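import Pool.Agent.Lib_MP_001f0c_ag.MYA

/-!
# Piece XDM: decomposability of minors
-/

set_option autoImplicit false

open Finset

namespace Pool.Agent.BWN

universe u

theorem XDM_up_eq {n N p p' : ℕ} {J J' : Finset ℤ} (hJ : J ⊆ gr n p) (hc : J.card = p)
    (hJ' : J' ⊆ gr N p') (hc' : J'.card = p')
    (h : ((J : Finset ℤ) : Set ℤ) ∪ Set.Ioi (p : ℤ) = (J' : Set ℤ) ∪ Set.Ioi (p' : ℤ)) :
    up J hJ hc = up J' hJ' hc' := Subtype.ext h

theorem XDM_lev_eq {K : Type u} [Zero K] (x : Maya → K) {n N p p' : ℕ} {J J' : Finset ℤ}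
    (hJ : J ⊆ gr n p) (hc : J.card = p) (hJ' : J' ⊆ gr N p') (hc' : J'.card = p')
    (h : ((J : Finset ℤ) : Set ℤ) ∪ Set.Ioi (p : ℤ) = (J' : Set ℤ) ∪ Set.Ioi (p' : ℤ)) :
    lev x n p J = lev x N p' J' := by
  unfold lev
  rw [dif_pos ⟨hJ, hc⟩, dif_pos ⟨hJ', hc'⟩, XDM_up_eq hJ hc hJ' hc' h]

/-- XDM. Deletion: the same linear forms. (`up J` does not depend on `n`.) -/
theorem dec_del {K : Type u} [Field K] {x : Maya → K} {n N p : ℕ} (hn : n ≤ N) (h : Dec x N p) : Dec x n p := by
  obtain ⟨A, hA⟩ := h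
  refine ⟨A, fun J hJ hc => ?_⟩
  have hJ' : J ⊆ gr N p := by
    intro i hi
    have h1 := hJ hi
    rw [mem_gr] at h1 ⊢
    omega
  rw [← hA J hJ' hc]
  exact XDM_lev_eq x hJ hc hJ' hc rfl

theorem XDM_order {p : ℕ} {J : Finset ℤ} (hc : J.card = p) {z : ℤ} (hz : ∀ i ∈ J, i < z)
    (hc' : (insert z J).card = p + 1) :
    (insert z J).orderEmbOfFin hc' (Fin.last p) = z ∧
      ∀ j : Fin p, (insert z J).orderEmbOfFin hc' j.castSucc = J.orderEmbOfFin hc j := by
  have h1 : (Fin.snoc (fun j : Fin p => J.orderEmbOfFin hc j) z : Fin (p + 1) → ℤ) =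
      (insert z J).orderEmbOfFin hc' := by
    refine Finset.orderEmbOfFin_unique hc' (fun i => ?_) (fun i j hij => ?_)
    · refine Fin.lastCases ?_ (fun i => ?_) i
      · rw [Fin.snoc_last]
        exact Finset.mem_insert_self _ _
      · rw [Fin.snoc_castSucc]
        exact Finset.mem_insert_of_mem (Finset.orderEmbOfFin_mem _ _ _)
    · rcases Fin.eq_castSucc_or_eq_last j with ⟨j', rfl⟩ | rfl
      · rcases Fin.eq_castSucc_or_eq_last i with ⟨i', rfl⟩ | rfl
        · rw [Fin.snoc_castSucc, Fin.snoc_castSucc]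
          exact (J.orderEmbOfFin hc).strictMono (Fin.castSucc_lt_castSucc_iff.1 hij)
        · exact absurd hij (not_lt.2 (Fin.le_last _))
      · rcases Fin.eq_castSucc_or_eq_last i with ⟨i', rfl⟩ | rfl
        · rw [Fin.snoc_castSucc, Fin.snoc_last]
          exact hz _ (Finset.orderEmbOfFin_mem _ _ _)
        · exact absurd hij (lt_irrefl _)
  constructor
  · rw [← h1, Fin.snoc_last]
  · intro j
    rw [← h1, Fin.snoc_castSucc]

/-- the determinant of a matrix after elimination in the last column -/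
theorem XDM_det {K : Type u} [Field K] {p : ℕ} (M : Matrix (Fin (p + 1)) (Fin (p + 1)) K)
    (i₀ : Fin (p + 1)) (h0 : M i₀ (Fin.last p) ≠ 0) :
    M.det = ((-1) ^ ((i₀ : ℕ) + p) * M i₀ (Fin.last p)) * Matrix.det (fun i j : Fin p =>
      M (i₀.succAbove i) j.castSucc -
        (M (i₀.succAbove i) (Fin.last p) / M i₀ (Fin.last p)) * M i₀ j.castSucc) := by
  classical
  obtain ⟨c, hc⟩ : ∃ c : Fin (p + 1) → K, c = fun i => if i = i₀ then 0 else
    M i (Fin.last p) / M i₀ (Fin.last p) := ⟨_, rfl⟩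
  obtain ⟨B, hB⟩ : ∃ B : Matrix (Fin (p + 1)) (Fin (p + 1)) K, B = fun i j =>
    M i j - c i * M i₀ j := ⟨_, rfl⟩
  have hci : c i₀ = 0 := by rw [hc]; simp
  have h1 : M.det = B.det := by
    refine Matrix.det_eq_of_forall_row_eq_smul_add_const c i₀ hci (fun i j => ?_)
    rw [hB]
    simp only [hci]
    ring
  have hBlast : ∀ i, i ≠ i₀ → B i (Fin.last p) = 0 := by
    intro i hi
    rw [hB]
    simp only [hc, if_neg hi]
    field_simp
    ring
  have hBi : ∀ j, B i₀ j = M i₀ j := by
    intro j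
    rw [hB]
    simp only [hci]
    ring
  rw [h1, Matrix.det_succ_column B (Fin.last p), Finset.sum_eq_single i₀]
  · rw [hBi]
    congr 1
    congr 1
    funext i j
    rw [Matrix.submatrix_apply, Fin.succAbove_last, hB]
    simp only [hc, if_neg (Fin.succAbove_ne i₀ i)]
  · intro i _ hi
    rw [hBlast i hi, mul_zero, zero_mul]
  · intro h
    exact absurd (Finset.mem_univ _) h

/-- XDM. Contraction of the last element `z = p + 1`: `lev x n p J = lev x n (p + 1) (J ∪ {z})`. Let `u l = (A i l)_i` be the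
columns. If `u z = 0` the level `(n, p)` is zero (take `A = 0`, as `1 ≤ p`). Otherwise let `u z i₀ ≠ 0`; subtract multiples of the row
`i₀` from the other rows (`Matrix.det_eq_of_forall_row_eq_smul_add_const`), and expand along the last column
(`Matrix.det_succ_column`): up to the sign and `u z i₀`, which are put into the first row, the determinant is that of the other rows
(the indices `i₀.succAbove`) on the columns `J`. -/
theorem dec_con {K : Type u} [Field K] {x : Maya → K} {n p : ℕ} (hp : 1 ≤ p) (h : Dec x n (p + 1)) : Dec x n p := by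
  classical
  obtain ⟨A, hA⟩ := h
  have hred : ∀ (J : Finset ℤ) (_ : J ⊆ gr n p) (hc : J.card = p),
      lev x n p J = Matrix.det (Matrix.transpose (Fin.snoc (α := fun _ => Fin (p + 1) → K)
        (fun j : Fin p => fun i => A i (J.orderEmbOfFin hc j))
        (fun i => A i ((p : ℤ) + 1)) : Matrix (Fin (p + 1)) (Fin (p + 1)) K)) := by
    intro J hJ hc
    have hz : ∀ i ∈ J, i < (p : ℤ) + 1 := by
      intro i hi
      have := mem_gr.1 (hJ hi)
      omega
    have hzJ : ((p : ℤ) + 1) ∉ J := fun h => lt_irrefl _ (hz _ h)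
    have hc' : (insert ((p : ℤ) + 1) J).card = p + 1 := by
      rw [Finset.card_insert_of_notMem hzJ, hc]
    have hJ' : insert ((p : ℤ) + 1) J ⊆ gr n (p + 1) := by
      intro i hi
      rw [mem_gr]
      rcases Finset.mem_insert.1 hi with rfl | hi
      · push_cast
        omega
      · have := mem_gr.1 (hJ hi)
        push_cast
        omega
    have h1 : lev x n p J = lev x n (p + 1) (insert ((p : ℤ) + 1) J) := by
      refine XDM_lev_eq x hJ hc hJ' hc' ?_
      ext i
      rw [Finset.coe_insert]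
      simp only [Set.mem_union, Set.mem_insert_iff, Finset.mem_coe, Set.mem_Ioi]
      push_cast
      constructor
      · rintro (h | h)
        · exact Or.inl (Or.inr h)
        · rcases eq_or_lt_of_le (Int.add_one_le_iff.2 h) with h2 | h2
          · exact Or.inl (Or.inl h2.symm)
          · exact Or.inr h2
      · rintro ((h | h) | h)
        · right
          omega
        · exact Or.inl h
        · right
          omega
    rw [h1, hA _ hJ' hc']
    obtain ⟨h2, h3⟩ := XDM_order hc hz hc'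
    congr 1
    funext i j
    rw [Matrix.transpose_apply]
    rcases Fin.eq_castSucc_or_eq_last j with ⟨j', rfl⟩ | rfl
    · rw [h3, Fin.snoc_castSucc]
    · rw [h2, Fin.snoc_last]
  by_cases hu : ∀ i, A i ((p : ℤ) + 1) = 0
  · refine ⟨fun _ _ => 0, fun J hJ hc => ?_⟩
    rw [hred J hJ hc]
    have : Nonempty (Fin p) := ⟨⟨0, hp⟩⟩
    rw [Matrix.det_eq_zero_of_column_eq_zero (Fin.last p)]
    · exact Matrix.det_zero.symm
    · intro i
      rw [Matrix.transpose_apply, Fin.snoc_last]
      exact hu i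
  · push Not at hu
    obtain ⟨i₀, hi₀⟩ := hu
    refine ⟨fun i l => (if i = ⟨0, hp⟩ then ((-1) ^ ((i₀ : ℕ) + p) * A i₀ ((p : ℤ) + 1)) else 1) *
      (A (i₀.succAbove i) l -
        (A (i₀.succAbove i) ((p : ℤ) + 1) / A i₀ ((p : ℤ) + 1)) * A i₀ l), fun J hJ hc => ?_⟩
    rw [hred J hJ hc, XDM_det _ i₀ (by
      rw [Matrix.transpose_apply, Fin.snoc_last]
      exact hi₀)]
    have h4 := Matrix.det_mul_column (fun i : Fin p => (if i = (⟨0, hp⟩ : Fin p) then
      ((-1) ^ ((i₀ : ℕ) + p) * A i₀ ((p : ℤ) + 1)) else 1))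
      (fun i j : Fin p => (A (i₀.succAbove i) (J.orderEmbOfFin hc j) -
        (A (i₀.succAbove i) ((p : ℤ) + 1) / A i₀ ((p : ℤ) + 1)) *
          A i₀ (J.orderEmbOfFin hc j)))
    rw [Finset.prod_ite_eq' Finset.univ (⟨0, hp⟩ : Fin p), if_pos (Finset.mem_univ _)] at h4
    refine Eq.trans ?_ h4.symm
    simp only [Matrix.transpose_apply, Fin.snoc_last, Fin.snoc_castSucc]

/-- XDM. -/
theorem dec_minor {K : Type u} [Field K] {x : Maya → K} {n p N : ℕ} (hn : n ≤ N) (hp1 : 1 ≤ p) (hp : p ≤ N)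
    (h : Dec x N N) : Dec x n p := by
  have key : ∀ d : ℕ, Dec x N (p + d) → Dec x N p := by
    intro d
    induction d with
    | zero => exact fun h => h
    | succ d ih => exact fun h => ih (dec_con (by omega) h)
  refine dec_del hn (key (N - p) ?_)
  rwa [Nat.add_sub_cancel' hp]

end Pool.Agent.BWN
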