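import Pool.Agent.Lib_MP_001f0c_ag.XDC
import Pool.Agent.Lib_MP_001f0c_ag.XDM
import Pool.Agent.Lib_MP_001f0c_ag.REA

/-!
# Piece XST: the affine infinite Grassmannian is stable
-/

set_option autoImplicit false

open Finset MvPolynomial

namespace Pool.Agent.BWN

universe u

/-- XST. For a finite `τ` there is an `N` with `τ x = x` outside of `gr N N` (and then `τ` maps `gr N N` to itself). -/
theorem fin_level {τ : Equiv.Perm ℤ} (hτ : IsFin τ) (N₀ : ℕ) :
    ∃ N, N₀ ≤ N ∧ (∀ x, x ∈ gr N N ↔ τ x ∈ gr N N) ∧ ∀ x, x ∉ gr N N → τ x = x := by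
  obtain ⟨hτ0, hfin⟩ := hτ
  obtain ⟨N, hN, hN2⟩ : ∃ N : ℕ, N₀ ≤ N ∧ ∀ i : ℤ, τ i ≠ i → -(N : ℤ) ≤ i ∧ i ≤ N := by
    refine ⟨N₀ + ∑ i ∈ hfin.toFinset, i.natAbs, Nat.le_add_right _ _, fun i hi => ?_⟩
    have h4 : i.natAbs ≤ ∑ i ∈ hfin.toFinset, i.natAbs :=
      Finset.single_le_sum (f := fun i : ℤ => i.natAbs) (fun _ _ => Nat.zero_le _)
        (hfin.mem_toFinset.2 hi)
    omega
  refine ⟨N, hN, fun x => ?_, fun x hx => ?_⟩
  · by_cases h : τ x = x
    · rw [h]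
    · have h5 := hN2 x h
      have h6 : τ (τ x) ≠ τ x := fun h7 => h (τ.injective h7)
      have h8 := hN2 _ h6
      have h9 : x ≠ 0 := by
        rintro rfl
        exact h hτ0
      have h10 : τ x ≠ 0 := by
        intro h11
        rw [← hτ0] at h11
        exact h9 (τ.injective h11)
      rw [mem_gr, mem_gr]
      exact ⟨fun _ => ⟨h10, h8⟩, fun _ => ⟨h9, h5⟩⟩
  · by_contra h
    apply hx
    rw [mem_gr]
    refine ⟨?_, hN2 x h⟩
    rintro rfl
    exact h hτ0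

theorem XST_fi_up {N : ℕ} {J : Finset ℤ} (hJ : J ⊆ gr N N) (hc : J.card = N) :
    Lvl N (up J hJ hc) ∧ fi N (up J hJ hc) = J := by
  have hmem : ∀ i, i ∈ (up J hJ hc).1 ↔ i ∈ J ∨ (N : ℤ) < i := fun i => Iff.rfl
  have hb : ∀ i ∈ J, -(N : ℤ) ≤ i ∧ i ≤ N := fun i hi => (mem_gr.1 (hJ hi)).2
  refine ⟨⟨fun i hi => (hmem i).2 (Or.inr hi), fun i hi h => ?_⟩, ?_⟩
  · rcases (hmem i).1 h with h1 | h1
    · have := hb i h1
      omega
    · omega
  · ext i
    rw [MYA_mem_fi, hmem]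
    constructor
    · rintro ⟨h1 | h1, h2, h3⟩
      · exact h1
      · omega
    · intro h1
      exact ⟨Or.inl h1, hb i h1⟩

/-- XST. Let `N` be as in `fin_level` (`n, p ≤ N`). The level `(N, N)` of the new point is given by the columns `v ∘ τ` if the level
`(N, N)` of `x` is given by the columns `v` (`Dt_det`, `im_sgn` with `m = M = N`, `σ = τ`, `lev_fi`, `up_fi`, `Dt_sort_map`). Then
`dec_minor`. -/
theorem dec_im {K : Type u} [Field K] {x : Maya → K} (h : ∀ n p : ℕ, 1 ≤ n → 1 ≤ p → Dec x n p)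
    (τ : Equiv.Perm ℤ) (hτ : IsFin τ) {n p : ℕ} (hn : 1 ≤ n) (hp : 1 ≤ p) :
    Dec (fun I => ((sgn τ I : ℤ) : K) * x (Maya.im τ hτ I)) n p := by
  obtain ⟨N, hN, h1, h2⟩ := fin_level hτ (max n p)
  have hnN : n ≤ N := (le_max_left n p).trans hN
  have hpN : p ≤ N := (le_max_right n p).trans hN
  refine dec_minor hnN hp hpN ?_
  obtain ⟨A, hA⟩ := h N N (hn.trans hnN) (hn.trans hnN)
  refine ⟨fun i l => A i (τ l), fun J hJ hc => ?_⟩
  set v : ℤ → Fin N → K := fun l i => A i l with hv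
  obtain ⟨hL, hfi⟩ := XST_fi_up hJ hc
  obtain ⟨h3, h4, h5⟩ := im_sgn (le_refl N) hτ (fun _ _ => rfl) h1 h2 hL
  rw [hfi] at h4 h5
  have hinj : Set.InjOn τ J := τ.injective.injOn
  have hJi : J.image τ ⊆ gr N N := by
    rw [← h4]; exact fi_sub _ _
  have hci : (J.image τ).card = N := by
    rw [← h4]; exact card_fi h3
  -- right hand side
  have e1 : Matrix.det (fun i j : Fin N => A i (τ (J.orderEmbOfFin hc j))) =
      Dt (fun l => v (τ l)) J.sort := (Dt_det (fun l => v (τ l)) hc).symm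
  have e2 : Dt (fun l => v (τ l)) J.sort = (-1) ^ invs τ J * Dt v (J.image τ).sort := by
    have h6 := Dt_sort_map (K := K) (p := N) τ v [] [] hinj
    simpa [Dt] using h6
  have e3 : Dt v (J.image τ).sort = lev x N N (J.image τ) := by
    rw [hA _ hJi hci, Dt_det v hci]
  have e4 : lev x N N (J.image τ) = x (Maya.im τ hτ (up J hJ hc)) := by
    rw [← h4, lev_fi x h3]
  have e5 : lev (fun I => ((sgn τ I : ℤ) : K) * x (Maya.im τ hτ I)) N N J =
      ((sgn τ (up J hJ hc) : ℤ) : K) * x (Maya.im τ hτ (up J hJ hc)) := by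
    unfold lev
    rw [dif_pos ⟨hJ, hc⟩]
  rw [e5, e1, e2, e3, e4, h5]
  push_cast
  rfl

/-- XST. The residue field of `act τ P` is contained in the residue field of `P` (`IsFractionRing.map`, `IsFractionRing.lift`, or
`IsLocalization.map`, for the injective map `Rg k ⧸ (act τ hτ P).asIdeal → Rg k ⧸ P.asIdeal` induced by `actR τ hτ`:
`Ideal.quotientMap`, `Ideal.quotientMap_injective`). -/
theorem act_val {k : Type u} [Field k] (P : PrimeSpectrum (Rg k)) (τ : Equiv.Perm ℤ) (hτ : IsFin τ) :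
    ∃ ι : Res (act τ hτ P) →+* Res P,
      ∀ I, ι (val (act τ hτ P) I) = ((sgn τ I : ℤ) : Res P) * val P (Maya.im τ hτ I) := by
  have hle : (act τ hτ P).asIdeal ≤ Ideal.comap (actR τ hτ) P.asIdeal := le_refl _
  let φ : (Rg k ⧸ (act τ hτ P).asIdeal) →+* (Rg k ⧸ P.asIdeal) :=
    Ideal.quotientMap P.asIdeal (actR τ hτ) hle
  have hφ : Function.Injective φ := Ideal.quotientMap_injective
  refine ⟨IsFractionRing.map (A := Rg k ⧸ (act τ hτ P).asIdeal) (B := Rg k ⧸ P.asIdeal)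
    (K := Res (act τ hτ P)) (L := Res P) hφ, fun I => ?_⟩
  unfold val toRes
  have h1 := IsLocalization.map_eq (M := nonZeroDivisors (Rg k ⧸ (act τ hτ P).asIdeal))
    (T := nonZeroDivisors (Rg k ⧸ P.asIdeal)) (S := Res (act τ hτ P)) (Q := Res P)
    (nonZeroDivisors_le_comap_nonZeroDivisors_of_injective φ hφ)
    (Ideal.Quotient.mk (act τ hτ P).asIdeal (MvPolynomial.X I))
  refine h1.trans ?_
  have h2 : φ (Ideal.Quotient.mk (act τ hτ P).asIdeal (MvPolynomial.X I)) =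
      Ideal.Quotient.mk P.asIdeal (actR τ hτ (MvPolynomial.X I)) := Ideal.quotientMap_mk
  have h3 : actR τ hτ (MvPolynomial.X I : Rg k) =
      ((sgn τ I : ℤ) : Rg k) * MvPolynomial.X (Maya.im τ hτ I) := by
    unfold actR
    exact aeval_X _ _
  rw [h2, h3, map_mul, map_mul, map_intCast, map_intCast]

/-- XST. (`act_val`, `dec_map`, `dec_im`.) -/
theorem ag_stable (k : Type u) [Field k] : Stable (AG k) := by
  intro τ hτ P hP n p hn hp
  obtain ⟨ι, hι⟩ := act_val P τ hτ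
  rw [← dec_map ι hp]
  have h1 : (fun I => ι (val (act τ hτ P) I)) =
      fun I => ((sgn τ I : ℤ) : Res P) * val P (Maya.im τ hτ I) := funext hι
  rw [h1]
  exact dec_im hP τ hτ hn hp

end Pool.Agent.BWN
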